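import Pool.Agent.Work.MP_6d7a54_an.NM.StmtsB

/-!
# The algebraic theorem (MP_6d7a54_an, block NM, item Alg)
-/

set_option autoImplicit false

namespace Pool.Agent.Work.MP_6d7a54_an.NM

open MvPolynomial Metric
open Pool.Agent.Work.MP_6d7a54_an.NF (IsNev)

noncomputable section

theorem Alg_pf (h1 : B_Min) (h2 : B_Num) (h3 : B_Key) : B_Alg := by
  classical
  intro F L _ _ _ D S Sm hnev N K h w q m mu' J hh hw hq hJ hmu hnum hsum hpart
  by_contra hcon
  push Not at hcon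
  obtain ⟨i0, hi0⟩ := hcon
  set I1 : Finset (Fin (N + 1)) := Finset.univ.filter fun i => h i ∉ Sm with hI1
  have hmem : ∀ i, i ∈ I1 ↔ h i ∉ Sm := fun i => by simp [hI1]
  have hne : I1.Nonempty := ⟨i0, (hmem i0).2 hi0⟩
  set kap : L := ∑ i ∈ I1, h i with hkap
  have hkap0 : kap ≠ 0 := hpart I1 hne
  have hS : ∀ i, h i ∈ S := by
    intro i
    rw [hh]
    exact S.mul_mem (hw i).1 (S.prod_mem fun k _ => S.pow_mem (hq i k) _)
  have h0 : ∀ i, h i ≠ 0 := by
    intro i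
    have := hpart {i} (Finset.singleton_nonempty i)
    rwa [Finset.sum_singleton] at this
  have hkS : kap ∈ S := S.sum_mem fun i _ => hS i
  have hkm : kap ∈ Sm := by
    have e : kap = 1 - ∑ i ∈ I1ᶜ, h i := by
      rw [hkap, ← hsum, ← Finset.sum_add_sum_compl I1 h]
      ring
    rw [e]
    refine Sm.sub_mem Sm.one_mem (Sm.sum_mem fun i hi => ?_)
    rw [Finset.mem_compl, hmem] at hi
    exact not_not.1 hi
  obtain ⟨hkiS, hkim⟩ := hnev.inv kap hkS hkm
  set M : ℕ := I1.card with hM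
  set e1 : Fin M → Fin (N + 1) := fun i => I1.orderEmbOfFin rfl i with he1
  have he1I : ∀ i, e1 i ∈ I1 := fun i => Finset.orderEmbOfFin_mem I1 rfl i
  have he1inj : Function.Injective e1 := (I1.orderEmbOfFin rfl).injective
  have hf1 : ∑ i, h (e1 i) * kap⁻¹ = 1 := by
    rw [← Finset.sum_mul]
    have e : ∑ i, h (e1 i) = kap := by
      rw [hkap]
      have himg : Finset.univ.map (I1.orderEmbOfFin rfl).toEmbedding = I1 :=
        Finset.map_orderEmbOfFin_univ I1 rfl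
      conv_rhs => rw [← himg]
      rw [Finset.sum_map]
      rfl
    rw [e]
    exact mul_inv_cancel₀ hkap0
  obtain ⟨p, e, mu, heinj, hmuc, hmusum, hWd⟩ := h1 F L D M (fun i => h (e1 i) * kap⁻¹) hf1
  set e2 : Fin (p + 1) → Fin (N + 1) := fun j => e1 (e j) with he2
  have he2inj : Function.Injective e2 := he1inj.comp heinj
  have hpN : p ≤ N := by
    have := Fintype.card_le_of_injective e2 he2inj
    simp only [Fintype.card_fin] at this
    omega
  set A : Finset (Fin (p + 1)) := Finset.univ.filter fun j => e2 j ∉ J with hA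
  have hAm : ∀ j, j ∈ A ↔ e2 j ∉ J := fun j => by simp [hA]
  have hsumA : ∑ j ∈ A, 1 / (mu' (e2 j) : ℝ) ≤ ∑ i ∈ Jᶜ, 1 / (mu' i : ℝ) := by
    have e3 : ∑ j ∈ A, 1 / (mu' (e2 j) : ℝ) = ∑ i ∈ A.map ⟨e2, he2inj⟩, 1 / (mu' i : ℝ) := by
      rw [Finset.sum_map]
      rfl
    rw [e3]
    refine Finset.sum_le_sum_of_subset_of_nonneg ?_ ?_
    · intro i hi
      rw [Finset.mem_map] at hi
      obtain ⟨j, hj, rfl⟩ := hi
      rw [Finset.mem_compl]
      exact (hAm j).1 hj
    · intro i _ _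
      positivity
  have hN : (N : ℝ) * ∑ j ∈ A, 1 / (mu' (e2 j) : ℝ) < 1 :=
    lt_of_le_of_lt (mul_le_mul_of_nonneg_left hsumA (Nat.cast_nonneg N)) hnum
  obtain ⟨hp, Om, om, hom1, hom2⟩ := h2 p N (fun j => mu' (e2 j)) A hpN
    (fun j hj => (hmu _ ((hAm j).1 hj)).1) hN
  have hfin := h3 F L D S Sm hnev K p (fun j => h (e2 j) * kap⁻¹) (fun j => w (e2 j) * kap⁻¹) mu
    (fun j k => q (e2 j) k) (fun j k => m (e2 j) k) (fun j => mu' (e2 j)) A
    (fun j => mul_ne_zero (h0 _) (inv_ne_zero hkap0))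
    (fun j => by rw [hh (e2 j)]; ring)
    (fun j => ⟨S.mul_mem (hw _).1 hkiS, by
      rw [mul_inv, inv_inv]
      exact S.mul_mem (hw _).2 hkS⟩)
    (fun j k => hq _ _)
    (fun j hj k => by
      rw [hAm, not_not] at hj
      exact hJ _ hj k)
    (fun j hj k => (hmu _ ((hAm j).1 hj)).2 k) hp hmuc hmusum hWd Om om hom1 hom2 0
  have hcon2 : h (e2 0) ∈ Sm := by
    have h4 := Sm.mul_mem hfin hkm
    rwa [mul_assoc, inv_mul_cancel₀ hkap0, mul_one] at h4
  exact (hmem _).1 (he1I _) hcon2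

end

end Pool.Agent.Work.MP_6d7a54_an.NM
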