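import Pool.Agent.Work.MP_6d7a54_an.NF.Defs

/-!
# Nevanlinna fields for discs of arbitrary growth: definitions (MP_6d7a54_an, block NM)

In block NF the growth of the functions `g l` was measured by zero free functions `exp (u i)`. Here
there are no zero free functions: the growth is measured by `gm g = ∑ log⁺ ‖g l‖`. The notions of
differential polynomials `DP`, of their evaluation `ev`, of the derivation `dd`, of the ultrafilter
`UF` and of Nevanlinna fields `IsNev` are those of block NF.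
-/

namespace Pool.Agent.Work.MP_6d7a54_an.NM

open Filter Metric Set Topology
open Pool.Agent.Work.MP_6d7a54_an.NF (IsNev DP ev dd UF)

noncomputable section

/-- growth function of a family -/
def gm {I : Type} [Fintype I] (g : I → ℂ → ℂ) (z : ℂ) : ℝ := ∑ l, Real.posLog ‖g l z‖

/-- maximum of the growth function on the disc of radius `rho` -/
def Gx {I : Type} [Fintype I] (g : I → ℂ → ℂ) (rho : ℝ) : ℝ := sSup (gm g '' closedBall 0 rho)

/-- the characteristic: mean of the growth function on the circle -/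
def TT {I : Type} [Fintype I] (g : I → ℂ → ℂ) (c : ℂ) (r : ℝ) : ℝ :=
  Real.circleAverage (gm g) c r

/-- families of holomorphic functions on the unit disc -/
def Hol {I : Type} (g : I → ℂ → ℂ) : Prop := ∀ l, DifferentiableOn ℂ (g l) (ball 0 1)

/-- a sequence of families, with fixed values at `0`, whose growth is unbounded at every fixed
scale -/
structure BadSeq {I : Type} [Fintype I] (c0 : I → ℂ) (g : ℕ → I → ℂ → ℂ) : Prop where
  hol : ∀ n, Hol (g n)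
  h0 : ∀ n l, g n l 0 = c0 l
  big : ∀ rho : ℝ, 0 < rho → rho < 1 → ∀ A : ℝ, ∀ᶠ n in atTop, A ≤ Gx (g n) rho

/-- selected scales: outer radius `a n`, inner radius `b n` -/
structure Conf (F : Type) [Field F] [Algebra F ℂ] {I : Type} [Fintype I]
    (g : ℕ → I → ℂ → ℂ) (a b : ℕ → ℝ) : Prop where
  hol : ∀ n, Hol (g n)
  hb : ∀ n, 0 < b n
  hab : ∀ n : ℕ, b n * ((n : ℝ) + 1) ^ 3 ≤ a n
  ha : ∀ n, a n ≤ 1 / 2
  big : ∀ n : ℕ, (n : ℝ) * (1 + Real.log (1 / b n)) ≤ Gx (g n) (b n)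
  dec : ∀ K : ℝ, 1 ≤ K → ∀ᶠ n : ℕ in atTop,
    (n : ℝ) ^ 2 * Gx (g n) (K * b n) ≤ Gx (g n) (a n / K)
  dich : ∀ P : DP F I, ∀ᶠ n in atTop,
    (∀ z : ℂ, ‖z‖ ≤ a n → ‖ev (g n) z P‖ ≤ Real.exp (-(n * Gx (g n) (a n)))) ∨
    (∃ z : ℂ, ‖z‖ ≤ b n ∧ Real.exp (-(n * Gx (g n) (b n))) < ‖ev (g n) z P‖)

/-- tiny differential polynomials -/
def Tiny {F : Type} [Field F] [Algebra F ℂ] {I : Type} [Fintype I] (g : ℕ → I → ℂ → ℂ)
    (a : ℕ → ℝ) (P : DP F I) : Prop :=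
  ∀ᶠ n in UF, ∀ z : ℂ, ‖z‖ ≤ a n → ‖ev (g n) z P‖ ≤ Real.exp (-(n * Gx (g n) (a n)))

/-- centres `c n` at which no non tiny element is small -/
structure Cen (F : Type) [Field F] [Algebra F ℂ] {I : Type} [Fintype I] (g : ℕ → I → ℂ → ℂ)
    (a b : ℕ → ℝ) (c : ℕ → ℂ) : Prop where
  hc : ∀ n, ‖c n‖ ≤ b n
  lower : ∀ P : DP F I, ¬ Tiny g a P → ∀ del : ℝ, 0 < del → ∀ᶠ n in UF,
    Real.exp (-(del * Gx (g n) (a n / 16))) ≤ ‖ev (g n) (c n) P‖
  upper : ∀ P : DP F I, ∀ del : ℝ, 0 < del → ∀ᶠ n in UF,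
    ‖ev (g n) (c n) P‖ ≤ Real.exp (del * Gx (g n) (a n / 16))

/-- radii `r n` such that the circles are good for all non tiny elements -/
structure Rad (F : Type) [Field F] [Algebra F ℂ] {I : Type} [Fintype I] (g : ℕ → I → ℂ → ℂ)
    (a : ℕ → ℝ) (c : ℕ → ℂ) (r : ℕ → ℝ) : Prop where
  h1 : ∀ n, a n / 4 ≤ r n
  h2 : ∀ n, r n ≤ a n / 2
  lower : ∀ P : DP F I, ¬ Tiny g a P → ∀ del : ℝ, 0 < del → ∀ᶠ n in UF,
    ∀ z ∈ sphere (c n) (r n), Real.exp (-(del * (n * Gx (g n) (a n)))) ≤ ‖ev (g n) z P‖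
  ld : ∀ P : DP F I, ¬ Tiny g a P → ∀ del : ℝ, 0 < del → ∀ᶠ n in UF,
    Real.circleAverage (fun z => Real.posLog (‖ev (g n) z (dd P)‖ / ‖ev (g n) z P‖)) (c n) (r n)
      ≤ del * TT (g n) (c n) (r n)
  tt : ∃ kap : ℝ, 0 < kap ∧ ∀ᶠ n in UF, kap * Gx (g n) (a n / 16) ≤ TT (g n) (c n) (r n)

/-- `P / Q` is small -/
def sm {F : Type} [Field F] [Algebra F ℂ] {I : Type} [Fintype I] (g : ℕ → I → ℂ → ℂ)
    (c : ℕ → ℂ) (r : ℕ → ℝ) (P Q : DP F I) : Prop :=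
  ∀ del : ℝ, 0 < del → ∀ᶠ n in UF,
    Real.circleAverage (fun z => Real.posLog (‖ev (g n) z P‖ / ‖ev (g n) z Q‖)) (c n) (r n)
      ≤ del * TT (g n) (c n) (r n)

/-- the mean of `log |P / Q|` is not very negative -/
def lo {F : Type} [Field F] [Algebra F ℂ] {I : Type} [Fintype I] (g : ℕ → I → ℂ → ℂ)
    (c : ℕ → ℂ) (r : ℕ → ℝ) (P Q : DP F I) : Prop :=
  ∀ del : ℝ, 0 < del → ∀ᶠ n in UF, -(del * TT (g n) (c n) (r n)) ≤
    Real.circleAverage (fun z => Real.log ‖ev (g n) z P‖ - Real.log ‖ev (g n) z Q‖) (c n) (r n)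

/-- THE ANALYTIC THEOREM -/
def S_Nev : Prop := ∀ (F : Type) [Field F] [Algebra F ℂ] [Countable F] (I : Type) [Fintype I]
  (c0 : I → ℂ) (g : ℕ → I → ℂ → ℂ), BadSeq c0 g →
  ∃ (L : Type) (_ : Field L) (_ : Algebra F L) (D : Derivation F L L) (S Sm : Subalgebra F L)
    (phi : I → L), IsNev D S Sm ∧ (∀ l, phi l ∈ S) ∧
    (∀ P : MvPolynomial I F, (∀ n, ∀ z ∈ ball (0 : ℂ) 1,
      MvPolynomial.aeval (fun l => g n l z) P = 0) → MvPolynomial.aeval phi P = 0) ∧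
    (∀ P : MvPolynomial I F, (∃ c : ℂ, c ≠ 0 ∧ ∀ n,
      MvPolynomial.aeval (fun l => g n l 0) P = c) → MvPolynomial.aeval phi P ≠ 0) ∧
    (∀ (k : ℕ) (P : Fin k → MvPolynomial I F) (R : MvPolynomial I F) (C : ℝ),
      (∀ n, ∀ z ∈ ball (0 : ℂ) 1, Real.posLog ‖MvPolynomial.aeval (fun l => g n l z) R‖ ≤
        C * (1 + ∑ i, Real.posLog ‖MvPolynomial.aeval (fun l => g n l z) (P i)‖)) →
      (∀ i, MvPolynomial.aeval phi (P i) ∈ Sm) → MvPolynomial.aeval phi R ∈ Sm) ∧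
    ¬ ∀ l, phi l ∈ Sm

end

end Pool.Agent.Work.MP_6d7a54_an.NM
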