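import Pool.Agent.Work.MP_6d7a54_an.NF.Stmts
import Pool.Agent.Work.MP_6d7a54_an.NM.Defs

/-!
# Nevanlinna fields for discs of arbitrary growth: statements of the analytic items (block NM)

MODEL: every item marked PORT is a literal adaptation of the file `NF/I_xxx.lean` of the same
name (block NF, landed). Copy that file, replace `Mx (u n)` by `Gx (g n)`, `∑ i, ‖u i z - u i 0‖` by
`gm g z`, `TT (u n)` by `TT (g n)`, drop `d C u0 u`, and use the facts `S_Gx` below in place of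
`S_Mx`. The items of block NF which do not mention the growth are used as they are: `NF.S_Diag`,
`NF.S_ev`, `NF.S_CL`, `NF.S_avg`, `NF.S_LD`, `NF.S_RadF`, `NF.S_DF`, `NF.S_Seid`, `NF.S_AC`.
An item file proves for instance `theorem crit_proof (h1 : S_Gx) : S_crit`; every other statement
of this file or of `NF/Stmts.lean` may be a hypothesis of an item file (no cycles: please use only
the hypotheses named in the docstring).
-/

namespace Pool.Agent.Work.MP_6d7a54_an.NM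

open Filter Metric Set Topology Real
open Pool.Agent.Work.MP_6d7a54_an.NF (IsNev DP ev dd UF)

noncomputable section

/-! ### The growth function -/

/-- [Gx] EASY. Elementary properties of `gm` and `Gx`. PROOF. `Real.posLog` is continuous and
nonnegative, and `x ≤ exp (posLog x)`, so `‖g l z‖ ≤ exp (posLog ‖g l z‖) ≤ exp (gm g z)`.
`gm g` is continuous on the unit ball, so its image of the compact set `closedBall 0 rho`,
`rho < 1`, is bounded above (`IsCompact.bddAbove`) and `le_csSup` applies. For the last two points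
use `csSup_le_csSup`, resp. `csSup_le` (the image is not empty since `0 ∈ closedBall 0 rho`). For
`0 ≤ Gx`: `Real.sSup_nonneg`. -/
def S_Gx : Prop := ∀ (I : Type) [Fintype I] (g : I → ℂ → ℂ), Hol g →
  (∀ z : ℂ, 0 ≤ gm g z) ∧
  ContinuousOn (gm g) (ball 0 1) ∧
  (∀ (l : I) (z : ℂ), ‖g l z‖ ≤ Real.exp (gm g z)) ∧
  (∀ rho : ℝ, 0 ≤ Gx g rho) ∧
  (∀ (rho : ℝ) (z : ℂ), rho < 1 → ‖z‖ ≤ rho → gm g z ≤ Gx g rho) ∧
  (∀ r s : ℝ, 0 ≤ r → r ≤ s → s < 1 → Gx g r ≤ Gx g s) ∧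
  (∀ rho V : ℝ, 0 ≤ rho → (∀ z : ℂ, ‖z‖ ≤ rho → gm g z ≤ V) → Gx g rho ≤ V)

/-- [Cvx] MEDIUM. Hadamard's three circle theorem for `Gx`. PROOF. Let `0 < r < s < t < 1`,
`A = Gx g r ≤ B = Gx g t`, and let `‖z‖ ≤ s`; show `log (t/r) * gm g z ≤ log (t/s) A + log (s/r) B`,
then use the last point of `S_Gx` (divide by `log (t/r) > 0`). If `‖z‖ ≤ r`, then `gm g z ≤ A` and
`log (t/r) = log (t/s) + log (s/r)`, done. Let `r ≤ ‖z‖ = s' ≤ s`. Put
`S = {l | 1 < ‖g l z‖}` and `f = ∏ l ∈ S, g l`, so that `gm g z = log ‖f z‖`, and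
`‖f w‖ ≤ exp (gm g w)` for all `w` (each factor is at most `exp (posLog ‖g l w‖)`, the other terms
are nonnegative). Then `‖f‖ ≤ exp A` for `‖w‖ = r` and `‖f‖ ≤ exp B` for `‖w‖ ≤ t`. Hadamard's three
lines theorem (`Mathlib/Analysis/Complex/Hadamard.lean`,
`Complex.HadamardThreeLines.norm_le_interp_of_mem_verticalClosedStrip'` or its version for the strip
`0 ≤ re ≤ 1`) for `w ↦ f (exp (log r + w * log (t/r)))` on the strip `0 ≤ re w ≤ 1` gives
`‖f z‖ ≤ exp (A (1 - x) + B x)`, `x = log (s'/r) / log (t/r)`, hence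
`log (t/r) * gm g z ≤ log (t/s') A + log (s'/r) B`, and this is increasing in `s'` since
`A ≤ B`. -/
def S_Cvx : Prop := ∀ (I : Type) [Fintype I] (g : I → ℂ → ℂ), Hol g → ∀ r s t : ℝ,
  0 < r → r < s → s < t → t < 1 →
  Real.log (t / r) * Gx g s ≤ Real.log (t / s) * Gx g r + Real.log (s / r) * Gx g t

/-- [Base] EASY-MEDIUM. Schwarz lemma near the centre. PROOF. Let `A = C0 + 1`. If `Gx g tau ≤ A`,
then `‖g l z‖ ≤ exp A` for `‖z‖ ≤ tau`, so by the Schwarz lemma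
(`Complex.norm_sub_le_... `, e.g. `Complex.dist_le_div_mul_dist_of_mapsTo_ball`, or the Cauchy
estimate for the derivative and the mean value inequality on the disc of radius `tau / 2`; any
constant will do) `‖g l z - g l 0‖ ≤ 4 exp A ‖z‖ / tau` for `‖z‖ ≤ tau / 2`. Since
`posLog (x + e) ≤ posLog x + e` for `x, e ≥ 0` (`log (1 + e) ≤ e`), for `‖z‖ ≤ exp (-y) * tau` one
has `gm g z ≤ gm g 0 + card I * 4 exp (A - y) ≤ C0 + 1/2` if `y` is large, `y` depending only on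
`C0` and `card I`. -/
def S_Base : Prop := ∀ (I : Type) [Fintype I] (C0 : ℝ), ∃ y : ℝ, 1 ≤ y ∧
  ∀ g : I → ℂ → ℂ, Hol g → gm g 0 ≤ C0 → ∀ tau : ℝ, 0 < tau → tau < 1 →
  Gx g tau ≤ C0 + 1 → Gx g (Real.exp (-y) * tau) ≤ C0 + 1 / 2

/-- [Tau] MEDIUM (real numbers only, from Gx, Cvx, Base). The radius `tau` at which the growth
starts. PROOF. There is `i ≥ 1` with `Gx g (rho0 / 2 ^ i) ≤ C0 + 1`: `gm g` is continuous at `0`
with `gm g 0 ≤ C0` (first points of `S_Gx`; use the last point). Take the smallest such `i` and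
`tau = rho0 / 2 ^ i`; then `Gx g (2 tau) > C0 + 1` (for `i = 1` this is the hypothesis). With
`y` from `S_Base` let `r = exp (-y) * tau`, so `Gx g r ≤ C0 + 1/2`. Let `rho > 2 tau` (the case
`rho = 2 tau` is `Gx ≥ C0 + 1 ≥ kap log 2`). `S_Cvx` for `r < 2 tau < rho`, `m = log (2 e^y)`,
`x = log (rho / (2 tau))`: `(x + m) (C0 + 1) ≤ (x + m) Gx (2 tau) ≤ x (C0 + 1/2) + m Gx rho`, so
`Gx rho ≥ C0 + 1 + x / (2 m)`, and `log (rho / tau) = x + log 2`. `kap = 1 / (2 m)`, where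
`m = y + log 2 ≥ 1`, works (`C0 ≥ gm g 0 ≥ 0`; if `C0 < 0` there is nothing to prove, take any
`kap`). -/
def S_Tau : Prop := ∀ (I : Type) [Fintype I] (C0 : ℝ), ∃ kap : ℝ, 0 < kap ∧
  ∀ g : I → ℂ → ℂ, Hol g → gm g 0 ≤ C0 → ∀ rho0 : ℝ, 0 < rho0 → rho0 < 1 →
  C0 + 1 < Gx g rho0 → ∃ tau : ℝ, 0 < tau ∧ tau ≤ rho0 ∧ Gx g tau ≤ C0 + 1 ∧
  ∀ rho : ℝ, 2 * tau ≤ rho → rho < 1 → kap * Real.log (rho / tau) ≤ Gx g rho

/-- [Sel] MEDIUM (real numbers only). Selection of the scales; the exponent `k` will be a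
substitution `z ↦ z ^ k`. PROOF. `B = 8 (q+1)^4`, `x j = B ^ (q+1-j)` for `j ≤ q + 1` (so
`x (q+1) = 1`), `Lam = x 0 + 1`. Take `n` with `log (1 / tau n) ≥ Kb * Lam`, `Kb` a natural number to
be chosen, `k = ⌊log (1 / tau n) / Lam⌋ ≥ Kb`, `k ≥ 1`, `s = log (1 / tau n) / k`, so
`Lam ≤ s ≤ 2 Lam`, and `R j = exp (x j - s)` for `j ≤ q + 1` (arbitrary otherwise). Then
`R j ≤ exp (x 0 - Lam) = exp (-1) ≤ 1/2`, and `(R j) ^ k = tau n * exp (k * x j)`. (1)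
`R (j+1) (q+1)^3 ≤ R j` since `x j - x (j+1) ≥ (B - 1) x (j+1) ≥ B - 1 ≥ 3 q ≥ 3 log (q+1)`. (2)
`W n ((R (j+1))^k) ≥ kap * k * x (j+1) ≥ kap * Kb ≥ q (1 + 2 Lam) ≥ q (1 + log (1 / R (j+1)))` for
`Kb` large (`exp (k x) ≥ exp 1 ≥ 2`). (3) With `l = log (q+1)`, `y1 = x (j+1) + l < y2 = x j - l`,
`w1 = W n (tau exp (k y1))`, `w2 = W n (tau exp (k y2))`: the convexity hypothesis for
`tau < tau exp (k y1) < tau exp (k y2) < 1`, divided by `k`, gives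
`y2 * w1 ≤ (y2 - y1) A + y1 w2 ≤ y2 A + y1 w2`, so `w2 ≥ (y2 / y1) (w1 - A)`. Here
`y1 ≤ (q + 1) x (j+1)` and `y2 ≥ x j / 2 = B x (j+1) / 2` (because `l ≤ q ≤ B/2 - 1`), so
`y2 / y1 ≥ 2 q^2`, and `w1 ≥ kap k ≥ 2 A` for `Kb` large, so `w1 - A ≥ w1 / 2` and
`w2 ≥ q^2 w1`. (`((q+1) R (j+1))^k = tau exp (k y1)`, `(R j/(q+1))^k = tau exp (k y2)`.) -/
def S_Sel : Prop := ∀ (W : ℕ → ℝ → ℝ) (A kap : ℝ) (tau : ℕ → ℝ), 0 ≤ A → 0 < kap →
  (∀ n, 0 < tau n) → Tendsto tau atTop (𝓝 0) → (∀ n, W n (tau n) ≤ A) →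
  (∀ n r s t, 0 < r → r < s → s < t → t < 1 →
    Real.log (t / r) * W n s ≤ Real.log (t / s) * W n r + Real.log (s / r) * W n t) →
  (∀ n rho, 2 * tau n ≤ rho → rho < 1 → kap * Real.log (rho / tau n) ≤ W n rho) →
  ∀ q : ℕ, ∃ (n k : ℕ) (R : ℕ → ℝ), 1 ≤ k ∧ (∀ j, j ≤ q + 1 → 0 < R j ∧ R j ≤ 1 / 2) ∧
  ∀ j, j ≤ q → R (j + 1) * ((q : ℝ) + 1) ^ 3 ≤ R j ∧
    (q : ℝ) * (1 + Real.log (1 / R (j + 1))) ≤ W n (R (j + 1) ^ k) ∧
    (q : ℝ) ^ 2 * W n ((((q : ℝ) + 1) * R (j + 1)) ^ k) ≤ W n ((R j / ((q : ℝ) + 1)) ^ k)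

/-- [Pow] EASY. Substitution `z ↦ z ^ k`. PROOF. `gm (fun l z => g l (z ^ k)) z = gm g (z ^ k)`
by definition, and `z ↦ z ^ k` maps `closedBall 0 r` onto `closedBall 0 (r ^ k)` (for
`‖w‖ ≤ r ^ k` take a `k`-th root of `w`, e.g. `IsAlgClosed.exists_pow_nat_eq`; `‖z‖ ^ k ≤ r ^ k`
gives `‖z‖ ≤ r`). So the two sets in the definition of `Gx` are equal. -/
def S_Pow : Prop := ∀ (I : Type) [Fintype I] (g : I → ℂ → ℂ) (k : ℕ), 1 ≤ k →
  (Hol g → Hol (fun l z => g l (z ^ k))) ∧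
  ∀ r : ℝ, 0 ≤ r → Gx (fun l z => g l (z ^ k)) r = Gx g (r ^ k)

/-- [Conf] MEDIUM (from Gx, Cvx, Tau, Sel, Pow; PORT of `NF/I_Conf.lean`). Selection of the
scales. PROOF. Let `C0 = gm (g n) 0 = ∑ posLog ‖c0 l‖`, `kap` from `S_Tau`. For every `rho0` in
`(0, 1)` one has `C0 + 1 < Gx (g n) rho0` for large `n` (`big`), so there are a subsequence
`n_i` and `tau i ≤ 1 / (i + 2)` as in `S_Tau` for `g (n_i)` (`rho0 = 1/(i+2)`). Apply `S_Sel` to
`W i rho = Gx (g (n_i)) rho`, `A = C0 + 1`. It gives for every `q` an index `n`, an exponent `k`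
and radii `R`; by `S_Pow`, `W i (r ^ k) = Gx G r` for `G = fun l z => g n l (z ^ k)`. Pigeonhole
exactly as in `NF/I_Conf.lean`: enumerate `DP F I` as `P 0, P 1, ..`; for `i < q` the statement
`T j i : ∀ ‖z‖ ≤ R j, ‖ev G z (P i)‖ ≤ exp (-(q Gx G (R j)))` implies `T (j+1) i` (`S_Gx`,
monotonicity), so for some `j ≤ q` one has `T j i ↔ T (j+1) i` for all `i < q`; put `a = R j`,
`b = R (j+1)`. `dec` for given `K` and `n ≥ K`: `Gx (K b) ≤ Gx ((n+1) b)` and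
`Gx (a / (n+1)) ≤ Gx (a / K)` by monotonicity (`(n+1) b ≤ a / (n+1)^2 < 1`; for `n = q`). -/
def S_Conf : Prop := ∀ (F I : Type) [Field F] [Algebra F ℂ] [Countable F] [Fintype I]
  (c0 : I → ℂ) (g : ℕ → I → ℂ → ℂ), BadSeq c0 g →
  ∃ (nn kk : ℕ → ℕ) (a b : ℕ → ℝ), (∀ q, 1 ≤ kk q) ∧
    Conf F (fun q l z => g (nn q) l (z ^ kk q)) a b

/-- [GB] EASY (PORT of `NF/I_GB.lean`, there is no constant `C`). Growth of differential
polynomials. PROOF. Cauchy estimates and `‖g l z‖ ≤ exp (gm g z)` (`S_Gx`). -/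
def S_GB : Prop := ∀ (F I : Type) [Field F] [Algebra F ℂ] [Fintype I] (P : DP F I),
  ∃ K : ℝ, 0 ≤ K ∧ ∀ g : I → ℂ → ℂ, Hol g →
  ∀ (c : ℂ) (rho rho' V : ℝ), rho < rho' → closedBall c rho' ⊆ ball 0 1 → 0 ≤ V →
  (∀ z ∈ closedBall c rho', gm g z ≤ V) → ∀ z ∈ closedBall c rho,
  ‖ev g z P‖ ≤ Real.exp (K * (1 + V + Real.log (1 / (rho' - rho))))

/-! ### The ideal of tiny elements -/

/-- [crit] EASY (PORT of `NF/I_crit.lean`, from Gx). Criterion for tiny elements. PROOF. By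
`dich`, for large `n` either the claim holds or there is `z`, `‖z‖ ≤ b n`, with
`exp (-(n Gx (b n))) < ‖ev z P‖ ≤ exp (-(del Gx (eps a n)))` (`b n ≤ eps a n` for large `n` by
`hab`), so `del Gx (eps a n) < n Gx (b n)`. With `K ≥ 1 / eps`, `K ≥ 1`, `dec` and monotonicity give
`n^2 Gx (b n) ≤ n^2 Gx (K b n) ≤ Gx (a n / K) ≤ Gx (eps a n)`, a contradiction for
`n ≥ 1 / del` (note `Gx (b n) > 0` for `n ≥ 1` by `big`). -/
def S_crit : Prop := ∀ (F I : Type) [Field F] [Algebra F ℂ] [Fintype I]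
  (g : ℕ → I → ℂ → ℂ) (a b : ℕ → ℝ), Conf F g a b →
  ∀ (P : DP F I) (eps del : ℝ), 0 < eps → eps ≤ 1 → 0 < del →
  (∀ᶠ n in UF, ∀ z : ℂ, ‖z‖ ≤ eps * a n →
    ‖ev (g n) z P‖ ≤ Real.exp (-(del * Gx (g n) (eps * a n)))) → Tiny g a P

/-- [ideal] EASY-MEDIUM (PORT of `NF/I_ideal.lean`, from Gx, NF.ev, GB, crit). Ideal
properties. -/
def S_ideal : Prop := ∀ (F I : Type) [Field F] [Algebra F ℂ] [Fintype I]
  (g : ℕ → I → ℂ → ℂ) (a b : ℕ → ℝ), Conf F g a b →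
  (∀ P Q : DP F I, Tiny g a P → Tiny g a Q → Tiny g a (P + Q)) ∧
  (∀ P Q : DP F I, Tiny g a P → Tiny g a (P * Q)) ∧
  (∀ P : DP F I, Tiny g a P → Tiny g a (dd P)) ∧
  (∀ P : DP F I, (∀ n, ∀ z ∈ ball (0 : ℂ) 1, ev (g n) z P = 0) → Tiny g a P) ∧
  (∀ P : DP F I, (∃ c : ℂ, c ≠ 0 ∧ ∀ n, ev (g n) 0 P = c) → ¬ Tiny g a P)

/-- [prime] EASY-MEDIUM (PORT of `NF/I_prime.lean`, from Gx, GB, NF.CL, NF.avg). The ideal of tiny
elements is prime. Where the model uses `Mx (u n) (16 b n) ≤ (256 / (n+1)^3) Mx (u n) (a n)`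
(Schwarz), use `dec` with `K = 16` and monotonicity: for large `n`
`n^2 Gx (16 b n) ≤ Gx (a n / 16) ≤ Gx (a n)`. -/
def S_prime : Prop := ∀ (F I : Type) [Field F] [Algebra F ℂ] [Fintype I]
  (g : ℕ → I → ℂ → ℂ) (a b : ℕ → ℝ), Conf F g a b →
  ∀ P Q : DP F I, ¬ Tiny g a P → ¬ Tiny g a Q → ¬ Tiny g a (P * Q)

/-! ### Centres and radii -/

/-- [Cen] MEDIUM (PORT of `NF/I_Cen.lean`, from NF.Diag, Gx, GB, NF.CL, NF.avg). Good centres.
Again Schwarz is replaced by `dec` with `K = 16`: for large `n`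
`n^2 Gx (16 b n) ≤ Gx (a n / 16)` (this gives `(n / del) Gx (16 b n) ≤ Gx (a n / 16)` for every
fixed `del` and large `n`, which is what the model needs). -/
def S_Cen : Prop := ∀ (F I : Type) [Field F] [Algebra F ℂ] [Countable F] [Fintype I]
  (g : ℕ → I → ℂ → ℂ) (a b : ℕ → ℝ), Conf F g a b → ∃ c : ℕ → ℂ, Cen F g a b c

/-- [T1] MEDIUM. The mean of `log⁺ ‖f‖` is increasing in the radius. PROOF. Replace `f` by
`w ↦ f (c + w)`; `c = 0`. Put `p (x) = posLog ‖f x‖`, continuous on `closedBall 0 r'`. For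
`m ≥ 1` let `N_m (w) = (1/m) ∑_(j < m) p (w exp (2 pi i j / m))`, `‖w‖ ≤ r'`. CLAIM:
`N_m (r) ≤ max over ‖w‖ = r' of N_m (w)`. Indeed let `S` be the set of the `j` with
`‖f (r exp (2 pi i j/m))‖ > 1` and `G (w) = ∏_(j ∈ S) f (w exp (2 pi i j/m))`, then
`N_m (r) = (1/m) log ‖G r‖ ≤ (1/m) log ‖G w‖ ≤ N_m (w)` for some `w` with `‖w‖ = r'` by the maximum
principle (`Complex.exists_mem_frontier_isMaxOn_norm`; `G` is holomorphic near the closed disc; if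
`S` is empty, `N_m (r) = 0`). Since `p` is uniformly continuous on the closed disc, `N_m (w)` tends
to the circle average of `p` of radius `‖w‖`, uniformly in `w` (Riemann sums with equal parts:
on each arc the difference is at most the oscillation), in particular uniformly on
`‖w‖ = r'`. Let `m` tend to infinity. (Any other proof is fine: e.g. Mathlib's
`circleAverage_log_norm_sub_const_eq_posLog`, `log⁺ ‖x‖ = ⨍ log ‖x - e^(i t)‖`, with Jensen's formula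
for `f - e^(i t)` and Fubini; or `NF/I_TTm.lean`, if it can be adapted.) -/
def S_T1 : Prop := ∀ (f : ℂ → ℂ) (c : ℂ) (r r' : ℝ), 0 < r → r ≤ r' →
  AnalyticOnNhd ℂ f (closedBall c r') →
  Real.circleAverage (fun z => Real.posLog ‖f z‖) c r
    ≤ Real.circleAverage (fun z => Real.posLog ‖f z‖) c r'

/-- [Har1] MEDIUM (from T1 and `UP.S_PJ`, which is proved in `UP/I_PJ.lean`: `UP.PJ_proof`).
Harnack's inequality for `log⁺ ‖f‖`. PROOF. Put `c = 0` (translation). If `‖f z‖ ≤ 1` the left hand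
side is `0`. Let `‖f z‖ > 1`, so `f` is not identically zero and has finitely many zeros in the
closed disc; for `s < r` near `r` there are no zeros on the circle of radius `s`, and `UP.S_PJ` gives
`log ‖f z‖ ≤ ⨍ poissonKernel 0 z w * log ‖f w‖` over the circle `s`. Here
`0 ≤ poissonKernel ≤ (s + ‖z‖) / (s - ‖z‖)` and `log ≤ posLog`, so
`posLog ‖f z‖ ≤ (s + ‖z‖) / (s - ‖z‖) * average over the circle s ≤ (s + ‖z‖) / (s - ‖z‖) * average
over the circle r` by T1. Let `s` tend to `r` (there are infinitely many admissible `s`,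
`ge_of_tendsto` with `Frequently`, or an argument by contradiction). -/
def S_Har1 : Prop := ∀ (f : ℂ → ℂ) (c z : ℂ) (r : ℝ), z ∈ ball c r →
  AnalyticOnNhd ℂ f (closedBall c r) → Real.posLog ‖f z‖ ≤
  (r + ‖z - c‖) / (r - ‖z - c‖) * Real.circleAverage (fun w => Real.posLog ‖f w‖) c r

/-- [Har] EASY (from Gx, T1, Har1). The characteristic `TT` is nonnegative, increasing in the
radius, dominates `gm` in the interior, and is at most `Gx`. PROOF. `TT g c r` is the sum over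
`l` of the averages of `posLog ‖g l z‖` (`Real.circleAverage` of a finite sum of circle integrable
functions: the functions are continuous on the circle). Sum up T1 and Har1. The last point:
the average of a function which is at most `V` on the circle
(`Real.circleAverage_mono_on_of_le_circle`). -/
def S_Har : Prop := ∀ (I : Type) [Fintype I] (g : I → ℂ → ℂ), Hol g →
  (∀ (c : ℂ) (r : ℝ), 0 ≤ TT g c r) ∧
  (∀ (c : ℂ) (r r' : ℝ), 0 < r → r ≤ r' → closedBall c r' ⊆ ball 0 1 → TT g c r ≤ TT g c r') ∧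
  (∀ (c z : ℂ) (r : ℝ), z ∈ ball c r → closedBall c r ⊆ ball 0 1 →
    gm g z ≤ (r + ‖z - c‖) / (r - ‖z - c‖) * TT g c r) ∧
  (∀ (c : ℂ) (r V : ℝ), 0 < r → closedBall c r ⊆ ball 0 1 → (∀ z ∈ sphere c r, gm g z ≤ V) →
    TT g c r ≤ V) ∧
  (∀ (c : ℂ) (r : ℝ), 0 < r → closedBall c r ⊆ ball 0 1 →
    TT g c r = ∑ l, Real.circleAverage (fun z => Real.posLog ‖g l z‖) c r)

/-- [Rad] MEDIUM (PORT of `NF/I_Rad.lean`, from NF.Diag, Gx, NF.ev, GB, Har, NF.RadF). Good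
radii. `S_Har` replaces `S_Schw` and `S_TTm`: for `‖z - c‖ ≤ a/12`, `r = a/4` Harnack gives
`gm z ≤ 2 TT c (a/4)`, so `Gx (a/16) ≤ 2 TT c (a/4)` (`‖c‖ ≤ b ≤ a/48`); for `z` in
`closedBall c s`, `s < t`, it gives `gm z ≤ (t + s)/(t - s) * TT c t ≤ 2 t / (t - s) * TT c t`; and
`TT c r ≤ Gx a` for `r ≤ 3 a / 4`. There are no terms `∑ ‖u i 0‖` and `Mx u b`. -/
def S_Rad : Prop := ∀ (F I : Type) [Field F] [Algebra F ℂ] [Countable F] [Fintype I]
  (g : ℕ → I → ℂ → ℂ) (a b : ℕ → ℝ) (c : ℕ → ℂ), Conf F g a b → Cen F g a b c →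
  ∃ r : ℕ → ℝ, Rad F g a c r

/-! ### Small quotients -/

/-- [Tinf] EASY (from Gx). The characteristic tends to infinity. PROOF. `Rad.tt`, monotonicity
(`b n ≤ a n / 16` for large `n`) and `big`: `TT ≥ kap Gx (a n/16) ≥ kap Gx (b n) ≥ kap n`. -/
def S_Tinf : Prop := ∀ (F I : Type) [Field F] [Algebra F ℂ] [Fintype I]
  (g : ℕ → I → ℂ → ℂ) (a b : ℕ → ℝ) (c : ℕ → ℂ) (r : ℕ → ℝ),
  Conf F g a b → Cen F g a b c → Rad F g a c r → ∀ K : ℝ, ∀ᶠ n in UF,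
  K ≤ TT (g n) (c n) (r n)

/-- [s1] EASY (PORT of `NF/I_s1.lean`, from Gx). Small quotients are well defined. -/
def S_s1 : Prop := ∀ (F I : Type) [Field F] [Algebra F ℂ] [Fintype I]
  (g : ℕ → I → ℂ → ℂ) (a b : ℕ → ℝ) (c : ℕ → ℂ) (r : ℕ → ℝ),
  Conf F g a b → Cen F g a b c → Rad F g a c r →
  ∀ P Q P' Q' : DP F I, ¬ Tiny g a Q → ¬ Tiny g a Q' → Tiny g a (P * Q' - P' * Q) →
  sm g c r P Q → sm g c r P' Q'

/-- [s3] EASY-MEDIUM (PORT of `NF/I_s3.lean`, from Gx, NF.ev). Constants are small; products and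
sums of small quotients; powers; logarithmic derivatives. -/
def S_s3 : Prop := ∀ (F I : Type) [Field F] [Algebra F ℂ] [Fintype I]
  (g : ℕ → I → ℂ → ℂ) (a b : ℕ → ℝ) (c : ℕ → ℂ) (r : ℕ → ℝ),
  Conf F g a b → Cen F g a b c → Rad F g a c r →
  (∀ x : F, sm g c r (MvPolynomial.C x : DP F I) 1) ∧
  (∀ P Q P' Q' : DP F I, ¬ Tiny g a Q → ¬ Tiny g a Q' → sm g c r P Q → sm g c r P' Q' →
    sm g c r (P * P') (Q * Q') ∧ sm g c r (P * Q' + P' * Q) (Q * Q')) ∧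
  (∀ P Q : DP F I, ¬ Tiny g a P → ¬ Tiny g a Q →
    sm g c r (dd P * Q - P * dd Q) (P * Q)) ∧
  (∀ (P Q : DP F I) (e : ℕ), ¬ Tiny g a Q → e ≠ 0 → sm g c r (P ^ e) (Q ^ e) →
    sm g c r P Q)

/-- [s7] EASY-MEDIUM (PORT of `NF/I_s7.lean`, from Gx, NF.ev, GB). Constants of the field are
small. -/
def S_s7 : Prop := ∀ (F I : Type) [Field F] [Algebra F ℂ] [Fintype I]
  (g : ℕ → I → ℂ → ℂ) (a b : ℕ → ℝ) (c : ℕ → ℂ) (r : ℕ → ℝ),
  Conf F g a b → Cen F g a b c → Rad F g a c r →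
  ∀ P Q : DP F I, ¬ Tiny g a Q → Tiny g a (dd P * Q - P * dd Q) → sm g c r P Q

/-- [s8] EASY (from Gx, Har, Tinf). Not everything is small. PROOF. `ev g z (X (l, 0)) = g l z`,
so if all `g l` are small, then with `del = 1 / (2 (card I + 1))` the last point of `S_Har` gives
`TT ≤ card I * del * TT ≤ TT / 2`, which is impossible since `TT > 0` for large `n`. (The circle
lies in the unit ball: `r n ≤ a n / 2 ≤ 1/4`, `‖c n‖ ≤ b n ≤ a n ≤ 1/2`.) -/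
def S_s8 : Prop := ∀ (F I : Type) [Field F] [Algebra F ℂ] [Fintype I]
  (g : ℕ → I → ℂ → ℂ) (a b : ℕ → ℝ) (c : ℕ → ℂ) (r : ℕ → ℝ),
  Conf F g a b → Cen F g a b c → Rad F g a c r →
  ¬ ∀ l, sm g c r (MvPolynomial.X (l, 0) : DP F I) 1

/-- [dom] EASY (from Gx, NF.ev, Tinf). Elements dominated by small elements are small. PROOF.
`ev g z 1 = 1`, so `sm R 1` is a statement on the average of `posLog ‖ev (g n) z R‖` over the circle
(which lies in the unit ball: `r n ≤ a n / 2 ≤ 1/4`, `‖c n‖ ≤ b n ≤ a n ≤ 1/2`). Enlarge `C` so that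
`C ≥ 1`. The average of the right hand side is `C (1 + ∑ i, average of posLog ‖ev (P i)‖)`, at most
`C (1 + k del' TT)` for large `n`, and `C ≤ (del/2) TT` for large `n` (`S_Tinf`); take
`del' = del / (2 C (k + 1))`. The functions `z ↦ posLog ‖ev (g n) z P‖` are continuous on the
circle (`NF.S_ev`, `Real.continuous_posLog`), hence circle integrable. -/
def S_dom : Prop := ∀ (F I : Type) [Field F] [Algebra F ℂ] [Fintype I]
  (g : ℕ → I → ℂ → ℂ) (a b : ℕ → ℝ) (c : ℕ → ℂ) (r : ℕ → ℝ),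
  Conf F g a b → Cen F g a b c → Rad F g a c r →
  ∀ (k : ℕ) (P : Fin k → DP F I) (R : DP F I) (C : ℝ),
  (∀ n, ∀ z ∈ ball (0 : ℂ) 1, Real.posLog ‖ev (g n) z R‖ ≤
    C * (1 + ∑ i, Real.posLog ‖ev (g n) z (P i)‖)) →
  (∀ i, sm g c r (P i) 1) → sm g c r R 1

/-- [fin] EASY-MEDIUM (PORT of `NF/I_fin.lean`, from Gx, NF.ev, ideal, Har, Tinf). Every element
has finite order with respect to the characteristic. For `P = X (l, 0)` the average is at most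
`TT` by the last point of `S_Har` (all terms are nonnegative); the derivatives are treated with
`Rad.ld` as in the model. -/
def S_fin : Prop := ∀ (F I : Type) [Field F] [Algebra F ℂ] [Fintype I]
  (g : ℕ → I → ℂ → ℂ) (a b : ℕ → ℝ) (c : ℕ → ℂ) (r : ℕ → ℝ),
  Conf F g a b → Cen F g a b c → Rad F g a c r → ∀ P : DP F I, ∃ K : ℝ,
  ∀ᶠ n in UF, Real.circleAverage (fun z => Real.posLog ‖ev (g n) z P‖) (c n) (r n)
    ≤ K * TT (g n) (c n) (r n)

/-- [lo] EASY-MEDIUM (PORT of `NF/I_lo.lean`, from Gx, NF.ev). Properties of `lo` (Jensen). -/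
def S_lo : Prop := ∀ (F I : Type) [Field F] [Algebra F ℂ] [Fintype I]
  (g : ℕ → I → ℂ → ℂ) (a b : ℕ → ℝ) (c : ℕ → ℂ) (r : ℕ → ℝ),
  Conf F g a b → Cen F g a b c → Rad F g a c r →
  (∀ P Q P' Q' : DP F I, ¬ Tiny g a P → ¬ Tiny g a Q → ¬ Tiny g a P' →
    ¬ Tiny g a Q' → Tiny g a (P * Q' - P' * Q) → lo g c r P Q → lo g c r P' Q') ∧
  (∀ P : DP F I, ¬ Tiny g a P → lo g c r P 1) ∧
  (∀ P Q P' Q' : DP F I, ¬ Tiny g a P → ¬ Tiny g a Q → ¬ Tiny g a P' →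
    ¬ Tiny g a Q' → lo g c r P Q → lo g c r P' Q' → lo g c r (P * P') (Q * Q')) ∧
  (∀ P Q : DP F I, ¬ Tiny g a P → ¬ Tiny g a Q → sm g c r P Q → lo g c r Q P) ∧
  (∀ P Q : DP F I, ¬ Tiny g a P → ¬ Tiny g a Q → lo g c r P Q → sm g c r P Q →
    sm g c r Q P)

/-- [lo2] EASY (PORT of `NF/I_lo2.lean`, from Gx, NF.ev, fin, lo). Roots and `lo`. -/
def S_lo2 : Prop := ∀ (F I : Type) [Field F] [Algebra F ℂ] [Fintype I]
  (g : ℕ → I → ℂ → ℂ) (a b : ℕ → ℝ) (c : ℕ → ℂ) (r : ℕ → ℝ),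
  Conf F g a b → Cen F g a b c → Rad F g a c r →
  ∀ A E P Q : DP F I, ¬ Tiny g a A → ¬ Tiny g a E → ¬ Tiny g a P → ¬ Tiny g a Q →
  (∀ k : ℕ, k ≠ 0 → lo g c r (A * P ^ k) (E * Q ^ k)) → lo g c r P Q

/-! ### Assembly

[Nev] EASY (PORT of `NF/I_Nev.lean`): `theorem Nev_proof (hConf : S_Conf) (hid : S_ideal)
(hpr : S_prime) (hCen : S_Cen) (hRad : S_Rad) (h1 : S_s1) (h3 : S_s3) (h7 : S_s7) (h8 : S_s8)
(hlo : S_lo) (hlo2 : S_lo2) (hdom : S_dom) (hAC : NF.S_AC) : S_Nev` (`S_Nev` is in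
`NM/Defs.lean`). The new point: `g' q = fun l z => g (nn q) l (z ^ kk q)`; a polynomial identity (or
the inequality in the clause on domination) for `g n` on the unit ball holds for `g' q`, since
`z ^ k` is in the unit ball, and `g' q l 0 = g (nn q) l 0` since `kk q ≥ 1`. The clause on domination:
`hdom` for `em (P i)`, `em R`, `ev_em`, `phi_em` and `phi x ∈ Sm ↔ sml x 1` (last point of
`NF.S_AC`). -/

end

end Pool.Agent.Work.MP_6d7a54_an.NM
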