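import Pool.Agent.Work.MP_6d7a54_an.NM.StmtsB
import Pool.Agent.Work.MP_6d7a54_an.NM.Stmts

/-!
# Bad sequences of discs (MP_6d7a54_an, block NM, item Bad)
-/

set_option autoImplicit false

namespace Pool.Agent.Work.MP_6d7a54_an.NM

open MvPolynomial Metric

noncomputable section

namespace BBadx

theorem eval_scale {n : ℕ} {φ : MvPolynomial (Fin (n + 1)) ℂ} {e : ℕ} (h : φ.IsHomogeneous e)
    (t : ℂ) (w : Fin (n + 1) → ℂ) : eval (fun j => t * w j) φ = t ^ e * eval w φ := by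
  rw [eval_eq', eval_eq', Finset.mul_sum]
  refine Finset.sum_congr rfl ?_
  intro m hm
  have hm' : ∑ i, m i = e := by
    have h1 := h (mem_support_iff.1 hm)
    have h2 : Finsupp.weight (fun _ => 1) m = e := h1
    rw [← Finsupp.degree_eq_weight_one, Finsupp.degree_eq_sum] at h2
    exact h2
  have h2 : ∏ i, (t * w i) ^ m i = t ^ e * ∏ i, w i ^ m i := by
    rw [← hm', ← Finset.prod_pow_eq_pow_sum, ← Finset.prod_mul_distrib]
    exact Finset.prod_congr rfl fun i _ => mul_pow _ _ _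
  rw [h2]
  ring

theorem diff_eval {n : ℕ} {f : ℂ → Fin (n + 1) → ℂ} {s : Set ℂ}
    (hf : ∀ j, DifferentiableOn ℂ (fun z => f z j) s) (φ : MvPolynomial (Fin (n + 1)) ℂ) :
    DifferentiableOn ℂ (fun z => eval (f z) φ) s := by
  induction φ using MvPolynomial.induction_on with
  | C a =>
    simp only [eval_C]
    exact differentiableOn_const _
  | add p q hp hq =>
    simp only [map_add]
    exact hp.add hq
  | mul_X p i hp =>
    simp only [map_mul, eval_X]
    exact hp.mul (hf i)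

/-- the functions of a disc -/
def gg {n : ℕ} (X : MvPolynomial (Fin (n + 1)) ℂ) (h : ℂ → ℂ) (f : ℂ → Fin (n + 1) → ℂ) :
    Option (Fin (n + 1)) → ℂ → ℂ
  | none => fun z => (eval (fun j => h z * f z j) X)⁻¹
  | some j => fun z => h z * f z j

/-- the derivative of a disc with small growth is bounded -/
theorem der_bound (hGx : S_Gx) {n : ℕ} {A rho : ℝ} {X : MvPolynomial (Fin (n + 1)) ℂ}
    {h : ℂ → ℂ} {f : ℂ → Fin (n + 1) → ℂ}
    {w v : Fin (n + 1) → ℂ} {lam c : ℂ} {R : ℝ} (hR : 0 ≤ R)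
    (hD : Hol (gg X h f)) (hf : DifferentiableOn ℂ f (ball 0 1))
    (hh : DifferentiableOn ℂ h (ball 0 1)) (hf0 : f 0 = w) (hh0 : h 0 = lam)
    (hder : deriv f 0 = (R : ℂ) • v + c • w) (hr0 : 0 < rho) (hr1 : rho < 1)
    (hM : Gx (gg X h f) rho ≤ A) (i j : Fin (n + 1)) :
    ‖lam‖ * R * ‖v i * w j - v j * w i‖ ≤ 2 * ‖w‖ * (Real.exp A / rho) := by
  have hB0 : (0 : ℂ) ∈ ball (0 : ℂ) 1 := mem_ball_self one_pos
  have hnhds : ball (0 : ℂ) 1 ∈ nhds (0 : ℂ) := isOpen_ball.mem_nhds hB0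
  have hfd : HasDerivAt f (deriv f 0) 0 := (hf.differentiableAt hnhds).hasDerivAt
  have hhd : HasDerivAt h (deriv h 0) 0 := (hh.differentiableAt hnhds).hasDerivAt
  have hF : ∀ k, HasDerivAt (fun z => h z * f z k)
      (deriv h 0 * w k + lam * ((R : ℂ) * v k + c * w k)) 0 := by
    intro k
    have h1 := hhd.mul ((hasDerivAt_pi.1 hfd) k)
    rw [hf0, hh0, hder] at h1
    exact h1
  obtain ⟨-, -, g3, -, g5, -, -⟩ := hGx (Option (Fin (n + 1))) (gg X h f) hD
  have hbound : ∀ k, ‖deriv h 0 * w k + lam * ((R : ℂ) * v k + c * w k)‖ ≤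
      Real.exp A / rho := by
    intro k
    rw [← (hF k).deriv]
    refine Complex.norm_deriv_le_of_forall_mem_sphere_norm_le hr0 ?_ ?_
    · apply DifferentiableOn.diffContOnCl
      rw [closure_ball _ hr0.ne']
      exact (hh.mul ((differentiableOn_pi.1 hf) k)).mono (closedBall_subset_ball hr1)
    · intro z hz
      rw [mem_sphere_zero_iff_norm] at hz
      refine (g3 (some k) z).trans (Real.exp_le_exp.2 ?_)
      exact (g5 rho z hr1 hz.le).trans hM
  have hid : lam * (R : ℂ) * (v i * w j - v j * w i) =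
      w j * (deriv h 0 * w i + lam * ((R : ℂ) * v i + c * w i)) -
        w i * (deriv h 0 * w j + lam * ((R : ℂ) * v j + c * w j)) := by ring
  have h1 : ‖lam‖ * R * ‖v i * w j - v j * w i‖ = ‖lam * (R : ℂ) * (v i * w j - v j * w i)‖ := by
    rw [norm_mul, norm_mul, Complex.norm_real, Real.norm_of_nonneg hR]
  rw [h1, hid]
  refine (norm_sub_le _ _).trans ?_
  rw [norm_mul, norm_mul]
  have h2 : ‖w j‖ * ‖deriv h 0 * w i + lam * ((R : ℂ) * v i + c * w i)‖ ≤
      ‖w‖ * (Real.exp A / rho) :=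
    mul_le_mul (norm_le_pi_norm w j) (hbound i) (norm_nonneg _) (norm_nonneg _)
  have h3 : ‖w i‖ * ‖deriv h 0 * w j + lam * ((R : ℂ) * v j + c * w j)‖ ≤
      ‖w‖ * (Real.exp A / rho) :=
    mul_le_mul (norm_le_pi_norm w i) (hbound j) (norm_nonneg _) (norm_nonneg _)
  linarith

end BBadx

open BBadx in
theorem Bad_pf (h1 : S_Gx) (h2 : B_Nor) : B_Bad := by
  intro n D dX e X Fm hD hX hFm hdiv w v hw hwX hv hA
  have hne : ∀ u : Fin (n + 1) → ℂ, eval u X ≠ 0 → eval u Fm ≠ 0 := by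
    intro u hu h0
    obtain ⟨V, hV⟩ := hdiv
    apply pow_ne_zero e hu
    rw [← map_pow, hV, map_mul, h0, zero_mul]
  obtain ⟨lam, hlam, hdisc⟩ := h2 n D Fm hD hFm w (hne w hwX)
  have hA' := fun k : ℕ => hA (k : ℝ)
  choose R f c hR hf hfP hf0 hder using hA'
  have hdisc' := fun k => hdisc (f k) (hf k) (fun z hz => hne _ (hfP k z hz)) (hf0 k)
  choose h hh hh0 hhne hh1 using hdisc'
  have hfj : ∀ k j, DifferentiableOn ℂ (fun z => h k z * f k z j) (ball 0 1) := fun k j =>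
    (hh k).mul ((differentiableOn_pi.1 (hf k)) j)
  have hXne : ∀ k, ∀ z ∈ ball (0 : ℂ) 1, eval (fun j => h k z * f k z j) X ≠ 0 := by
    intro k z hz
    rw [eval_scale hX]
    exact mul_ne_zero (pow_ne_zero _ (hhne k z hz)) (hfP k z hz)
  have hhol : ∀ k, Hol (gg X (h k) (f k)) := by
    intro k l
    rcases l with _ | j
    · exact (diff_eval (fun j => hfj k j) X).inv (hXne k)
    · exact hfj k j
  have hB0 : (0 : ℂ) ∈ ball (0 : ℂ) 1 := mem_ball_self one_pos
  refine ⟨lam, fun l => Option.elim l ((eval (fun j => lam * w j) X)⁻¹) (fun j => lam * w j),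
    fun k => gg X (h k) (f k), hlam, ⟨hhol, ?_, ?_⟩, ?_, ?_⟩
  · intro k l
    rcases l with _ | j
    · show (eval (fun j => h k 0 * f k 0 j) X)⁻¹ = (eval (fun j => lam * w j) X)⁻¹
      rw [hh0, hf0]
    · show h k 0 * f k 0 j = lam * w j
      rw [hh0, hf0]
  · intro rho hr0 hr1 A
    obtain ⟨j, hj⟩ : ∃ j, w j ≠ 0 := by
      by_contra hcon
      push Not at hcon
      exact hw (funext hcon)
    obtain ⟨i, hi⟩ : ∃ i, v i * w j - v j * w i ≠ 0 := by
      by_contra hcon
      push Not at hcon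
      apply hv (v j / w j)
      funext i
      have := hcon i
      simp only [Pi.smul_apply, smul_eq_mul]
      field_simp
      linear_combination this
    have hDpos : 0 < ‖lam‖ * ‖v i * w j - v j * w i‖ :=
      mul_pos (norm_pos_iff.2 hlam) (norm_pos_iff.2 hi)
    set B : ℝ := 2 * ‖w‖ * (Real.exp A / rho) with hB
    obtain ⟨N, hN⟩ := exists_nat_gt (B / (‖lam‖ * ‖v i * w j - v j * w i‖))
    filter_upwards [Filter.eventually_ge_atTop N] with k hn
    by_contra hcon
    push Not at hcon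
    have hn0 : (0 : ℝ) ≤ k := Nat.cast_nonneg k
    have h3 := der_bound h1 (A := A) (hn0.trans (hR k)) (hhol k) (hf k) (hh k) (hf0 k) (hh0 k)
      (hder k) hr0 hr1 hcon.le i j
    rw [← hB] at h3
    rw [div_lt_iff₀ hDpos] at hN
    have h4 : (N : ℝ) ≤ R k := by
      have : (N : ℝ) ≤ k := by exact_mod_cast hn
      exact this.trans (hR k)
    have h5 : (N : ℝ) * (‖lam‖ * ‖v i * w j - v j * w i‖) ≤
        R k * (‖lam‖ * ‖v i * w j - v j * w i‖) := mul_le_mul_of_nonneg_right h4 hDpos.le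
    have h6 : R k * (‖lam‖ * ‖v i * w j - v j * w i‖) =
        ‖lam‖ * R k * ‖v i * w j - v j * w i‖ := by ring
    linarith
  · intro k z hz
    refine ⟨hh1 k z hz, ?_⟩
    show eval (fun j => h k z * f k z j) X * (eval (fun j => h k z * f k z j) X)⁻¹ = 1
    exact mul_inv_cancel₀ (hXne k z hz)
  · intro j
    rfl

end

end Pool.Agent.Work.MP_6d7a54_an.NM
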