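import Pool.Agent.Work.MP_6d7a54_an.NM.StmtsB

/-!
# Discs in the complement of a sum of powers are bounded (MP_6d7a54_an, block NM, item Bnd)
-/

set_option autoImplicit false

namespace Pool.Agent.Work.MP_6d7a54_an.NM

open MvPolynomial Metric
open Pool.Agent.Work.MP_6d7a54_an.NF (IsNev)

noncomputable section

namespace BBndx

/-- evaluation of a form at a multiple of a point -/
theorem eval_lam {m n : ℕ} {B : MvPolynomial (Fin m) ℂ} (hB : B.IsHomogeneous n) (lam : ℂ)
    (w : Fin m → ℂ) : eval (fun j => lam * w j) B = lam ^ n * eval w B := by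
  rw [eval_eq, eval_eq, Finset.mul_sum]
  apply Finset.sum_congr rfl
  intro k hm
  have hd : k.degree = n := by
    have h1 : Finsupp.weight (fun _ : Fin m => 1) k = n := hB (mem_support_iff.1 hm)
    rw [← h1, ← Finsupp.degree_eq_weight_one]
  have e : ∏ i ∈ k.support, (lam * w i) ^ k i = lam ^ n * ∏ i ∈ k.support, w i ^ k i := by
    simp only [mul_pow]
    rw [Finset.prod_mul_distrib, Finset.prod_pow_eq_pow_sum, ← hd]
    rfl
  rw [e]
  ring

theorem aev {F : Type} [Field F] [Algebra F ℂ] {m : ℕ} (w : Fin m → ℂ)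
    (Q : MvPolynomial (Fin m) F) :
    aeval w Q = eval w (map (algebraMap F ℂ) Q) := by
  rw [eval_map, aeval_def]

/-- positive part of the logarithm of the maximum of finitely many numbers -/
theorem logmax {N : ℕ} (b : Fin (N + 1) → ℝ) (hb : ∀ i, 0 ≤ b i) {K x : ℝ} (hK : 1 ≤ K)
    (hx0 : 0 ≤ x) (hx : ∀ B : ℝ, 1 ≤ B → (∀ i, b i ≤ B) → x ≤ K * B) :
    Real.posLog x ≤ (1 + Real.log K) * (1 + ∑ i, Real.posLog (b i)) := by
  set s : ℝ := ∑ i, Real.posLog (b i) with hs
  have hs0 : 0 ≤ s := Finset.sum_nonneg fun i _ => Real.posLog_nonneg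
  have hlogK : 0 ≤ Real.log K := Real.log_nonneg hK
  have h1 : ∀ i, b i ≤ Real.exp s := by
    intro i
    have h2 : Real.posLog (b i) ≤ s :=
      Finset.single_le_sum (f := fun i => Real.posLog (b i))
        (fun i _ => Real.posLog_nonneg) (Finset.mem_univ i)
    rcases (hb i).eq_or_lt with h3 | h3
    · rw [← h3]
      exact (Real.exp_pos _).le
    · have h4 : Real.log (b i) ≤ s := by
        refine le_trans ?_ h2
        rw [Real.posLog_apply]
        exact le_max_right _ _
      rwa [Real.log_le_iff_le_exp h3] at h4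
  have h2 := hx (Real.exp s) (Real.one_le_exp hs0) h1
  have h3 : K * Real.exp s = Real.exp (Real.log K + s) := by
    rw [Real.exp_add, Real.exp_log (by linarith)]
  rw [h3] at h2
  have h4 : Real.posLog x ≤ Real.log K + s := by
    rw [Real.posLog_apply]
    refine max_le (by linarith) ?_
    rcases hx0.eq_or_lt with h5 | h5
    · rw [← h5, Real.log_zero]
      linarith
    · rw [Real.log_le_iff_le_exp h5]
      exact h2
  nlinarith

end BBndx

open BBndx in
theorem Bnd_pf (h1 : S_Nev) (h2 : B_Alg) (h3 : B_Gro) (h4 : B_Bad) (h5 : B_Dsc) : B_Bnd := by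
  intro n N K D dX X G U f m mu J hD hX hG h0 hfac hJ hmu hU hF hnum w hw hwX hsum v hv
  by_contra hcon
  push Not at hcon
  choose eU hU' using hU
  choose V hV using hU'
  obtain ⟨eF, hF'⟩ := hF
  have hFh : (∑ i, G i).IsHomogeneous D := IsHomogeneous.sum _ _ _ fun i _ => hG i
  obtain ⟨lam, c0, g, hlam, hbad, hrel, hc0⟩ := h4 n D dX eF X (∑ i, G i) hD hX hFh hF' w v hw
    hwX hv (by
      intro A
      obtain ⟨R, f, c, k1, k2, k3, k4, k5⟩ := hcon A
      exact ⟨R, f, c, k5.le, k1, k2, k3, k4⟩)
  obtain ⟨K0, hK1, hK0⟩ := h3 n N D G hD hG h0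
  -- descent
  obtain ⟨F, iF, iA, hcount, P, hP⟩ := h5
    (Unit ⊕ (Fin (N + 1) ⊕ (Fin (N + 1) ⊕ (Fin (N + 1) ⊕ (Fin (N + 1) × Fin K))))) (n + 1)
    (Sum.elim (fun _ => X) (Sum.elim G (Sum.elim U (Sum.elim V (fun p => f p.1 p.2)))))
  set X' : MvPolynomial (Fin (n + 1)) F := P (Sum.inl ()) with hX'
  set G' : Fin (N + 1) → MvPolynomial (Fin (n + 1)) F := fun i => P (Sum.inr (Sum.inl i)) with hG'
  set U' : Fin (N + 1) → MvPolynomial (Fin (n + 1)) F :=
    fun i => P (Sum.inr (Sum.inr (Sum.inl i))) with hU''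
  set V' : Fin (N + 1) → MvPolynomial (Fin (n + 1)) F :=
    fun i => P (Sum.inr (Sum.inr (Sum.inr (Sum.inl i)))) with hV'
  set f' : Fin (N + 1) → Fin K → MvPolynomial (Fin (n + 1)) F :=
    fun i k => P (Sum.inr (Sum.inr (Sum.inr (Sum.inr (i, k))))) with hf'
  have mX : map (algebraMap F ℂ) X' = X := hP _
  have mG : ∀ i, map (algebraMap F ℂ) (G' i) = G i := fun i => hP _
  have mU : ∀ i, map (algebraMap F ℂ) (U' i) = U i := fun i => hP _
  have mV : ∀ i, map (algebraMap F ℂ) (V' i) = V i := fun i => hP _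
  have mf : ∀ i k, map (algebraMap F ℂ) (f' i k) = f i k := fun i k => hP _
  have hinj : Function.Injective (map (algebraMap F ℂ) : MvPolynomial (Fin (n + 1)) F → _) :=
    map_injective _ (algebraMap F ℂ).injective
  have eUV : ∀ i, U' i * V' i = X' ^ eU i := by
    intro i
    apply hinj
    rw [map_mul, map_pow, mU, mV, mX]
    exact (hV i).symm
  have eG : ∀ i, G' i = U' i * ∏ k, f' i k ^ m i k := by
    intro i
    apply hinj
    rw [map_mul, map_prod, mG, mU, hfac]
    congr 1
    refine Finset.prod_congr rfl fun k _ => ?_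
    rw [map_pow, mf]
  have ef : ∀ i ∈ J, ∀ k, f' i k = 1 := by
    intro i hi k
    apply hinj
    rw [mf, map_one]
    exact hJ i hi k
  obtain ⟨L, iL, iAL, Dv, S, Sm, phi, hnev, hphi, hzr, hnz, hdom, hlast⟩ :=
    h1 F (Option (Fin (n + 1))) c0 g hbad
  set x : Fin (n + 1) → L := fun j => phi (some j) with hx
  set y : L := phi none with hy
  have hren : ∀ (Y : MvPolynomial (Fin (n + 1)) F), aeval phi (rename some Y) = aeval x Y := by
    intro Y
    rw [aeval_rename]
    rfl
  have hrenC : ∀ (Y : MvPolynomial (Fin (n + 1)) F) (k : ℕ) (z : ℂ),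
      aeval (fun l => g k l z) (rename (some : Fin (n + 1) → Option (Fin (n + 1))) Y) =
        eval (fun j => g k (some j) z) (map (algebraMap F ℂ) Y) := by
    intro Y k z
    rw [aeval_rename, aev]
    rfl
  have hxS : ∀ j, x j ∈ S := fun j => hphi _
  have hyS : y ∈ S := hphi _
  have hpS : ∀ Y : MvPolynomial (Fin (n + 1)) F, aeval x Y ∈ S := by
    intro Y
    induction Y using MvPolynomial.induction_on with
    | C a =>
      rw [aeval_C]
      exact S.algebraMap_mem a
    | add p q hp hq =>
      rw [map_add]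
      exact S.add_mem hp hq
    | mul_X p i hp =>
      rw [map_mul, aeval_X]
      exact S.mul_mem hp (hxS i)
  -- the relations
  have r1 : ∑ i, aeval x (G' i) = 1 := by
    have h := hzr (rename some (∑ i, G' i) - 1) (by
      intro k z hz
      rw [map_sub, hrenC, map_one, map_sum]
      simp only [mG]
      rw [(hrel k z hz).1, sub_self])
    rw [map_sub, hren, map_one, map_sum] at h
    exact sub_eq_zero.1 h
  have r2 : aeval x X' * y = 1 := by
    have h := hzr (rename some X' * MvPolynomial.X none - 1) (by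
      intro k z hz
      rw [map_sub, map_mul, hrenC, map_one, aeval_X, mX, (hrel k z hz).2, sub_self])
    rw [map_sub, map_mul, hren, map_one, aeval_X] at h
    exact sub_eq_zero.1 h
  have r3 : ∀ i, aeval x (U' i) * (aeval x (V' i) * y ^ eU i) = 1 := by
    intro i
    rw [← mul_assoc, ← map_mul, eUV, map_pow, ← mul_pow, r2, one_pow]
  have r4 : ∀ I : Finset (Fin (N + 1)), I.Nonempty → ∑ i ∈ I, aeval x (G' i) ≠ 0 := by
    intro I hI
    rw [← map_sum, ← hren]
    apply hnz
    refine ⟨lam ^ D * eval w (∑ i ∈ I, G i), mul_ne_zero (pow_ne_zero _ hlam) (hsum I hI), ?_⟩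
    intro k
    have hGh : (∑ i ∈ I, G i).IsHomogeneous D := IsHomogeneous.sum _ _ _ fun i _ => hG i
    rw [hrenC, map_sum]
    simp only [mG]
    rw [← eval_lam hGh]
    congr 1
    congr 1
    funext j
    rw [hbad.h0, hc0]
  have hsm : ∀ i, aeval x (G' i) ∈ Sm := by
    refine h2 F L Dv S Sm hnev N K (fun i => aeval x (G' i)) (fun i => aeval x (U' i))
      (fun i k => aeval x (f' i k)) m mu J ?_ ?_ ?_ ?_ hmu hnum r1 r4
    · intro i
      show aeval x (G' i) = _
      rw [eG, map_mul, map_prod]
      congr 1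
      refine Finset.prod_congr rfl fun k _ => ?_
      rw [map_pow]
    · intro i
      refine ⟨hpS _, ?_⟩
      show (aeval x (U' i))⁻¹ ∈ S
      rw [inv_eq_of_mul_eq_one_right (r3 i)]
      exact S.mul_mem (hpS _) (S.pow_mem hyS _)
    · intro i k
      exact hpS _
    · intro i hi k
      show aeval x (f' i k) = 1
      rw [ef i hi k, map_one]
  have hxm : ∀ j, x j ∈ Sm := by
    intro j
    have h := hdom (N + 1) (fun i => rename some (G' i)) (MvPolynomial.X (some j))
      (1 + Real.log K0) (by
        intro k z hz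
        rw [aeval_X]
        simp only [hrenC, mG]
        refine logmax (fun i => ‖eval (fun j => g k (some j) z) (G i)‖) (fun i => norm_nonneg _)
          hK1 (norm_nonneg _) ?_
        intro B hB hle
        exact (norm_le_pi_norm (fun j => g k (some j) z) j).trans (hK0 _ B hB hle)) (by
        intro i
        rw [hren]
        exact hsm i)
    rw [aeval_X] at h
    exact h
  have hXm : aeval x X' ∈ Sm := by
    have hpm : ∀ Y : MvPolynomial (Fin (n + 1)) F, aeval x Y ∈ Sm := by
      intro Y
      induction Y using MvPolynomial.induction_on with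
      | C a =>
        rw [aeval_C]
        exact Sm.algebraMap_mem a
      | add p q hp hq =>
        rw [map_add]
        exact Sm.add_mem hp hq
      | mul_X p i hp =>
        rw [map_mul, aeval_X]
        exact Sm.mul_mem hp (hxm i)
    exact hpm X'
  have hym : y ∈ Sm := by
    have h := (hnev.inv (aeval x X') (hpS X') hXm).2
    rwa [inv_eq_of_mul_eq_one_right r2] at h
  apply hlast
  intro l
  rcases l with _ | j
  · exact hym
  · exact hxm j

end

end Pool.Agent.Work.MP_6d7a54_an.NM
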