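import Pool.Agent.Work.MP_6d7a54_an.NM.StmtsB

/-!
# Item Det of block NM: Cartan's estimate for the Wronskian
-/

namespace Pool.Agent.Work.MP_6d7a54_an.NM

open MvPolynomial Metric
open Pool.Agent.Work.MP_6d7a54_an.NF (IsNev)

noncomputable section

namespace BDetx

theorem det_mem {F L : Type} [Field F] [Field L] [Algebra F L] (S : Subalgebra F L) {r : ℕ}
    (A : Matrix (Fin r) (Fin r) L) (h : ∀ i j, A i j ∈ S) : A.det ∈ S := by
  have h1 : A = (Matrix.of fun i j => (⟨A i j, h i j⟩ : S)).map S.val := by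
    ext i j
    rfl
  rw [h1, ← AlgHom.mapMatrix_apply, ← AlgHom.map_det]
  exact (Matrix.det _ : S).2

theorem iter_one {F L : Type} [Field F] [Field L] [Algebra F L] (D : Derivation F L L) (a : ℕ) :
    (D : L → L)^[a] 1 = if a = 0 then 1 else 0 := by
  induction a with
  | zero => simp
  | succ a ih =>
    rw [Function.iterate_succ_apply', ih, if_neg (Nat.succ_ne_zero a)]
    split_ifs
    · exact D.map_one_eq_zero
    · exact map_zero D

theorem iter_sum {F L : Type} [Field F] [Field L] [Algebra F L] (D : Derivation F L L) {r : ℕ}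
    (f mu : Fin r → L) (h : ∀ i, D (mu i) = 0) (a : ℕ) :
    (D : L → L)^[a] (∑ i, mu i * f i) = ∑ i, (D : L → L)^[a] (f i) * mu i := by
  induction a with
  | zero => simp [mul_comm]
  | succ a ih =>
    rw [Function.iterate_succ_apply', ih, map_sum]
    refine Finset.sum_congr rfl fun i _ => ?_
    rw [D.leibniz, h i, smul_zero, zero_add, smul_eq_mul, Function.iterate_succ_apply', mul_comm]

theorem scale {F L : Type} [Field F] [Field L] [Algebra F L] (S : Subalgebra F L) {r : ℕ}
    (A : Matrix (Fin r) (Fin r) L) (v : Fin r → L) (h : ∀ i j, v j * A i j ∈ S) :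
    (∏ i, v i) * A.det ∈ S := by
  rw [← Matrix.det_mul_row]
  exact det_mem S _ h

theorem upd {L : Type} [Field L] {r : ℕ} (A : Matrix (Fin r) (Fin r) L) (mu : Fin r → L)
    (j : Fin r) : (A.updateCol j (A.mulVec mu)).det = A.det * mu j := by
  rw [← Matrix.cramer_apply, Matrix.cramer_eq_adjugate_mulVec, Matrix.mulVec_mulVec,
    Matrix.adjugate_mul, Matrix.smul_mulVec, Matrix.one_mulVec, Pi.smul_apply, smul_eq_mul]

end BDetx

open BDetx in
/-- Item Det. -/
theorem Det_pf (h : B_Ld) : B_Det := by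
  intro F L _ _ _ D S Sm hN p f mu hf hmu hs
  obtain ⟨l1, l2, l3⟩ := h F L D S Sm hN
  have hw : ∀ T : Subalgebra F L, (∀ (a : ℕ) i, ((D : L → L)^[a] (f i)) * (f i)⁻¹ ∈ T) →
      Wd D f * (∏ i, f i)⁻¹ ∈ T := by
    intro T hT
    have h1 := scale T (Matrix.of fun a j : Fin (p + 1) => ((D : L → L)^[(a : ℕ)] (f j)))
      (fun i => (f i)⁻¹) (fun i j => by
        rw [mul_comm]
        exact hT _ _)
    rw [Finset.prod_inv_distrib, mul_comm] at h1
    exact h1
  refine ⟨hw Sm fun a i => l1 _ _, fun j => ?_, fun hS => hw S fun a i => l3 _ _ (hS i).1 (hS i).2⟩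
  set A : Matrix (Fin (p + 1)) (Fin (p + 1)) L :=
    Matrix.of fun a j : Fin (p + 1) => ((D : L → L)^[(a : ℕ)] (f j)) with hA
  have hb : A.mulVec mu = fun a : Fin (p + 1) => if (a : ℕ) = 0 then (1 : L) else 0 := by
    funext a
    rw [← iter_one D, ← hs, iter_sum D f mu (fun i => (hmu i).1)]
    rfl
  have h2 := upd A mu j
  rw [hb] at h2
  have h3 := scale Sm (A.updateCol j fun a : Fin (p + 1) => if (a : ℕ) = 0 then (1 : L) else 0)
    (fun i => if i = j then 1 else (f i)⁻¹) (fun a i => by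
      by_cases hi : i = j
      · subst hi
        rw [Matrix.updateCol_self, if_pos rfl, one_mul]
        split_ifs
        · exact one_mem _
        · exact zero_mem _
      · rw [Matrix.updateCol_ne hi, if_neg hi, mul_comm]
        exact l1 _ _)
  have h4 : (∏ i, if i = j then (1 : L) else (f i)⁻¹) = (∏ i, f i)⁻¹ * f j := by
    rw [← Finset.mul_prod_erase Finset.univ _ (Finset.mem_univ j), if_pos rfl, one_mul,
      ← Finset.mul_prod_erase Finset.univ f (Finset.mem_univ j), mul_inv, mul_comm (f j)⁻¹,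
      mul_assoc, inv_mul_cancel₀ (hf j), mul_one, ← Finset.prod_inv_distrib]
    refine Finset.prod_congr rfl fun i hi => ?_
    rw [if_neg (Finset.ne_of_mem_erase hi)]
  rw [h4, h2] at h3
  have h5 : (mu j)⁻¹ ∈ Sm := by
    refine hN.const _ ?_
    rw [Derivation.leibniz_inv, (hmu j).1, smul_zero]
  have h6 := mul_mem h3 h5
  have h7 : (∏ i, f i)⁻¹ * f j * (A.det * mu j) * (mu j)⁻¹ = Wd D f * (∏ i, f i)⁻¹ * f j := by
    have h8 := (hmu j).2
    have h9 : Wd D f = A.det := rfl
    rw [h9]
    field_simp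
  rw [← h7]
  exact h6

end

end Pool.Agent.Work.MP_6d7a54_an.NM
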