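import Pool.Agent.Work.MP_6d7a54_an.NM.StmtsB

/-!
# Divisibility of the Wronskian (MP_6d7a54_an, block NM, item Div)
-/

set_option autoImplicit false

namespace Pool.Agent.Work.MP_6d7a54_an.NM

open Pool.Agent.Work.MP_6d7a54_an.NF (IsNev)

noncomputable section

namespace BDivx

variable {F L : Type} [Field F] [Field L] [Algebra F L] {D : Derivation F L L}
  {S : Subalgebra F L}

theorem prod_split {K : ℕ} (q : Fin K → L) (s : Finset (Fin K)) (e : Fin K → ℕ)
    (he : ∀ k, 1 ≤ e k) :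
    ∏ k ∈ s, q k ^ e k = (∏ k ∈ s, q k ^ (e k - 1)) * ∏ k ∈ s, q k := by
  rw [← Finset.prod_mul_distrib]
  refine Finset.prod_congr rfl fun k _ => ?_
  rw [← pow_succ]
  congr 1
  have := he k
  omega

theorem dprod {K : ℕ} (hD : ∀ f ∈ S, D f ∈ S) (q : Fin K → L) (hq : ∀ k, q k ∈ S)
    (e : Fin K → ℕ) (he : ∀ k, 1 ≤ e k) (s : Finset (Fin K)) :
    ∃ s' ∈ S, D (∏ k ∈ s, q k ^ e k) = (∏ k ∈ s, q k ^ (e k - 1)) * s' := by
  classical
  induction s using Finset.induction_on with
  | empty =>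
    refine ⟨0, S.zero_mem, ?_⟩
    rw [Finset.prod_empty, D.map_one_eq_zero, mul_zero]
  | insert a s ha ih =>
    obtain ⟨s', hs', h⟩ := ih
    refine ⟨q a * s' + (e a : L) * D (q a) * ∏ k ∈ s, q k, ?_, ?_⟩
    · refine S.add_mem (S.mul_mem (hq a) hs') (S.mul_mem (S.mul_mem (natCast_mem S _) (hD _ (hq a)))
        (S.prod_mem fun k _ => hq k))
    · rw [Finset.prod_insert ha, Finset.prod_insert ha, Derivation.leibniz, h,
        Derivation.leibniz_pow, prod_split q s e he]
      obtain ⟨b, hb⟩ : ∃ b, e a = b + 1 := ⟨e a - 1, by have := he a; omega⟩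
      rw [hb]
      simp only [smul_eq_mul, nsmul_eq_mul, Nat.add_sub_cancel]
      ring

theorem iter {K : ℕ} (hD : ∀ f ∈ S, D f ∈ S) {v : L} (hv : v ∈ S) (q : Fin K → L)
    (hq : ∀ k, q k ∈ S) (m : Fin K → ℕ) (a : ℕ) (ha : ∀ k, a ≤ m k) :
    ∃ s ∈ S, (D : L → L)^[a] (v * ∏ k, q k ^ m k) = (∏ k, q k ^ (m k - a)) * s := by
  induction a with
  | zero =>
    refine ⟨v, hv, ?_⟩
    simp only [Function.iterate_zero, id_eq, Nat.sub_zero]
    ring
  | succ a ih =>
    obtain ⟨s, hs, h⟩ := ih fun k => by have := ha k; omega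
    have he : ∀ k, 1 ≤ m k - a := fun k => by have := ha k; omega
    obtain ⟨s', hs', h'⟩ := dprod hD q hq (fun k => m k - a) he Finset.univ
    refine ⟨(∏ k, q k) * D s + s * s', S.add_mem (S.mul_mem (S.prod_mem fun k _ => hq k) (hD _ hs))
      (S.mul_mem hs hs'), ?_⟩
    have e1 := prod_split q Finset.univ (fun k => m k - a) he
    have e2 : ∀ k, m k - a - 1 = m k - (a + 1) := fun k => by omega
    simp only [e2] at h' e1
    rw [Function.iterate_succ_apply', h, Derivation.leibniz, h', e1]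
    simp only [smul_eq_mul]
    ring

theorem det_mem {p : ℕ} (M : Matrix (Fin p) (Fin p) L) (h : ∀ i j, M i j ∈ S) : M.det ∈ S := by
  rw [Matrix.det_apply']
  exact S.sum_mem fun σ _ => S.mul_mem (intCast_mem S _) (S.prod_mem fun i _ => h _ _)

end BDivx

open BDivx in
theorem Div_pf : B_Div := by
  classical
  intro F L _ _ _ D S Sm hnev K p f v q m A hf hv hq hqA hp
  have hD := hnev.dS
  have key : ∀ (a j : Fin (p + 1)), ∃ s ∈ S, (D : L → L)^[(a : ℕ)] (f j) =
      (if j ∈ A then ∏ k, q j k ^ (m j k - p) else 1) * s := by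
    intro a j
    have hap : (a : ℕ) ≤ p := by have := a.isLt; omega
    by_cases hj : j ∈ A
    · rw [if_pos hj]
      obtain ⟨s, hs, h⟩ := iter hD (hv j) (q j) (hq j) (m j) a (fun k => hap.trans (hp j hj k))
      refine ⟨(∏ k, q j k ^ (p - (a : ℕ))) * s,
        S.mul_mem (S.prod_mem fun k _ => S.pow_mem (hq j k) _) hs, ?_⟩
      rw [hf j, h, ← mul_assoc, ← Finset.prod_mul_distrib]
      congr 1
      refine Finset.prod_congr rfl fun k _ => ?_
      rw [← pow_add]
      congr 1
      have := hp j hj k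
      omega
    · rw [if_neg hj]
      obtain ⟨s, hs, h⟩ := iter (K := 0) hD (hv j) (fun _ => 1) (fun _ => S.one_mem)
        (fun _ => a) a (fun _ => le_rfl)
      refine ⟨s, hs, ?_⟩
      have e : f j = v j := by
        rw [hf j, Finset.prod_eq_one (fun k _ => by rw [hqA j hj k, one_pow]), mul_one]
      rw [e]
      simpa using h
  choose s hs hkey using key
  refine ⟨(Matrix.of s).det, det_mem _ (fun i j => hs i j), ?_⟩
  have e : Wd D f = (Matrix.of fun a j : Fin (p + 1) =>
      (if j ∈ A then ∏ k, q j k ^ (m j k - p) else 1) * (Matrix.of s) a j).det := by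
    unfold Wd
    congr 1
    ext a j
    exact hkey a j
  rw [e, Matrix.det_mul_row, mul_comm]
  congr 1
  rw [Finset.prod_ite_mem, Finset.univ_inter]

end

end Pool.Agent.Work.MP_6d7a54_an.NM
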