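import Pool.Agent.Work.MP_6d7a54_an.NM.StmtsB

/-!
# Descent of the coefficients (MP_6d7a54_an, block NM, item Dsc)
-/

set_option autoImplicit false

namespace Pool.Agent.Work.MP_6d7a54_an.NM

open MvPolynomial

noncomputable section

theorem Dsc_pf (hA : NF.S_ACF) : B_Dsc := by
  classical
  intro ι _ m P
  obtain ⟨F, iF, iA, hc, hac, hs⟩ := hA
    (Finset.univ.biUnion fun a => (P a).support.image fun k => coeff k (P a))
  refine ⟨F, iF, iA, hc, ?_⟩
  have hs' : ∀ a, ∀ k ∈ (P a).support, ∃ x : F, algebraMap F ℂ x = coeff k (P a) := by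
    intro a k hm
    apply hs
    rw [Finset.mem_biUnion]
    exact ⟨a, Finset.mem_univ _, Finset.mem_image_of_mem _ hm⟩
  choose! pk hpk using hs'
  refine ⟨fun a => ∑ k ∈ (P a).support, monomial k (pk a k), ?_⟩
  intro a
  rw [map_sum]
  conv_rhs => rw [← support_sum_monomial_coeff (P a)]
  apply Finset.sum_congr rfl
  intro k hm
  rw [map_monomial, hpk a k hm]

end

end Pool.Agent.Work.MP_6d7a54_an.NM
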