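import Pool.Agent.Work.MP_6d7a54_an.NM.StmtsB

/-!
# From bounded discs to the Kobayashi-Royden metric (MP_6d7a54_an, block NM, item Fin)
-/

set_option autoImplicit false

namespace Pool.Agent.Work.MP_6d7a54_an.NM

open MvPolynomial Metric

noncomputable section

namespace BFinx

variable {n : ℕ}

/-- the set of admissible values is not empty -/
theorem nonempty_set {Ω : Set (Fin (n + 1) → ℂ)} (hΩ : IsOpen Ω) {w : Fin (n + 1) → ℂ}
    (hw : w ∈ Ω) (v : Fin (n + 1) → ℂ) :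
    {t : ℝ | ∃ (R : ℝ) (f : ℂ → Fin (n + 1) → ℂ) (c : ℂ), 0 < R ∧
    DifferentiableOn ℂ f (ball 0 1) ∧ (∀ z ∈ ball (0 : ℂ) 1, f z ∈ Ω) ∧ f 0 = w ∧
    deriv f 0 = (R : ℂ) • v + c • w ∧ t = 1 / R}.Nonempty := by
  obtain ⟨e, he, hball⟩ := Metric.isOpen_iff.1 hΩ w hw
  set R : ℝ := e / (2 * (‖v‖ + 1)) with hR
  have hv : 0 < ‖v‖ + 1 := by positivity
  have hRpos : 0 < R := by positivity
  have hder : ∀ z : ℂ, HasDerivAt (fun z : ℂ => w + (z * R) • v) ((R : ℂ) • v) z := by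
    intro z
    have h1 : HasDerivAt (fun z : ℂ => z * (R : ℂ)) (R : ℂ) z := by
      simpa using (hasDerivAt_id z).mul_const (R : ℂ)
    exact (h1.smul_const v).const_add w
  refine ⟨1 / R, R, fun z => w + (z * R) • v, 0, hRpos, ?_, ?_, ?_, ?_, rfl⟩
  · intro z _
    exact (hder z).differentiableAt.differentiableWithinAt
  · intro z hz
    apply hball
    have hz1 : ‖z‖ < 1 := by simpa using hz
    rw [mem_ball, dist_eq_norm, add_sub_cancel_left, norm_smul, norm_mul]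
    have h1 : ‖(R : ℂ)‖ = R := by
      rw [Complex.norm_real]
      exact abs_of_pos hRpos
    rw [h1]
    calc ‖z‖ * R * ‖v‖ ≤ 1 * R * (‖v‖ + 1) := by
          gcongr
          linarith
      _ = e / 2 := by
          rw [hR]
          field_simp
      _ < e := by linarith
  · simp
  · rw [(hder 0).deriv]
    simp

theorem pos_of_bound {Ω : Set (Fin (n + 1) → ℂ)} (hΩ : IsOpen Ω) {w v : Fin (n + 1) → ℂ}
    (hw : w ∈ Ω) {M : ℝ} (hb : ∀ (R : ℝ) (f : ℂ → Fin (n + 1) → ℂ) (c : ℂ),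
      DifferentiableOn ℂ f (ball 0 1) →
      (∀ z ∈ ball (0 : ℂ) 1, f z ∈ Ω) → f 0 = w → deriv f 0 = (R : ℂ) • v + c • w → R ≤ M) :
    0 < NG.kobayashiRoyden Ω w v := by
  have hM : 0 < max M 1 := lt_of_lt_of_le one_pos (le_max_right _ _)
  unfold NG.kobayashiRoyden
  refine lt_of_lt_of_le (one_div_pos.2 hM) (le_csInf (nonempty_set hΩ hw v) ?_)
  rintro t ⟨R, f, c, hR, hf, hfΩ, hf0, hder, rfl⟩
  exact one_div_le_one_div_of_le hR ((hb R f c hf hfΩ hf0 hder).trans (le_max_left _ _))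

theorem cone_open (X : MvPolynomial (Fin (n + 1)) ℂ) : IsOpen (NG.complementCone X) := by
  have : NG.complementCone X =
      {w : Fin (n + 1) → ℂ | w ≠ 0} ∩ {w : Fin (n + 1) → ℂ | eval w X ≠ 0} := rfl
  rw [this]
  exact (isOpen_ne_fun continuous_id continuous_const).inter
    (isOpen_ne_fun (MvPolynomial.continuous_eval X) continuous_const)

end BFinx

open BFinx in
theorem Fin_pf (h : B_Bnd) : B_Fin := by
  classical
  intro n N K D dX X G U f m mu J hD hX hG h0 hfac hJ hmu hU hF hnum hsum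
  refine ⟨∏ I ∈ (Finset.univ : Finset (Finset (Fin (N + 1)))).filter Finset.Nonempty,
    ∑ i ∈ I, G i, ∑ _I ∈ (Finset.univ : Finset (Finset (Fin (N + 1)))).filter Finset.Nonempty, D,
    ?_, ?_, ?_⟩
  · rw [Finset.prod_ne_zero_iff]
    intro I hI
    exact hsum I (Finset.mem_filter.1 hI).2
  · refine IsHomogeneous.prod _ _ _ fun I _ => ?_
    exact IsHomogeneous.sum _ _ _ fun i _ => hG i
  · intro w hw hQ v hv
    rw [map_prod, Finset.prod_ne_zero_iff] at hQ
    obtain ⟨M, hM⟩ := h n N K D dX X G U f m mu J hD hX hG h0 hfac hJ hmu hU hF hnum w hw.1 hw.2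
      (fun I hI => hQ I (Finset.mem_filter.2 ⟨Finset.mem_univ _, hI⟩)) v hv
    refine pos_of_bound (cone_open X) hw (M := M) fun R f' c hf hfΩ hf0 hder => ?_
    exact hM R f' c hf (fun z hz => (hfΩ z hz).2) hf0 hder

end

end Pool.Agent.Work.MP_6d7a54_an.NM
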