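import Pool.Agent.Work.MP_6d7a54_an.NM.StmtsB

/-!
# Forms without common zero control the norm (MP_6d7a54_an, block NM, item Gro)
-/

set_option autoImplicit false

namespace Pool.Agent.Work.MP_6d7a54_an.NM

open MvPolynomial Metric

noncomputable section

namespace BGrox

theorem eval_scale {n : ℕ} {φ : MvPolynomial (Fin (n + 1)) ℂ} {e : ℕ} (h : φ.IsHomogeneous e)
    (t : ℂ) (w : Fin (n + 1) → ℂ) : eval (fun j => t * w j) φ = t ^ e * eval w φ := by
  rw [eval_eq', eval_eq', Finset.mul_sum]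
  refine Finset.sum_congr rfl ?_
  intro m hm
  have hm' : ∑ i, m i = e := by
    have h1 := h (mem_support_iff.1 hm)
    have h2 : Finsupp.weight (fun _ => 1) m = e := h1
    rw [← Finsupp.degree_eq_weight_one, Finsupp.degree_eq_sum] at h2
    exact h2
  have h2 : ∏ i, (t * w i) ^ m i = t ^ e * ∏ i, w i ^ m i := by
    rw [← hm', ← Finset.prod_pow_eq_pow_sum, ← Finset.prod_mul_distrib]
    exact Finset.prod_congr rfl fun i _ => mul_pow _ _ _
  rw [h2]
  ring

end BGrox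

open BGrox in
theorem Gro_pf : B_Gro := by
  intro n N D P hD hP h0
  have hcont : Continuous fun w : Fin (n + 1) → ℂ => ∑ a, ‖eval w (P a)‖ := by
    refine continuous_finsetSum _ fun a _ => ?_
    exact (MvPolynomial.continuous_eval (P a)).norm
  have hne : (sphere (0 : Fin (n + 1) → ℂ) 1).Nonempty := by
    refine ⟨fun _ => 1, ?_⟩
    rw [mem_sphere_zero_iff_norm, pi_norm_const, norm_one]
  obtain ⟨w0, hw0, hmin⟩ := (isCompact_sphere (0 : Fin (n + 1) → ℂ) 1).exists_isMinOn hne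
    hcont.continuousOn
  set m : ℝ := ∑ a, ‖eval w0 (P a)‖ with hm
  have hmpos : 0 < m := by
    have h1 : 0 ≤ m := Finset.sum_nonneg fun a _ => norm_nonneg _
    rcases h1.eq_or_lt with h2 | h2
    · exfalso
      have h3 : ∀ a, eval w0 (P a) = 0 := by
        intro a
        have h4 := (Finset.sum_eq_zero_iff_of_nonneg (fun a _ => norm_nonneg _)).1 h2.symm a
          (Finset.mem_univ a)
        exact norm_eq_zero.1 h4
      have h5 := h0 w0 h3
      rw [h5] at hw0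
      simp at hw0
    · exact h2
  have hKpos : 0 < ((N : ℝ) + 1) / m := div_pos (by positivity) hmpos
  refine ⟨1 + ((N : ℝ) + 1) / m, by linarith, ?_⟩
  intro w B hB hw
  by_cases h1 : ‖w‖ ≤ 1
  · nlinarith
  · push Not at h1
    have hwpos : 0 < ‖w‖ := by linarith
    have hwne : (‖w‖ : ℂ) ≠ 0 := by exact_mod_cast hwpos.ne'
    have h2 : (fun j => (‖w‖ : ℂ)⁻¹ * w j) ∈ sphere (0 : Fin (n + 1) → ℂ) 1 := by
      rw [mem_sphere_zero_iff_norm]
      have h3 : (fun j => (‖w‖ : ℂ)⁻¹ * w j) = (‖w‖ : ℂ)⁻¹ • w := by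
        funext j
        rfl
      rw [h3, norm_smul, norm_inv, Complex.norm_real, norm_norm]
      exact inv_mul_cancel₀ hwpos.ne'
    have h3 : m ≤ ∑ a, ‖eval (fun j => (‖w‖ : ℂ)⁻¹ * w j) (P a)‖ := hmin h2
    have h4 : ∀ a, ‖w‖ * ‖eval (fun j => (‖w‖ : ℂ)⁻¹ * w j) (P a)‖ ≤ B := by
      intro a
      have h5 : eval w (P a) =
          (‖w‖ : ℂ) ^ D * eval (fun j => (‖w‖ : ℂ)⁻¹ * w j) (P a) := by
        rw [eval_scale (hP a), ← mul_assoc, ← mul_pow, mul_inv_cancel₀ hwne, one_pow, one_mul]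
      have h6 := hw a
      rw [h5, norm_mul, norm_pow, Complex.norm_real, norm_norm] at h6
      refine le_trans ?_ h6
      refine mul_le_mul_of_nonneg_right ?_ (norm_nonneg _)
      calc ‖w‖ = ‖w‖ ^ 1 := (pow_one _).symm
        _ ≤ ‖w‖ ^ D := pow_le_pow_right₀ h1.le hD
    have h7 : ‖w‖ * m ≤ ((N : ℝ) + 1) * B := by
      calc ‖w‖ * m ≤ ‖w‖ * ∑ a, ‖eval (fun j => (‖w‖ : ℂ)⁻¹ * w j) (P a)‖ :=
            mul_le_mul_of_nonneg_left h3 hwpos.le
        _ = ∑ a, ‖w‖ * ‖eval (fun j => (‖w‖ : ℂ)⁻¹ * w j) (P a)‖ := by rw [Finset.mul_sum]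
        _ ≤ ∑ _a : Fin (N + 1), B := Finset.sum_le_sum fun a _ => h4 a
        _ = ((N : ℝ) + 1) * B := by
          rw [Finset.sum_const, Finset.card_univ, Fintype.card_fin, nsmul_eq_mul]
          push_cast
          ring
    have h8 : ‖w‖ ≤ ((N : ℝ) + 1) * B / m := by
      rw [le_div_iff₀ hmpos]
      exact h7
    have h9 : ((N : ℝ) + 1) * B / m = ((N : ℝ) + 1) / m * B := by ring
    rw [h9] at h8
    nlinarith

end

end Pool.Agent.Work.MP_6d7a54_an.NM
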