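import Pool.Agent.Work.MP_6d7a54_an.NM.StmtsB

/-!
# The key step of the algebraic theorem (MP_6d7a54_an, block NM, item Key)
-/

set_option autoImplicit false

namespace Pool.Agent.Work.MP_6d7a54_an.NM

open MvPolynomial Metric
open Pool.Agent.Work.MP_6d7a54_an.NF (IsNev)

noncomputable section

namespace BKeyx

/-- factors of units are units -/
theorem unit_left {F L : Type} [Field F] [Field L] [Algebra F L] {S : Subalgebra F L} {x y : L}
    (hy : y ∈ S) (h0 : x * y ≠ 0) (h : (x * y)⁻¹ ∈ S) : x⁻¹ ∈ S := by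
  have e : x⁻¹ = y * (x * y)⁻¹ := by
    have hy0 : y ≠ 0 := right_ne_zero_of_mul h0
    rw [mul_inv, mul_comm x⁻¹ y⁻¹, ← mul_assoc, mul_inv_cancel₀ hy0, one_mul]
  rw [e]
  exact S.mul_mem hy h

end BKeyx

open BKeyx in
theorem Key_pf (h1 : B_Det) (h2 : B_Div) : B_Key := by
  classical
  intro F L _ _ _ D S Sm hnev K p f v mu q m mu' A h0 hf hv hq hqA hm hp hmu hsum hWd Om om hom
    hom'
  obtain ⟨H, hH, hWH⟩ := h2 F L D S Sm hnev K p f v q m A hf (fun j => (hv j).1) hq hqA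
    (fun j hj k => (hp j hj).trans (hm j hj k))
  obtain ⟨d1, d2, d3⟩ := h1 F L D S Sm hnev p f mu h0 hmu hsum
  set w : L := Wd D f * (∏ i, f i)⁻¹ with hw
  have hfp : ∏ i, f i ≠ 0 := Finset.prod_ne_zero_iff.2 fun i _ => h0 i
  have hw0 : w ≠ 0 := mul_ne_zero hWd (inv_ne_zero hfp)
  have hmu1 : ∀ j ∈ A, 1 ≤ mu' j := by
    intro j hj
    by_contra hcon
    have h3 : mu' j = 0 := by omega
    have h4 := hom' j hj
    rw [h3, zero_mul] at h4
    omega
  have hv0 : ∀ j, v j ≠ 0 := by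
    intro j hj
    apply h0 j
    rw [hf, hj, zero_mul]
  have hq0 : ∀ j k, q j k ≠ 0 := by
    intro j k hjk
    by_cases hj : j ∈ A
    · apply h0 j
      rw [hf, Finset.prod_eq_zero (Finset.mem_univ k), mul_zero]
      rw [hjk, zero_pow]
      have := hm j hj k
      have := hmu1 j hj
      omega
    · rw [hqA j hj k] at hjk
      exact one_ne_zero hjk
  set Qp : L := ∏ j ∈ A, ∏ k, q j k ^ p with hQp
  have hQp0 : Qp ≠ 0 := Finset.prod_ne_zero_iff.2 fun j _ =>
    Finset.prod_ne_zero_iff.2 fun k _ => pow_ne_zero _ (hq0 j k)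
  set H1 : L := H * (∏ j, v j)⁻¹ with hH1
  have hH1S : H1 ∈ S := by
    refine S.mul_mem hH ?_
    rw [← Finset.prod_inv_distrib]
    exact S.prod_mem fun j _ => (hv j).2
  have hfull : ∏ i, f i = (∏ j, v j) * ∏ j ∈ A, ∏ k, q j k ^ m j k := by
    have e : ∏ j ∈ A, ∏ k, q j k ^ m j k = ∏ j, ∏ k, q j k ^ m j k := by
      refine Finset.prod_subset (Finset.subset_univ A) ?_
      intro j _ hj
      refine Finset.prod_eq_one fun k _ => ?_
      rw [hqA j hj k, one_pow]
    rw [e, ← Finset.prod_mul_distrib]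
    exact Finset.prod_congr rfl fun j _ => hf j
  have hmid : (∏ j ∈ A, ∏ k, q j k ^ (m j k - p)) * Qp = ∏ j ∈ A, ∏ k, q j k ^ m j k := by
    rw [hQp, ← Finset.prod_mul_distrib]
    refine Finset.prod_congr rfl fun j hj => ?_
    rw [← Finset.prod_mul_distrib]
    refine Finset.prod_congr rfl fun k _ => ?_
    rw [← pow_add]
    congr 1
    have := (hp j hj).trans (hm j hj k)
    omega
  have hPm0 : ∏ j ∈ A, ∏ k, q j k ^ m j k ≠ 0 := Finset.prod_ne_zero_iff.2 fun j _ =>
    Finset.prod_ne_zero_iff.2 fun k _ => pow_ne_zero _ (hq0 j k)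
  have hvp0 : ∏ j, v j ≠ 0 := Finset.prod_ne_zero_iff.2 fun j _ => hv0 j
  have e1 : w * Qp = H1 := by
    rw [hw, hWH, hfull, hH1]
    have e2 : H * (∏ j ∈ A, ∏ k, q j k ^ (m j k - p)) *
        ((∏ j, v j) * ∏ j ∈ A, ∏ k, q j k ^ m j k)⁻¹ * Qp =
        H * ((∏ j ∈ A, ∏ k, q j k ^ (m j k - p)) * Qp) *
        ((∏ j, v j) * ∏ j ∈ A, ∏ k, q j k ^ m j k)⁻¹ := by ring
    rw [e2, hmid, mul_inv]
    field_simp
  set t : Fin (p + 1) → L := fun j => v j ^ om j * ∏ k, q j k ^ (m j k * om j - Om * p) with ht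
  set Z : L := w ^ Om * ∏ j ∈ A, f j ^ om j with hZ
  have hZm : Z ∈ Sm := by
    have e : Z = w ^ (Om - ∑ j ∈ A, om j) * ∏ j ∈ A, (w * f j) ^ om j := by
      have e2 : ∏ j ∈ A, (w * f j) ^ om j = w ^ (∑ j ∈ A, om j) * ∏ j ∈ A, f j ^ om j := by
        rw [← Finset.prod_pow_eq_pow_sum, ← Finset.prod_mul_distrib]
        exact Finset.prod_congr rfl fun j _ => mul_pow _ _ _
      rw [e2, ← mul_assoc, ← pow_add, Nat.sub_add_cancel hom]
    rw [e]
    exact Sm.mul_mem (Sm.pow_mem d1 _) (Sm.prod_mem fun j _ => Sm.pow_mem (d2 j) _)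
  have hexp : ∀ j ∈ A, ∀ k, Om * p + 1 ≤ m j k * om j := fun j hj k =>
    (hom' j hj).trans (Nat.mul_le_mul_right _ (hm j hj k))
  have hZt : Z = H1 ^ Om * ∏ j ∈ A, t j := by
    apply mul_right_cancel₀ (pow_ne_zero Om hQp0)
    have e2 : Z * Qp ^ Om = H1 ^ Om * ∏ j ∈ A, f j ^ om j := by
      rw [← e1, hZ]
      ring
    have e3 : (∏ j ∈ A, t j) * Qp ^ Om = ∏ j ∈ A, f j ^ om j := by
      rw [hQp, ← Finset.prod_pow, ← Finset.prod_mul_distrib]
      refine Finset.prod_congr rfl fun j hj => ?_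
      rw [ht]
      show v j ^ om j * (∏ k, q j k ^ (m j k * om j - Om * p)) * (∏ k, q j k ^ p) ^ Om = _
      rw [hf j, mul_pow, mul_assoc]
      congr 1
      rw [← Finset.prod_pow, ← Finset.prod_pow, ← Finset.prod_mul_distrib]
      refine Finset.prod_congr rfl fun k _ => ?_
      rw [← pow_mul, ← pow_mul, ← pow_add]
      congr 1
      have h4 := hexp j hj k
      rw [mul_comm p Om]
      omega
    rw [e2, mul_assoc, e3]
  have htS : ∀ j, t j ∈ S := fun j => S.mul_mem (S.pow_mem (hv j).1 _)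
    (S.prod_mem fun k _ => S.pow_mem (hq j k) _)
  have hZS : Z ∈ S := by
    rw [hZt]
    exact S.mul_mem (S.pow_mem hH1S _) (S.prod_mem fun j _ => htS j)
  have hZ0 : Z ≠ 0 := mul_ne_zero (pow_ne_zero _ hw0)
    (Finset.prod_ne_zero_iff.2 fun j _ => pow_ne_zero _ (h0 j))
  have hZi := (hnev.inv Z hZS hZm).1
  have hqi : ∀ j k, (q j k)⁻¹ ∈ S := by
    intro j k
    by_cases hj : j ∈ A
    · have hP0 : ∏ j ∈ A, t j ≠ 0 := by
        intro h
        rw [hZt, h, mul_zero] at hZ0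
        exact hZ0 rfl
      have hPi : (∏ j ∈ A, t j)⁻¹ ∈ S := by
        refine unit_left (y := H1 ^ Om) (S.pow_mem hH1S _) ?_ ?_
        · rw [mul_comm, ← hZt]
          exact hZ0
        · rw [mul_comm, ← hZt]
          exact hZi
      have hP1 : t j * ∏ i ∈ A.erase j, t i = ∏ i ∈ A, t i := Finset.mul_prod_erase A t hj
      have htj0 : t j ≠ 0 := by
        intro h
        rw [h, zero_mul] at hP1
        exact hP0 hP1.symm
      have hti : (t j)⁻¹ ∈ S := by
        refine unit_left (y := ∏ i ∈ A.erase j, t i) (S.prod_mem fun i _ => htS i) ?_ ?_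
        · rw [hP1]
          exact hP0
        · rw [hP1]
          exact hPi
      set c : L := ∏ l, q j l ^ (m j l * om j - Om * p) with hc
      have hc1 : c⁻¹ ∈ S := by
        refine unit_left (y := v j ^ om j) (S.pow_mem (hv j).1 _) ?_ ?_
        · rw [mul_comm]
          exact htj0
        · rw [mul_comm]
          exact hti
      have hc0 : c ≠ 0 := Finset.prod_ne_zero_iff.2 fun l _ => pow_ne_zero _ (hq0 j l)
      have hc2 : q j k ^ (m j k * om j - Om * p) *
          ∏ l ∈ Finset.univ.erase k, q j l ^ (m j l * om j - Om * p) = c :=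
        Finset.mul_prod_erase Finset.univ (fun l => q j l ^ (m j l * om j - Om * p))
          (Finset.mem_univ k)
      have hc3 : (q j k ^ (m j k * om j - Om * p))⁻¹ ∈ S := by
        refine unit_left (y := ∏ l ∈ Finset.univ.erase k, q j l ^ (m j l * om j - Om * p))
          (S.prod_mem fun l _ => S.pow_mem (hq j l) _) ?_ ?_
        · rw [hc2]
          exact hc0
        · rw [hc2]
          exact hc1
      obtain ⟨s, hs⟩ : ∃ s, m j k * om j - Om * p = s + 1 := by
        refine ⟨m j k * om j - Om * p - 1, ?_⟩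
        have := hexp j hj k
        omega
      rw [hs, pow_succ, mul_comm] at hc3
      refine unit_left (y := q j k ^ s) (S.pow_mem (hq j k) _) ?_ hc3
      exact mul_ne_zero (hq0 j k) (pow_ne_zero _ (hq0 j k))
    · rw [hqA j hj k, inv_one]
      exact S.one_mem
  have hunit : ∀ i, f i ∈ S ∧ (f i)⁻¹ ∈ S := by
    intro i
    rw [hf i]
    refine ⟨S.mul_mem (hv i).1 (S.prod_mem fun k _ => S.pow_mem (hq i k) _), ?_⟩
    rw [mul_inv, ← Finset.prod_inv_distrib]
    refine S.mul_mem (hv i).2 (S.prod_mem fun k _ => ?_)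
    rw [← inv_pow]
    exact S.pow_mem (hqi i k) _
  have hwS : w ∈ S := d3 hunit
  have hwi := (hnev.inv w hwS d1).2
  intro j
  have e5 : f j = w * f j * w⁻¹ := by
    field_simp
  rw [e5]
  exact Sm.mul_mem (d2 j) hwi

end

end Pool.Agent.Work.MP_6d7a54_an.NM
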