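import Pool.Agent.Work.MP_6d7a54_an.NM.StmtsB

/-!
# Higher logarithmic derivatives
-/

namespace Pool.Agent.Work.MP_6d7a54_an.NM

open Pool.Agent.Work.MP_6d7a54_an.NF (IsNev)

noncomputable section

theorem Ld_pf : B_Ld := by
  intro F L _ _ _ D S Sm hN
  have h2 : ∀ (f : L) (a : ℕ), f ∈ S → (D : L → L)^[a] f ∈ S := by
    intro f a hf
    induction a with
    | zero => exact hf
    | succ a ih =>
      rw [Function.iterate_succ_apply']
      exact hN.dS _ ih
  refine ⟨?_, h2, fun f a hf hfi => S.mul_mem (h2 f a hf) hfi⟩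
  intro f a
  induction a with
  | zero =>
    show f * f⁻¹ ∈ Sm
    by_cases hf : f = 0
    · rw [hf, zero_mul]
      exact Sm.zero_mem
    · rw [mul_inv_cancel₀ hf]
      exact Sm.one_mem
  | succ a ih =>
    rw [Function.iterate_succ_apply']
    generalize (D : L → L)^[a] f = x at ih ⊢
    by_cases hx : x = 0
    · rw [hx, map_zero, zero_mul]
      exact Sm.zero_mem
    · have e : D x * f⁻¹ = (D x * x⁻¹) * (x * f⁻¹) := by
        rw [mul_assoc, inv_mul_cancel_left₀ hx]
      rw [e]
      exact Sm.mul_mem (hN.ld x) ih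

end

end Pool.Agent.Work.MP_6d7a54_an.NM
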