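import Pool.Agent.Work.MP_6d7a54_an.NM.StmtsB

/-!
# A minimal relation (MP_6d7a54_an, block NM, item Min)
-/

set_option autoImplicit false

namespace Pool.Agent.Work.MP_6d7a54_an.NM

noncomputable section

namespace BMinx

/-- relations with `r` terms -/
def Rel {F L : Type} [Field F] [Field L] [Algebra F L] (D : Derivation F L L) {M : ℕ}
    (f : Fin M → L) (r : ℕ) : Prop :=
  ∃ (e : Fin r → Fin M) (mu : Fin r → L), Function.Injective e ∧ (∀ j, D (mu j) = 0) ∧
    ∑ j, mu j * f (e j) = 1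

theorem drop {F L : Type} [Field F] [Field L] [Algebra F L] {D : Derivation F L L} {M : ℕ}
    {f : Fin M → L} {p : ℕ} {e : Fin (p + 1) → Fin M} {mu : Fin (p + 1) → L}
    (he : Function.Injective e) (hmu : ∀ j, D (mu j) = 0) (hs : ∑ j, mu j * f (e j) = 1)
    (j0 : Fin (p + 1)) (h0 : mu j0 = 0) : Rel D f p := by
  refine ⟨fun i => e (j0.succAbove i), fun i => mu (j0.succAbove i),
    he.comp Fin.succAbove_right_injective, fun i => hmu _, ?_⟩
  rw [Fin.sum_univ_succAbove _ j0, h0, zero_mul, zero_add] at hs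
  exact hs

theorem cdiv {F L : Type} [Field F] [Field L] [Algebra F L] (D : Derivation F L L) {x y : L}
    (hx : D x = 0) (hy : D y = 0) : D (x / y) = 0 := by
  by_cases hy0 : y = 0
  · rw [hy0, div_zero, map_zero]
  · have h1 : D (x / y * y) = 0 := by rw [div_mul_cancel₀ _ hy0, hx]
    rw [Derivation.leibniz, hy, smul_zero, zero_add, smul_eq_mul] at h1
    exact (mul_eq_zero.1 h1).resolve_left hy0

end BMinx

open BMinx in
theorem Min_pf (h : B_Wz) : B_Min := by
  classical
  intro F L _ _ _ D M f hf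
  have hex : ∃ r, Rel D f r := ⟨M, id, fun _ => 1, Function.injective_id,
    fun _ => D.map_one_eq_zero, by simpa using hf⟩
  obtain ⟨e, mu, he, hmu, hs⟩ := Nat.find_spec hex
  have hmin : ∀ r, r < Nat.find hex → ¬ Rel D f r := fun r hr => Nat.find_min hex hr
  obtain ⟨p, hp⟩ : ∃ p, Nat.find hex = p + 1 := by
    refine Nat.exists_eq_succ_of_ne_zero ?_
    intro h0
    have hR : Rel D f 0 := by
      rw [← h0]
      exact ⟨e, mu, he, hmu, hs⟩
    obtain ⟨e', mu', -, -, hs'⟩ := hR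
    simp at hs'
  have hR : Rel D f (p + 1) := by
    rw [← hp]
    exact ⟨e, mu, he, hmu, hs⟩
  have hmin' : ¬ Rel D f p := hmin p (by omega)
  clear hs hmu he
  obtain ⟨e, mu, he, hmu, hs⟩ := hR
  refine ⟨p, e, mu, he, fun j => ⟨hmu j, fun h0 => hmin' (drop he hmu hs j h0)⟩, hs, ?_⟩
  intro hW
  obtain ⟨c, hc0, hc, hcs⟩ := h F L D (p + 1) (fun j => f (e j)) hW
  obtain ⟨j0, hj0⟩ : ∃ j0, c j0 ≠ 0 := by
    by_contra hcon
    push Not at hcon
    exact hc0 (funext hcon)
  have hcon : D (mu j0 / c j0) = 0 := cdiv D (hmu j0) (hc j0)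
  refine hmin' (drop (mu := fun j => mu j - mu j0 / c j0 * c j) he ?_ ?_ j0 ?_)
  · intro j
    rw [map_sub, Derivation.leibniz, hmu j, hc j, hcon, smul_zero, smul_zero, add_zero, sub_zero]
  · have e1 : ∑ j, (mu j - mu j0 / c j0 * c j) * f (e j) =
        ∑ j, mu j * f (e j) - mu j0 / c j0 * ∑ j, c j * f (e j) := by
      rw [Finset.mul_sum, ← Finset.sum_sub_distrib]
      exact Finset.sum_congr rfl fun j _ => by ring
    rw [e1, hs, hcs, mul_zero, sub_zero]
  · show mu j0 - mu j0 / c j0 * c j0 = 0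
    rw [div_mul_cancel₀ _ hj0, sub_self]

end

end Pool.Agent.Work.MP_6d7a54_an.NM
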