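import Pool.Agent.Work.MP_6d7a54_an.NM.StmtsB
import Pool.Agent.Work.MP_6d7a54_an.UP.Fac

/-! Item Nor of the block NM: normalisation of a disc. -/

set_option autoImplicit false

namespace Pool.Agent.Work.MP_6d7a54_an.NM

open MvPolynomial Metric

noncomputable section

namespace BNorx

theorem eval_scale {n : ℕ} {φ : MvPolynomial (Fin (n + 1)) ℂ} {e : ℕ} (h : φ.IsHomogeneous e) (t : ℂ)
    (w : Fin (n + 1) → ℂ) : eval (fun j => t * w j) φ = t ^ e * eval w φ := by
  rw [eval_eq', eval_eq', Finset.mul_sum]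
  refine Finset.sum_congr rfl ?_
  intro m hm
  have hm' : ∑ i, m i = e := by
    have h1 := h (mem_support_iff.1 hm)
    have h2 : Finsupp.weight (fun _ => 1) m = e := h1
    rw [← Finsupp.degree_eq_weight_one, Finsupp.degree_eq_sum] at h2
    exact h2
  have h2 : ∏ i, (t * w i) ^ m i = t ^ e * ∏ i, w i ^ m i := by
    rw [← hm', ← Finset.prod_pow_eq_pow_sum, ← Finset.prod_mul_distrib]
    exact Finset.prod_congr rfl fun i _ => mul_pow _ _ _
  rw [h2]
  ring

theorem diff_eval {n : ℕ} {f : ℂ → Fin (n + 1) → ℂ} {s : Set ℂ}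
    (hf : ∀ j, DifferentiableOn ℂ (fun z => f z j) s) (φ : MvPolynomial (Fin (n + 1)) ℂ) :
    DifferentiableOn ℂ (fun z => eval (f z) φ) s := by
  induction φ using MvPolynomial.induction_on with
  | C a =>
    simp only [eval_C]
    exact differentiableOn_const _
  | add p q hp hq =>
    simp only [map_add]
    exact hp.add hq
  | mul_X p i hp =>
    simp only [map_mul, eval_X]
    exact hp.mul (hf i)

theorem logv {H : ℂ → ℂ} (hH : DifferentiableOn ℂ H (ball 0 1))
    (hne : ∀ z ∈ ball (0 : ℂ) 1, H z ≠ 0) {l : ℂ} (hl : Complex.exp l = H 0) :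
    ∃ L : ℂ → ℂ, DifferentiableOn ℂ L (ball 0 1) ∧
      (∀ z ∈ ball (0 : ℂ) 1, Complex.exp (L z) = H z) ∧ L 0 = l := by
  obtain ⟨L, hL, he, -, -⟩ := Pool.Agent.Work.MP_6d7a54_an.UP.Fac.exists_log one_pos hH hne
  have h0 : (0 : ℂ) ∈ ball (0 : ℂ) 1 := mem_ball_self one_pos
  refine ⟨fun z => L z + (l - L 0), hL.add_const _, ?_, by ring⟩
  intro z hz
  show Complex.exp (L z + (l - L 0)) = H z
  rw [Complex.exp_add, he z hz, Complex.exp_sub, hl, he 0 h0, div_self (hne 0 h0), mul_one]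

end BNorx

theorem Nor_pf : B_Nor := by
  intro n D Fm hD hF w hw
  refine ⟨Complex.exp (-Complex.log (eval w Fm) / D), Complex.exp_ne_zero _, ?_⟩
  intro f hf hne hf0
  have hfj : ∀ j, DifferentiableOn ℂ (fun z => f z j) (ball 0 1) :=
    fun j => differentiableOn_pi.1 hf j
  have hl : Complex.exp (Complex.log (eval w Fm)) = eval (f 0) Fm := by
    rw [hf0, Complex.exp_log hw]
  obtain ⟨L, hL, hLe, hL0⟩ := BNorx.logv (BNorx.diff_eval hfj Fm) hne hl
  have hDne : (D : ℂ) ≠ 0 := by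
    have : D ≠ 0 := by omega
    exact_mod_cast this
  refine ⟨fun z => Complex.exp (-L z / D), ?_, ?_, fun z _ => Complex.exp_ne_zero _, ?_⟩
  · exact (hL.neg.div_const _).cexp
  · show Complex.exp (-L 0 / D) = _
    rw [hL0]
  · intro z hz
    rw [BNorx.eval_scale hF, ← Complex.exp_nat_mul, ← hLe z hz, ← Complex.exp_add]
    have h1 : (D : ℂ) * (-L z / D) + L z = 0 := by
      field_simp
      ring
    rw [h1, Complex.exp_zero]

end

end Pool.Agent.Work.MP_6d7a54_an.NM
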