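import Pool.Agent.Work.MP_6d7a54_an.NM.StmtsB

/-!
# Numbers (MP_6d7a54_an, block NM, item Num)
-/

set_option autoImplicit false

namespace Pool.Agent.Work.MP_6d7a54_an.NM

noncomputable section

theorem Num_pf : B_Num := by
  classical
  intro p N m A hpN hm hN
  have hpos : ∀ j ∈ A, (0 : ℝ) < m j := fun j hj => by exact_mod_cast hm j hj
  have hN0 : (0 : ℝ) ≤ N := Nat.cast_nonneg N
  have hp0 : (0 : ℝ) ≤ p := Nat.cast_nonneg p
  have hpN' : (p : ℝ) ≤ N := by exact_mod_cast hpN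
  have hnn : ∀ j ∈ A, (0 : ℝ) ≤ 1 / (m j : ℝ) := fun j hj => (one_div_pos.2 (hpos j hj)).le
  refine ⟨?_, ?_⟩
  · intro j hj
    have h1 : 1 / (m j : ℝ) ≤ ∑ j ∈ A, 1 / (m j : ℝ) :=
      Finset.single_le_sum (f := fun j => 1 / (m j : ℝ)) hnn hj
    have h2 : (N : ℝ) * (1 / (m j : ℝ)) < 1 := lt_of_le_of_lt (mul_le_mul_of_nonneg_left h1 hN0) hN
    rw [mul_one_div, div_lt_one (hpos j hj)] at h2
    have h3 : N < m j := by exact_mod_cast h2
    omega
  · set s : ℝ := ∑ j ∈ A, 1 / (m j : ℝ) with hs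
    have hs0 : 0 ≤ s := Finset.sum_nonneg hnn
    have hdel : 0 < 1 - p * s := by
      have : (p : ℝ) * s ≤ N * s := mul_le_mul_of_nonneg_right hpN' hs0
      linarith
    obtain ⟨Om, hOm⟩ := exists_nat_gt ((A.card : ℝ) / (1 - p * s))
    rw [div_lt_iff₀ hdel] at hOm
    refine ⟨Om, fun j => Om * p / m j + 1, ?_, ?_⟩
    · have h1 : ((∑ j ∈ A, (Om * p / m j + 1) : ℕ) : ℝ) ≤ (Om : ℝ) * (p * s) + A.card := by
        rw [Nat.cast_sum]
        have h2 : ∀ j ∈ A, ((Om * p / m j + 1 : ℕ) : ℝ) ≤ (Om : ℝ) * p * (1 / (m j : ℝ)) + 1 := by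
          intro j hj
          have h3 : ((Om * p / m j : ℕ) : ℝ) ≤ ((Om * p : ℕ) : ℝ) / (m j : ℝ) := Nat.cast_div_le
          push_cast at h3 ⊢
          rw [mul_one_div]
          linarith
        refine (Finset.sum_le_sum h2).trans ?_
        rw [Finset.sum_add_distrib, ← Finset.mul_sum, Finset.sum_const, nsmul_eq_mul, mul_one,
          ← hs, mul_assoc]
      have h4 : ((∑ j ∈ A, (Om * p / m j + 1) : ℕ) : ℝ) ≤ (Om : ℝ) := by
        nlinarith
      exact_mod_cast h4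
    · intro j hj
      have h1 := Nat.div_add_mod (Om * p) (m j)
      have h2 := Nat.mod_lt (Om * p) (hm j hj)
      show Om * p + 1 ≤ m j * (Om * p / m j + 1)
      rw [Nat.mul_add, Nat.mul_one]
      omega

end

end Pool.Agent.Work.MP_6d7a54_an.NM
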