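import Pool.Agent.Work.MP_6d7a54_an.NM.StmtsB

/-!
# Vanishing Wronskian (MP_6d7a54_an, block NM, item Wz)
-/

set_option autoImplicit false

namespace Pool.Agent.Work.MP_6d7a54_an.NM

noncomputable section

theorem Wz_pf (h : NG.S_Wr) : B_Wz := by
  intro F L _ _ _ D r f hW
  exact h L (D.restrictScalars ℤ) r f hW

end

end Pool.Agent.Work.MP_6d7a54_an.NM
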