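import Pool.Agent.Work.MP_6d7a54_an.NM.Stmts

/-!
# Block NM, item Base: Schwarz lemma near the centre
-/

namespace Pool.Agent.Work.MP_6d7a54_an.NM

open Filter Metric Set Topology Real
open Pool.Agent.Work.MP_6d7a54_an.NF (IsNev DP ev dd UF)

noncomputable section

namespace Basex

theorem posLog_add_le (x e : ℝ) (hx : 0 ≤ x) (he : 0 ≤ e) :
    Real.posLog (x + e) ≤ Real.posLog x + e := by
  rw [Real.posLog_eq_log_max_one hx, Real.posLog_eq_log_max_one (add_nonneg hx he)]
  have h1 : (1 : ℝ) ≤ max 1 x := le_max_left _ _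
  have h2 : max 1 (x + e) ≤ max 1 x * (1 + e) := by
    refine max_le ?_ ?_
    · nlinarith
    · have h3 : x ≤ max 1 x := le_max_right _ _
      nlinarith
  calc Real.log (max 1 (x + e)) ≤ Real.log (max 1 x * (1 + e)) :=
        Real.log_le_log (lt_of_lt_of_le one_pos (le_max_left _ _)) h2
    _ = Real.log (max 1 x) + Real.log (1 + e) :=
        Real.log_mul (by linarith) (by linarith)
    _ ≤ Real.log (max 1 x) + e := by
        have h4 := Real.log_le_sub_one_of_pos (show (0 : ℝ) < 1 + e by linarith)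
        linarith

end Basex

theorem Base_proof (h1 : S_Gx) : S_Base := by
  intro I _ C0
  refine ⟨1 + 8 * (Fintype.card I : ℝ) * Real.exp (C0 + 1), ?_, ?_⟩
  · have : 0 ≤ 8 * (Fintype.card I : ℝ) * Real.exp (C0 + 1) := by positivity
    linarith
  intro g hg hg0 tau ht ht1 hG
  set y : ℝ := 1 + 8 * (Fintype.card I : ℝ) * Real.exp (C0 + 1) with hy
  have hcard : 0 ≤ 8 * (Fintype.card I : ℝ) * Real.exp (C0 + 1) := by positivity
  have hy1 : 1 ≤ y := by rw [hy]; linarith
  obtain ⟨-, -, hexp, -, hle, -, hsup⟩ := h1 I g hg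
  have hey : Real.exp (-y) * y ≤ 1 := by
    rw [Real.exp_neg, inv_mul_le_iff₀ (Real.exp_pos y), mul_one]
    linarith [Real.add_one_le_exp y]
  have hey1 : Real.exp (-y) < 1 := by
    rw [Real.exp_lt_one_iff]
    linarith
  apply hsup
  · exact mul_nonneg (Real.exp_pos _).le ht.le
  intro z hz
  have hzt : ‖z‖ < tau := by
    refine lt_of_le_of_lt hz ?_
    nlinarith
  have key : ∀ l, Real.posLog ‖g l z‖ ≤ Real.posLog ‖g l 0‖ +
      4 * Real.exp (C0 + 1) * Real.exp (-y) := by
    intro l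
    have hb : ∀ w : ℂ, ‖w‖ < tau → ‖g l w‖ ≤ Real.exp (C0 + 1) := by
      intro w hw
      exact (hexp l w).trans (Real.exp_le_exp.2 ((hle tau w ht1 hw.le).trans hG))
    have hmaps : MapsTo (g l) (ball 0 tau) (closedBall (g l 0) (4 * Real.exp (C0 + 1))) := by
      intro w hw
      rw [mem_ball_zero_iff] at hw
      rw [mem_closedBall, dist_eq_norm]
      have e1 := norm_sub_le (g l w) (g l 0)
      have e2 := hb w hw
      have e3 := hb 0 (by rw [norm_zero]; exact ht)
      have e4 := Real.exp_pos (C0 + 1)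
      linarith
    have hd : DifferentiableOn ℂ (g l) (ball 0 tau) :=
      (hg l).mono (ball_subset_ball ht1.le)
    have hs := Complex.dist_le_div_mul_dist_of_mapsTo_ball hd hmaps
      (mem_ball_zero_iff.2 hzt)
    rw [dist_eq_norm, dist_zero_right] at hs
    have hs2 : ‖g l z - g l 0‖ ≤ 4 * Real.exp (C0 + 1) * Real.exp (-y) := by
      refine hs.trans ?_
      rw [div_mul_eq_mul_div, div_le_iff₀ ht]
      have e4 := Real.exp_pos (C0 + 1)
      calc 4 * Real.exp (C0 + 1) * ‖z‖ ≤ 4 * Real.exp (C0 + 1) * (Real.exp (-y) * tau) :=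
            mul_le_mul_of_nonneg_left hz (by positivity)
        _ = _ := by ring
    have e5 : ‖g l z‖ ≤ ‖g l 0‖ + ‖g l z - g l 0‖ := by
      have := norm_add_le (g l 0) (g l z - g l 0)
      rwa [add_sub_cancel] at this
    calc Real.posLog ‖g l z‖ ≤ Real.posLog (‖g l 0‖ + ‖g l z - g l 0‖) :=
          Real.monotoneOn_posLog (norm_nonneg _) (add_nonneg (norm_nonneg _) (norm_nonneg _)) e5
      _ ≤ Real.posLog ‖g l 0‖ + ‖g l z - g l 0‖ :=
          Basex.posLog_add_le _ _ (norm_nonneg _) (norm_nonneg _)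
      _ ≤ _ := by linarith
  have hsum : gm g z ≤ gm g 0 + (Fintype.card I : ℝ) * (4 * Real.exp (C0 + 1) * Real.exp (-y)) := by
    unfold gm
    calc ∑ l, Real.posLog ‖g l z‖ ≤ ∑ l, (Real.posLog ‖g l 0‖ +
          4 * Real.exp (C0 + 1) * Real.exp (-y)) := Finset.sum_le_sum fun l _ => key l
      _ = _ := by
        rw [Finset.sum_add_distrib, Finset.sum_const, Finset.card_univ, nsmul_eq_mul]
  have hfin : (Fintype.card I : ℝ) * (4 * Real.exp (C0 + 1) * Real.exp (-y)) ≤ 1 / 2 := by
    have e6 : 8 * (Fintype.card I : ℝ) * Real.exp (C0 + 1) * Real.exp (-y) ≤ y * Real.exp (-y) :=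
      mul_le_mul_of_nonneg_right (by rw [hy]; linarith) (Real.exp_pos _).le
    nlinarith
  linarith

end

end Pool.Agent.Work.MP_6d7a54_an.NM
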