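import Pool.Agent.Work.MP_6d7a54_an.NM.Stmts
import Pool.Agent.Work.MP_6d7a54_an.NF.I_Cen

/-!
# Good centres (MP_6d7a54_an, block NM)

Port of `NF/I_Cen.lean`.
-/

set_option autoImplicit false

namespace Pool.Agent.Work.MP_6d7a54_an.NM

open Filter Metric Set Topology Real
open Pool.Agent.Work.MP_6d7a54_an.NF (IsNev DP ev dd UF)
open Pool.Agent.Work.MP_6d7a54_an.NF.Cenx (countable_DP UF_of_atTop UF_ge analytic pick)

noncomputable section

namespace Cenx

variable {F I : Type} [Field F] [Algebra F ℂ] [Fintype I]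
  {g : ℕ → I → ℂ → ℂ} {a b : ℕ → ℝ}

theorem scale (h1 : S_Gx) (hc : Conf F g a b) (n : ℕ) (hn : 7 ≤ n) :
    0 < a n ∧ 16 * b n < 1 ∧
    (n : ℝ) * (1 + Real.log (1 / b n)) ≤ Gx (g n) (b n) ∧
    Gx (g n) (b n) ≤ Gx (g n) (16 * b n) ∧ 0 ≤ Gx (g n) (16 * b n) ∧
    0 ≤ Gx (g n) (a n / 16) := by
  have hb := hc.hb n
  have hab := hc.hab n
  have ha2 := hc.ha n
  have hn' : (7 : ℝ) ≤ n := by exact_mod_cast hn
  have h8 : (512 : ℝ) ≤ ((n : ℝ) + 1) ^ 3 := by
    have h : (8 : ℝ) ^ 3 ≤ ((n : ℝ) + 1) ^ 3 := pow_le_pow_left₀ (by norm_num) (by linarith) 3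
    linarith
  have h9 : 512 * b n ≤ a n := by nlinarith
  have ha : 0 < a n := by linarith
  have h16 : 16 * b n < 1 := by linarith
  obtain ⟨-, -, -, k1, -, k3, -⟩ := h1 I (g n) (hc.hol n)
  exact ⟨ha, h16, hc.big n, k3 _ _ hb.le (by linarith) h16, k1 _, k1 _⟩

theorem dec16 (hc : Conf F g a b) :
    ∀ᶠ n : ℕ in UF, (n : ℝ) ^ 2 * Gx (g n) (16 * b n) ≤ Gx (g n) (a n / 16) :=
  UF_of_atTop (hc.dec 16 (by norm_num))

theorem bound (h1 : S_Gx) (h3 : S_GB) (hc : Conf F g a b) (P : DP F I) :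
    ∃ K : ℝ, 1 ≤ K ∧ ∀ n : ℕ, 7 ≤ n → ∀ z ∈ closedBall (0 : ℂ) (8 * b n),
      ‖ev (g n) z P‖ ≤ Real.exp (K * Gx (g n) (16 * b n)) := by
  obtain ⟨K0, hK0, hK⟩ := h3 F I P
  refine ⟨2 * K0 + 1, by linarith, fun n hn z hz => ?_⟩
  obtain ⟨ha, h16, hbig, hm1, hm2, hm3⟩ := scale h1 hc n hn
  obtain ⟨-, -, -, k1, k2, -, -⟩ := h1 I (g n) (hc.hol n)
  have hb := hc.hb n
  have h := hK (g n) (hc.hol n) 0 (8 * b n) (16 * b n) (Gx (g n) (16 * b n))
    (by linarith) (closedBall_subset_ball h16) hm2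
    (fun z hz => k2 _ z h16 (by simpa using hz)) z hz
  refine h.trans (Real.exp_le_exp.2 ?_)
  have hlog : Real.log (1 / (16 * b n - 8 * b n)) ≤ Real.log (1 / b n) := by
    refine Real.log_le_log (by apply one_div_pos.2; linarith) ?_
    exact one_div_le_one_div_of_le hb (by linarith)
  have hn' : (7 : ℝ) ≤ n := by exact_mod_cast hn
  have h5 : 1 + Real.log (1 / b n) ≤ Gx (g n) (16 * b n) := by
    by_cases h6 : 1 + Real.log (1 / b n) ≤ 0
    · linarith
    · push Not at h6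
      nlinarith
  nlinarith

/-- the lower bound at a common point -/
theorem common (h1 : S_Gx) (h3 : S_GB) (h5 : NF.S_CL) (h6 : NF.S_avg) (hc : Conf F g a b)
    (i : ℕ) (P : Fin i → DP F I) (hP : ∀ j, ¬ Tiny g a (P j)) :
    ∃ K : ℝ, 0 ≤ K ∧ ∀ᶠ n in UF, ∃ z : ℂ, ‖z‖ ≤ b n ∧ ∀ j,
      Real.exp (-(K * (n * Gx (g n) (16 * b n)))) ≤ ‖ev (g n) z (P j)‖ := by
  obtain ⟨K5, hK5, h5⟩ := h5
  obtain ⟨K6, hK6, h6⟩ := h6
  choose Kf hKf1 hKf using fun Q : DP F I => bound h1 h3 hc Q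
  set K1 : ℝ := 1 + ∑ j, Kf (P j) with hK1
  have hK1' : ∀ j, Kf (P j) ≤ K1 := fun j => by
    have h := Finset.single_le_sum (f := fun j => Kf (P j))
      (fun x _ => zero_le_one.trans (hKf1 (P x))) (Finset.mem_univ j)
    rw [hK1]
    have h' : Kf (P j) ≤ ∑ j, Kf (P j) := h
    linarith
  have hK11 : 1 ≤ K1 := by
    have h : 0 ≤ ∑ j, Kf (P j) := Finset.sum_nonneg fun x _ => zero_le_one.trans (hKf1 (P x))
    linarith
  refine ⟨(K5 + (3 + K6 * i) * K5) * K1, by positivity, ?_⟩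
  have hbig : ∀ j, ∀ᶠ n in UF, ∃ z : ℂ, ‖z‖ ≤ b n ∧
      Real.exp (-(n * Gx (g n) (b n))) < ‖ev (g n) z (P j)‖ := by
    intro j
    have h := hP j
    unfold Tiny at h
    have h2 := Ultrafilter.eventually_not.2 h
    filter_upwards [h2, UF_of_atTop (hc.dich (P j))] with n hn1 hn2
    rcases hn2 with hn2 | hn2
    · exact absurd hn2 hn1
    · exact hn2
  have hall : ∀ᶠ n in UF, ∀ j, ∃ z : ℂ, ‖z‖ ≤ b n ∧
      Real.exp (-(n * Gx (g n) (b n))) < ‖ev (g n) z (P j)‖ := eventually_all.2 hbig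
  filter_upwards [hall, UF_ge 7] with n hn hn7
  obtain ⟨ha, h16, hbg, hm1, hm2, hm3⟩ := scale h1 hc n hn7
  have hb := hc.hb n
  have hn' : (7 : ℝ) ≤ n := by exact_mod_cast hn7
  set E := Gx (g n) (16 * b n) with hE
  set A : ℝ := K1 * (n * E) with hA
  have hnE : 0 ≤ (n : ℝ) * E := by positivity
  have hA0 : 0 ≤ A := by positivity
  have hstep : ∀ j, ∃ (m : ℕ) (w : Fin m → ℂ), (m : ℝ) ≤ K5 * A ∧
      ∀ z ∈ closedBall (0 : ℂ) (4 * (8 * b n) / 5),
        Real.exp (-(K5 * A)) * ∏ l, min 1 (‖z - w l‖ / (8 * b n)) ≤ ‖ev (g n) z (P j)‖ := by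
    intro j
    obtain ⟨z, hz1, hz2⟩ := hn j
    refine h5 (fun z => ev (g n) z (P j)) 0 z (8 * b n) A (by linarith) hA0
      ((analytic (P j) (g n) (hc.hol n)).mono (closedBall_subset_ball (by linarith))) ?_ ?_ ?_
    · intro z hz
      refine (hKf (P j) n hn7 z hz).trans (Real.exp_le_exp.2 ?_)
      have h7 := hK1' j
      calc Kf (P j) * E ≤ K1 * E := mul_le_mul_of_nonneg_right h7 hm2
        _ ≤ K1 * (n * E) := by
          refine mul_le_mul_of_nonneg_left ?_ (by linarith)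
          nlinarith
    · rw [mem_closedBall_zero_iff]
      linarith
    · refine le_trans (Real.exp_le_exp.2 ?_) hz2.le
      have h8 : (n : ℝ) * Gx (g n) (b n) ≤ n * E := mul_le_mul_of_nonneg_left hm1 (by linarith)
      have h9 : (n : ℝ) * E ≤ K1 * (n * E) := by nlinarith
      linarith
  choose m w hm hw using hstep
  obtain ⟨t, ht0, ht1, ht2⟩ := pick hK6 h6 i (b n) (K5 * A) hb m hm w
  have htn : ‖(t : ℂ)‖ ≤ b n := by
    rw [Complex.norm_real, Real.norm_eq_abs, abs_of_nonneg ht0]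
    exact ht1
  refine ⟨(t : ℂ), htn, fun j => ?_⟩
  refine le_trans ?_ (hw j (t : ℂ) (by rw [mem_closedBall_zero_iff]; linarith))
  calc Real.exp (-((K5 + (3 + K6 * i) * K5) * K1 * (n * E)))
      = Real.exp (-(K5 * A)) * Real.exp (-((3 + K6 * i) * (K5 * A))) := by
        rw [← Real.exp_add]
        congr 1
        rw [hA]
        ring
    _ ≤ _ := mul_le_mul_of_nonneg_left (ht2 j) (Real.exp_pos _).le

end Cenx

open Cenx in
theorem Cen_proof (h0 : NF.S_Diag) (h1 : S_Gx) (h3 : S_GB) (h5 : NF.S_CL) (h6 : NF.S_avg) :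
    S_Cen := by
  classical
  intro F I _ _ _ _ g a b hc
  have hcount : Countable (DP F I) := countable_DP F I
  obtain ⟨P, hP⟩ := exists_surjective_nat (DP F I)
  obtain ⟨c, hc0, hc1⟩ := h0 ℂ (fun i n x => ‖x‖ ≤ b n ∧ ∀ j < i, ¬ Tiny g a (P j) →
      Real.exp (-(Gx (g n) (a n / 16) / i)) ≤ ‖ev (g n) x (P j)‖)
    (by
      rintro i n x ⟨h7, h8⟩
      refine ⟨h7, fun j hj hT => le_trans (Real.exp_le_exp.2 ?_)
        (h8 j (Nat.lt_succ_of_lt hj) hT)⟩
      have hM := (h1 I (g n) (hc.hol n)).2.2.2.1 (a n / 16)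
      have hi : (0 : ℝ) < i := by exact_mod_cast (Nat.zero_le j).trans_lt hj
      have h9 : Gx (g n) (a n / 16) / ((i + 1 : ℕ) : ℝ) ≤ Gx (g n) (a n / 16) / i :=
        div_le_div_of_nonneg_left hM hi (by push_cast; linarith)
      linarith)
    (fun n => ⟨0, by simpa using (hc.hb n).le, fun j hj => absurd hj (Nat.not_lt_zero j)⟩)
    (by
      intro i
      let J := {j : Fin i // ¬ Tiny g a (P j)}
      let e := Fintype.equivFin J
      obtain ⟨K, hK, hev⟩ := common h1 h3 h5 h6 hc (Fintype.card J)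
        (fun l => P (e.symm l).1) (fun l => (e.symm l).2)
      obtain ⟨N, hN⟩ := exists_nat_ge (i * K)
      filter_upwards [hev, UF_ge 7, UF_ge N, dec16 hc] with n hn hn7 hnN hdec
      obtain ⟨z, hz1, hz2⟩ := hn
      refine ⟨z, hz1, fun j hj hT => ?_⟩
      have h10 := hz2 (e ⟨⟨j, hj⟩, hT⟩)
      rw [Equiv.symm_apply_apply] at h10
      refine le_trans (Real.exp_le_exp.2 ?_) h10
      obtain ⟨ha, h16, hbg, hm1, hm2, hm3⟩ := scale h1 hc n hn7
      have hi : (0 : ℝ) < i := by exact_mod_cast (Nat.zero_le j).trans_lt hj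
      have hn' : (7 : ℝ) ≤ n := by exact_mod_cast hn7
      have hnN' : (N : ℝ) ≤ n := by exact_mod_cast hnN
      refine neg_le_neg ?_
      rw [le_div_iff₀ hi]
      have h11 : i * K ≤ n := hN.trans hnN'
      have h12 : K * i * n ≤ (n : ℝ) ^ 2 := by
        have h14 : i * K * n ≤ n * n := mul_le_mul_of_nonneg_right h11 (by linarith)
        nlinarith
      calc K * (n * Gx (g n) (16 * b n)) * i = (K * i * n) * Gx (g n) (16 * b n) := by ring
        _ ≤ (n : ℝ) ^ 2 * Gx (g n) (16 * b n) := mul_le_mul_of_nonneg_right h12 hm2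
        _ ≤ _ := hdec)
  refine ⟨c, fun n => (hc0 n).1, ?_, ?_⟩
  · intro Q hQ del hdel
    obtain ⟨j, rfl⟩ := hP Q
    obtain ⟨N, hN⟩ := exists_nat_ge (1 / del)
    filter_upwards [hc1 (j + 1 + N)] with n hn
    refine le_trans (Real.exp_le_exp.2 ?_) (hn.2 j (by omega) hQ)
    refine neg_le_neg ?_
    have hM := (h1 I (g n) (hc.hol n)).2.2.2.1 (a n / 16)
    rw [div_le_iff₀ (by positivity)]
    have h7 : 1 ≤ del * ((j + 1 + N : ℕ) : ℝ) := by
      have h8 : 1 ≤ del * N := by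
        rw [div_le_iff₀ hdel] at hN
        linarith
      push_cast
      have h9 : 0 ≤ del * ((j : ℝ) + 1) := by positivity
      nlinarith
    nlinarith
  · intro Q del hdel
    obtain ⟨K, hK, hb⟩ := bound h1 h3 hc Q
    obtain ⟨N, hN⟩ := exists_nat_ge (K / del)
    filter_upwards [UF_ge 7, UF_ge N, dec16 hc] with n hn7 hnN hdec
    obtain ⟨ha, h16, hbg, hm1, hm2, hm3⟩ := scale h1 hc n hn7
    have hbn := hc.hb n
    refine (hb n hn7 (c n) (by
      rw [mem_closedBall_zero_iff]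
      have := (hc0 n).1
      linarith)).trans (Real.exp_le_exp.2 ?_)
    have hn' : (7 : ℝ) ≤ n := by exact_mod_cast hn7
    have hnN' : (N : ℝ) ≤ n := by exact_mod_cast hnN
    have h7 : K ≤ del * n := by
      have h8 := hN.trans hnN'
      rw [div_le_iff₀ hdel] at h8
      linarith
    have h9 : (n : ℝ) ≤ (n : ℝ) ^ 2 := by nlinarith
    have h10 : K ≤ del * (n : ℝ) ^ 2 := h7.trans (mul_le_mul_of_nonneg_left h9 hdel.le)
    calc K * Gx (g n) (16 * b n) ≤ del * (n : ℝ) ^ 2 * Gx (g n) (16 * b n) :=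
          mul_le_mul_of_nonneg_right h10 hm2
      _ = del * ((n : ℝ) ^ 2 * Gx (g n) (16 * b n)) := by ring
      _ ≤ _ := mul_le_mul_of_nonneg_left hdec hdel.le

end

end Pool.Agent.Work.MP_6d7a54_an.NM
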