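import Pool.Agent.Work.MP_6d7a54_an.NM.Stmts

/-!
# Item Conf: selection of the scales (MP_6d7a54_an, block NM)
-/

set_option autoImplicit false

namespace Pool.Agent.Work.MP_6d7a54_an.NM

open Filter Metric Set Topology Real
open Pool.Agent.Work.MP_6d7a54_an.NF (IsNev DP ev dd UF)

noncomputable section

namespace Confx

/-- pigeonhole for a chain of subsets of `range n` -/
lemma pigeon (n : ℕ) (S : ℕ → Finset ℕ) (hS : ∀ j, S j ⊆ Finset.range n)
    (hmono : ∀ j, j ≤ n → S j ⊆ S (j + 1)) : ∃ j, j ≤ n ∧ S j = S (j + 1) := by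
  by_contra hcon
  push Not at hcon
  have hlt : ∀ j, j ≤ n + 1 → j ≤ (S j).card := by
    intro j
    induction j with
    | zero => intro _; exact Nat.zero_le _
    | succ j ih =>
      intro hj
      have h1 := ih (by omega)
      have h2 : S j ⊂ S (j + 1) := (hmono j (by omega)).ssubset_of_ne (hcon j (by omega))
      have h3 := Finset.card_lt_card h2
      omega
  have h1 := hlt (n + 1) le_rfl
  have h2 := Finset.card_le_card (hS (n + 1))
  rw [Finset.card_range] at h2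
  omega

/-- the choice of the starting radii -/
lemma start {I : Type} [Fintype I] (h3 : S_Tau) (c0 : I → ℂ) (g : ℕ → I → ℂ → ℂ)
    (hbad : BadSeq c0 g) : ∃ (C0 kap : ℝ) (N : ℕ → ℕ) (tau : ℕ → ℝ), 0 ≤ C0 ∧ 0 < kap ∧
    ∀ i : ℕ, 0 < tau i ∧ tau i ≤ 1 / ((i : ℝ) + 1) ∧ Gx (g (N i)) (tau i) ≤ C0 + 1 ∧
    ∀ rho : ℝ, 2 * tau i ≤ rho → rho < 1 → kap * Real.log (rho / tau i) ≤ Gx (g (N i)) rho := by
  obtain ⟨kap, hkap, hT⟩ := h3 I (∑ l, Real.posLog ‖c0 l‖)
  have hgm : ∀ n, gm (g n) 0 ≤ ∑ l, Real.posLog ‖c0 l‖ := by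
    intro n
    unfold gm
    refine le_of_eq (Finset.sum_congr rfl fun l _ => ?_)
    rw [hbad.h0]
  have hstep : ∀ i : ℕ, ∃ (m : ℕ) (tau : ℝ), 0 < tau ∧ tau ≤ 1 / ((i : ℝ) + 1) ∧
      Gx (g m) tau ≤ (∑ l, Real.posLog ‖c0 l‖) + 1 ∧
      ∀ rho : ℝ, 2 * tau ≤ rho → rho < 1 → kap * Real.log (rho / tau) ≤ Gx (g m) rho := by
    intro i
    have hi : (0 : ℝ) ≤ i := Nat.cast_nonneg i
    have hr0 : (0 : ℝ) < 1 / ((i : ℝ) + 2) := by positivity
    have hr1 : 1 / ((i : ℝ) + 2) < 1 := by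
      rw [div_lt_one (by linarith)]
      linarith
    obtain ⟨m, hm⟩ := (hbad.big _ hr0 hr1 ((∑ l, Real.posLog ‖c0 l‖) + 2)).exists
    obtain ⟨tau, t1, t2, t3, t4⟩ := hT (g m) (hbad.hol m) (hgm m) _ hr0 hr1 (by linarith)
    refine ⟨m, tau, t1, t2.trans ?_, t3, t4⟩
    exact one_div_le_one_div_of_le (by linarith) (by linarith)
  choose N tau hN using hstep
  refine ⟨∑ l, Real.posLog ‖c0 l‖, kap, N, tau, ?_, hkap, hN⟩
  exact Finset.sum_nonneg fun l _ => Real.posLog_nonneg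

end Confx

theorem Conf_proof (h1 : S_Gx) (h2 : S_Cvx) (h3 : S_Tau) (h4 : S_Sel) (h5 : S_Pow) : S_Conf := by
  intro F I _ _ _ _ c0 g hbad
  classical
  have : Countable (DP F I) := by
    rw [← Cardinal.mk_le_aleph0_iff]
    refine (MvPolynomial.cardinalMk_le_max).trans ?_
    refine max_le (max_le ?_ ?_) le_rfl
    · exact Cardinal.mk_le_aleph0
    · exact Cardinal.mk_le_aleph0
  obtain ⟨P, hP⟩ := exists_surjective_nat (DP F I)
  obtain ⟨C0, kap, N, tau, hC0, hkap, hN⟩ := Confx.start h3 c0 g hbad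
  have htau : Tendsto tau atTop (𝓝 0) :=
    squeeze_zero (fun i => (hN i).1.le) (fun i => (hN i).2.1) tendsto_one_div_add_atTop_nhds_zero_nat
  have hsel := h4 (fun i rho => Gx (g (N i)) rho) (C0 + 1) kap tau (by linarith) hkap
    (fun i => (hN i).1) htau (fun i => (hN i).2.2.1)
    (fun i r s t hr hrs hst ht => h2 I (g (N i)) (hbad.hol _) r s t hr hrs hst ht)
    (fun i rho hr hr1 => (hN i).2.2.2 rho hr hr1)
  -- the radii
  have hstep : ∀ n : ℕ, ∃ (m k : ℕ) (a b : ℝ), 1 ≤ k ∧ 0 < b ∧ b * ((n : ℝ) + 1) ^ 3 ≤ a ∧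
      a ≤ 1 / 2 ∧
      (n : ℝ) * (1 + Real.log (1 / b)) ≤ Gx (fun l z => g m l (z ^ k)) b ∧
      (n : ℝ) ^ 2 * Gx (fun l z => g m l (z ^ k)) (((n : ℝ) + 1) * b) ≤
        Gx (fun l z => g m l (z ^ k)) (a / ((n : ℝ) + 1)) ∧
      ∀ i, i < n →
        (∀ z : ℂ, ‖z‖ ≤ a → ‖ev (fun l z => g m l (z ^ k)) z (P i)‖ ≤
          Real.exp (-(n * Gx (fun l z => g m l (z ^ k)) a))) ∨
        (∃ z : ℂ, ‖z‖ ≤ b ∧ Real.exp (-(n * Gx (fun l z => g m l (z ^ k)) b)) <
          ‖ev (fun l z => g m l (z ^ k)) z (P i)‖) := by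
    intro n
    have hn0 : (0 : ℝ) ≤ n := Nat.cast_nonneg n
    obtain ⟨n', k, R, hk, hR, hRj⟩ := hsel n
    obtain ⟨G, hG⟩ : ∃ G : I → ℂ → ℂ, G = fun l z => g (N n') l (z ^ k) := ⟨_, rfl⟩
    obtain ⟨hpow1, hpow2⟩ := h5 I (g (N n')) k hk
    have hGhol : Hol G := by
      rw [hG]
      exact hpow1 (hbad.hol _)
    have hGx : ∀ r : ℝ, 0 ≤ r → Gx (g (N n')) (r ^ k) = Gx G r := by
      intro r hr
      rw [hG]
      exact (hpow2 r hr).symm
    obtain ⟨-, -, -, hM0, -, hM2, -⟩ := h1 I G hGhol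
    have hRle : ∀ j, j ≤ n → R (j + 1) ≤ R j := by
      intro j hj
      obtain ⟨h, -, -⟩ := hRj j hj
      have hp := (hR (j + 1) (by omega)).1
      have h6 : (1 : ℝ) ≤ ((n : ℝ) + 1) ^ 3 := one_le_pow₀ (by linarith)
      nlinarith
    have hMmono : ∀ j, j ≤ n → Gx G (R (j + 1)) ≤ Gx G (R j) := by
      intro j hj
      refine hM2 _ _ (hR (j + 1) (by omega)).1.le (hRle j hj) ?_
      have := (hR j (by omega)).2
      linarith
    let t : ℕ → ℕ → Prop := fun j i =>
      ∀ z : ℂ, ‖z‖ ≤ R j → ‖ev G z (P i)‖ ≤ Real.exp (-(n * Gx G (R j)))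
    have ht : ∀ j i, j ≤ n → t j i → t (j + 1) i := by
      intro j i hj hji z hz
      refine (hji z (hz.trans (hRle j hj))).trans ?_
      apply Real.exp_le_exp.2
      have := hMmono j hj
      nlinarith
    obtain ⟨j, hjn, hj⟩ := Confx.pigeon n (fun j => (Finset.range n).filter (fun i => t j i))
      (fun j => Finset.filter_subset _ _) (by
        intro j hjn i hi
        rw [Finset.mem_filter] at hi ⊢
        exact ⟨hi.1, ht j i hjn hi.2⟩)
    obtain ⟨r1, r2, r3⟩ := hRj j hjn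
    have hRj0 := (hR j (by omega)).1
    have hRj1 := (hR (j + 1) (by omega)).1
    refine ⟨N n', k, R j, R (j + 1), hk, hRj1, r1, (hR j (by omega)).2, ?_, ?_, ?_⟩
    · rw [← hG]
      rw [hGx _ hRj1.le] at r2
      exact r2
    · rw [← hG]
      rw [hGx _ (by positivity), hGx _ (by positivity)] at r3
      exact r3
    · rw [← hG]
      intro i hi
      by_cases h : t (j + 1) i
      · left
        have hmem : i ∈ (Finset.range n).filter (fun i => t (j + 1) i) := by
          rw [Finset.mem_filter, Finset.mem_range]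
          exact ⟨hi, h⟩
        have hj' : (Finset.range n).filter (fun i => t j i) =
            (Finset.range n).filter (fun i => t (j + 1) i) := hj
        rw [← hj', Finset.mem_filter] at hmem
        exact hmem.2
      · right
        simp only [t] at h
        push Not at h
        exact h
  choose m k a b hk hb hab ha hbig hdec hdich using hstep
  have hhol : ∀ n, Hol (fun l z => g (m n) l (z ^ k n)) := fun n =>
    (h5 I (g (m n)) (k n) (hk n)).1 (hbad.hol _)
  refine ⟨m, k, a, b, hk, ⟨hhol, hb, hab, ha, hbig, ?_, ?_⟩⟩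
  · intro K hK
    obtain ⟨M, hM⟩ := exists_nat_ge K
    filter_upwards [eventually_ge_atTop M] with n hn
    have hKn : K ≤ n := hM.trans (by exact_mod_cast hn)
    have hn0 : (0 : ℝ) ≤ n := Nat.cast_nonneg n
    obtain ⟨-, -, -, hM0, -, hM2, -⟩ := h1 I _ (hhol n)
    have hbn := hb n
    have han := ha n
    have habn := hab n
    have hapos : 0 < a n := lt_of_lt_of_le (by positivity) habn
    have h6 : (1 : ℝ) ≤ ((n : ℝ) + 1) ^ 2 := one_le_pow₀ (by linarith)
    have h7 : ((n : ℝ) + 1) * b n ≤ a n := by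
      have h8 : b n * ((n : ℝ) + 1) ^ 3 = ((n : ℝ) + 1) * b n * ((n : ℝ) + 1) ^ 2 := by ring
      have h9 : 0 ≤ ((n : ℝ) + 1) * b n := by positivity
      nlinarith
    have e1 : Gx (fun l z => g (m n) l (z ^ k n)) (K * b n) ≤
        Gx (fun l z => g (m n) l (z ^ k n)) (((n : ℝ) + 1) * b n) := by
      refine hM2 _ _ (by positivity) ?_ (by linarith)
      exact mul_le_mul_of_nonneg_right (by linarith) hbn.le
    have e2 : Gx (fun l z => g (m n) l (z ^ k n)) (a n / ((n : ℝ) + 1)) ≤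
        Gx (fun l z => g (m n) l (z ^ k n)) (a n / K) := by
      refine hM2 _ _ (by positivity) ?_ ?_
      · exact div_le_div_of_nonneg_left hapos.le (by linarith) (by linarith)
      · rw [div_lt_one (by linarith)]
        linarith
    exact (mul_le_mul_of_nonneg_left e1 (by positivity)).trans ((hdec n).trans e2)
  · intro Q
    obtain ⟨i, rfl⟩ := hP Q
    filter_upwards [eventually_gt_atTop i] with n hn
    exact hdich n i hn

end

end Pool.Agent.Work.MP_6d7a54_an.NM
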