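import Pool.Agent.Work.MP_6d7a54_an.NM.Stmts

/-!
# Hadamard's three circle theorem for the growth function (MP_6d7a54_an, block NM, helper76)
-/

set_option autoImplicit false

namespace Pool.Agent.Work.MP_6d7a54_an.NM

open Filter Metric Set Topology Real

namespace Cvxx

theorem prod_le {I : Type} [Fintype I] (g : I → ℂ → ℂ) (S : Finset I) (w : ℂ) :
    ‖∏ l ∈ S, g l w‖ ≤ Real.exp (gm g w) := by
  rw [norm_prod]
  have h1 : ∀ l ∈ S, ‖g l w‖ ≤ Real.exp (Real.posLog ‖g l w‖) := by
    intro l _
    rcases eq_or_lt_of_le (norm_nonneg (g l w)) with h0 | h0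
    · rw [← h0]
      exact (Real.exp_pos _).le
    · calc ‖g l w‖ = Real.exp (Real.log ‖g l w‖) := (Real.exp_log h0).symm
        _ ≤ Real.exp (Real.posLog ‖g l w‖) := by
          apply Real.exp_le_exp.2
          rw [Real.posLog_apply]
          exact le_max_right _ _
  calc ∏ l ∈ S, ‖g l w‖ ≤ ∏ l ∈ S, Real.exp (Real.posLog ‖g l w‖) :=
        Finset.prod_le_prod (fun l _ => norm_nonneg _) h1
    _ = Real.exp (∑ l ∈ S, Real.posLog ‖g l w‖) := (Real.exp_sum _ _).symm
    _ ≤ Real.exp (gm g w) := by
        apply Real.exp_le_exp.2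
        unfold gm
        exact Finset.sum_le_sum_of_subset_of_nonneg (Finset.subset_univ _)
          fun l _ _ => Real.posLog_nonneg

open Classical in
theorem le_prod {I : Type} [Fintype I] (g : I → ℂ → ℂ) (z : ℂ) :
    Real.exp (gm g z) = ‖∏ l ∈ Finset.univ.filter (fun l => 1 < ‖g l z‖), g l z‖ := by
  rw [norm_prod]
  unfold gm
  rw [Real.exp_sum, Finset.prod_filter]
  refine Finset.prod_congr rfl fun l _ => ?_
  split_ifs with h
  · rw [Real.posLog_eq_log (by rw [abs_of_nonneg (norm_nonneg _)]; exact h.le)]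
    exact Real.exp_log (by linarith)
  · rw [(Real.posLog_eq_zero_iff _).2 (by rw [abs_of_nonneg (norm_nonneg _)]; exact not_lt.1 h),
      Real.exp_zero]

/-- The three circles theorem for one holomorphic function. -/
theorem three (F : ℂ → ℂ) (hF : DifferentiableOn ℂ F (ball 0 1)) (r t A B : ℝ) (hr : 0 < r)
    (hrt : r < t) (ht : t < 1) (hA : ∀ w : ℂ, ‖w‖ = r → ‖F w‖ ≤ Real.exp A)
    (hB : ∀ w : ℂ, ‖w‖ ≤ t → ‖F w‖ ≤ Real.exp B) (z : ℂ) (hz1 : r ≤ ‖z‖) (hz2 : ‖z‖ ≤ t) :
    ‖F z‖ ≤ Real.exp (A * (1 - (Real.log ‖z‖ - Real.log r) / (Real.log t - Real.log r)) +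
      B * ((Real.log ‖z‖ - Real.log r) / (Real.log t - Real.log r))) := by
  have ht0 : 0 < t := hr.trans hrt
  have hz0 : 0 < ‖z‖ := hr.trans_le hz1
  have hzne : z ≠ 0 := norm_pos_iff.1 hz0
  have hlog : Real.log r < Real.log t := Real.log_lt_log hr hrt
  have hexp : ∀ w : ℂ, w.re ≤ Real.log t → ‖Complex.exp w‖ ≤ t := by
    intro w hw
    rw [Complex.norm_exp]
    calc Real.exp w.re ≤ Real.exp (Real.log t) := Real.exp_le_exp.2 hw
      _ = t := Real.exp_log ht0
  have hd : DifferentiableOn ℂ (fun w => F (Complex.exp w)) {w : ℂ | w.re ≤ Real.log t} := by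
    refine hF.comp (Complex.differentiable_exp.differentiableOn) ?_
    intro w hw
    rw [mem_ball_zero_iff]
    exact (hexp w hw).trans_lt ht
  have hcl : closure (Complex.HadamardThreeLines.verticalStrip (Real.log r) (Real.log t)) ⊆
      {w : ℂ | w.re ≤ Real.log t} := by
    apply closure_minimal
    · intro w hw
      exact hw.2.le
    · exact isClosed_le Complex.continuous_re continuous_const
  have hdc : DiffContOnCl ℂ (fun w => F (Complex.exp w))
      (Complex.HadamardThreeLines.verticalStrip (Real.log r) (Real.log t)) :=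
    (hd.mono hcl).diffContOnCl
  have hBd : BddAbove ((norm ∘ (fun w => F (Complex.exp w))) ''
      (Complex.HadamardThreeLines.verticalClosedStrip (Real.log r) (Real.log t))) := by
    refine ⟨Real.exp B, ?_⟩
    rintro _ ⟨w, hw, rfl⟩
    exact hB _ (hexp w hw.2)
  have hzl : Complex.log z ∈
      Complex.HadamardThreeLines.verticalClosedStrip (Real.log r) (Real.log t) := by
    constructor
    · show Real.log r ≤ (Complex.log z).re
      rw [Complex.log_re]
      exact Real.log_le_log hr hz1
    · show (Complex.log z).re ≤ Real.log t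
      rw [Complex.log_re]
      exact Real.log_le_log hz0 hz2
  have key := Complex.HadamardThreeLines.norm_le_interp_of_mem_verticalClosedStrip'
    (f := fun w => F (Complex.exp w)) (z := Complex.log z) (a := Real.exp A) (b := Real.exp B)
    hlog hzl hdc hBd (by
      intro w hw
      apply hA
      have hw' : w.re = Real.log r := hw
      rw [Complex.norm_exp, hw', Real.exp_log hr]) (by
      intro w hw
      have hw' : w.re = Real.log t := hw
      exact hB _ (hexp w hw'.le))
  rw [Complex.exp_log hzne, Complex.log_re, ← Real.exp_mul, ← Real.exp_mul, ← Real.exp_add] at key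
  exact key

end Cvxx

open Cvxx in
theorem Cvx_proof (h1 : S_Gx) : S_Cvx := by
  classical
  intro I _ g hg r s t hr hrs hst ht
  obtain ⟨-, -, -, -, h5, h6, h7⟩ := h1 I g hg
  have hs : 0 < s := hr.trans hrs
  have ht0 : 0 < t := hs.trans hst
  have hrt : r < t := hrs.trans hst
  have hlrs : Real.log r < Real.log s := Real.log_lt_log hr hrs
  have hlst : Real.log s < Real.log t := Real.log_lt_log hs hst
  have e1 : Real.log (t / r) = Real.log t - Real.log r := Real.log_div ht0.ne' hr.ne'
  have e2 : Real.log (t / s) = Real.log t - Real.log s := Real.log_div ht0.ne' hs.ne'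
  have e3 : Real.log (s / r) = Real.log s - Real.log r := Real.log_div hs.ne' hr.ne'
  rw [e1, e2, e3]
  have hAB : Gx g r ≤ Gx g t := h6 r t hr.le hrt.le ht
  have hpos : 0 < Real.log t - Real.log r := by linarith
  have main : ∀ z : ℂ, ‖z‖ ≤ s → gm g z ≤ ((Real.log t - Real.log s) * Gx g r +
      (Real.log s - Real.log r) * Gx g t) / (Real.log t - Real.log r) := by
    intro z hz
    rw [le_div_iff₀ hpos]
    rcases le_or_gt ‖z‖ r with hzr | hzr
    · have h8 : gm g z ≤ Gx g r := h5 r z (hrt.trans ht) hzr
      have h9 : gm g z * (Real.log t - Real.log r) ≤ Gx g r * (Real.log t - Real.log r) :=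
        mul_le_mul_of_nonneg_right h8 hpos.le
      have h10 : (Real.log s - Real.log r) * Gx g r ≤ (Real.log s - Real.log r) * Gx g t :=
        mul_le_mul_of_nonneg_left hAB (by linarith)
      linarith
    · have hF : DifferentiableOn ℂ
          (fun w => ∏ l ∈ Finset.univ.filter (fun l => 1 < ‖g l z‖), g l w) (ball 0 1) := by
        apply DifferentiableOn.fun_finsetProd
        intro l _
        exact hg l
      have h8 := three _ hF r t (Gx g r) (Gx g t) hr hrt ht
        (fun w hw => (prod_le g _ w).trans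
          (Real.exp_le_exp.2 (h5 r w (hrt.trans ht) hw.le)))
        (fun w hw => (prod_le g _ w).trans (Real.exp_le_exp.2 (h5 t w ht hw)))
        z hzr.le (hz.trans hst.le)
      rw [← le_prod g z, Real.exp_le_exp] at h8
      have hzs : Real.log ‖z‖ ≤ Real.log s := Real.log_le_log (hr.trans hzr) hz
      have h9 := mul_le_mul_of_nonneg_right h8 hpos.le
      have h10 : (Gx g r * (1 - (Real.log ‖z‖ - Real.log r) / (Real.log t - Real.log r)) +
          Gx g t * ((Real.log ‖z‖ - Real.log r) / (Real.log t - Real.log r))) *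
          (Real.log t - Real.log r) =
          Gx g r * (Real.log t - Real.log ‖z‖) + Gx g t * (Real.log ‖z‖ - Real.log r) := by
        field_simp
        ring
      rw [h10] at h9
      have h11 : 0 ≤ (Gx g t - Gx g r) * (Real.log s - Real.log ‖z‖) :=
        mul_nonneg (by linarith) (by linarith)
      nlinarith
  have h8 := h7 s _ hs.le main
  rw [le_div_iff₀ hpos] at h8
  linarith

end Pool.Agent.Work.MP_6d7a54_an.NM
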