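import Pool.Agent.Work.MP_6d7a54_an.NM.Stmts

/-!
Growth of differential polynomials (block NM, port of NF/I_GB.lean).
-/

namespace Pool.Agent.Work.MP_6d7a54_an.NM

open Filter Metric Set Topology
open Pool.Agent.Work.MP_6d7a54_an.NF (IsNev DP ev dd UF)

namespace GBx

theorem deriv_bound (hGx : S_Gx) {I : Type} [Fintype I] {g : I → ℂ → ℂ}
    (hD : Hol g) {c : ℂ} {rho rho' V : ℝ} (hr : rho < rho')
    (hsub : closedBall c rho' ⊆ ball 0 1)
    (hV : ∀ z ∈ closedBall c rho', gm g z ≤ V) {z : ℂ} (hz : z ∈ closedBall c rho)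
    (l : I) (j : ℕ) :
    ‖iteratedDeriv j (g l) z‖ ≤
      j.factorial * Real.exp V / (rho' - rho) ^ j := by
  have hh : 0 < rho' - rho := sub_pos.mpr hr
  have hin : closedBall z (rho' - rho) ⊆ closedBall c rho' := by
    intro w hw
    rw [mem_closedBall] at hw hz ⊢
    have := dist_triangle w z c
    linarith
  refine Complex.norm_iteratedDeriv_le_of_forall_mem_sphere_norm_le j hh ?_ ?_
  · refine DifferentiableOn.diffContOnCl ?_
    rw [closure_ball _ hh.ne']
    exact (hD l).mono (hin.trans hsub)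
  · intro w hw
    have hw' : w ∈ closedBall c rho' := hin (sphere_subset_closedBall hw)
    exact ((hGx I g hD).2.2.1 l w).trans (Real.exp_le_exp.mpr (hV w hw'))

theorem deriv_bound' (hGx : S_Gx) {I : Type} [Fintype I] {g : I → ℂ → ℂ}
    (hD : Hol g) {c : ℂ} {rho rho' V : ℝ} (hr : rho < rho') (hh1 : rho' - rho ≤ 1)
    (hsub : closedBall c rho' ⊆ ball 0 1) (hV0 : 0 ≤ V)
    (hV : ∀ z ∈ closedBall c rho', gm g z ≤ V) {z : ℂ} (hz : z ∈ closedBall c rho)
    (l : I) (j : ℕ) :
    ‖iteratedDeriv j (g l) z‖ ≤ Real.exp ((Real.log j.factorial + 1 + j) *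
      (1 + V + Real.log (1 / (rho' - rho)))) := by
  have hh : 0 < rho' - rho := sub_pos.mpr hr
  refine (deriv_bound hGx hD hr hsub hV hz l j).trans ?_
  have hl : 0 ≤ Real.log (1 / (rho' - rho)) := Real.log_nonneg (by rw [le_div_iff₀ hh]; linarith)
  have hf : (1 : ℝ) ≤ j.factorial := by exact_mod_cast Nat.one_le_iff_ne_zero.mpr j.factorial_ne_zero
  have hlf : 0 ≤ Real.log j.factorial := Real.log_nonneg hf
  have e1 : (j.factorial : ℝ) * Real.exp V / (rho' - rho) ^ j =
      Real.exp (Real.log j.factorial + V + j * Real.log (1 / (rho' - rho))) := by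
    rw [Real.exp_add, Real.exp_add, Real.exp_log (by linarith), Real.exp_nat_mul,
      Real.exp_log (by positivity)]
    rw [one_div, inv_pow, div_eq_mul_inv]
  rw [e1]
  refine Real.exp_le_exp.mpr ?_
  set W := Real.log (1 / (rho' - rho)) with hW
  have hj : (0 : ℝ) ≤ j := Nat.cast_nonneg j
  nlinarith [mul_nonneg hlf hV0, mul_nonneg hlf hl, mul_nonneg hj hV0]

end GBx

theorem GB_proof (h1 : S_Gx) : S_GB := by
  intro F I _ _ _ P
  have key : ∃ K : ℝ, 0 ≤ K ∧ ∀ (g : I → ℂ → ℂ), Hol g →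
      ∀ (c : ℂ) (rho rho' V : ℝ), rho < rho' → rho' - rho ≤ 1 → closedBall c rho' ⊆ ball 0 1 →
      0 ≤ V → (∀ z ∈ closedBall c rho', gm g z ≤ V) → ∀ z ∈ closedBall c rho,
      ‖ev g z P‖ ≤ Real.exp (K * (1 + V + Real.log (1 / (rho' - rho)))) := by
    induction P using MvPolynomial.induction_on with
    | C a =>
      refine ⟨‖algebraMap F ℂ a‖, norm_nonneg _, ?_⟩
      intro g hD c rho rho' V hr hh1 hsub hV0 hV z hz
      have hh : 0 < rho' - rho := sub_pos.mpr hr
      have hl : 0 ≤ Real.log (1 / (rho' - rho)) :=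
        Real.log_nonneg (by rw [le_div_iff₀ hh]; linarith)
      rw [ev, MvPolynomial.aeval_C]
      have h1 := Real.add_one_le_exp ‖algebraMap F ℂ a‖
      refine (by linarith : ‖algebraMap F ℂ a‖ ≤ Real.exp ‖algebraMap F ℂ a‖).trans ?_
      refine Real.exp_le_exp.mpr ?_
      exact le_mul_of_one_le_right (norm_nonneg _) (by linarith)
    | add p q hp hq =>
      obtain ⟨K1, hK1, ha⟩ := hp
      obtain ⟨K2, hK2, hb⟩ := hq
      refine ⟨K1 + K2 + 1, by linarith, ?_⟩
      intro g hD c rho rho' V hr hh1 hsub hV0 hV z hz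
      have hh : 0 < rho' - rho := sub_pos.mpr hr
      have hl : 0 ≤ Real.log (1 / (rho' - rho)) :=
        Real.log_nonneg (by rw [le_div_iff₀ hh]; linarith)
      have a1 := ha g hD c rho rho' V hr hh1 hsub hV0 hV z hz
      have a2 := hb g hD c rho rho' V hr hh1 hsub hV0 hV z hz
      set W := 1 + V + Real.log (1 / (rho' - rho)) with hW
      have hW1 : 1 ≤ W := by linarith
      have e1 : ev g z (p + q) = ev g z p + ev g z q := by rw [ev, map_add]; rfl
      rw [e1]
      refine (norm_add_le _ _).trans ((add_le_add a1 a2).trans ?_)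
      have b1 : Real.exp (K1 * W) ≤ Real.exp ((K1 + K2) * W) :=
        Real.exp_le_exp.mpr (mul_le_mul_of_nonneg_right (by linarith) (by linarith))
      have b2 : Real.exp (K2 * W) ≤ Real.exp ((K1 + K2) * W) :=
        Real.exp_le_exp.mpr (mul_le_mul_of_nonneg_right (by linarith) (by linarith))
      have b3 : (2 : ℝ) ≤ Real.exp W := by
        have := Real.add_one_le_exp W
        linarith
      have b4 : Real.exp ((K1 + K2 + 1) * W) = Real.exp ((K1 + K2) * W) * Real.exp W := by
        rw [← Real.exp_add]; ring_nf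
      rw [b4]
      nlinarith [Real.exp_pos ((K1 + K2) * W)]
    | mul_X p i hp =>
      obtain ⟨K1, hK1, ha⟩ := hp
      have hf : (1 : ℝ) ≤ i.2.factorial := by
        exact_mod_cast Nat.one_le_iff_ne_zero.mpr i.2.factorial_ne_zero
      have hlf : 0 ≤ Real.log i.2.factorial := Real.log_nonneg hf
      refine ⟨K1 + (Real.log i.2.factorial + 1 + i.2), by positivity, ?_⟩
      intro g hD c rho rho' V hr hh1 hsub hV0 hV z hz
      have a1 := ha g hD c rho rho' V hr hh1 hsub hV0 hV z hz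
      have a2 := GBx.deriv_bound' h1 hD hr hh1 hsub hV0 hV hz i.1 i.2
      have e1 : ev g z (p * MvPolynomial.X i) = ev g z p * iteratedDeriv i.2 (g i.1) z := by
        rw [ev, map_mul, MvPolynomial.aeval_X]; rfl
      rw [e1, norm_mul, add_mul, Real.exp_add]
      exact mul_le_mul a1 a2 (norm_nonneg _) (Real.exp_pos _).le
  obtain ⟨K, hK, h⟩ := key
  refine ⟨K, hK, ?_⟩
  intro g hD c rho rho' V hr hsub hV0 hV z hz
  have hrho : 0 ≤ rho := by
    rw [mem_closedBall] at hz
    exact dist_nonneg.trans hz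
  have h1 : c + (rho' : ℂ) ∈ ball (0 : ℂ) 1 := hsub (by
    rw [mem_closedBall, dist_eq_norm]
    simp [abs_of_nonneg (hrho.trans hr.le)])
  have h2 : c - (rho' : ℂ) ∈ ball (0 : ℂ) 1 := hsub (by
    rw [mem_closedBall, dist_eq_norm]
    simp [abs_of_nonneg (hrho.trans hr.le)])
  rw [mem_ball_zero_iff] at h1 h2
  have h3 : rho' ≤ 1 := by
    have e : (2 : ℂ) * rho' = (c + rho') - (c - rho') := by ring
    have : ‖(2 : ℂ) * rho'‖ ≤ ‖c + rho'‖ + ‖c - rho'‖ := by
      rw [e]; exact norm_sub_le _ _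
    rw [norm_mul, Complex.norm_real, Real.norm_of_nonneg (hrho.trans hr.le)] at this
    norm_num at this
    linarith
  exact h g hD c rho rho' V hr (by linarith) hsub hV0 hV z hz

end Pool.Agent.Work.MP_6d7a54_an.NM
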