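import Pool.Agent.Work.MP_6d7a54_an.NM.Stmts

/-!
# Block NM, item Gx (helper12): elementary properties of the growth function
-/

set_option autoImplicit false

namespace Pool.Agent.Work.MP_6d7a54_an.NM

open Filter Metric Set Topology Real

noncomputable section

namespace Gxx

theorem le_exp {x : ℝ} (hx : 0 ≤ x) : x ≤ Real.exp (Real.posLog x) := by
  rw [Real.posLog_eq_log_max_one hx, Real.exp_log (lt_of_lt_of_le one_pos (le_max_left 1 x))]
  exact le_max_right 1 x

theorem cont {I : Type} [Fintype I] (g : I → ℂ → ℂ) (hg : Hol g) :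
    ContinuousOn (gm g) (ball 0 1) := by
  have h : ∀ l : I, ContinuousOn (fun z => Real.posLog ‖g l z‖) (ball (0 : ℂ) 1) := fun l =>
    Real.continuous_posLog.comp_continuousOn (hg l).continuousOn.norm
  unfold gm
  exact continuousOn_finsetSum Finset.univ fun l _ => h l

theorem nonneg {I : Type} [Fintype I] (g : I → ℂ → ℂ) (z : ℂ) : 0 ≤ gm g z :=
  Finset.sum_nonneg fun _ _ => Real.posLog_nonneg

theorem bdd {I : Type} [Fintype I] (g : I → ℂ → ℂ) (hg : Hol g) (rho : ℝ) (hr : rho < 1) :
    BddAbove (gm g '' closedBall 0 rho) := by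
  refine ((isCompact_closedBall (0 : ℂ) rho).image_of_continuousOn ?_).bddAbove
  exact (cont g hg).mono (closedBall_subset_ball hr)

end Gxx

theorem Gx_proof : S_Gx := by
  intro I _ g hg
  refine ⟨Gxx.nonneg g, Gxx.cont g hg, ?_, ?_, ?_, ?_, ?_⟩
  · intro l z
    refine (Gxx.le_exp (norm_nonneg (g l z))).trans (Real.exp_le_exp.2 ?_)
    exact Finset.single_le_sum (f := fun l => Real.posLog ‖g l z‖)
      (fun _ _ => Real.posLog_nonneg) (Finset.mem_univ l)
  · intro rho
    refine Real.sSup_nonneg ?_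
    rintro _ ⟨z, _, rfl⟩
    exact Gxx.nonneg g z
  · intro rho z hr hz
    exact le_csSup (Gxx.bdd g hg rho hr) ⟨z, by simpa using hz, rfl⟩
  · intro r s hr hrs hs
    refine csSup_le_csSup (Gxx.bdd g hg s hs) ?_ (image_mono (closedBall_subset_closedBall hrs))
    exact ⟨gm g 0, 0, by simpa using hr, rfl⟩
  · intro rho V hr hV
    refine csSup_le ⟨gm g 0, 0, by simpa using hr, rfl⟩ ?_
    rintro _ ⟨z, hz, rfl⟩
    exact hV z (by simpa using hz)

end

end Pool.Agent.Work.MP_6d7a54_an.NM
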