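import Pool.Agent.Work.MP_6d7a54_an.NM.Stmts

/-!
# Block NM, item Har: the characteristic
-/

set_option autoImplicit false

namespace Pool.Agent.Work.MP_6d7a54_an.NM

open Filter Metric Set Topology Real
open Pool.Agent.Work.MP_6d7a54_an.NF (IsNev DP ev dd UF)

noncomputable section

namespace Harx

theorem integrable {I : Type} (g : I → ℂ → ℂ) (hg : Hol g) (l : I) (c : ℂ) (r : ℝ)
    (hr : 0 < r) (hc : closedBall c r ⊆ ball 0 1) :
    CircleIntegrable (fun z => Real.posLog ‖g l z‖) c r := by
  apply ContinuousOn.circleIntegrable hr.le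
  apply Real.continuous_posLog.comp_continuousOn
  exact ((hg l).continuousOn.mono (sphere_subset_closedBall.trans hc)).norm

theorem TT_eq {I : Type} [Fintype I] (g : I → ℂ → ℂ) (hg : Hol g) (c : ℂ) (r : ℝ)
    (hr : 0 < r) (hc : closedBall c r ⊆ ball 0 1) :
    TT g c r = ∑ l, Real.circleAverage (fun z => Real.posLog ‖g l z‖) c r := by
  unfold TT gm
  exact Real.circleAverage_fun_sum fun l _ => integrable g hg l c r hr hc

theorem analytic {I : Type} (g : I → ℂ → ℂ) (hg : Hol g) (l : I) (c : ℂ) (r : ℝ)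
    (hc : closedBall c r ⊆ ball 0 1) : AnalyticOnNhd ℂ (g l) (closedBall c r) :=
  ((hg l).analyticOnNhd isOpen_ball).mono hc

end Harx

theorem Har_proof (h1 : S_Gx) (h2 : S_T1) (h3 : S_Har1) : S_Har := by
  intro I _ g hg
  obtain ⟨hpos, hcont, -⟩ := h1 I g hg
  refine ⟨?_, ?_, ?_, ?_, ?_⟩
  · intro c r
    exact Real.circleAverage_nonneg_of_nonneg fun z _ => hpos z
  · intro c r r' hr hrr hc
    have hc' : closedBall c r ⊆ ball 0 1 := (closedBall_subset_closedBall hrr).trans hc
    rw [Harx.TT_eq g hg c r hr hc', Harx.TT_eq g hg c r' (lt_of_lt_of_le hr hrr) hc]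
    exact Finset.sum_le_sum fun l _ => h2 (g l) c r r' hr hrr (Harx.analytic g hg l c r' hc)
  · intro c z r hz hc
    have hr : 0 < r := pos_of_mem_ball hz
    rw [Harx.TT_eq g hg c r hr hc, Finset.mul_sum]
    exact Finset.sum_le_sum fun l _ => h3 (g l) c z r hz (Harx.analytic g hg l c r hc)
  · intro c r V hr hc hV
    apply Real.circleAverage_mono_on_of_le_circle
    · exact (hcont.mono (sphere_subset_closedBall.trans hc)).circleIntegrable hr.le
    · rw [abs_of_pos hr]
      exact hV
  · intro c r hr hc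
    exact Harx.TT_eq g hg c r hr hc

end

end Pool.Agent.Work.MP_6d7a54_an.NM
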