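import Pool.Agent.Work.MP_6d7a54_an.NM.Stmts
import Pool.Agent.Work.MP_6d7a54_an.UP.Defs
import Pool.Agent.Work.MP_6d7a54_an.UP.I_HUL

/-!
# Harnack's inequality for the positive part of the logarithm

The Poisson-Jensen inequality on circles of radius `s < r` without zeros of `f`, the upper bound of
the Poisson kernel, monotonicity of the means (`S_T1`), and `s` tends to `r`.
-/

namespace Pool.Agent.Work.MP_6d7a54_an.NM

open Filter Metric Set Topology MeasureTheory
open Pool.Agent.Work.MP_6d7a54_an.UP.HUL (kernel_le kernel_nonneg kernel_cont)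

noncomputable section

namespace Har1x

lemma pl_cont {f : ℂ → ℂ} {s : Set ℂ} (hf : ContinuousOn f s) :
    ContinuousOn (fun z => Real.posLog ‖f z‖) s :=
  Real.continuous_posLog.comp_continuousOn hf.norm

lemma avg_nonneg (f : ℂ → ℂ) (c : ℂ) (r : ℝ) :
    0 ≤ Real.circleAverage (fun z => Real.posLog ‖f z‖) c r :=
  Real.circleAverage_nonneg_of_nonneg fun _ _ => Real.posLog_nonneg

lemma quot_nonneg {z : ℂ} {r : ℝ} (hz : ‖z‖ < r) : 0 ≤ (r + ‖z‖) / (r - ‖z‖) := by
  have := norm_nonneg z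
  exact div_nonneg (by linarith) (by linarith)

/-- the case of a circle without zeros, centre `0` -/
lemma point (h2 : Pool.Agent.Work.MP_6d7a54_an.UP.S_PJ) {f : ℂ → ℂ} {r : ℝ} (hr : 0 < r)
    (hf : AnalyticOnNhd ℂ f (closedBall 0 r)) (h0 : ∀ z ∈ sphere (0 : ℂ) r, f z ≠ 0) {w : ℂ}
    (hw : w ∈ ball (0 : ℂ) r) :
    Real.posLog ‖f w‖ ≤
      (r + ‖w‖) / (r - ‖w‖) * Real.circleAverage (fun z => Real.posLog ‖f z‖) 0 r := by
  have hwr : ‖w‖ < r := mem_ball_zero_iff.1 hw
  have hfs : ContinuousOn f (sphere (0 : ℂ) r) :=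
    hf.continuousOn.mono sphere_subset_closedBall
  have hnn := mul_nonneg (quot_nonneg hwr) (avg_nonneg f 0 r)
  by_cases h1 : ‖f w‖ ≤ 1
  · rw [(Real.posLog_eq_zero_iff _).mpr (by rwa [abs_of_nonneg (norm_nonneg _)])]
    exact hnn
  · have h1' : 1 ≤ ‖f w‖ := (lt_of_not_ge h1).le
    rw [Real.posLog_eq_log (by rwa [abs_of_nonneg (norm_nonneg _)])]
    have hfw : f w ≠ 0 := by
      intro h
      rw [h, norm_zero] at h1'
      linarith
    refine (h2 f r w hr hw hf h0 hfw).trans ?_
    have hK := kernel_cont hw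
    have hlog : ContinuousOn (fun z => Real.log ‖f z‖) (sphere (0 : ℂ) |r|) := by
      rw [abs_of_pos hr]
      exact hfs.norm.log fun z hz => norm_ne_zero_iff.mpr (h0 z hz)
    have hpl : ContinuousOn (fun z => Real.posLog ‖f z‖) (sphere (0 : ℂ) |r|) := by
      rw [abs_of_pos hr]
      exact pl_cont hfs
    have i1 : CircleIntegrable (fun z => poissonKernel 0 w z * Real.log ‖f z‖) 0 r :=
      (hK.mul hlog).circleIntegrable'
    have i2 : CircleIntegrable (((r + ‖w‖) / (r - ‖w‖)) • fun z => Real.posLog ‖f z‖) 0 r :=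
      (continuousOn_const.smul hpl).circleIntegrable'
    calc Real.circleAverage (fun z => poissonKernel 0 w z * Real.log ‖f z‖) 0 r
        ≤ Real.circleAverage (((r + ‖w‖) / (r - ‖w‖)) • fun z => Real.posLog ‖f z‖) 0 r := by
          apply Real.circleAverage_mono i1 i2
          intro z hz
          rw [abs_of_pos hr] at hz
          show poissonKernel 0 w z * Real.log ‖f z‖ ≤
            (r + ‖w‖) / (r - ‖w‖) * Real.posLog ‖f z‖
          have hle : Real.log ‖f z‖ ≤ Real.posLog ‖f z‖ := by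
            rw [Real.posLog_apply]
            exact le_max_right _ _
          exact (mul_le_mul_of_nonneg_left hle (kernel_nonneg hz hw)).trans
            (mul_le_mul_of_nonneg_right (kernel_le hz hw) Real.posLog_nonneg)
      _ = (r + ‖w‖) / (r - ‖w‖) * Real.circleAverage (fun z => Real.posLog ‖f z‖) 0 r := by
          rw [Real.circleAverage_smul, smul_eq_mul]

/-- centre `0` -/
lemma main0 (h1 : S_T1) (h2 : Pool.Agent.Work.MP_6d7a54_an.UP.S_PJ) {f : ℂ → ℂ} {R : ℝ} {z : ℂ}
    (hz : z ∈ ball (0 : ℂ) R) (hf : AnalyticOnNhd ℂ f (closedBall 0 R)) :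
    Real.posLog ‖f z‖ ≤
      (R + ‖z‖) / (R - ‖z‖) * Real.circleAverage (fun z => Real.posLog ‖f z‖) 0 R := by
  have hzR : ‖z‖ < R := mem_ball_zero_iff.1 hz
  have hR : 0 < R := (norm_nonneg z).trans_lt hzR
  by_cases hfin : {z | z ∈ closedBall (0 : ℂ) R ∧ f z = 0}.Finite
  · have hD : ((fun z => dist z 0) '' {z | z ∈ closedBall (0 : ℂ) R ∧ f z = 0}).Finite :=
      hfin.image _
    have htend : Tendsto (fun s : ℝ => (s + ‖z‖) / (s - ‖z‖) *
        Real.circleAverage (fun z => Real.posLog ‖f z‖) 0 R) (𝓝[<] R)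
        (𝓝 ((R + ‖z‖) / (R - ‖z‖) *
          Real.circleAverage (fun z => Real.posLog ‖f z‖) 0 R)) := by
      have hc : ContinuousAt (fun s : ℝ => (s + ‖z‖) / (s - ‖z‖) *
          Real.circleAverage (fun z => Real.posLog ‖f z‖) 0 R) R := by
        refine ContinuousAt.mul (ContinuousAt.div ?_ ?_ ?_) continuousAt_const
        · exact continuousAt_id.add continuousAt_const
        · exact continuousAt_id.sub continuousAt_const
        · exact (sub_pos.2 hzR).ne'
      exact hc.tendsto.mono_left nhdsWithin_le_nhds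
    refine ge_of_tendsto htend ?_
    have ev1 : ∀ᶠ s in 𝓝[<] R, s ∈ Ioo ‖z‖ R := Ioo_mem_nhdsLT hzR
    have ev2 : ∀ᶠ s in 𝓝[<] R, s ∈
        (((fun z => dist z 0) '' {z | z ∈ closedBall (0 : ℂ) R ∧ f z = 0}) \ {R})ᶜ := by
      apply mem_nhdsWithin_of_mem_nhds
      exact (hD.subset sdiff_subset).isClosed.compl_mem_nhds fun hx => hx.2 rfl
    filter_upwards [ev1, ev2] with s hs1 hs2
    have hs0 : 0 < s := (norm_nonneg z).trans_lt hs1.1
    have hp := point h2 hs0 (hf.mono (closedBall_subset_closedBall hs1.2.le))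
      (fun w hw hw0 => hs2 ⟨⟨w, ⟨closedBall_subset_closedBall hs1.2.le
        (sphere_subset_closedBall hw), hw0⟩, mem_sphere.mp hw⟩,
        fun hsR => absurd hsR hs1.2.ne⟩) (mem_ball_zero_iff.2 hs1.1)
    exact hp.trans (mul_le_mul_of_nonneg_left (h1 f 0 s R hs0 hs1.2.le hf)
      (quot_nonneg hs1.1))
  · obtain ⟨x, hx, hacc⟩ := (show {z | z ∈ closedBall (0 : ℂ) R ∧ f z = 0}.Infinite from
      hfin).exists_accPt_of_subset_isCompact (isCompact_closedBall 0 R) fun z hz => hz.1
    have hfreq : ∃ᶠ z in 𝓝[≠] x, f z = 0 := by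
      rw [accPt_iff_frequently_nhdsNE] at hacc
      exact hacc.mono fun z hz => hz.2
    have hzz := hf.eqOn_zero_of_preconnected_of_frequently_eq_zero
      (convex_closedBall (0 : ℂ) R).isPreconnected hx hfreq
    have h3 : f z = 0 := hzz (ball_subset_closedBall hz)
    rw [h3, norm_zero, Real.posLog_zero]
    exact mul_nonneg (quot_nonneg hzR) (avg_nonneg f 0 R)

end Har1x

open Har1x in
theorem Har1_proof (h1 : S_T1) (h2 : Pool.Agent.Work.MP_6d7a54_an.UP.S_PJ) : S_Har1 := by
  intro f c z r hz hf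
  have e : Real.circleAverage (fun z => Real.posLog ‖f z‖) c r =
      Real.circleAverage (fun z => Real.posLog ‖f (z + c)‖) 0 r :=
    (Real.circleAverage_map_add_const (f := fun z => Real.posLog ‖f z‖)).symm
  have hz' : z - c ∈ ball (0 : ℂ) r := by
    rw [mem_ball_zero_iff]
    exact mem_ball_iff_norm.1 hz
  have h3 := main0 h1 h2 (f := fun w => f (w + c)) hz' (fun w hw => by
    have hw' : w + c ∈ closedBall c r := by
      rw [mem_closedBall_iff_norm, add_sub_cancel_right]
      exact mem_closedBall_zero_iff.mp hw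
    have e : AnalyticAt ℂ (fun w : ℂ => w + c) w := by fun_prop
    exact AnalyticAt.fun_comp (g := f) (f := fun w : ℂ => w + c) (hf (w + c) hw') e)
  have h4 : Real.posLog ‖f (z - c + c)‖ ≤ (r + ‖z - c‖) / (r - ‖z - c‖) *
      Real.circleAverage (fun z => Real.posLog ‖f (z + c)‖) 0 r := h3
  rw [sub_add_cancel, ← e] at h4
  exact h4

end

end Pool.Agent.Work.MP_6d7a54_an.NM
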