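import Pool.Agent.Work.MP_6d7a54_an.NM.Stmts

/-!
# Nevanlinna fields for discs of arbitrary growth: assembly (MP_6d7a54_an, block NM, helper37)
-/

set_option autoImplicit false

namespace Pool.Agent.Work.MP_6d7a54_an.NM

open Filter Metric Set Topology Real
open Pool.Agent.Work.MP_6d7a54_an.NF (IsNev DP ev dd UF)

noncomputable section

namespace Nevx

/-- embedding of polynomials -/
def em {F I : Type} [Field F] (P : MvPolynomial I F) : DP F I :=
  MvPolynomial.rename (fun l => (l, 0)) P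

lemma ev_em {F I : Type} [Field F] [Algebra F ℂ] (g : I → ℂ → ℂ) (z : ℂ)
    (P : MvPolynomial I F) :
    ev g z (em P) = MvPolynomial.aeval (fun l => g l z) P := by
  unfold ev em
  rw [MvPolynomial.aeval_rename]
  congr 1

lemma phi_em {F I L : Type} [Field F] [Field L] [Algebra F L] (phi : DP F I →ₐ[F] L)
    (P : MvPolynomial I F) :
    phi (em P) = MvPolynomial.aeval (fun l => phi (MvPolynomial.X (l, 0))) P := by
  have h := MvPolynomial.aeval_unique (phi.comp (MvPolynomial.rename (fun l : I => (l, 0))))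
  have h2 := congrArg (fun f : MvPolynomial I F →ₐ[F] L => f P) h
  have h3 : (phi.comp (MvPolynomial.rename (fun l : I => (l, 0)))) P = phi (em P) := rfl
  rw [← h3]
  refine h2.trans ?_
  congr 2
  funext l
  simp

lemma pow_mem {z : ℂ} (hz : z ∈ ball (0 : ℂ) 1) {k : ℕ} (hk : 1 ≤ k) :
    z ^ k ∈ ball (0 : ℂ) 1 := by
  rw [mem_ball_zero_iff] at hz ⊢
  rw [norm_pow]
  exact pow_lt_one₀ (norm_nonneg z) hz (by omega)

end Nevx

open Nevx in
theorem Nev_proof (hConf : S_Conf) (hid : S_ideal) (hpr : S_prime) (hCen : S_Cen)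
    (hRad : S_Rad) (h1 : S_s1) (h3 : S_s3) (h7 : S_s7) (h8 : S_s8) (hlo : S_lo)
    (hlo2 : S_lo2) (hdom : S_dom) (hAC : NF.S_AC) : S_Nev := by
  intro F _ _ _ I _ c0 g hbad
  obtain ⟨nn, kk, a, b, hkk, hC⟩ := hConf F I c0 g hbad
  obtain ⟨c, hc⟩ := hCen F I _ a b hC
  obtain ⟨r, hr⟩ := hRad F I _ a b c hC hc
  set g' : ℕ → I → ℂ → ℂ := fun q l z => g (nn q) l (z ^ kk q) with hg'
  obtain ⟨i1, i2, i3, i4, i5⟩ := hid F I g' a b hC
  have hprime := hpr F I g' a b hC
  let T : Ideal (DP F I) :=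
    { carrier := {P | Tiny g' a P}
      add_mem' := fun {x y} hx hy => i1 x y hx hy
      zero_mem' := i4 0 (fun n z _ => by unfold ev; simp)
      smul_mem' := fun x y hy => by
        have := i2 y x hy
        rw [mul_comm] at this
        exact this }
  have hT : ∀ P : DP F I, P ∈ T ↔ Tiny g' a P := fun P => Iff.rfl
  have hT1 : (1 : DP F I) ∉ T := by
    rw [hT]
    exact i5 1 ⟨1, one_ne_zero, fun n => by unfold ev; simp⟩
  have hTp : T.IsPrime := by
    refine ⟨fun h => hT1 (h ▸ Submodule.mem_top), ?_⟩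
    intro x y hxy
    by_contra hcon
    push Not at hcon
    exact hprime x y hcon.1 hcon.2 hxy
  have hchar : CharZero F := (algebraMap F ℂ).charZero
  obtain ⟨c1, c2, c3, c4⟩ := h3 F I g' a b c r hC hc hr
  obtain ⟨l1, l2, l3, l4, l5⟩ := hlo F I g' a b c r hC hc hr
  obtain ⟨L, iF, iA, D, S, Sm, phi, hNev, hS, hker, hsm⟩ := hAC F (DP F I) dd T hTp
    (fun x hx => i3 x hx) (sm g' c r) (lo g' c r)
    (fun p q p' q' hq hq' h hs => h1 F I g' a b c r hC hc hr p q p' q' hq hq' h hs)
    (fun x => by rw [MvPolynomial.algebraMap_eq]; exact c1 x)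
    (fun p q p' q' hq hq' hs hs' => c2 p q p' q' hq hq' hs hs')
    (fun p q hp hq => c3 p q hp hq)
    (fun p q e hq he hs => c4 p q e hq he hs)
    (fun p q hq h => h7 F I g' a b c r hC hc hr p q hq h)
    (fun p q p' q' hp hq hp' hq' h hl => l1 p q p' q' hp hq hp' hq' h hl)
    (fun p hp => l2 p hp)
    (fun p q p' q' hp hq hp' hq' h h' => l3 p q p' q' hp hq hp' hq' h h')
    (fun p q hp hq h => l4 p q hp hq h)
    (fun p q hp hq h h' => l5 p q hp hq h h')
    (fun x y p q hx hy hp hq h => hlo2 F I g' a b c r hC hc hr x y p q hx hy hp hq h)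
  have key : ∀ x : DP F I, phi x ∈ Sm ↔ sm g' c r x 1 := by
    intro x
    rw [← hsm x 1 hT1, map_one, div_one]
  refine ⟨L, iF, iA, D, S, Sm, fun l => phi (MvPolynomial.X (l, 0)), hNev, fun l => hS _,
    ?_, ?_, ?_, ?_⟩
  · intro P hP
    rw [← phi_em, hker, hT]
    apply i4
    intro n z hz
    rw [ev_em]
    exact hP (nn n) (z ^ kk n) (pow_mem hz (hkk n))
  · rintro P ⟨x, hx, hP⟩
    rw [← phi_em, Ne, hker, hT]
    apply i5
    refine ⟨x, hx, fun n => ?_⟩
    rw [ev_em]
    have h0 : (fun l => g' n l 0) = fun l => g (nn n) l 0 := by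
      funext l
      show g (nn n) l (0 ^ kk n) = g (nn n) l 0
      rw [zero_pow (by have := hkk n; omega)]
    rw [h0]
    exact hP (nn n)
  · intro k P R C hdo hP
    rw [← phi_em, key]
    refine hdom F I g' a b c r hC hc hr k (fun i => em (P i)) (em R) C ?_ ?_
    · intro n z hz
      simp only [ev_em]
      exact hdo (nn n) (z ^ kk n) (pow_mem hz (hkk n))
    · intro i
      have := hP i
      rw [← phi_em, key] at this
      exact this
  · intro hcon
    exact h8 F I g' a b c r hC hc hr fun l => (key _).1 (hcon l)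

end

end Pool.Agent.Work.MP_6d7a54_an.NM
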