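import Pool.Agent.Work.MP_6d7a54_an.NM.Stmts

/-!
# Substitution of a power
-/

namespace Pool.Agent.Work.MP_6d7a54_an.NM

open Filter Metric Set Topology

noncomputable section

theorem Pow_proof : S_Pow := by
  intro I _ g k hk
  have hk0 : k ≠ 0 := by omega
  constructor
  · intro hg l
    have hmap : MapsTo (fun z : ℂ => z ^ k) (ball 0 1) (ball 0 1) := by
      intro z hz
      rw [mem_ball_zero_iff] at hz ⊢
      show ‖z ^ k‖ < 1
      rw [norm_pow]
      exact pow_lt_one₀ (norm_nonneg _) hz hk0
    exact (hg l).comp (differentiable_pow k).differentiableOn hmap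
  · intro r hr
    unfold Gx
    congr 1
    ext y
    constructor
    · rintro ⟨z, hz, rfl⟩
      refine ⟨z ^ k, ?_, rfl⟩
      rw [mem_closedBall_zero_iff] at hz ⊢
      rw [norm_pow]
      exact pow_le_pow_left₀ (norm_nonneg _) hz k
    · rintro ⟨w, hw, rfl⟩
      obtain ⟨z, hz⟩ := IsAlgClosed.exists_pow_nat_eq w (show 0 < k by omega)
      refine ⟨z, ?_, ?_⟩
      · rw [mem_closedBall_zero_iff] at hw ⊢
        rw [← hz, norm_pow] at hw
        exact le_of_pow_le_pow_left₀ hk0 hr hw
      · show gm g (z ^ k) = gm g w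
        rw [hz]

end

end Pool.Agent.Work.MP_6d7a54_an.NM
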