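import Pool.Agent.Work.MP_6d7a54_an.NM.Stmts

/-!
# Item Rad: good radii
-/

namespace Pool.Agent.Work.MP_6d7a54_an.NM

open Filter Metric Set Topology Real
open Pool.Agent.Work.MP_6d7a54_an.NF (IsNev DP ev dd UF)

noncomputable section

namespace Radx

/-- the ball of radius `3 a / 4` around the centre -/
theorem sub_a {a b r : ℝ} {c : ℂ} (hb : 0 < b) (hab : 48 * b ≤ a) (hc : ‖c‖ ≤ b)
    (hr : r ≤ 3 * a / 4) : closedBall c r ⊆ closedBall 0 a := by
  intro z hz
  rw [mem_closedBall, dist_eq_norm] at hz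
  rw [mem_closedBall, dist_zero_right]
  calc ‖z‖ = ‖(z - c) + c‖ := by rw [sub_add_cancel]
    _ ≤ ‖z - c‖ + ‖c‖ := norm_add_le _ _
    _ ≤ a := by linarith

theorem sub_1 {a : ℝ} (ha : a ≤ 1 / 2) : closedBall (0 : ℂ) a ⊆ ball 0 1 :=
  closedBall_subset_ball (by linarith)

theorem sub_b {a b r : ℝ} {c : ℂ} (hb : 0 < b) (hab : 48 * b ≤ a) (ha : a ≤ 1 / 2) (hc : ‖c‖ ≤ b)
    (hr : r ≤ 3 * a / 4) : closedBall c r ⊆ ball 0 1 :=
  (sub_a hb hab hc hr).trans (sub_1 ha)

theorem an {a b r : ℝ} {c : ℂ} (hb : 0 < b) (hab : 48 * b ≤ a) (ha : a ≤ 1 / 2) (hc : ‖c‖ ≤ b)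
    (hr : r ≤ 3 * a / 4) {v : ℂ → ℂ} (hv : DifferentiableOn ℂ v (ball 0 1)) :
    AnalyticOnNhd ℂ v (closedBall c r) :=
  (hv.analyticOnNhd isOpen_ball).mono (sub_b hb hab ha hc hr)

theorem tt_aux (hGx : S_Gx) (hHar : S_Har) {I : Type} [Fintype I] {g : I → ℂ → ℂ}
    (hg : Hol g) {a b : ℝ} {c : ℂ} (hb : 0 < b)
    (hab : 48 * b ≤ a) (ha : a ≤ 1 / 2) (hc : ‖c‖ ≤ b) :
    Gx g (a / 16) ≤ 2 * TT g c (a / 4) := by
  obtain ⟨m0, m1, m2, m3, m4, m5, m6⟩ := hGx I g hg
  obtain ⟨r0, r1, r2, r3, -⟩ := hHar I g hg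
  have ha0 : 0 < a := by linarith
  refine m6 (a / 16) _ (by linarith) fun z hz => ?_
  have hzc : ‖z - c‖ ≤ a / 12 := by
    refine (norm_sub_le _ _).trans ?_
    linarith
  have h := r2 c z (a / 4) (by
    rw [mem_ball, dist_eq_norm]
    linarith) (sub_b hb hab ha hc (by linarith))
  refine h.trans (mul_le_mul_of_nonneg_right ?_ (r0 _ _))
  rw [div_le_iff₀ (by linarith)]
  linarith

theorem grow_u (hHar : S_Har) {I : Type} [Fintype I] {g : I → ℂ → ℂ}
    (hg : Hol g) {a b : ℝ} {c : ℂ} (hb : 0 < b)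
    (hab : 48 * b ≤ a) (ha : a ≤ 1 / 2) (hc : ‖c‖ ≤ b) {s t : ℝ} (hs : 0 ≤ s) (hst : s < t)
    (ht : t ≤ 3 * a / 4) {z : ℂ} (hz : z ∈ closedBall c s) :
    gm g z ≤ 2 * t / (t - s) * TT g c t := by
  obtain ⟨r0, r1, r2, r3, -⟩ := hHar I g hg
  rw [mem_closedBall, dist_eq_norm] at hz
  have h := r2 c z t (by
    rw [mem_ball, dist_eq_norm]
    linarith) (sub_b hb hab ha hc ht)
  refine h.trans (mul_le_mul_of_nonneg_right ?_ (r0 _ _))
  exact div_le_div₀ (by linarith) (by linarith) (by linarith) (by linarith)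

theorem T_le (hGx : S_Gx) (hHar : S_Har) {I : Type} [Fintype I] {g : I → ℂ → ℂ}
    (hg : Hol g) {a b : ℝ} {c : ℂ} (hb : 0 < b)
    (hab : 48 * b ≤ a) (ha : a ≤ 1 / 2) (hc : ‖c‖ ≤ b) {r : ℝ} (hr : 0 < r)
    (hr' : r ≤ 3 * a / 4) : TT g c r ≤ Gx g a := by
  obtain ⟨m0, m1, m2, m3, m4, m5, m6⟩ := hGx I g hg
  obtain ⟨r0, r1, r2, r3, -⟩ := hHar I g hg
  refine r3 c r _ hr (sub_b hb hab ha hc hr') fun z hz => ?_
  have hz' := sub_a hb hab hc hr' (sphere_subset_closedBall hz)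
  rw [mem_closedBall, dist_zero_right] at hz'
  exact m4 a z (by linarith) hz'

/-- growth of a differential polynomial, in terms of the characteristic -/
theorem grow_P (hHar : S_Har) {F I : Type} [Field F] [Algebra F ℂ] [Fintype I] {P : DP F I}
    {K : ℝ} (hK0 : 0 ≤ K)
    (hK : ∀ g : I → ℂ → ℂ, Hol g →
      ∀ (c : ℂ) (rho rho' V : ℝ), rho < rho' → closedBall c rho' ⊆ ball 0 1 → 0 ≤ V →
      (∀ z ∈ closedBall c rho', gm g z ≤ V) → ∀ z ∈ closedBall c rho,
      ‖ev g z P‖ ≤ Real.exp (K * (1 + V + Real.log (1 / (rho' - rho)))))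
    {g : I → ℂ → ℂ} (hg : Hol g) {a b : ℝ} {c : ℂ}
    (hb : 0 < b) (hab : 48 * b ≤ a) (ha : a ≤ 1 / 2) (hc : ‖c‖ ≤ b) {s t : ℝ}
    (hs : a / 4 ≤ s) (hst : s < t) (ht : t ≤ 3 * a / 4) (hT : 1 + Real.log (1 / a) ≤ TT g c t)
    {z : ℂ} (hz : z ∈ closedBall c s) :
    ‖ev g z P‖ ≤ Real.exp (8 * K * (a / (t - s)) * TT g c t) := by
  have ha0 : 0 < a := by linarith
  have hts : 0 < t - s := by linarith
  have hla : 0 ≤ Real.log (1 / a) := Real.log_nonneg (by
    rw [le_div_iff₀ ha0]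
    linarith)
  have hV := fun z hz => grow_u hHar hg hb hab ha hc (s := (s + t) / 2) (t := t)
    (by linarith) (by linarith) ht (z := z) hz
  have hT0 : 1 ≤ TT g c t := by linarith
  have hq : 2 ≤ a / (t - s) := by
    rw [le_div_iff₀ hts]
    linarith
  have h := hK g hg c s ((s + t) / 2)
    (2 * t / (t - (s + t) / 2) * TT g c t) (by linarith)
    (sub_b hb hab ha hc (by linarith))
    (mul_nonneg (div_nonneg (by linarith) (by linarith)) (by linarith))
    hV z hz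
  refine h.trans (Real.exp_le_exp.2 ?_)
  obtain ⟨q, hqd⟩ : ∃ q, q = a / (t - s) := ⟨_, rfl⟩
  rw [← hqd] at hq ⊢
  have e1 : 2 * t / (t - (s + t) / 2) ≤ 3 * q := by
    rw [hqd, div_le_iff₀ (by linarith)]
    have : 3 * (a / (t - s)) * (t - (s + t) / 2) = 3 * a / 2 := by
      field_simp
      ring
    rw [this]
    linarith
  have e2 : Real.log (1 / ((s + t) / 2 - s)) ≤ 1 + Real.log (1 / a) + q := by
    have h1 : 1 / ((s + t) / 2 - s) = 2 * (1 / a) * q := by
      rw [hqd]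
      have : (s + t) / 2 - s = (t - s) / 2 := by ring
      rw [this]
      field_simp
    have h2 : 0 < q := by linarith
    rw [h1, Real.log_mul (by positivity) h2.ne', Real.log_mul (by norm_num) (by positivity)]
    have h3 := Real.log_le_sub_one_of_pos h2
    have h4 := Real.log_two_lt_d9
    linarith
  have e3 : 1 + 2 * t / (t - (s + t) / 2) * TT g c t +
      Real.log (1 / ((s + t) / 2 - s)) ≤ 8 * (q * TT g c t) := by
    have h1 : 2 * t / (t - (s + t) / 2) * TT g c t ≤ 3 * q * TT g c t :=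
      mul_le_mul_of_nonneg_right e1 (by linarith)
    have h2 : 2 * TT g c t ≤ q * TT g c t := mul_le_mul_of_nonneg_right hq (by linarith)
    have h3 : q * 1 ≤ q * TT g c t := mul_le_mul_of_nonneg_left hT0 (by linarith)
    nlinarith
  calc K * (1 + 2 * t / (t - (s + t) / 2) * TT g c t +
      Real.log (1 / ((s + t) / 2 - s))) ≤ K * (8 * (q * TT g c t)) :=
        mul_le_mul_of_nonneg_left e3 hK0
    _ = 8 * K * q * TT g c t := by ring

/-- upper bound of a differential polynomial -/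
theorem up_P (hGx : S_Gx) {F I : Type} [Field F] [Algebra F ℂ] [Fintype I] {P : DP F I}
    {K : ℝ} (hK0 : 0 ≤ K)
    (hK : ∀ g : I → ℂ → ℂ, Hol g →
      ∀ (c : ℂ) (rho rho' V : ℝ), rho < rho' → closedBall c rho' ⊆ ball 0 1 → 0 ≤ V →
      (∀ z ∈ closedBall c rho', gm g z ≤ V) → ∀ z ∈ closedBall c rho,
      ‖ev g z P‖ ≤ Real.exp (K * (1 + V + Real.log (1 / (rho' - rho)))))
    {g : I → ℂ → ℂ} (hg : Hol g) {a b : ℝ} {c : ℂ}
    (hb : 0 < b) (hab : 48 * b ≤ a) (ha : a ≤ 1 / 2) (hc : ‖c‖ ≤ b)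
    (hM : 1 + Real.log (1 / a) ≤ Gx g a) {z : ℂ} (hz : z ∈ closedBall c (5 * a / 8)) :
    ‖ev g z P‖ ≤ Real.exp (5 * K * Gx g a) := by
  obtain ⟨m0, m1, m2, m3, m4, m5, m6⟩ := hGx I g hg
  have ha0 : 0 < a := by linarith
  have hla : 0 ≤ Real.log (1 / a) := Real.log_nonneg (by
    rw [le_div_iff₀ ha0]
    linarith)
  have h := hK g hg c (5 * a / 8) (3 * a / 4) (Gx g a) (by linarith)
    (sub_b hb hab ha hc le_rfl) (by linarith)
    (fun z hz => m4 a z (by linarith) (by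
      have h := sub_a hb hab hc le_rfl hz
      rwa [mem_closedBall, dist_zero_right] at h)) z hz
  refine h.trans (Real.exp_le_exp.2 ?_)
  have e2 : Real.log (1 / (3 * a / 4 - 5 * a / 8)) ≤ 3 + Real.log (1 / a) := by
    have h1 : 1 / (3 * a / 4 - 5 * a / 8) = 2 ^ 3 * (1 / a) := by
      have : 3 * a / 4 - 5 * a / 8 = a / 8 := by ring
      rw [this]
      field_simp
      norm_num
    rw [h1, Real.log_mul (by norm_num) (by positivity), Real.log_pow]
    have h4 := Real.log_two_lt_d9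
    push_cast
    linarith
  calc K * (1 + Gx g a + Real.log (1 / (3 * a / 4 - 5 * a / 8))) ≤ K * (5 * Gx g a) :=
        mul_le_mul_of_nonneg_left (by linarith) hK0
    _ = 5 * K * Gx g a := by ring

theorem diff_ev (hev : NF.S_ev) {F I : Type} [Field F] [Algebra F ℂ] {g : I → ℂ → ℂ}
    (hg : ∀ l, DifferentiableOn ℂ (g l) (ball 0 1)) (P : DP F I) :
    DifferentiableOn ℂ (fun z => ev g z P) (ball 0 1) := fun z hz =>
  (hev F I g P (ball 0 1) isOpen_ball hg z hz).differentiableAt.differentiableWithinAt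

theorem UF_le : UF ≤ atTop := Nat.hyperfilter_le_atTop

/-- the facts for large `n` -/
theorem facts (hGx : S_Gx) (hHar : S_Har) {F I : Type} [Field F] [Algebra F ℂ] [Fintype I]
    {g : ℕ → I → ℂ → ℂ} {a b : ℕ → ℝ} {c : ℕ → ℂ}
    (hC : Conf F g a b) (hc : Cen F g a b c) {n : ℕ} (hn : 3 ≤ n) :
    48 * b n ≤ a n ∧ Gx (g n) (a n / 16) ≤ 2 * TT (g n) (c n) (a n / 4) ∧
    (n : ℝ) * (1 + Real.log (1 / a n)) ≤ Gx (g n) (b n) ∧
    Gx (g n) (b n) ≤ Gx (g n) (a n / 16) ∧ Gx (g n) (b n) ≤ Gx (g n) (a n) := by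
  have hn' : (3 : ℝ) ≤ n := by exact_mod_cast hn
  have hb := hC.hb n
  have hab : 48 * b n ≤ a n := by
    refine le_trans ?_ (hC.hab n)
    have h1 : (4 : ℝ) ^ 3 ≤ ((n : ℝ) + 1) ^ 3 := pow_le_pow_left₀ (by norm_num) (by linarith) 3
    have h2 := mul_le_mul_of_nonneg_left h1 hb.le
    linarith
  have ha := hC.ha n
  have hg := hC.hol n
  obtain ⟨m0, m1, m2, m3, m4, m5, m6⟩ := hGx I (g n) hg
  refine ⟨hab, tt_aux hGx hHar hg hb hab ha (hc.hc n), ?_, ?_, ?_⟩
  · refine le_trans ?_ (hC.big n)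
    refine mul_le_mul_of_nonneg_left ?_ (by linarith)
    have h3 : Real.log (1 / a n) ≤ Real.log (1 / b n) := by
      refine Real.log_le_log (by
        have : 0 < a n := by linarith
        positivity) ?_
      exact one_div_le_one_div_of_le hb (by linarith)
    linarith
  · exact m5 _ _ hb.le (by linarith) (by linarith)
  · exact m5 _ _ hb.le (by linarith) (by linarith)

theorem exist_aux (hGx : S_Gx) (hev : NF.S_ev) (hGB : S_GB) (hHar : S_Har)
    (hRadF : NF.S_RadF) {F I : Type} [Field F] [Algebra F ℂ] [Fintype I]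
    {g : ℕ → I → ℂ → ℂ} {a b : ℕ → ℝ} {c : ℕ → ℂ}
    (hC : Conf F g a b) (hc : Cen F g a b c) (k : ℕ) (P : Fin k → DP F I) {e : ℝ}
    (he : 0 < e) : ∀ᶠ n in UF, ∃ x : ℝ, a n / 4 ≤ x ∧ x ≤ a n / 2 ∧
      ∀ j, ¬ Tiny g a (P j) →
        (∀ z ∈ sphere (c n) x, Real.exp (-(e * (n * Gx (g n) (a n)))) ≤ ‖ev (g n) z (P j)‖) ∧
        Real.circleAverage
          (fun z => Real.posLog (‖ev (g n) z (dd (P j))‖ / ‖ev (g n) z (P j)‖)) (c n) x
          ≤ e * TT (g n) (c n) x := by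
  classical
  choose K hK0 hK using fun j => hGB F I (P j)
  have hKs : 0 ≤ ∑ j, K j := Finset.sum_nonneg fun j _ => hK0 j
  have hKj : ∀ j, K j ≤ ∑ j, K j := fun j =>
    Finset.single_le_sum (f := K) (fun j _ => hK0 j) (Finset.mem_univ j)
  obtain ⟨A0, K1, hA0, hK1, key⟩ := hRadF k (1 + 8 * ∑ j, K j) e (by linarith) he
  obtain ⟨KX, hKX⟩ : ∃ KX, KX = 1 + 5 * ∑ j, K j := ⟨_, rfl⟩
  have ev1 : ∀ᶠ n : ℕ in UF, 3 ≤ n := UF_le (eventually_ge_atTop 3)
  have ev2 : ∀ᶠ n : ℕ in UF, 2 * A0 ≤ (n : ℝ) :=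
    UF_le (tendsto_natCast_atTop_atTop.eventually (eventually_ge_atTop (2 * A0)))
  have ev3 : ∀ᶠ n : ℕ in UF, K1 * KX / e ≤ (n : ℝ) :=
    UF_le (tendsto_natCast_atTop_atTop.eventually (eventually_ge_atTop (K1 * KX / e)))
  have ev4 : ∀ᶠ n : ℕ in UF, ∀ j, ¬ Tiny g a (P j) →
      Real.exp (-(1 / 2 * Gx (g n) (a n / 16))) ≤ ‖ev (g n) (c n) (P j)‖ := by
    refine eventually_all.2 fun j => ?_
    by_cases hj : Tiny g a (P j)
    · exact Eventually.of_forall fun n h => absurd hj h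
    · filter_upwards [hc.lower (P j) hj (1 / 2) (by norm_num)] with n hn _
      exact hn
  filter_upwards [ev1, ev2, ev3, ev4] with n h1 h2 h3 h4
  obtain ⟨hab, hMT, hbig, hMb, hMb'⟩ := facts hGx hHar hC hc h1
  have hb := hC.hb n
  have ha := hC.ha n
  have hcn := hc.hc n
  have hg := hC.hol n
  have ha0 : 0 < a n := by linarith
  have hn1 : (3 : ℝ) ≤ n := by exact_mod_cast h1
  have hla : 0 ≤ Real.log (1 / a n) := Real.log_nonneg (by
    rw [le_div_iff₀ ha0]
    linarith)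
  have hTmono : ∀ r r' : ℝ, 0 < r → r ≤ r' → r' ≤ 3 * a n / 4 →
      TT (g n) (c n) r ≤ TT (g n) (c n) r' := fun r r' hr hrr hr' =>
    (hHar I (g n) hg).2.1 (c n) r r' hr hrr (sub_b hb hab ha hcn hr')
  have hT4 : A0 * (1 + Real.log (1 / a n)) ≤ TT (g n) (c n) (a n / 4) := by
    have e1 : 2 * A0 * (1 + Real.log (1 / a n)) ≤ n * (1 + Real.log (1 / a n)) :=
      mul_le_mul_of_nonneg_right h2 (by linarith)
    linarith
  have hT4' : 1 + Real.log (1 / a n) ≤ TT (g n) (c n) (a n / 4) := by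
    refine le_trans ?_ hT4
    exact le_mul_of_one_le_left (by linarith) hA0
  have hMa1 : 1 + Real.log (1 / a n) ≤ Gx (g n) (a n) := by
    refine le_trans ?_ (hbig.trans hMb')
    exact le_mul_of_one_le_left (by linarith) (by linarith)
  have hMa0 : 0 ≤ Gx (g n) (a n) := by linarith
  have hKXM : Gx (g n) (a n) + 5 * (∑ j, K j) * Gx (g n) (a n) =
      KX * Gx (g n) (a n) := by
    rw [hKX]
    ring
  have hK5 : 0 ≤ 5 * (∑ j, K j) * Gx (g n) (a n) := mul_nonneg (by linarith) hMa0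
  obtain ⟨f, hf⟩ : ∃ f : Fin k → ℂ → ℂ, ∀ j, (Tiny g a (P j) → f j = fun _ => 1) ∧
      (¬ Tiny g a (P j) → f j = fun z => ev (g n) z (P j)) := by
    refine ⟨fun j => if Tiny g a (P j) then fun _ => 1 else fun z => ev (g n) z (P j),
      fun j => ⟨fun h => if_pos h, fun h => if_neg h⟩⟩
  obtain ⟨x, hx1, hx2, hx3⟩ := key (a n) (c n) f (fun ρ => TT (g n) (c n) ρ)
    (KX * Gx (g n) (a n)) ha0 ha
    (by
      intro r hr r' hr' hrr
      exact hTmono r r' (by linarith [hr.1]) hrr hr'.2)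
    hT4
    (by
      intro j
      by_cases hj : Tiny g a (P j)
      · rw [(hf j).1 hj]
        exact analyticOnNhd_const
      · rw [(hf j).2 hj]
        exact an hb hab ha hcn le_rfl (diff_ev hev hg (P j)))
    (by
      intro j s t hs hst ht z hz
      have hTt : TT (g n) (c n) (a n / 4) ≤ TT (g n) (c n) t :=
        hTmono _ _ (by linarith) (by linarith) ht
      have hq : 0 ≤ a n / (t - s) := div_nonneg ha0.le (by linarith)
      by_cases hj : Tiny g a (P j)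
      · rw [(hf j).1 hj]
        simp only [norm_one]
        refine Real.one_le_exp ?_
        refine mul_nonneg (mul_nonneg (by linarith) hq) (by linarith)
      · rw [(hf j).2 hj]
        have h := grow_P hHar (hK0 j) (hK j) hg hb hab ha hcn hs hst ht
          (hT4'.trans hTt) hz
        refine h.trans (Real.exp_le_exp.2 ?_)
        refine mul_le_mul_of_nonneg_right (mul_le_mul_of_nonneg_right ?_ hq) (by linarith)
        linarith [hKj j])
    (by
      intro j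
      by_cases hj : Tiny g a (P j)
      · rw [(hf j).1 hj]
        simp only [norm_one]
        exact Real.exp_le_one_iff.2 (by linarith)
      · rw [(hf j).2 hj]
        refine le_trans (Real.exp_le_exp.2 ?_) (h4 j hj)
        linarith)
    (by
      intro j z hz
      by_cases hj : Tiny g a (P j)
      · rw [(hf j).1 hj]
        simp only [norm_one]
        refine Real.one_le_exp ?_
        linarith
      · rw [(hf j).2 hj]
        have h := up_P hGx (hK0 j) (hK j) hg hb hab ha hcn hMa1 hz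
        refine h.trans (Real.exp_le_exp.2 ?_)
        have h5 : 5 * K j * Gx (g n) (a n) ≤ 5 * (∑ j, K j) * Gx (g n) (a n) :=
          mul_le_mul_of_nonneg_right (by linarith [hKj j]) hMa0
        linarith)
    (by
      have h := T_le hGx hHar hg hb hab ha hcn (r := a n / 4) (by linarith) (by linarith)
      show TT (g n) (c n) (a n / 4) ≤ KX * Gx (g n) (a n)
      linarith)
  refine ⟨x, hx1, hx2, fun j hj => ?_⟩
  obtain ⟨p1, p2⟩ := hx3 j
  rw [(hf j).2 hj] at p1 p2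
  constructor
  · intro z hz
    refine le_trans (Real.exp_le_exp.2 ?_) (p1 z hz)
    rw [div_le_iff₀ he] at h3
    have h5 : K1 * KX * Gx (g n) (a n) ≤ n * e * Gx (g n) (a n) :=
      mul_le_mul_of_nonneg_right h3 hMa0
    linarith
  · refine le_trans (le_of_eq (Real.circleAverage_congr_sphere ?_)) p2
    intro z hz
    rw [abs_of_nonneg (by linarith : (0 : ℝ) ≤ x)] at hz
    have hz' : z ∈ ball (0 : ℂ) 1 := sub_1 ha (sub_a hb hab hcn (by linarith : x ≤ 3 * a n / 4)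
      (sphere_subset_closedBall hz))
    have hd := (hev F I (g n) (P j) (ball 0 1) isOpen_ball hg z hz').deriv
    simp only [hd]

theorem countable_DP (F I : Type) [Field F] [Countable F] [Fintype I] : Countable (DP F I) := by
  have h := MvPolynomial.cardinalMk_le_max (σ := I × ℕ) (R := F)
  rw [← Cardinal.mk_le_aleph0_iff]
  exact h.trans (max_le (max_le Cardinal.mk_le_aleph0 Cardinal.mk_le_aleph0) le_rfl)

end Radx

open Radx in
theorem Rad_proof (h0 : NF.S_Diag) (h1 : S_Gx) (h2 : NF.S_ev) (h3 : S_GB) (h4 : S_Har)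
    (h5 : NF.S_RadF) : S_Rad := by
  intro F I _ _ _ _ g a b c hC hc
  have hcount := countable_DP F I
  obtain ⟨P, hP⟩ := exists_surjective_nat (DP F I)
  have hT0 : ∀ (n : ℕ) (x : ℝ), 0 ≤ TT (g n) (c n) x := fun n x =>
    (h4 I (g n) (hC.hol n)).1 (c n) x
  have hM0 : ∀ (n : ℕ), 0 ≤ Gx (g n) (a n) := fun n =>
    (h1 I (g n) (hC.hol n)).2.2.2.1 (a n)
  obtain ⟨r, hr0, hr⟩ := h0 ℝ (fun i n x => a n / 4 ≤ x ∧ x ≤ a n / 2 ∧
    ∀ j < i, ¬ Tiny g a (P j) →
      (∀ z ∈ sphere (c n) x,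
        Real.exp (-(1 / ((i : ℝ) + 1) * (n * Gx (g n) (a n)))) ≤ ‖ev (g n) z (P j)‖) ∧
      Real.circleAverage
        (fun z => Real.posLog (‖ev (g n) z (dd (P j))‖ / ‖ev (g n) z (P j)‖)) (c n) x
        ≤ 1 / ((i : ℝ) + 1) * TT (g n) (c n) x)
    (by
      rintro i n x ⟨q1, q2, q3⟩
      refine ⟨q1, q2, fun j hj hT => ?_⟩
      obtain ⟨s1, s2⟩ := q3 j (by omega) hT
      have hi : (1 : ℝ) / (((i + 1 : ℕ) : ℝ) + 1) ≤ 1 / ((i : ℝ) + 1) := by
        refine one_div_le_one_div_of_le (by positivity) ?_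
        push_cast
        linarith
      constructor
      · intro z hz
        refine le_trans (Real.exp_le_exp.2 ?_) (s1 z hz)
        have h := mul_le_mul_of_nonneg_right hi
          (mul_nonneg (Nat.cast_nonneg n) (hM0 n))
        linarith
      · exact s2.trans (mul_le_mul_of_nonneg_right hi (hT0 _ _)))
    (by
      intro n
      have hb := hC.hb n
      have hab := hC.hab n
      have ha : 0 < a n := lt_of_lt_of_le (by positivity) hab
      exact ⟨a n / 4, le_rfl, by linarith, fun j hj => absurd hj (Nat.not_lt_zero j)⟩)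
    (by
      intro i
      have h := exist_aux h1 h2 h3 h4 h5 hC hc i (fun j => P j)
        (e := 1 / ((i : ℝ) + 1)) (by positivity)
      filter_upwards [h] with n hn
      obtain ⟨x, q1, q2, q3⟩ := hn
      exact ⟨x, q1, q2, fun j hj hT => q3 ⟨j, hj⟩ hT⟩)
  have hlarge : ∀ (Q : DP F I) (del : ℝ), 0 < del → ∃ i j : ℕ, P j = Q ∧ j < i ∧
      1 / ((i : ℝ) + 1) ≤ del := by
    intro Q del hdel
    obtain ⟨j, hj⟩ := hP Q
    obtain ⟨m, hm⟩ := exists_nat_one_div_lt hdel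
    refine ⟨max m (j + 1), j, hj, by omega, le_trans ?_ hm.le⟩
    refine one_div_le_one_div_of_le (by positivity) ?_
    have : (m : ℝ) ≤ ((max m (j + 1) : ℕ) : ℝ) := by exact_mod_cast le_max_left _ _
    linarith
  refine ⟨r, ⟨fun n => (hr0 n).1, fun n => (hr0 n).2.1, ?_, ?_, ?_⟩⟩
  · intro Q hQ del hdel
    obtain ⟨i, j, rfl, hji, hi⟩ := hlarge Q del hdel
    filter_upwards [hr i] with n hn z hz
    refine le_trans (Real.exp_le_exp.2 ?_) ((hn.2.2 j hji hQ).1 z hz)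
    have h := mul_le_mul_of_nonneg_right hi
      (mul_nonneg (Nat.cast_nonneg n) (hM0 n))
    linarith
  · intro Q hQ del hdel
    obtain ⟨i, j, rfl, hji, hi⟩ := hlarge Q del hdel
    filter_upwards [hr i] with n hn
    exact (hn.2.2 j hji hQ).2.trans (mul_le_mul_of_nonneg_right hi (hT0 _ _))
  · refine ⟨1 / 2, by norm_num, ?_⟩
    filter_upwards [UF_le (eventually_ge_atTop 3)] with n hn
    obtain ⟨hab, hMT, -, -, -⟩ := facts h1 h4 hC hc hn
    have hb := hC.hb n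
    have ha := hC.ha n
    have h := (h4 I (g n) (hC.hol n)).2.1 (c n) (a n / 4) (r n) (by linarith) (hr0 n).1
      (sub_b hb hab ha (hc.hc n) (by linarith [(hr0 n).2.1]))
    linarith

end

end Pool.Agent.Work.MP_6d7a54_an.NM
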