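import Mathlib
import Pool.Agent.Work.MP_6d7a54_an.NM.Stmts

/-!
# Block NM, item Sel: selection of the scales
-/

set_option autoImplicit false

namespace Pool.Agent.Work.MP_6d7a54_an.NM

open Filter Metric Set Topology

namespace Selx

/-- the exponents -/
noncomputable def xx (q j : ℕ) : ℝ := (8 * ((q : ℝ) + 1) ^ 4) ^ (q + 1 - j)

lemma base_one_le (q : ℕ) : (1 : ℝ) ≤ 8 * ((q : ℝ) + 1) ^ 4 := by
  have h0 : (0 : ℝ) ≤ q := by positivity
  have h1 : (1 : ℝ) ≤ ((q : ℝ) + 1) ^ 4 := one_le_pow₀ (by linarith)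
  linarith

lemma xx_one_le (q j : ℕ) : 1 ≤ xx q j := one_le_pow₀ (base_one_le q)

lemma xx_le_zero (q j : ℕ) : xx q j ≤ xx q 0 :=
  pow_le_pow_right₀ (base_one_le q) (by omega)

lemma xx_succ (q j : ℕ) (hj : j ≤ q) : xx q j = 8 * ((q : ℝ) + 1) ^ 4 * xx q (j + 1) := by
  unfold xx
  rw [← pow_succ']
  congr 1
  omega

lemma two_le_exp {y : ℝ} (hy : 1 ≤ y) : 2 ≤ Real.exp y := by
  have := Real.add_one_le_exp y
  linarith

lemma core (W : ℝ → ℝ) (A kap tau : ℝ) (hA : 0 ≤ A) (hkap : 0 < kap)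
    (hW : W tau ≤ A)
    (hc : ∀ r s t, 0 < r → r < s → s < t → t < 1 →
      Real.log (t / r) * W s ≤ Real.log (t / s) * W r + Real.log (s / r) * W t)
    (hg : ∀ rho, 2 * tau ≤ rho → rho < 1 → kap * Real.log (rho / tau) ≤ W rho)
    (q k : ℕ) (s : ℝ) (hk : 1 ≤ k) (htau : tau = Real.exp (-(k * s)))
    (hs1 : xx q 0 + 1 ≤ s) (hs2 : s ≤ 2 * (xx q 0 + 1))
    (hq : (q : ℝ) * (1 + 2 * (xx q 0 + 1)) ≤ kap * k) (hA2 : 2 * A ≤ kap * k) :
    (∀ j, j ≤ q + 1 → 0 < Real.exp (xx q j - s) ∧ Real.exp (xx q j - s) ≤ 1 / 2) ∧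
    ∀ j, j ≤ q → Real.exp (xx q (j + 1) - s) * ((q : ℝ) + 1) ^ 3 ≤ Real.exp (xx q j - s) ∧
      (q : ℝ) * (1 + Real.log (1 / Real.exp (xx q (j + 1) - s))) ≤
        W (Real.exp (xx q (j + 1) - s) ^ k) ∧
      (q : ℝ) ^ 2 * W ((((q : ℝ) + 1) * Real.exp (xx q (j + 1) - s)) ^ k) ≤
        W ((Real.exp (xx q j - s) / ((q : ℝ) + 1)) ^ k) := by
  have htau0 : 0 < tau := by rw [htau]; exact Real.exp_pos _
  have hq0 : (0 : ℝ) ≤ q := by positivity
  have hk1 : (1 : ℝ) ≤ k := by exact_mod_cast hk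
  have hk0 : (0 : ℝ) < k := by linarith
  have hhalf : ∀ j, Real.exp (xx q j - s) ≤ 1 / 2 := by
    intro j
    have h1 := xx_le_zero q j
    have h2 : Real.exp (xx q j - s) ≤ Real.exp (-1) := Real.exp_le_exp.2 (by linarith)
    have h3 : Real.exp (-1 : ℝ) ≤ 1 / 2 := by
      rw [Real.exp_neg, one_div]
      exact inv_anti₀ (by norm_num) (two_le_exp le_rfl)
    linarith
  have hpow : ∀ y : ℝ, Real.exp (y - s) ^ k = tau * Real.exp (k * y) := by
    intro y
    rw [← Real.exp_nat_mul, htau, ← Real.exp_add]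
    congr 1
    ring
  refine ⟨fun j _ => ⟨Real.exp_pos _, hhalf j⟩, fun j hj => ?_⟩
  have hx1 := xx_one_le q (j + 1)
  have hxs := xx_succ q j hj
  set x := xx q (j + 1) with hx
  set x' := xx q j with hx'
  have hq4 : ((q : ℝ) + 1) ≤ ((q : ℝ) + 1) ^ 4 := by
    have := pow_le_pow_right₀ (show (1 : ℝ) ≤ (q : ℝ) + 1 by linarith) (show 1 ≤ 4 by norm_num)
    simpa using this
  have hlq : Real.log ((q : ℝ) + 1) ≤ q := by
    have := Real.log_le_sub_one_of_pos (show (0 : ℝ) < (q : ℝ) + 1 by linarith)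
    linarith
  have hl0 : 0 ≤ Real.log ((q : ℝ) + 1) := Real.log_nonneg (by linarith)
  set l := Real.log ((q : ℝ) + 1) with hl
  have hel : Real.exp l = (q : ℝ) + 1 := Real.exp_log (by linarith)
  refine ⟨?_, ?_, ?_⟩
  · -- (1)
    have h1 : ((q : ℝ) + 1) ^ 3 ≤ Real.exp (3 * q) := by
      have h2 : (q : ℝ) + 1 ≤ Real.exp q := Real.add_one_le_exp _
      calc ((q : ℝ) + 1) ^ 3 ≤ Real.exp q ^ 3 := pow_le_pow_left₀ (by linarith) h2 3
        _ = Real.exp (3 * q) := by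
            rw [← Real.exp_nat_mul]
            norm_num
    have h3 : (3 : ℝ) * q ≤ x' - x := by
      rw [hxs]
      nlinarith
    calc Real.exp (x - s) * ((q : ℝ) + 1) ^ 3 ≤ Real.exp (x - s) * Real.exp (x' - x) :=
          mul_le_mul_of_nonneg_left (h1.trans (Real.exp_le_exp.2 h3)) (Real.exp_pos _).le
      _ = Real.exp (x' - s) := by
          rw [← Real.exp_add]
          congr 1
          ring
  · -- (2)
    rw [hpow x]
    have h1 : (1 : ℝ) ≤ k * x := by nlinarith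
    have h2 : 2 * tau ≤ tau * Real.exp (k * x) := by
      have := two_le_exp h1
      nlinarith
    have h3 : tau * Real.exp (k * x) < 1 := by
      rw [← hpow x]
      have := hhalf (j + 1)
      exact pow_lt_one₀ (Real.exp_pos _).le (by linarith) (by omega)
    have h4 := hg _ h2 h3
    rw [mul_div_cancel_left₀ _ htau0.ne', Real.log_exp] at h4
    refine le_trans ?_ h4
    rw [one_div, Real.log_inv, Real.log_exp]
    calc (q : ℝ) * (1 + -(x - s)) ≤ (q : ℝ) * (1 + 2 * (xx q 0 + 1)) := by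
          refine mul_le_mul_of_nonneg_left ?_ hq0
          linarith
      _ ≤ kap * k := hq
      _ ≤ kap * (k * x) := by
          refine mul_le_mul_of_nonneg_left ?_ hkap.le
          nlinarith
  · -- (3)
    have e1 : (((q : ℝ) + 1) * Real.exp (x - s)) ^ k = tau * Real.exp (k * (x + l)) := by
      rw [← hpow (x + l), ← hel, ← Real.exp_add]
      congr 2
      ring
    have e2 : (Real.exp (x' - s) / ((q : ℝ) + 1)) ^ k = tau * Real.exp (k * (x' - l)) := by
      rw [← hpow (x' - l), ← hel, ← Real.exp_sub]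
      congr 2
      ring
    have hlt1 : tau * Real.exp (k * (x' - l)) < 1 := by
      rw [← e2]
      have h1 := hhalf j
      have h2 : Real.exp (x' - s) / ((q : ℝ) + 1) ≤ Real.exp (x' - s) :=
        div_le_self (Real.exp_pos _).le (by linarith)
      have h3 : 0 ≤ Real.exp (x' - s) / ((q : ℝ) + 1) := by positivity
      exact pow_lt_one₀ h3 (by linarith) (by omega)
    rw [e1, e2]
    set y1 := x + l with hy1
    set y2 := x' - l with hy2
    have hy1' : 1 ≤ y1 := by linarith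
    have hy1le : y1 ≤ ((q : ℝ) + 1) * x := by nlinarith
    have hy2ge : 2 * (q : ℝ) ^ 2 * y1 ≤ y2 ∧ y1 < y2 := by
      have h1 : (8 * ((q : ℝ) + 1) ^ 4 - q) * x ≤ y2 := by
        rw [hy2, hxs]
        nlinarith
      have h2 : 2 * (q : ℝ) ^ 2 * ((q : ℝ) + 1) ≤ 8 * ((q : ℝ) + 1) ^ 4 - q := by
        nlinarith [pow_nonneg hq0 2, pow_nonneg hq0 3, pow_nonneg hq0 4]
      have h3 : (q : ℝ) + 1 < 8 * ((q : ℝ) + 1) ^ 4 - q := by nlinarith
      constructor
      · calc 2 * (q : ℝ) ^ 2 * y1 ≤ 2 * (q : ℝ) ^ 2 * (((q : ℝ) + 1) * x) :=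
              mul_le_mul_of_nonneg_left hy1le (by positivity)
          _ = 2 * (q : ℝ) ^ 2 * ((q : ℝ) + 1) * x := by ring
          _ ≤ (8 * ((q : ℝ) + 1) ^ 4 - q) * x :=
              mul_le_mul_of_nonneg_right h2 (by linarith)
          _ ≤ y2 := h1
      · calc y1 ≤ ((q : ℝ) + 1) * x := hy1le
          _ < (8 * ((q : ℝ) + 1) ^ 4 - q) * x := by
              exact mul_lt_mul_of_pos_right h3 (by linarith)
          _ ≤ y2 := h1
    obtain ⟨hy12, hy12'⟩ := hy2ge
    set w1 := W (tau * Real.exp (k * y1)) with hw1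
    set w2 := W (tau * Real.exp (k * y2)) with hw2
    have hs12 : tau * Real.exp (k * y1) < tau * Real.exp (k * y2) := by
      refine mul_lt_mul_of_pos_left (Real.exp_lt_exp.2 ?_) htau0
      exact mul_lt_mul_of_pos_left hy12' hk0
    have hts : tau < tau * Real.exp (k * y1) := by
      have : 1 < Real.exp (k * y1) := Real.one_lt_exp_iff.2 (by positivity)
      nlinarith
    have h1 := hc tau (tau * Real.exp (k * y1)) (tau * Real.exp (k * y2)) htau0 hts hs12 hlt1
    rw [mul_div_cancel_left₀ _ htau0.ne', mul_div_cancel_left₀ _ htau0.ne', Real.log_exp,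
      Real.log_exp, mul_div_mul_left _ _ htau0.ne', ← Real.exp_sub, Real.log_exp] at h1
    have h2 : y2 * w1 ≤ (y2 - y1) * W tau + y1 * w2 := by
      have h3 : (k : ℝ) * (y2 * w1) ≤ k * ((y2 - y1) * W tau + y1 * w2) := by
        calc (k : ℝ) * (y2 * w1) = k * y2 * w1 := by ring
          _ ≤ (k * y2 - k * y1) * W tau + k * y1 * w2 := h1
          _ = _ := by ring
      exact le_of_mul_le_mul_left h3 hk0
    have h4 : (y2 - y1) * W tau ≤ y2 * A := by
      calc (y2 - y1) * W tau ≤ (y2 - y1) * A := mul_le_mul_of_nonneg_left hW (by linarith)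
        _ ≤ y2 * A := by nlinarith
    have h5 : kap * (k * y1) ≤ w1 := by
      have h6 : 2 * tau ≤ tau * Real.exp (k * y1) := by
        have := two_le_exp (show (1 : ℝ) ≤ k * y1 by nlinarith)
        nlinarith
      have h7 := hg _ h6 (hs12.trans hlt1)
      rwa [mul_div_cancel_left₀ _ htau0.ne', Real.log_exp] at h7
    have h6 : kap * k ≤ w1 := by
      refine le_trans ?_ h5
      refine mul_le_mul_of_nonneg_left ?_ hkap.le
      nlinarith
    have h7 : w1 / 2 ≤ w1 - A := by linarith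
    have hw10 : 0 ≤ w1 := by linarith
    have h8 : y2 * (w1 - A) ≤ y1 * w2 := by nlinarith
    have h9 : (q : ℝ) ^ 2 * w1 * y1 ≤ y1 * w2 := by
      calc (q : ℝ) ^ 2 * w1 * y1 = (2 * (q : ℝ) ^ 2 * y1) * (w1 / 2) := by ring
        _ ≤ y2 * (w1 / 2) := mul_le_mul_of_nonneg_right hy12 (by linarith)
        _ ≤ y2 * (w1 - A) := mul_le_mul_of_nonneg_left h7 (by linarith)
        _ ≤ y1 * w2 := h8
    have h10 : y1 * ((q : ℝ) ^ 2 * w1) ≤ y1 * w2 := by linarith
    exact le_of_mul_le_mul_left h10 (by linarith)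

end Selx

theorem Sel_proof : S_Sel := by
  intro W A kap tau hA hkap ht0 htl hW hc hg q
  set Lam : ℝ := Selx.xx q 0 + 1 with hLam
  have hx0 := Selx.xx_one_le q 0
  have hLam2 : 2 ≤ Lam := by linarith
  obtain ⟨Kb, hKb⟩ := exists_nat_ge (((q : ℝ) * (1 + 2 * Lam) + 2 * A) / kap + 1)
  have hq0 : (0 : ℝ) ≤ q := by positivity
  have hKb1 : (1 : ℝ) ≤ Kb := by
    have : 0 ≤ ((q : ℝ) * (1 + 2 * Lam) + 2 * A) / kap := by positivity
    linarith
  have hKb2 : (q : ℝ) * (1 + 2 * Lam) + 2 * A ≤ kap * Kb := by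
    have h1 : ((q : ℝ) * (1 + 2 * Lam) + 2 * A) / kap ≤ Kb := by linarith
    rw [div_le_iff₀ hkap] at h1
    linarith
  have hev : ∀ᶠ n in atTop, tau n < Real.exp (-(Kb * Lam)) :=
    htl.eventually_lt_const (Real.exp_pos _)
  obtain ⟨n, hn⟩ := hev.exists
  set T : ℝ := -Real.log (tau n) with hT
  have hTge : Kb * Lam ≤ T := by
    have h1 : Real.log (tau n) ≤ Real.log (Real.exp (-(Kb * Lam))) :=
      Real.log_le_log (ht0 n) hn.le
    rw [Real.log_exp] at h1
    linarith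
  set k : ℕ := ⌊T / Lam⌋₊ with hk
  have hLam0 : 0 < Lam := by linarith
  have hTL : (Kb : ℝ) ≤ T / Lam := by
    rw [le_div_iff₀ hLam0]
    exact hTge
  have hkKb : Kb ≤ k := Nat.le_floor hTL
  have hkKb' : (Kb : ℝ) ≤ k := by exact_mod_cast hkKb
  have hk1 : (1 : ℝ) ≤ k := by linarith
  have hk0 : (0 : ℝ) < k := by linarith
  have hkle : (k : ℝ) ≤ T / Lam := Nat.floor_le (by linarith)
  have hklt : T / Lam < k + 1 := Nat.lt_floor_add_one _
  have hs1 : Lam ≤ T / k := by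
    rw [le_div_iff₀ hk0]
    rw [le_div_iff₀ hLam0] at hkle
    linarith
  have hs2 : T / k ≤ 2 * Lam := by
    rw [div_le_iff₀ hk0]
    rw [div_lt_iff₀ hLam0] at hklt
    nlinarith
  have htau : tau n = Real.exp (-(k * (T / k))) := by
    rw [mul_div_cancel₀ _ hk0.ne', hT, neg_neg, Real.exp_log (ht0 n)]
  have hkk : kap * Kb ≤ kap * k := mul_le_mul_of_nonneg_left hkKb' hkap.le
  have hqL : 0 ≤ (q : ℝ) * (1 + 2 * Lam) := by positivity
  obtain ⟨h1, h2⟩ := Selx.core (W n) A kap (tau n) hA hkap (hW n)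
    (fun r s t => hc n r s t) (hg n) q k (T / k) (by exact_mod_cast hk1) htau hs1 hs2
    (by linarith) (by linarith)
  exact ⟨n, k, fun j => Real.exp (Selx.xx q j - T / k), by exact_mod_cast hk1, h1, h2⟩

end Pool.Agent.Work.MP_6d7a54_an.NM
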