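import Pool.Agent.Work.MP_6d7a54_an.NM.Stmts
import Pool.Agent.Work.MP_6d7a54_an.NF.I_TTm
import Pool.Agent.Work.MP_6d7a54_an.UP.I_PJ

/-!
# The mean of the positive part of the logarithm is increasing in the radius

The Poisson-Jensen inequality (`UP.PJ_proof`) gives `log⁺ ‖f w‖ ≤ ⨍ P(w, z) log⁺ ‖f z‖` over a circle
without zeros of `f`; integrate over `w` (Fubini, mean of the Poisson kernel in the inner
variable). All but finitely many circles in the closed disc have no zeros, and the mean is
continuous in the radius.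
-/

namespace Pool.Agent.Work.MP_6d7a54_an.NM

open Filter Metric Set Topology MeasureTheory

noncomputable section

namespace T1x

open Pool.Agent.Work.MP_6d7a54_an.NF.TTmx

lemma pl_cont {f : ℂ → ℂ} {s : Set ℂ} (hf : ContinuousOn f s) :
    ContinuousOn (fun z => Real.posLog ‖f z‖) s :=
  Real.continuous_posLog.comp_continuousOn hf.norm

lemma pk_cont {w : ℂ} {r R : ℝ} (hrR : r < R) (hws : w ∈ sphere (0 : ℂ) r) :
    ContinuousOn (fun z => poissonKernel 0 w z) (sphere (0 : ℂ) R) := by
  intro z hz
  apply ContinuousAt.continuousWithinAt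
  unfold poissonKernel
  have h2 : ‖(z - 0) - (w - 0)‖ ^ 2 ≠ 0 := by
    have := sub_ne hrR (sphere_subset_closedBall hws) hz
    positivity
  fun_prop (disch := assumption)

/-- Poisson-Jensen for the positive part -/
lemma point {f : ℂ → ℂ} {r R : ℝ} (hr : 0 < r) (hrR : r < R)
    (hf : AnalyticOnNhd ℂ f (closedBall 0 R)) (h0 : ∀ z ∈ sphere (0 : ℂ) R, f z ≠ 0) {w : ℂ}
    (hw : w ∈ sphere (0 : ℂ) r) :
    Real.posLog ‖f w‖ ≤
      Real.circleAverage (fun z => poissonKernel 0 w z * Real.posLog ‖f z‖) 0 R := by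
  have hR : 0 < R := hr.trans hrR
  have hwb : w ∈ ball (0 : ℂ) R := by
    rw [mem_ball]
    have := mem_sphere.1 hw
    linarith
  have hc1 := pk_cont hrR hw
  have hfs : ContinuousOn f (sphere (0 : ℂ) R) :=
    hf.continuousOn.mono sphere_subset_closedBall
  have hc2 := pl_cont hfs
  have hnn : 0 ≤ Real.circleAverage
      (fun z => poissonKernel 0 w z * Real.posLog ‖f z‖) 0 R := by
    apply Real.circleAverage_nonneg_of_nonneg
    intro z hz
    rw [abs_of_pos hR] at hz
    exact mul_nonneg (pk_nonneg hr hrR hw hz) Real.posLog_nonneg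
  by_cases h1 : ‖f w‖ ≤ 1
  · rw [(Real.posLog_eq_zero_iff _).mpr (by rwa [abs_of_nonneg (norm_nonneg _)])]
    exact hnn
  · have h1' : 1 ≤ ‖f w‖ := (lt_of_not_ge h1).le
    rw [Real.posLog_eq_log (by rwa [abs_of_nonneg (norm_nonneg _)])]
    have hfw : f w ≠ 0 := by
      intro h
      rw [h, norm_zero] at h1'
      linarith
    refine (Pool.Agent.Work.MP_6d7a54_an.UP.PJ_proof f R w hR hwb hf h0 hfw).trans ?_
    have hlog : ContinuousOn (fun z => Real.log ‖f z‖) (sphere (0 : ℂ) R) :=
      hfs.norm.log fun z hz => norm_ne_zero_iff.mpr (h0 z hz)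
    apply Real.circleAverage_mono
    · exact (hc1.mul hlog).circleIntegrable hR.le
    · exact (hc1.mul hc2).circleIntegrable hR.le
    · intro z hz
      rw [abs_of_pos hR] at hz
      apply mul_le_mul_of_nonneg_left _ (pk_nonneg hr hrR hw hz)
      rw [Real.posLog_apply]
      exact le_max_right _ _

/-- the case of a circle without zeros, centre `0` -/
lemma mono0 {f : ℂ → ℂ} {r R : ℝ} (hr : 0 < r) (hrR : r < R)
    (hf : AnalyticOnNhd ℂ f (closedBall 0 R)) (h0 : ∀ z ∈ sphere (0 : ℂ) R, f z ≠ 0) :
    Real.circleAverage (fun z => Real.posLog ‖f z‖) 0 r ≤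
      Real.circleAverage (fun z => Real.posLog ‖f z‖) 0 R := by
  have hR : 0 < R := hr.trans hrR
  have hvs : ContinuousOn (fun z => Real.posLog ‖f z‖) (closedBall 0 R) :=
    pl_cont hf.continuousOn
  set k : ℝ → ℝ → ℝ := fun t θ => poissonKernel 0 (circleMap 0 r t) (circleMap 0 R θ) with hk
  set g : ℝ → ℝ := fun θ => Real.posLog ‖f (circleMap 0 R θ)‖ with hg
  have hkc : Continuous (Function.uncurry k) := by
    have h1 : Continuous fun p : ℝ × ℝ => circleMap 0 r p.1 :=
      (continuous_circleMap 0 r).comp continuous_fst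
    have h2 : Continuous fun p : ℝ × ℝ => circleMap 0 R p.2 :=
      (continuous_circleMap 0 R).comp continuous_snd
    have h3 : ∀ p : ℝ × ℝ, ‖(circleMap 0 R p.2 - 0) - (circleMap 0 r p.1 - 0)‖ ^ 2 ≠ 0 := by
      intro p
      have := sub_ne hrR (sphere_subset_closedBall (cm_sphere 0 hr.le p.1))
        (cm_sphere 0 hR.le p.2)
      positivity
    have h4 : Function.uncurry k = fun p : ℝ × ℝ =>
        (‖circleMap 0 R p.2 - 0‖ ^ 2 - ‖circleMap 0 r p.1 - 0‖ ^ 2) /
          ‖(circleMap 0 R p.2 - 0) - (circleMap 0 r p.1 - 0)‖ ^ 2 := by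
      ext p
      rfl
    rw [h4]
    exact (((h2.sub continuous_const).norm.pow 2).sub ((h1.sub continuous_const).norm.pow 2)).div
      (((h2.sub continuous_const).sub (h1.sub continuous_const)).norm.pow 2) h3
  have hgc : Continuous g :=
    (hvs.mono sphere_subset_closedBall).comp_continuous (continuous_circleMap 0 R)
      (cm_sphere 0 hR.le)
  have hkg : Continuous (Function.uncurry fun t θ => k t θ * g θ) := by
    have h1 : (Function.uncurry fun t θ => k t θ * g θ) =
        fun p : ℝ × ℝ => Function.uncurry k p * g p.2 := by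
      ext p
      rfl
    rw [h1]
    exact hkc.mul (hgc.comp continuous_snd)
  have hpt : ∀ t : ℝ, Real.posLog ‖f (circleMap 0 r t)‖ ≤
      (2 * Real.pi)⁻¹ * ∫ θ in (0 : ℝ)..2 * Real.pi, k t θ * g θ := by
    intro t
    have h := point hr hrR hf h0 (cm_sphere 0 hr.le t)
    rw [Real.circleAverage_def, smul_eq_mul] at h
    exact h
  have hpi : (0 : ℝ) ≤ 2 * Real.pi := by positivity
  have hinv : (0 : ℝ) ≤ (2 * Real.pi)⁻¹ := by positivity
  rw [Real.circleAverage_def, Real.circleAverage_def, smul_eq_mul, smul_eq_mul]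
  apply mul_le_mul_of_nonneg_left _ hinv
  have hI1 : ∫ t in (0 : ℝ)..2 * Real.pi, Real.posLog ‖f (circleMap 0 r t)‖ ≤
      ∫ t in (0 : ℝ)..2 * Real.pi,
        (2 * Real.pi)⁻¹ * ∫ θ in (0 : ℝ)..2 * Real.pi, k t θ * g θ := by
    apply intervalIntegral.integral_mono_on hpi
    · apply Continuous.intervalIntegrable
      exact hvs.comp_continuous (continuous_circleMap 0 r) fun t =>
        closedBall_subset_closedBall hrR.le (sphere_subset_closedBall (cm_sphere 0 hr.le t))
    · apply Continuous.intervalIntegrable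
      apply continuous_const.mul
      exact intervalIntegral.continuous_parametric_intervalIntegral_of_continuous' hkg _ _
    · intro t _
      exact hpt t
  refine hI1.trans (le_of_eq ?_)
  rw [intervalIntegral.integral_const_mul, intervalIntegral_intervalIntegral_swap]
  · rw [← intervalIntegral.integral_const_mul]
    apply intervalIntegral.integral_congr
    intro θ _
    show (2 * Real.pi)⁻¹ * ∫ t in (0 : ℝ)..2 * Real.pi, k t θ * g θ = g θ
    rw [intervalIntegral.integral_mul_const, ← mul_assoc]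
    have h1 := mean_pk hr hrR (cm_sphere 0 hR.le θ)
    rw [Real.circleAverage_def, smul_eq_mul] at h1
    have h2 : (2 * Real.pi)⁻¹ * ∫ t in (0 : ℝ)..2 * Real.pi, k t θ = 1 := h1
    rw [h2, one_mul]
  · rw [uIoc_of_le hpi]
    exact (hkg.continuousOn.integrableOn_compact (isCompact_Icc.prod isCompact_Icc)).mono_set
      (prod_mono Ioc_subset_Icc_self Ioc_subset_Icc_self)

/-- the case of a circle without zeros -/
lemma mono1 {f : ℂ → ℂ} {c : ℂ} {r R : ℝ} (hr : 0 < r) (hrR : r < R)
    (hf : AnalyticOnNhd ℂ f (closedBall c R)) (h0 : ∀ z ∈ sphere c R, f z ≠ 0) :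
    Real.circleAverage (fun z => Real.posLog ‖f z‖) c r ≤
      Real.circleAverage (fun z => Real.posLog ‖f z‖) c R := by
  have e : ∀ s : ℝ, Real.circleAverage (fun z => Real.posLog ‖f z‖) c s =
      Real.circleAverage (fun z => Real.posLog ‖f (z + c)‖) 0 s := by
    intro s
    exact (Real.circleAverage_map_add_const (f := fun z => Real.posLog ‖f z‖)).symm
  rw [e, e]
  refine mono0 (f := fun z => f (z + c)) hr hrR ?_ ?_
  · intro z hz
    have hz' : z + c ∈ closedBall c R := by
      rw [mem_closedBall_iff_norm, add_sub_cancel_right]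
      exact mem_closedBall_zero_iff.mp hz
    have e : AnalyticAt ℂ (fun w : ℂ => w + c) z := by fun_prop
    exact AnalyticAt.fun_comp (g := f) (f := fun w : ℂ => w + c) (hf (z + c) hz') e
  · intro z hz
    apply h0
    rw [mem_sphere_iff_norm, add_sub_cancel_right]
    exact mem_sphere_zero_iff_norm.mp hz

end T1x

open T1x in
theorem T1_proof : S_T1 := by
  intro f c r R hr hrR hf
  rcases hrR.eq_or_lt with h | h
  · rw [h]
  have hR : 0 < R := hr.trans h
  have hnnR : 0 ≤ Real.circleAverage (fun z => Real.posLog ‖f z‖) c R :=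
    Real.circleAverage_nonneg_of_nonneg fun z _ => Real.posLog_nonneg
  by_cases hfin : {z | z ∈ closedBall c R ∧ f z = 0}.Finite
  · -- finitely many zeros
    have hD : ((fun z => dist z c) '' {z | z ∈ closedBall c R ∧ f z = 0}).Finite := hfin.image _
    have hcont : ContinuousOn (Real.circleAverage (fun z => Real.posLog ‖f z‖) c) (Icc 0 R) := by
      refine Real.ContinuousOn.circleAverage ?_ fun s hs => hs.1
      refine pl_cont (hf.continuousOn.mono ?_)
      intro z hz
      exact mem_closedBall_iff_norm.mpr hz.2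
    have htend : Tendsto (Real.circleAverage (fun z => Real.posLog ‖f z‖) c) (𝓝[<] R)
        (𝓝 (Real.circleAverage (fun z => Real.posLog ‖f z‖) c R)) := by
      refine (hcont R (right_mem_Icc.2 hR.le)).mono_left ?_
      rw [nhdsWithin_le_iff]
      exact mem_of_superset (Ioo_mem_nhdsLT hR) fun s hs => ⟨hs.1.le, hs.2.le⟩
    refine ge_of_tendsto htend ?_
    have ev1 : ∀ᶠ s in 𝓝[<] R, s ∈ Ioo r R := Ioo_mem_nhdsLT h
    have ev2 : ∀ᶠ s in 𝓝[<] R, s ∈
        (((fun z => dist z c) '' {z | z ∈ closedBall c R ∧ f z = 0}) \ {R})ᶜ := by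
      apply mem_nhdsWithin_of_mem_nhds
      exact (hD.subset sdiff_subset).isClosed.compl_mem_nhds fun hx => hx.2 rfl
    filter_upwards [ev1, ev2] with s hs1 hs2
    refine mono1 hr hs1.1 (hf.mono (closedBall_subset_closedBall hs1.2.le)) ?_
    intro z hz hz0
    apply hs2
    refine ⟨⟨z, ⟨closedBall_subset_closedBall hs1.2.le (sphere_subset_closedBall hz), hz0⟩, ?_⟩, ?_⟩
    · exact mem_sphere.mp hz
    · intro hsR
      exact absurd hsR hs1.2.ne
  · -- `f` vanishes on the disc
    obtain ⟨x, hx, hacc⟩ := (show {z | z ∈ closedBall c R ∧ f z = 0}.Infinite from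
      hfin).exists_accPt_of_subset_isCompact (isCompact_closedBall c R) fun z hz => hz.1
    have hfreq : ∃ᶠ z in 𝓝[≠] x, f z = 0 := by
      rw [accPt_iff_frequently_nhdsNE] at hacc
      exact hacc.mono fun z hz => hz.2
    have hz := hf.eqOn_zero_of_preconnected_of_frequently_eq_zero
      (convex_closedBall c R).isPreconnected hx hfreq
    have h1 : Real.circleAverage (fun z => Real.posLog ‖f z‖) c r = 0 := by
      apply Real.circleAverage_const_on_circle
      intro z hzr
      rw [abs_of_pos hr] at hzr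
      have : f z = 0 := hz (closedBall_subset_closedBall h.le (sphere_subset_closedBall hzr))
      rw [this, norm_zero, Real.posLog_zero]
    rw [h1]
    exact hnnR

end

end Pool.Agent.Work.MP_6d7a54_an.NM
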