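import Pool.Agent.Work.MP_6d7a54_an.NM.Stmts

/-!
# Block NM, item Tau: the radius at which the growth starts
-/

set_option autoImplicit false

namespace Pool.Agent.Work.MP_6d7a54_an.NM

open Filter Metric Set Topology Real
open Pool.Agent.Work.MP_6d7a54_an.NF (IsNev DP ev dd UF)

noncomputable section

namespace Taux

/-- The growth is small near the centre. -/
theorem small (h1 : S_Gx) {I : Type} [Fintype I] {g : I → ℂ → ℂ} (hg : Hol g) {C0 : ℝ}
    (h0 : gm g 0 ≤ C0) {rho0 : ℝ} (hr0 : 0 < rho0) (hr1 : rho0 < 1) :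
    ∃ i : ℕ, Gx g (rho0 / 2 ^ i) ≤ C0 + 1 := by
  obtain ⟨-, hc, -, -, -, -, hlast⟩ := h1 I g hg
  have hca : ContinuousAt (gm g) 0 := hc.continuousAt (ball_mem_nhds 0 one_pos)
  have hev : ∀ᶠ z in 𝓝 (0 : ℂ), gm g z < C0 + 1 :=
    hca.eventually (gt_mem_nhds (by linarith))
  obtain ⟨ε, hε, hball⟩ := Metric.eventually_nhds_iff.mp hev
  obtain ⟨i, hi⟩ := exists_pow_lt_of_lt_one hε (show (1 / 2 : ℝ) < 1 by norm_num)
  refine ⟨i, hlast _ _ (by positivity) fun z hz => ?_⟩
  refine (hball ?_).le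
  rw [dist_zero_right]
  refine hz.trans_lt (lt_of_le_of_lt ?_ hi)
  rw [div_pow, one_pow]
  exact div_le_div_of_nonneg_right hr1.le (by positivity)

/-- The final computation. -/
theorem calc_log {C0 y tau rho A B D : ℝ} (hC : 0 ≤ C0) (hy : 1 ≤ y) (ht : 0 < tau)
    (hrho : 2 * tau < rho) (hA : A ≤ C0 + 1 / 2) (hB : C0 + 1 < B)
    (hcvx : Real.log (rho / (Real.exp (-y) * tau)) * B ≤
      Real.log (rho / (2 * tau)) * A + Real.log (2 * tau / (Real.exp (-y) * tau)) * D) :
    1 / (2 * (y + Real.log 2)) * Real.log (rho / tau) ≤ D := by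
  have hl2 : 0 < Real.log 2 := Real.log_pos one_lt_two
  have hrho0 : 0 < rho := by linarith
  have e1 : Real.log (2 * tau / (Real.exp (-y) * tau)) = y + Real.log 2 := by
    rw [Real.log_div (by positivity) (by positivity), Real.log_mul (two_ne_zero' ℝ) ht.ne',
      Real.log_mul (Real.exp_ne_zero _) ht.ne', Real.log_exp]
    ring
  have e2 : Real.log (rho / (Real.exp (-y) * tau)) =
      Real.log (rho / (2 * tau)) + (y + Real.log 2) := by
    rw [Real.log_div hrho0.ne' (by positivity), Real.log_div hrho0.ne' (by positivity),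
      Real.log_mul (two_ne_zero' ℝ) ht.ne', Real.log_mul (Real.exp_ne_zero _) ht.ne', Real.log_exp]
    ring
  have e3 : Real.log (rho / tau) = Real.log (rho / (2 * tau)) + Real.log 2 := by
    rw [Real.log_div hrho0.ne' ht.ne', Real.log_div hrho0.ne' (by positivity),
      Real.log_mul (two_ne_zero' ℝ) ht.ne']
    ring
  have hx : 0 < Real.log (rho / (2 * tau)) := by
    refine Real.log_pos ?_
    rw [lt_div_iff₀ (by positivity)]
    linarith
  rw [e1, e2] at hcvx
  rw [e3]
  set x := Real.log (rho / (2 * tau)) with hxd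
  set m := y + Real.log 2 with hm
  have hm1 : 0 < m := by linarith
  have h1 : (x + m) * (C0 + 1) ≤ (x + m) * B :=
    mul_le_mul_of_nonneg_left hB.le (by linarith)
  have h2 : x * A ≤ x * (C0 + 1 / 2) := mul_le_mul_of_nonneg_left hA hx.le
  have h3 : m * (C0 + 1) + x / 2 ≤ m * D := by nlinarith
  rw [div_mul_eq_mul_div, one_mul, div_le_iff₀ (by positivity)]
  have h4 : 0 ≤ m * C0 := by positivity
  have h5 : Real.log 2 ≤ m := by linarith
  nlinarith

end Taux

/-- Item Tau. -/
theorem Tau_proof (h1 : S_Gx) (h2 : S_Cvx) (h3 : S_Base) : S_Tau := by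
  classical
  intro I _ C0
  obtain ⟨y, hy, hbase⟩ := h3 I C0
  have hl2 : 0 < Real.log 2 := Real.log_pos one_lt_two
  have hm1 : 0 < y + Real.log 2 := by linarith
  refine ⟨1 / (2 * (y + Real.log 2)), by positivity, ?_⟩
  intro g hg h0 rho0 hr0 hr1 hbig
  have hC : 0 ≤ C0 := ((h1 I g hg).1 0).trans h0
  have hex := Taux.small h1 hg h0 hr0 hr1
  have hi0 : Nat.find hex ≠ 0 := by
    intro h
    have h4 := Nat.find_spec hex
    rw [h, pow_zero, div_one] at h4
    linarith
  obtain ⟨i, hi⟩ := Nat.exists_eq_succ_of_ne_zero hi0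
  have hspec := Nat.find_spec hex
  have hmin : ¬ Gx g (rho0 / 2 ^ i) ≤ C0 + 1 := Nat.find_min hex (by omega)
  have hmin' : C0 + 1 < Gx g (rho0 / 2 ^ i) := not_le.mp hmin
  rw [hi] at hspec
  have htau0 : 0 < rho0 / 2 ^ i.succ := by positivity
  have h2tau : 2 * (rho0 / 2 ^ i.succ) = rho0 / 2 ^ i := by
    rw [Nat.succ_eq_add_one, pow_succ]
    field_simp
  rw [← h2tau] at hmin'
  have htaule : rho0 / 2 ^ i.succ ≤ rho0 :=
    div_le_self hr0.le (one_le_pow₀ (by norm_num))
  refine ⟨rho0 / 2 ^ i.succ, htau0, htaule, hspec, ?_⟩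
  generalize rho0 / 2 ^ i.succ = tau at *
  intro rho hrho hrho1
  have hA := hbase g hg h0 tau htau0 (by linarith) hspec
  rcases hrho.eq_or_lt with heq | hlt
  · rw [← heq, mul_div_assoc, div_self htau0.ne', mul_one]
    have h5 : 1 / (2 * (y + Real.log 2)) * Real.log 2 ≤ 1 := by
      rw [div_mul_eq_mul_div, one_mul, div_le_one (by positivity)]
      linarith
    linarith
  · have hexp : Real.exp (-y) * tau < 2 * tau := by
      have h6 : Real.exp (-y) < 1 := by
        rw [Real.exp_lt_one_iff]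
        linarith
      nlinarith
    exact Taux.calc_log hC hy htau0 hlt hA hmin'
      (h2 I g hg (Real.exp (-y) * tau) (2 * tau) rho (by positivity) hexp hlt hrho1)

end

end Pool.Agent.Work.MP_6d7a54_an.NM
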