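import Pool.Agent.Work.MP_6d7a54_an.NM.Stmts

/-!
# Block NM, item Tinf: the characteristic tends to infinity
-/

set_option autoImplicit false

namespace Pool.Agent.Work.MP_6d7a54_an.NM

open Filter Metric Set Topology Real
open Pool.Agent.Work.MP_6d7a54_an.NF (IsNev DP ev dd UF)

noncomputable section

/-- Item Tinf. -/
theorem Tinf_proof (h1 : S_Gx) : S_Tinf := by
  intro F I _ _ _ g a b c r hC hcen hR K
  obtain ⟨kap, hk, htt⟩ := hR.tt
  have hUF : UF ≤ atTop := Nat.hyperfilter_le_atTop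
  have hN1 : ∀ᶠ n : ℕ in UF, K / kap ≤ (n : ℝ) :=
    ((tendsto_natCast_atTop_atTop (R := ℝ)).eventually_ge_atTop _).filter_mono hUF
  have hN2 : ∀ᶠ n : ℕ in UF, 2 ≤ n := (eventually_ge_atTop 2).filter_mono hUF
  filter_upwards [htt, hN1, hN2] with n hn hn1 hn2
  obtain ⟨-, -, -, -, -, hmono, -⟩ := h1 I (g n) (hC.hol n)
  have hb := hC.hb n
  have hab := hC.hab n
  have ha := hC.ha n
  have hn2' : (2 : ℝ) ≤ (n : ℝ) := by exact_mod_cast hn2
  have h16 : (16 : ℝ) ≤ ((n : ℝ) + 1) ^ 3 := by nlinarith [sq_nonneg ((n : ℝ) - 2)]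
  have h2 : b n * 16 ≤ a n := (mul_le_mul_of_nonneg_left h16 hb.le).trans hab
  have h3 : Gx (g n) (b n) ≤ Gx (g n) (a n / 16) :=
    hmono _ _ hb.le (by linarith) (by linarith)
  have h4 : 0 ≤ Real.log (1 / b n) := by
    refine Real.log_nonneg ?_
    rw [le_div_iff₀ hb]
    linarith
  have h5 : (n : ℝ) ≤ Gx (g n) (b n) := by
    refine le_trans ?_ (hC.big n)
    nlinarith
  have h6 : K ≤ kap * n := by
    rw [div_le_iff₀ hk] at hn1
    linarith
  have h7 : kap * n ≤ kap * Gx (g n) (a n / 16) :=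
    mul_le_mul_of_nonneg_left (h5.trans h3) hk.le
  linarith

end

end Pool.Agent.Work.MP_6d7a54_an.NM
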