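import Pool.Agent.Work.MP_6d7a54_an.NM.Stmts

/-!
# Criterion for tiny elements (MP_6d7a54_an, block NM, helper59)
-/

set_option autoImplicit false

namespace Pool.Agent.Work.MP_6d7a54_an.NM

open Filter Metric Set Topology Real
open Pool.Agent.Work.MP_6d7a54_an.NF (IsNev DP ev dd UF)

theorem crit_proof (h1 : S_Gx) : S_crit := by
  intro F I _ _ _ g a b hc P eps del he he1 hd H
  have hUF : UF ≤ atTop := Nat.hyperfilter_le_atTop
  have hd1 := (hc.dich P).filter_mono hUF
  have hK1 : (1 : ℝ) ≤ 1 / eps := by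
    rw [le_div_iff₀ he]
    linarith
  have hdec := (hc.dec (1 / eps) hK1).filter_mono hUF
  have hN1 : ∀ᶠ n : ℕ in UF, 1 / del ≤ (n : ℝ) :=
    ((tendsto_natCast_atTop_atTop (R := ℝ)).eventually_ge_atTop _).filter_mono hUF
  have hN2 : ∀ᶠ n : ℕ in UF, 1 / eps ≤ (n : ℝ) :=
    ((tendsto_natCast_atTop_atTop (R := ℝ)).eventually_ge_atTop _).filter_mono hUF
  filter_upwards [hd1, hdec, hN1, hN2, H] with n hn hdn hn1 hn2 hH
  rcases hn with h | ⟨z, hz, hzlt⟩
  · exact h
  · exfalso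
    obtain ⟨-, -, -, hM0, -, hM2, -⟩ := h1 I (g n) (hc.hol n)
    have hb := hc.hb n
    have hab := hc.hab n
    have ha := hc.ha n
    have hn0 : (0 : ℝ) ≤ n := Nat.cast_nonneg n
    have hcube : 1 / eps ≤ ((n : ℝ) + 1) ^ 3 := by
      have : (n : ℝ) ≤ ((n : ℝ) + 1) ^ 3 := by
        nlinarith [mul_nonneg hn0 hn0, mul_nonneg hn0 (mul_nonneg hn0 hn0)]
      linarith
    have hKb : 1 / eps * b n ≤ a n := by
      calc 1 / eps * b n ≤ ((n : ℝ) + 1) ^ 3 * b n := mul_le_mul_of_nonneg_right hcube hb.le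
        _ = b n * ((n : ℝ) + 1) ^ 3 := by ring
        _ ≤ a n := hab
    have hbK : b n ≤ 1 / eps * b n := by
      have := mul_le_mul_of_nonneg_right hK1 hb.le
      linarith
    have hbea : b n ≤ eps * a n := by
      have e1 := mul_le_mul_of_nonneg_left hKb he.le
      have e2 : eps * (1 / eps * b n) = b n := by
        field_simp
      linarith
    have hzle := hH z (hz.trans hbea)
    have hlt := hzlt.trans_le hzle
    rw [Real.exp_lt_exp, neg_lt_neg_iff] at hlt
    have hmono : Gx (g n) (b n) ≤ Gx (g n) (1 / eps * b n) :=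
      hM2 _ _ hb.le hbK (by linarith)
    have haK : a n / (1 / eps) = eps * a n := by
      field_simp
    rw [haK] at hdn
    have hM := hM0 (b n)
    have e1 : (n : ℝ) ^ 2 * Gx (g n) (b n) ≤ Gx (g n) (eps * a n) :=
      (mul_le_mul_of_nonneg_left hmono (by positivity)).trans hdn
    have e2 : 1 ≤ (n : ℝ) * del := by
      rwa [div_le_iff₀ hd] at hn1
    have e3 : (n : ℝ) * Gx (g n) (b n) ≤ (n : ℝ) * Gx (g n) (b n) * ((n : ℝ) * del) := by
      have h3 : 0 ≤ (n : ℝ) * Gx (g n) (b n) := mul_nonneg hn0 hM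
      nlinarith
    have e4 := mul_le_mul_of_nonneg_left e1 hd.le
    nlinarith

end Pool.Agent.Work.MP_6d7a54_an.NM
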