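import Pool.Agent.Work.MP_6d7a54_an.NM.Stmts

/-! # Item dom: elements dominated by small elements are small -/

set_option autoImplicit false

namespace Pool.Agent.Work.MP_6d7a54_an.NM

open Filter Metric Set Topology
open Pool.Agent.Work.MP_6d7a54_an.NF (IsNev DP ev dd UF)

namespace domx

lemma ev_one {F I : Type} [Field F] [Algebra F ℂ] (g : I → ℂ → ℂ) (z : ℂ) :
    ev g z (1 : DP F I) = 1 := by
  simp [ev]

/-- Geometry of the circles. -/
lemma geo {F : Type} [Field F] [Algebra F ℂ] {I : Type} [Fintype I]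
    {g : ℕ → I → ℂ → ℂ} {a b : ℕ → ℝ} {c : ℕ → ℂ} {r : ℕ → ℝ}
    (hC : Conf F g a b) (hcen : Cen F g a b c) (hR : Rad F g a c r) (n : ℕ) :
    0 < r n ∧ sphere (c n) (r n) ⊆ ball 0 1 := by
  have hle : b n ≤ a n := by
    have h := hC.hab n
    have hb := hC.hb n
    have : (1 : ℝ) ≤ ((n : ℝ) + 1) ^ 3 := one_le_pow₀ (by linarith [n.cast_nonneg (α := ℝ)])
    nlinarith
  have hb := hC.hb n
  have ha0 : 0 < a n := hb.trans_le hle
  have hr0 : 0 < r n := lt_of_lt_of_le (by linarith) (hR.h1 n)
  refine ⟨hr0, ?_⟩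
  intro z hz
  rw [mem_sphere, dist_eq_norm] at hz
  rw [mem_ball, dist_zero_right]
  have hc := hcen.hc n
  have h2 := hR.h2 n
  have h3 := hC.ha n
  calc ‖z‖ = ‖(z - c n) + c n‖ := by rw [sub_add_cancel]
    _ ≤ ‖z - c n‖ + ‖c n‖ := norm_add_le _ _
    _ < 1 := by linarith

end domx

open domx in
/-- Elements dominated by small elements are small. -/
theorem dom_proof (h2 : NF.S_ev) (h3 : S_Tinf) : S_dom := by
  intro F I _ _ _ g a b c r hC hcen hR k P R C hdom hsm
  have hg := fun n => geo hC hcen hR n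
  have hcont : ∀ (n : ℕ) (P : DP F I),
      ContinuousOn (fun z => ev (g n) z P) (sphere (c n) (r n)) := by
    intro n P z hz
    exact (h2 F I (g n) P (ball 0 1) isOpen_ball (hC.hol n) z
      ((hg n).2 hz)).continuousAt.continuousWithinAt
  have hint : ∀ (n : ℕ) (P : DP F I),
      CircleIntegrable (fun z => Real.posLog ‖ev (g n) z P‖) (c n) (r n) := by
    intro n P
    apply ContinuousOn.circleIntegrable (hg n).1.le
    exact Real.continuous_posLog.comp_continuousOn (hcont n P).norm
  have habs : ∀ n, |r n| = r n := fun n => abs_of_pos (hg n).1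
  set C' : ℝ := max C 1 with hC'
  have hC'1 : 1 ≤ C' := le_max_right _ _
  have hC'0 : 0 < C' := by linarith
  intro del hdel
  set del' : ℝ := del / (2 * C' * ((k : ℝ) + 1)) with hdel'
  have hk0 : (0 : ℝ) ≤ k := Nat.cast_nonneg k
  have hdel'0 : 0 < del' := by positivity
  have e1 : ∀ᶠ n in UF, ∀ i, Real.circleAverage (fun z => Real.posLog
      (‖ev (g n) z (P i)‖ / ‖ev (g n) z (1 : DP F I)‖)) (c n) (r n)
      ≤ del' * TT (g n) (c n) (r n) :=
    eventually_all.mpr fun i => hsm i del' hdel'0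
  filter_upwards [e1, h3 F I g a b c r hC hcen hR (2 * C' / del)] with n hn1 hn2
  simp only [ev_one, norm_one, div_one] at hn1 ⊢
  have hTT0 : 0 < TT (g n) (c n) (r n) := lt_of_lt_of_le (by positivity) hn2
  have hsc : ContinuousOn (fun z => ∑ i, Real.posLog ‖ev (g n) z (P i)‖)
      (sphere (c n) (r n)) := by
    apply continuousOn_finsetSum
    intro i _
    exact Real.continuous_posLog.comp_continuousOn (hcont n (P i)).norm
  have hsumi : CircleIntegrable (fun z => ∑ i, Real.posLog ‖ev (g n) z (P i)‖) (c n) (r n) :=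
    hsc.circleIntegrable (hg n).1.le
  have hri : CircleIntegrable
      (fun z => C' • (1 + ∑ i, Real.posLog ‖ev (g n) z (P i)‖)) (c n) (r n) := by
    apply ContinuousOn.circleIntegrable (hg n).1.le
    exact (continuousOn_const.add hsc).const_smul C'
  have h5 : Real.circleAverage (fun z => Real.posLog ‖ev (g n) z R‖) (c n) (r n) ≤
      Real.circleAverage (fun z => C' • (1 + ∑ i, Real.posLog ‖ev (g n) z (P i)‖))
        (c n) (r n) := by
    apply Real.circleAverage_mono (hint n R) hri
    intro z hz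
    rw [habs] at hz
    refine (hdom n z ((hg n).2 hz)).trans ?_
    have hS : 0 ≤ ∑ i, Real.posLog ‖ev (g n) z (P i)‖ :=
      Finset.sum_nonneg fun i _ => Real.posLog_nonneg
    show C * (1 + ∑ i, Real.posLog ‖ev (g n) z (P i)‖) ≤
      C' * (1 + ∑ i, Real.posLog ‖ev (g n) z (P i)‖)
    exact mul_le_mul_of_nonneg_right (le_max_left _ _) (by linarith)
  have h8 : Real.circleAverage (fun z => C' • (1 + ∑ i, Real.posLog ‖ev (g n) z (P i)‖))
      (c n) (r n) = C' * (1 + ∑ i, Real.circleAverage
        (fun z => Real.posLog ‖ev (g n) z (P i)‖) (c n) (r n)) := by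
    rw [Real.circleAverage_fun_smul, smul_eq_mul,
      Real.circleAverage_fun_add (circleIntegrable_const _ _ _) hsumi,
      Real.circleAverage_const, Real.circleAverage_fun_sum fun i _ => hint n (P i)]
  have h9 : ∑ i, Real.circleAverage
      (fun z => Real.posLog ‖ev (g n) z (P i)‖) (c n) (r n) ≤
      k * (del' * TT (g n) (c n) (r n)) := by
    calc ∑ i, Real.circleAverage (fun z => Real.posLog ‖ev (g n) z (P i)‖) (c n) (r n) ≤
          ∑ _i : Fin k, del' * TT (g n) (c n) (r n) := Finset.sum_le_sum fun i _ => hn1 i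
      _ = k * (del' * TT (g n) (c n) (r n)) := by
          rw [Finset.sum_const, Finset.card_univ, Fintype.card_fin, nsmul_eq_mul]
  have h10 : C' ≤ del / 2 * TT (g n) (c n) (r n) := by
    rw [div_le_iff₀ hdel] at hn2
    linarith
  have h11 : C' * (k * (del' * TT (g n) (c n) (r n))) ≤ del / 2 * TT (g n) (c n) (r n) := by
    have h12 : C' * k * del' ≤ del / 2 := by
      rw [hdel', mul_div_assoc', div_le_div_iff₀ (by positivity) (by norm_num)]
      nlinarith [mul_pos hC'0 hdel]
    calc C' * (k * (del' * TT (g n) (c n) (r n))) = C' * k * del' * TT (g n) (c n) (r n) := by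
          ring
      _ ≤ _ := mul_le_mul_of_nonneg_right h12 hTT0.le
  calc Real.circleAverage (fun z => Real.posLog ‖ev (g n) z R‖) (c n) (r n)
      ≤ C' * (1 + ∑ i, Real.circleAverage
        (fun z => Real.posLog ‖ev (g n) z (P i)‖) (c n) (r n)) := h8 ▸ h5
    _ ≤ C' * (1 + k * (del' * TT (g n) (c n) (r n))) :=
        mul_le_mul_of_nonneg_left (by linarith) hC'0.le
    _ ≤ del * TT (g n) (c n) (r n) := by linarith

end Pool.Agent.Work.MP_6d7a54_an.NM
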