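import Pool.Agent.Work.MP_6d7a54_an.NM.Stmts

/-! # Item fin: every element has finite order with respect to the characteristic -/

set_option autoImplicit false

open Filter Metric Set Topology Real

namespace Pool.Agent.Work.MP_6d7a54_an.NM

open Pool.Agent.Work.MP_6d7a54_an.NF (IsNev DP ev dd UF)

namespace finx

lemma ev_add {F I : Type} [Field F] [Algebra F ℂ] (g : I → ℂ → ℂ) (z : ℂ) (P Q : DP F I) :
    ev g z (P + Q) = ev g z P + ev g z Q := by
  unfold ev; rw [map_add]

lemma ev_mul {F I : Type} [Field F] [Algebra F ℂ] (g : I → ℂ → ℂ) (z : ℂ) (P Q : DP F I) :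
    ev g z (P * Q) = ev g z P * ev g z Q := by
  unfold ev; rw [map_mul]

lemma ev_C {F I : Type} [Field F] [Algebra F ℂ] (g : I → ℂ → ℂ) (z : ℂ) (x : F) :
    ev g z (MvPolynomial.C x : DP F I) = algebraMap F ℂ x := by
  unfold ev; rw [MvPolynomial.aeval_C]

lemma ev_X {F I : Type} [Field F] [Algebra F ℂ] (g : I → ℂ → ℂ) (z : ℂ) (p : I × ℕ) :
    ev g z (MvPolynomial.X p : DP F I) = iteratedDeriv p.2 (g p.1) z := by
  unfold ev; rw [MvPolynomial.aeval_X]

lemma dd_X {F I : Type} [Field F] (l : I) (j : ℕ) :
    dd (MvPolynomial.X (l, j) : DP F I) = MvPolynomial.X (l, j + 1) := by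
  unfold dd; rw [MvPolynomial.mkDerivation_X]

/-- Geometry of the circles. -/
lemma geo {F : Type} [Field F] [Algebra F ℂ] {I : Type} [Fintype I]
    {g : ℕ → I → ℂ → ℂ} {a b : ℕ → ℝ} {c : ℕ → ℂ} {r : ℕ → ℝ}
    (hConf : Conf F g a b) (hCen : Cen F g a b c) (hRad : Rad F g a c r) (n : ℕ) :
    0 < a n ∧ 0 < r n ∧ closedBall (c n) (r n) ⊆ ball 0 1 ∧
      (1 ≤ n → ∀ z ∈ sphere (c n) (r n), ‖z‖ ≤ a n) := by
  have hb := hConf.hb n
  have hab := hConf.hab n
  have ha := hConf.ha n
  have hn0 : (0 : ℝ) ≤ n := Nat.cast_nonneg n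
  have h1 : (1 : ℝ) ≤ ((n : ℝ) + 1) ^ 3 := one_le_pow₀ (by linarith)
  have hba : b n ≤ a n := by nlinarith
  have hapos : 0 < a n := by linarith
  have hr1 := hRad.h1 n
  have hr2 := hRad.h2 n
  have hc := hCen.hc n
  refine ⟨hapos, by linarith, fun z hz => ?_, fun hn z hz => ?_⟩
  · rw [mem_closedBall, dist_eq_norm] at hz
    rw [mem_ball, dist_zero_right]
    have h2 : ‖z‖ ≤ ‖z - c n‖ + ‖c n‖ := by
      have := norm_add_le (z - c n) (c n)
      rwa [sub_add_cancel] at this
    linarith
  · rw [mem_sphere, dist_eq_norm] at hz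
    have h2 : ‖z‖ ≤ ‖z - c n‖ + ‖c n‖ := by
      have := norm_add_le (z - c n) (c n)
      rwa [sub_add_cancel] at this
    have hn1 : (1 : ℝ) ≤ n := by exact_mod_cast hn
    have h8 : (2 : ℝ) ^ 3 ≤ ((n : ℝ) + 1) ^ 3 := by gcongr; linarith
    have h9 : b n * 8 ≤ a n := by
      have : b n * 8 ≤ b n * ((n : ℝ) + 1) ^ 3 := by
        gcongr
        linarith
      linarith
    linarith

end finx

open finx in
/-- Every element has finite order with respect to the characteristic. -/
theorem fin_proof (h1 : S_Gx) (h2 : NF.S_ev) (h3 : S_ideal) (h4' : S_Har) (h5' : S_Tinf) :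
    S_fin := by
  intro F I _ _ _ g a b c r hConf hCen hRad
  have hg := fun n => geo hConf hCen hRad n
  have hsb : ∀ n, sphere (c n) (r n) ⊆ ball 0 1 := fun n =>
    sphere_subset_closedBall.trans (hg n).2.2.1
  have hT : ∀ᶠ n in UF, 1 ≤ TT (g n) (c n) (r n) := h5' F I g a b c r hConf hCen hRad 1
  have hcont : ∀ (n : ℕ) (P : DP F I),
      ContinuousOn (fun z => ev (g n) z P) (sphere (c n) (r n)) := by
    intro n P z hz
    exact (h2 F I (g n) P (ball 0 1) isOpen_ball (hConf.hol n) z
      (hsb n hz)).continuousAt.continuousWithinAt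
  have hint : ∀ (n : ℕ) (P : DP F I),
      CircleIntegrable (fun z => posLog ‖ev (g n) z P‖) (c n) (r n) := by
    intro n P
    apply ContinuousOn.circleIntegrable (hg n).2.1.le
    exact continuous_posLog.comp_continuousOn (hcont n P).norm
  have habs : ∀ n, |r n| = r n := fun n => abs_of_pos (hg n).2.1
  -- the claim for the variables
  have hX : ∀ (l : I) (j : ℕ), ∃ K : ℝ, 0 ≤ K ∧ ∀ᶠ n in UF,
      Real.circleAverage (fun z => posLog ‖ev (g n) z (MvPolynomial.X (l, j) : DP F I)‖)
        (c n) (r n) ≤ K * TT (g n) (c n) (r n) := by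
    intro l j
    induction j with
    | zero =>
      refine ⟨1, zero_le_one, Eventually.of_forall fun n => ?_⟩
      rw [one_mul, (h4' I (g n) (hConf.hol n)).2.2.2.2 (c n) (r n) (hg n).2.1 (hg n).2.2.1]
      have h6 : ∀ l' : I, 0 ≤ Real.circleAverage (fun z => posLog ‖g n l' z‖) (c n) (r n) := by
        intro l'
        have h7 : Real.circleAverage (fun _ => (0 : ℝ)) (c n) (r n) ≤
            Real.circleAverage (fun z => posLog ‖g n l' z‖) (c n) (r n) := by
          refine Real.circleAverage_mono (circleIntegrable_const _ _ _) ?_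
            (fun z _ => posLog_nonneg)
          have h8 := hint n (MvPolynomial.X (l', 0) : DP F I)
          simp only [ev_X, iteratedDeriv_zero] at h8
          exact h8
        rwa [Real.circleAverage_const] at h7
      simp only [ev_X, iteratedDeriv_zero]
      exact Finset.single_le_sum (f := fun l' : I =>
        Real.circleAverage (fun z => posLog ‖g n l' z‖) (c n) (r n))
        (fun l' _ => h6 l') (Finset.mem_univ l)
    | succ j ih =>
      obtain ⟨K, hK, hKe⟩ := ih
      by_cases htiny : Tiny g a (MvPolynomial.X (l, j) : DP F I)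
      · have ht2 := (h3 F I g a b hConf).2.2.1 _ htiny
        rw [dd_X] at ht2
        refine ⟨0, le_rfl, ?_⟩
        have hlarge : ∀ᶠ n in UF, 1 ≤ n := by
          have : ∀ᶠ n in (cofinite : Filter ℕ), 1 ≤ n := by
            rw [Nat.cofinite_eq_atTop]
            exact eventually_ge_atTop _
          exact hyperfilter_le_cofinite this
        filter_upwards [ht2, hlarge] with n hn hn1
        rw [zero_mul]
        have h4 : Real.circleAverage
            (fun z => posLog ‖ev (g n) z (MvPolynomial.X (l, j + 1) : DP F I)‖) (c n) (r n) ≤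
            Real.circleAverage (fun _ => (0 : ℝ)) (c n) (r n) := by
          apply Real.circleAverage_mono (hint n _) (circleIntegrable_const _ _ _)
          intro z hz
          rw [habs] at hz
          have h5 := hn z ((hg n).2.2.2 hn1 z hz)
          have h6 : Real.exp (-(n * Gx (g n) (a n))) ≤ 1 := by
            rw [Real.exp_le_one_iff]
            have := (h1 I (g n) (hConf.hol n)).2.2.2.1 (a n)
            have hn0 : (0 : ℝ) ≤ n := Nat.cast_nonneg n
            have := mul_nonneg hn0 this
            linarith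
          have h7 := h5.trans h6
          have h8 : posLog ‖ev (g n) z (MvPolynomial.X (l, j + 1) : DP F I)‖ = 0 := by
            rw [posLog_eq_zero_iff, abs_of_nonneg (norm_nonneg _)]
            exact h7
          exact h8.le
        rwa [Real.circleAverage_const] at h4
      · refine ⟨K + 1, by linarith, ?_⟩
        filter_upwards [hKe, hRad.ld _ htiny 1 one_pos, hRad.lower _ htiny 1 one_pos] with
          n hn hld hlow
        rw [dd_X] at hld
        have hne : ∀ z ∈ sphere (c n) (r n),
            ev (g n) z (MvPolynomial.X (l, j) : DP F I) ≠ 0 := by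
          intro z hz h0
          have := hlow z hz
          rw [h0, norm_zero] at this
          exact absurd this (not_le.2 (Real.exp_pos _))
        have hint2 : CircleIntegrable (fun z =>
            posLog (‖ev (g n) z (MvPolynomial.X (l, j + 1) : DP F I)‖ /
              ‖ev (g n) z (MvPolynomial.X (l, j) : DP F I)‖)) (c n) (r n) := by
          apply ContinuousOn.circleIntegrable (hg n).2.1.le
          apply continuous_posLog.comp_continuousOn
          exact (hcont n _).norm.div (hcont n _).norm fun z hz => norm_ne_zero_iff.2 (hne z hz)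
        have h4 : Real.circleAverage
            (fun z => posLog ‖ev (g n) z (MvPolynomial.X (l, j + 1) : DP F I)‖) (c n) (r n) ≤
            Real.circleAverage (fun z =>
              posLog (‖ev (g n) z (MvPolynomial.X (l, j + 1) : DP F I)‖ /
              ‖ev (g n) z (MvPolynomial.X (l, j) : DP F I)‖) +
              posLog ‖ev (g n) z (MvPolynomial.X (l, j) : DP F I)‖) (c n) (r n) := by
          apply Real.circleAverage_mono (hint n _) (hint2.add (hint n _))
          intro z hz
          rw [habs] at hz
          have h5 := norm_ne_zero_iff.2 (hne z hz)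
          have h6 : ‖ev (g n) z (MvPolynomial.X (l, j + 1) : DP F I)‖ =
              ‖ev (g n) z (MvPolynomial.X (l, j + 1) : DP F I)‖ /
              ‖ev (g n) z (MvPolynomial.X (l, j) : DP F I)‖ *
              ‖ev (g n) z (MvPolynomial.X (l, j) : DP F I)‖ := by
            field_simp
          calc posLog ‖ev (g n) z (MvPolynomial.X (l, j + 1) : DP F I)‖
              = posLog (‖ev (g n) z (MvPolynomial.X (l, j + 1) : DP F I)‖ /
              ‖ev (g n) z (MvPolynomial.X (l, j) : DP F I)‖ *
              ‖ev (g n) z (MvPolynomial.X (l, j) : DP F I)‖) := by rw [← h6]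
            _ ≤ _ := posLog_mul
        rw [Real.circleAverage_fun_add hint2 (hint n _)] at h4
        linarith
  -- all differential polynomials
  have hall : ∀ P : DP F I, ∃ K : ℝ, 0 ≤ K ∧ ∀ᶠ n in UF,
      Real.circleAverage (fun z => posLog ‖ev (g n) z P‖) (c n) (r n)
        ≤ K * TT (g n) (c n) (r n) := by
    intro P
    induction P using MvPolynomial.induction_on with
    | C x =>
      refine ⟨posLog ‖algebraMap F ℂ x‖, posLog_nonneg, ?_⟩
      filter_upwards [hT] with n hn
      simp only [ev_C]
      rw [Real.circleAverage_const]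
      have : 0 ≤ posLog ‖algebraMap F ℂ x‖ := posLog_nonneg
      nlinarith
    | add P Q hP hQ =>
      obtain ⟨K1, hK1, h4⟩ := hP
      obtain ⟨K2, hK2, h5⟩ := hQ
      have hl2 : 0 ≤ Real.log 2 := Real.log_nonneg (by norm_num)
      refine ⟨K1 + K2 + Real.log 2, by positivity, ?_⟩
      filter_upwards [hT, h4, h5] with n hn h6 h7
      have h8 : Real.circleAverage (fun z => posLog ‖ev (g n) z (P + Q)‖) (c n) (r n) ≤
          Real.circleAverage (fun z => Real.log 2 +
            (posLog ‖ev (g n) z P‖ + posLog ‖ev (g n) z Q‖)) (c n) (r n) := by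
        apply Real.circleAverage_mono (hint n _)
          ((circleIntegrable_const _ _ _).add ((hint n _).add (hint n _)))
        intro z hz
        rw [ev_add]
        have h9 : posLog ‖ev (g n) z P + ev (g n) z Q‖ ≤
            posLog (‖ev (g n) z P‖ + ‖ev (g n) z Q‖) :=
          posLog_le_posLog (norm_nonneg _) (norm_add_le _ _)
        have h10 : posLog (‖ev (g n) z P‖ + ‖ev (g n) z Q‖) ≤
            Real.log 2 + posLog ‖ev (g n) z P‖ + posLog ‖ev (g n) z Q‖ := posLog_add
        change posLog ‖ev (g n) z P + ev (g n) z Q‖ ≤ Real.log 2 +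
            (posLog ‖ev (g n) z P‖ + posLog ‖ev (g n) z Q‖)
        linarith
      have h11 : Real.circleAverage (fun z => Real.log 2 +
            (posLog ‖ev (g n) z P‖ + posLog ‖ev (g n) z Q‖)) (c n) (r n) =
          Real.log 2 + (Real.circleAverage (fun z => posLog ‖ev (g n) z P‖) (c n) (r n) +
            Real.circleAverage (fun z => posLog ‖ev (g n) z Q‖) (c n) (r n)) := by
        have h12 : CircleIntegrable
            (fun z => posLog ‖ev (g n) z P‖ + posLog ‖ev (g n) z Q‖) (c n) (r n) :=
          (hint n _).add (hint n _)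
        rw [Real.circleAverage_fun_add (circleIntegrable_const _ _ _) h12,
          Real.circleAverage_fun_add (hint n _) (hint n _), Real.circleAverage_const]
      rw [h11] at h8
      nlinarith
    | mul_X P p hP =>
      obtain ⟨K1, hK1, h4⟩ := hP
      obtain ⟨K2, hK2, h5⟩ := hX p.1 p.2
      refine ⟨K1 + K2, by positivity, ?_⟩
      filter_upwards [h4, h5] with n h6 h7
      have h8 : Real.circleAverage (fun z => posLog ‖ev (g n) z (P * MvPolynomial.X p)‖)
          (c n) (r n) ≤ Real.circleAverage (fun z => posLog ‖ev (g n) z P‖ +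
            posLog ‖ev (g n) z (MvPolynomial.X (p.1, p.2) : DP F I)‖) (c n) (r n) := by
        apply Real.circleAverage_mono (hint n _) ((hint n _).add (hint n _))
        intro z hz
        rw [ev_mul, norm_mul]
        exact posLog_mul
      rw [Real.circleAverage_fun_add (hint n _) (hint n _)] at h8
      linarith
  intro P
  obtain ⟨K, -, hK⟩ := hall P
  exact ⟨K, hK⟩

end Pool.Agent.Work.MP_6d7a54_an.NM
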