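import Pool.Agent.Work.MP_6d7a54_an.NM.Stmts

/-!
# Block NM, item lo2: roots and `lo`
-/

namespace Pool.Agent.Work.MP_6d7a54_an.NM

open Filter Metric Set Topology
open Pool.Agent.Work.MP_6d7a54_an.NF (IsNev DP ev dd UF)

namespace lo2x

theorem a_pos {F I : Type} [Field F] [Algebra F ℂ] [Fintype I]
    {g : ℕ → I → ℂ → ℂ} {a b : ℕ → ℝ} (hC : Conf F g a b)
    (n : ℕ) : b n ≤ a n ∧ 0 < a n := by
  have h1 := hC.hab n
  have h2 := hC.hb n
  have h3 : (1 : ℝ) ≤ ((n : ℝ) + 1) ^ 3 := one_le_pow₀ (by linarith [Nat.cast_nonneg (α := ℝ) n])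
  have h4 : b n ≤ b n * ((n : ℝ) + 1) ^ 3 := le_mul_of_one_le_right h2.le h3
  exact ⟨h4.trans h1, h2.trans_le (h4.trans h1)⟩

theorem sph_sub {F I : Type} [Field F] [Algebra F ℂ] [Fintype I]
    {g : ℕ → I → ℂ → ℂ} {a b : ℕ → ℝ} {c : ℕ → ℂ} {r : ℕ → ℝ}
    (hC : Conf F g a b) (hc : Cen F g a b c) (hr : Rad F g a c r) (n : ℕ) :
    0 < r n ∧ sphere (c n) (r n) ⊆ ball (0 : ℂ) 1 := by
  obtain ⟨h1, h2⟩ := a_pos hC n
  have h3 := hC.ha n
  have h4 := hc.hc n
  have h5 := hr.h1 n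
  have h6 := hr.h2 n
  refine ⟨by linarith, fun z hz => ?_⟩
  rw [mem_sphere, dist_eq_norm] at hz
  rw [mem_ball_zero_iff]
  have : ‖z‖ ≤ ‖z - c n‖ + ‖c n‖ := by
    have := norm_add_le (z - c n) (c n)
    simpa using this
  linarith

theorem cont {F I : Type} [Field F] [Algebra F ℂ] [Fintype I]
    (h2 : Pool.Agent.Work.MP_6d7a54_an.NF.S_ev)
    {g : ℕ → I → ℂ → ℂ} {a b : ℕ → ℝ} {c : ℕ → ℂ} {r : ℕ → ℝ}
    (hC : Conf F g a b) (hc : Cen F g a b c) (hr : Rad F g a c r) (P : DP F I)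
    (n : ℕ) : ContinuousOn (fun z => ev (g n) z P) (sphere (c n) (r n)) := by
  intro z hz
  exact (h2 F I (g n) P (ball 0 1) isOpen_ball (hC.hol n) z
    ((sph_sub hC hc hr n).2 hz)).continuousAt.continuousWithinAt

end lo2x

theorem lo2_proof (_h1 : S_Gx) (h2 : Pool.Agent.Work.MP_6d7a54_an.NF.S_ev) (h3 : S_fin) (h4 : S_lo) :
    S_lo2 := by
  intro F I _ _ _ g a b c r hC hc hr A E P Q hA hE hP hQ hk del hdel
  obtain ⟨K, hK⟩ := h3 F I g a b c r hC hc hr A
  have hEl := (h4 F I g a b c r hC hc hr).2.1 E hE 1 one_pos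
  obtain ⟨k, hk1⟩ := exists_nat_gt ((|K| + 2) / del)
  have hk0 : k ≠ 0 := by
    rintro rfl
    have : 0 ≤ (|K| + 2) / del := by positivity
    simp at hk1
    linarith
  have hkl := hk k hk0 1 one_pos
  filter_upwards [hK, hEl, hkl, hr.lower A hA 1 one_pos, hr.lower E hE 1 one_pos,
    hr.lower P hP 1 one_pos, hr.lower Q hQ 1 one_pos] with n a1 a2 a3 b1 b2 b3 b4
  obtain ⟨hrn, hsub⟩ := lo2x.sph_sub hC hc hr n
  have cA := lo2x.cont h2 hC hc hr A n
  have cE := lo2x.cont h2 hC hc hr E n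
  have cP := lo2x.cont h2 hC hc hr P n
  have cQ := lo2x.cont h2 hC hc hr Q n
  have nA : ∀ z ∈ sphere (c n) (r n), ‖ev (g n) z A‖ ≠ 0 := fun z hz =>
    ((Real.exp_pos _).trans_le (b1 z hz)).ne'
  have nE : ∀ z ∈ sphere (c n) (r n), ‖ev (g n) z E‖ ≠ 0 := fun z hz =>
    ((Real.exp_pos _).trans_le (b2 z hz)).ne'
  have nP : ∀ z ∈ sphere (c n) (r n), ‖ev (g n) z P‖ ≠ 0 := fun z hz =>
    ((Real.exp_pos _).trans_le (b3 z hz)).ne'
  have nQ : ∀ z ∈ sphere (c n) (r n), ‖ev (g n) z Q‖ ≠ 0 := fun z hz =>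
    ((Real.exp_pos _).trans_le (b4 z hz)).ne'
  have iA : CircleIntegrable (fun z => Real.log ‖ev (g n) z A‖) (c n) (r n) :=
    (cA.norm.log nA).circleIntegrable hrn.le
  have iE : CircleIntegrable (fun z => Real.log ‖ev (g n) z E‖) (c n) (r n) :=
    (cE.norm.log nE).circleIntegrable hrn.le
  have iP : CircleIntegrable (fun z => Real.log ‖ev (g n) z P‖) (c n) (r n) :=
    (cP.norm.log nP).circleIntegrable hrn.le
  have iQ : CircleIntegrable (fun z => Real.log ‖ev (g n) z Q‖) (c n) (r n) :=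
    (cQ.norm.log nQ).circleIntegrable hrn.le
  have iPQ : CircleIntegrable (fun z => Real.log ‖ev (g n) z P‖ - Real.log ‖ev (g n) z Q‖)
    (c n) (r n) := iP.sub iQ
  have hT : 0 ≤ TT (g n) (c n) (r n) := Real.circleAverage_nonneg_of_nonneg
    (fun z _ => Finset.sum_nonneg fun l _ => Real.posLog_nonneg)
  set T := TT (g n) (c n) (r n) with hTdef
  -- the mean of `log |A|`
  have mA : Real.circleAverage (fun z => Real.log ‖ev (g n) z A‖) (c n) (r n) ≤ |K| * T := by
    refine le_trans ?_ (a1.trans (mul_le_mul_of_nonneg_right (le_abs_self K) hT))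
    refine Real.circleAverage_mono iA ?_ fun z _ => ?_
    · refine ContinuousOn.circleIntegrable hrn.le ?_
      exact Real.continuous_posLog.comp_continuousOn cA.norm
    · rw [Real.posLog_apply]
      exact le_max_right _ _
  have mE : -T ≤ Real.circleAverage (fun z => Real.log ‖ev (g n) z E‖) (c n) (r n) := by
    have e : (fun z => Real.log ‖ev (g n) z E‖ - Real.log ‖ev (g n) z (1 : DP F I)‖) =
        fun z => Real.log ‖ev (g n) z E‖ := by
      funext z
      simp [ev]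
    rw [e, one_mul] at a2
    exact a2
  have mk : Real.circleAverage (fun z => Real.log ‖ev (g n) z (A * P ^ k)‖ -
      Real.log ‖ev (g n) z (E * Q ^ k)‖) (c n) (r n) =
      Real.circleAverage (fun z => Real.log ‖ev (g n) z A‖) (c n) (r n) -
      Real.circleAverage (fun z => Real.log ‖ev (g n) z E‖) (c n) (r n) +
      k * Real.circleAverage (fun z => Real.log ‖ev (g n) z P‖ - Real.log ‖ev (g n) z Q‖)
        (c n) (r n) := by
    have e : Set.EqOn (fun z => Real.log ‖ev (g n) z (A * P ^ k)‖ -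
        Real.log ‖ev (g n) z (E * Q ^ k)‖)
        ((fun z => Real.log ‖ev (g n) z A‖ - Real.log ‖ev (g n) z E‖) +
          fun z => (k : ℝ) • (Real.log ‖ev (g n) z P‖ - Real.log ‖ev (g n) z Q‖))
        (sphere (c n) |r n|) := by
      rw [abs_of_pos hrn]
      intro z hz
      have e1 : ev (g n) z (A * P ^ k) = ev (g n) z A * ev (g n) z P ^ k := by
        simp only [ev, map_mul, map_pow]
      have e2 : ev (g n) z (E * Q ^ k) = ev (g n) z E * ev (g n) z Q ^ k := by
        simp only [ev, map_mul, map_pow]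
      simp only [Pi.add_apply, smul_eq_mul]
      rw [e1, e2, norm_mul, norm_mul, norm_pow, norm_pow, Real.log_mul (nA z hz)
        (pow_ne_zero _ (nP z hz)), Real.log_mul (nE z hz) (pow_ne_zero _ (nQ z hz)),
        Real.log_pow, Real.log_pow]
      ring
    have i1 : CircleIntegrable (fun z => Real.log ‖ev (g n) z A‖ - Real.log ‖ev (g n) z E‖)
      (c n) (r n) := iA.sub iE
    have i2 : CircleIntegrable (fun z => (k : ℝ) •
      (Real.log ‖ev (g n) z P‖ - Real.log ‖ev (g n) z Q‖)) (c n) (r n) := iPQ.const_smul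
    rw [Real.circleAverage_congr_sphere e, Real.circleAverage_add i1 i2,
      Real.circleAverage_fun_sub iA iE, Real.circleAverage_fun_smul, smul_eq_mul]
  rw [mk, one_mul] at a3
  have hkpos : (0 : ℝ) < k := by exact_mod_cast Nat.pos_of_ne_zero hk0
  set Z := Real.circleAverage (fun z => Real.log ‖ev (g n) z P‖ - Real.log ‖ev (g n) z Q‖)
        (c n) (r n) with hZ
  have h5 : -((|K| + 2) * T) ≤ k * Z := by linarith
  have h6 : (|K| + 2) ≤ k * del := by
    rw [div_lt_iff₀ hdel] at hk1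
    exact hk1.le
  have h7 : -(k * (del * T)) ≤ k * Z := by nlinarith [mul_le_mul_of_nonneg_right h6 hT]
  have h8 : k * (-(del * T)) ≤ k * Z := by linarith
  exact le_of_mul_le_mul_left h8 hkpos

end Pool.Agent.Work.MP_6d7a54_an.NM
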