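import Pool.Agent.Work.MP_6d7a54_an.NM.Stmts
import Pool.Agent.Work.MP_6d7a54_an.NF.I_prime

/-!
# The ideal of tiny elements is prime (MP_6d7a54_an, block NM)

Port of `NF/I_prime.lean`.
-/

namespace Pool.Agent.Work.MP_6d7a54_an.NM

open Filter Metric Set Topology
open Pool.Agent.Work.MP_6d7a54_an.NF (IsNev DP ev dd UF)

noncomputable section

namespace primex

variable {F I : Type} [Field F] [Algebra F ℂ] [Fintype I]
  {g : ℕ → I → ℂ → ℂ} {a b : ℕ → ℝ}

theorem UF_geR (x : ℝ) : ∀ᶠ n : ℕ in UF, x ≤ (n : ℝ) := by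
  have h : ∀ᶠ n : ℕ in atTop, x ≤ (n : ℝ) :=
    (tendsto_natCast_atTop_atTop (R := ℝ)).eventually (eventually_ge_atTop x)
  exact h.filter_mono Nat.hyperfilter_le_atTop

theorem a_pos (hc : Conf F g a b) (n : ℕ) : 0 < a n :=
  lt_of_lt_of_le (mul_pos (hc.hb n) (by positivity)) (hc.hab n)

theorem not_tiny_iff (hc : Conf F g a b) (P : DP F I) (hP : ¬ Tiny g a P) :
    ∀ᶠ n in UF, ∃ z : ℂ, ‖z‖ ≤ b n ∧ Real.exp (-(n * Gx (g n) (b n))) < ‖ev (g n) z P‖ := by
  have h1 := Ultrafilter.eventually_not.2 hP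
  have h2 := (hc.dich P).filter_mono Nat.hyperfilter_le_atTop
  filter_upwards [h1, h2] with n hn1 hn2
  exact hn2.resolve_left hn1

/-- upper bound on the disc of radius `8 b` -/
theorem upper8 (h1 : S_Gx) (h3 : S_GB) (hc : Conf F g a b) (Q : DP F I) :
    ∃ K : ℝ, 0 ≤ K ∧ ∀ n : ℕ, 1 ≤ n → 16 * b n ≤ 1 / 2 → ∀ z ∈ closedBall (0 : ℂ) (8 * b n),
      ‖ev (g n) z Q‖ ≤ Real.exp (K * Gx (g n) (16 * b n)) := by
  obtain ⟨K, hK0, hK⟩ := h3 F I Q
  refine ⟨2 * K, by positivity, ?_⟩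
  intro n hn hb16 z hz
  obtain ⟨-, -, -, k1, k2, k3, -⟩ := h1 I (g n) (hc.hol n)
  have hb := hc.hb n
  have h := hK (g n) (hc.hol n) 0 (8 * b n) (16 * b n) (Gx (g n) (16 * b n))
    (by linarith) (closedBall_subset_ball (by linarith)) (k1 _)
    (fun z hz => k2 (16 * b n) z (by linarith) (by simpa using hz)) z hz
  refine h.trans (Real.exp_le_exp.2 ?_)
  have h5 : 16 * b n - 8 * b n = 8 * b n := by ring
  rw [h5]
  have h6 : Real.log (1 / (8 * b n)) ≤ Real.log (1 / b n) :=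
    Real.log_le_log (by positivity) (one_div_le_one_div_of_le hb (by linarith))
  have h7 : 0 ≤ Real.log (1 / b n) := by
    apply Real.log_nonneg
    rw [le_div_iff₀ hb]
    linarith
  have h8 : (1 : ℝ) ≤ n := by exact_mod_cast hn
  have h9 := hc.big n
  have h10 : Gx (g n) (b n) ≤ Gx (g n) (16 * b n) :=
    k3 (b n) (16 * b n) hb.le (by linarith) (by linarith)
  have h11 : 1 * (1 + Real.log (1 / b n)) ≤ (n : ℝ) * (1 + Real.log (1 / b n)) :=
    mul_le_mul_of_nonneg_right h8 (by linarith)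
  have h12 : 1 + Gx (g n) (16 * b n) + Real.log (1 / (8 * b n)) ≤
      2 * Gx (g n) (16 * b n) := by linarith
  calc K * (1 + Gx (g n) (16 * b n) + Real.log (1 / (8 * b n))) ≤
      K * (2 * Gx (g n) (16 * b n)) := mul_le_mul_of_nonneg_left h12 hK0
    _ = 2 * K * Gx (g n) (16 * b n) := by ring

end primex

theorem prime_proof (h1 : S_Gx) (h3 : S_GB) (h5 : NF.S_CL) (h6 : NF.S_avg) : S_prime := by
  intro F I _ _ _ g a b hc P Q hP hQ hPQ
  obtain ⟨K, hK1, hK⟩ := NF.primex.two h5 h6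
  obtain ⟨KP, hKP0, hKP⟩ := primex.upper8 h1 h3 hc P
  obtain ⟨KQ, hKQ0, hKQ⟩ := primex.upper8 h1 h3 hc Q
  set K1 : ℝ := KP + KQ + 1 with hK1d
  have hP' := primex.not_tiny_iff hc P hP
  have hQ' := primex.not_tiny_iff hc Q hQ
  have hdec := (hc.dec 16 (by norm_num)).filter_mono Nat.hyperfilter_le_atTop
  have hev : ∀ᶠ n : ℕ in UF, False := by
    filter_upwards [hP', hQ', hPQ, hdec, primex.UF_geR 2, primex.UF_geR (K * K1)]
      with n hp hq hpq hdn hn2 hnK
    obtain ⟨p, hpb, hp1⟩ := hp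
    obtain ⟨q, hqb, hq1⟩ := hq
    have hn : 1 ≤ n := by
      have h : (1 : ℝ) ≤ (n : ℝ) := by linarith
      exact_mod_cast h
    have hb := hc.hb n
    have ha := primex.a_pos hc n
    have hab := hc.hab n
    have h16 : 16 * b n ≤ a n := by
      have h27 : (16 : ℝ) ≤ ((n : ℝ) + 1) ^ 3 := by
        calc (16 : ℝ) ≤ 3 ^ 3 := by norm_num
          _ ≤ ((n : ℝ) + 1) ^ 3 := pow_le_pow_left₀ (by norm_num) (by linarith) 3
      have := mul_le_mul_of_nonneg_left h27 hb.le
      linarith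
    have hahalf := hc.ha n
    have h16' : 16 * b n ≤ 1 / 2 := h16.trans hahalf
    obtain ⟨-, -, -, k1, k2, k3, -⟩ := h1 I (g n) (hc.hol n)
    set M16 := Gx (g n) (16 * b n) with hM16
    have hM16n : 0 ≤ M16 := k1 _
    have hMb : Gx (g n) (b n) ≤ M16 := k3 (b n) (16 * b n) hb.le (by linarith) (by linarith)
    set A : ℝ := K1 * (n * M16) with hA
    have hK1p : 1 ≤ K1 := by rw [hK1d]; linarith
    have hnM : 0 ≤ n * M16 := by positivity
    have hMn : M16 ≤ n * M16 := by nlinarith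
    have hA0 : 0 ≤ A := by positivity
    have hAn : n * M16 ≤ A := by
      rw [hA]
      nlinarith
    have hPA : KP * M16 ≤ A := by
      calc KP * M16 ≤ KP * (n * M16) := mul_le_mul_of_nonneg_left hMn hKP0
        _ ≤ K1 * (n * M16) := mul_le_mul_of_nonneg_right (by rw [hK1d]; linarith) hnM
    have hQA : KQ * M16 ≤ A := by
      calc KQ * M16 ≤ KQ * (n * M16) := mul_le_mul_of_nonneg_left hMn hKQ0
        _ ≤ K1 * (n * M16) := mul_le_mul_of_nonneg_right (by rw [hK1d]; linarith) hnM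
    have hlow : Real.exp (-A) ≤ Real.exp (-(n * Gx (g n) (b n))) := by
      apply Real.exp_le_exp.2
      have : (n : ℝ) * Gx (g n) (b n) ≤ n * M16 := mul_le_mul_of_nonneg_left hMb (by linarith)
      linarith
    have hsub : closedBall (0 : ℂ) (8 * b n) ⊆ ball 0 1 := closedBall_subset_ball (by linarith)
    obtain ⟨z, hz, hzl⟩ := hK (fun z => ev (g n) z P) (fun z => ev (g n) z Q) p q (b n) A hb hA0
      ((NF.primex.ev_analytic (g n) (hc.hol n) P).mono hsub)
      ((NF.primex.ev_analytic (g n) (hc.hol n) Q).mono hsub)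
      (fun z hz => (hKP n hn h16' z hz).trans (Real.exp_le_exp.2 hPA))
      (fun z hz => (hKQ n hn h16' z hz).trans (Real.exp_le_exp.2 hQA))
      hpb hqb (hlow.trans hp1.le) (hlow.trans hq1.le)
    have hzu := hpq z (by linarith)
    have hmul : ev (g n) z (P * Q) = ev (g n) z P * ev (g n) z Q := by
      unfold ev
      rw [map_mul]
    rw [hmul] at hzu
    have hcmp := Real.exp_le_exp.1 (hzl.trans hzu)
    -- `n M (a) ≤ K A`
    set Ma := Gx (g n) (a n) with hMad
    have hMba : Gx (g n) (b n) ≤ Ma := k3 (b n) (a n) hb.le (by linarith) (by linarith)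
    have hMa0 : 0 < Ma := by
      have hbig := hc.big n
      have hl : 0 ≤ Real.log (1 / b n) := by
        apply Real.log_nonneg
        rw [le_div_iff₀ hb]
        linarith
      have h2 : (2 : ℝ) * 1 ≤ (n : ℝ) * (1 + Real.log (1 / b n)) :=
        mul_le_mul hn2 (by linarith) (by norm_num) (by linarith)
      linarith
    have hM16a : (n : ℝ) ^ 2 * M16 ≤ Ma :=
      hdn.trans (k3 (a n / 16) (a n) (by linarith) (by linarith) (by linarith))
    have hfin : (n : ℝ) * Ma ≤ K * (K1 * (n * M16)) := by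
      rw [← hA]
      linarith
    have hfin2 : (n : ℝ) ^ 2 * Ma ≤ K * K1 * Ma := by
      calc (n : ℝ) ^ 2 * Ma = n * (n * Ma) := by ring
        _ ≤ n * (K * (K1 * (n * M16))) := mul_le_mul_of_nonneg_left hfin (by linarith)
        _ = K * K1 * ((n : ℝ) ^ 2 * M16) := by ring
        _ ≤ K * K1 * Ma := mul_le_mul_of_nonneg_left hM16a (by positivity)
    have hfin3 : (n : ℝ) ^ 2 ≤ K * K1 := le_of_mul_le_mul_right hfin2 hMa0
    nlinarith
  exact absurd hev.exists (by simp)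

end

end Pool.Agent.Work.MP_6d7a54_an.NM
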