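import Pool.Agent.Work.MP_6d7a54_an.NM.Stmts

/-!
# Small quotients are well defined (MP_6d7a54_an)
-/

namespace Pool.Agent.Work.MP_6d7a54_an.NM

open Filter Metric Set Topology Real
open Pool.Agent.Work.MP_6d7a54_an.NF (IsNev DP ev dd UF)

noncomputable section

namespace s1x

theorem ev_mul {F I : Type} [Field F] [Algebra F ℂ] (g : I → ℂ → ℂ) (z : ℂ) (P Q : DP F I) :
    ev g z (P * Q) = ev g z P * ev g z Q := by
  unfold ev
  exact map_mul _ _ _

theorem ev_sub {F I : Type} [Field F] [Algebra F ℂ] (g : I → ℂ → ℂ) (z : ℂ) (P Q : DP F I) :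
    ev g z (P - Q) = ev g z P - ev g z Q := by
  unfold ev
  exact map_sub _ _ _

theorem ev_cont {F I : Type} [Field F] [Algebra F ℂ] (g : I → ℂ → ℂ)
    (hg : ∀ l, DifferentiableOn ℂ (g l) (ball 0 1)) (P : DP F I) :
    ContinuousOn (fun z => ev g z P) (ball 0 1) := by
  induction P using MvPolynomial.induction_on with
  | C x =>
    have : (fun z => ev g z (MvPolynomial.C x : DP F I)) = fun _ => algebraMap F ℂ x := by
      funext z
      simp [ev]
    rw [this]
    exact continuousOn_const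
  | add P Q hP hQ =>
    have : (fun z => ev g z (P + Q)) = fun z => ev g z P + ev g z Q := by
      funext z
      simp [ev]
    rw [this]
    exact hP.add hQ
  | mul_X P i hP =>
    have : (fun z => ev g z (P * MvPolynomial.X i)) =
        fun z => ev g z P * iteratedDeriv i.2 (g i.1) z := by
      funext z
      simp [ev]
    rw [this]
    refine hP.mul ?_
    rw [iteratedDeriv_eq_iterate]
    exact (((hg i.1).analyticOnNhd isOpen_ball).iterated_deriv i.2).continuousOn

/-- continuity of the quotients on circles -/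
theorem quot_cont {F I : Type} [Field F] [Algebra F ℂ] (g : I → ℂ → ℂ)
    (hg : ∀ l, DifferentiableOn ℂ (g l) (ball 0 1)) (P Q : DP F I) (K : Set ℂ)
    (hK : K ⊆ ball 0 1) (hQ : ∀ z ∈ K, ev g z Q ≠ 0) :
    ContinuousOn (fun z => Real.posLog (‖ev g z P‖ / ‖ev g z Q‖)) K := by
  apply Real.continuous_posLog.comp_continuousOn
  exact ((ev_cont g hg P).mono hK).norm.div ((ev_cont g hg Q).mono hK).norm
    (fun z hz => norm_ne_zero_iff.2 (hQ z hz))

/-- the pointwise inequality -/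
theorem point {p q p' q' t : ℂ} {X : ℝ} (hX : 0 ≤ X) (ht : t = p * q' - p' * q)
    (h1 : ‖t‖ ≤ Real.exp (-X)) (h2 : Real.exp (-(1 / 4 * X)) ≤ ‖q‖)
    (h3 : Real.exp (-(1 / 4 * X)) ≤ ‖q'‖) :
    Real.posLog (‖p'‖ / ‖q'‖) ≤ Real.posLog (‖p‖ / ‖q‖) + Real.log 2 := by
  have hq : 0 < ‖q‖ := (Real.exp_pos _).trans_le h2
  have hq' : 0 < ‖q'‖ := (Real.exp_pos _).trans_le h3
  have hq0 : q ≠ 0 := norm_pos_iff.1 hq
  have hq0' : q' ≠ 0 := norm_pos_iff.1 hq'
  have e1 : p' / q' = p / q + -(t / (q * q')) := by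
    rw [ht]
    field_simp
    ring
  have e2 : ‖t / (q * q')‖ ≤ 1 := by
    rw [norm_div, norm_mul, div_le_one (mul_pos hq hq')]
    calc ‖t‖ ≤ Real.exp (-X) := h1
      _ ≤ Real.exp (-(1 / 4 * X) + -(1 / 4 * X)) := Real.exp_le_exp.2 (by linarith)
      _ = Real.exp (-(1 / 4 * X)) * Real.exp (-(1 / 4 * X)) := Real.exp_add _ _
      _ ≤ ‖q‖ * ‖q'‖ := mul_le_mul h2 h3 (Real.exp_pos _).le hq.le
  rw [← norm_div, ← norm_div, e1]
  refine (Real.posLog_norm_add_le (p / q) (-(t / (q * q')))).trans ?_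
  rw [norm_neg]
  have e3 : Real.posLog ‖t / (q * q')‖ = 0 := by
    rw [Real.posLog_eq_zero_iff, abs_of_nonneg (norm_nonneg _)]
    exact e2
  rw [e3]
  linarith

end s1x

open s1x in
theorem s1_proof (h1 : S_Gx) : S_s1 := by
  intro F I _ _ _ g a b c r hConf hCen hRad P Q P' Q' hQ hQ' hT hsm del hdel
  obtain ⟨kap, hkap, htt⟩ := hRad.tt
  have hn0 : ∀ᶠ n : ℕ in UF, 2 ≤ n ∧ 2 * Real.log 2 / (del * kap) ≤ n := by
    have h : ∀ᶠ n : ℕ in atTop, 2 ≤ n ∧ 2 * Real.log 2 / (del * kap) ≤ n :=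
      (eventually_ge_atTop 2).and
        ((tendsto_natCast_atTop_atTop (R := ℝ)).eventually_ge_atTop _)
    rw [← Nat.cofinite_eq_atTop] at h
    exact Filter.hyperfilter_le_cofinite h
  filter_upwards [hn0, htt, hsm (del / 2) (by linarith), hT,
    hRad.lower Q hQ (1 / 4) (by norm_num), hRad.lower Q' hQ' (1 / 4) (by norm_num)] with
    n hn hn1 hn2 hn3 hn4 hn5
  have hb := hConf.hb n
  have hab := hConf.hab n
  have ha := hConf.ha n
  have hbig := hConf.big n
  have hc := hCen.hc n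
  have hr1 := hRad.h1 n
  have hr2 := hRad.h2 n
  obtain ⟨-, -, -, hM0, -, hM2, -⟩ := h1 I (g n) (hConf.hol n)
  have hn2' : (2 : ℝ) ≤ (n : ℝ) := by exact_mod_cast hn.1
  have hcube : (27 : ℝ) ≤ ((n : ℝ) + 1) ^ 3 := by
    have : (3 : ℝ) ^ 3 ≤ ((n : ℝ) + 1) ^ 3 := pow_le_pow_left₀ (by norm_num) (by linarith) 3
    linarith [show (3 : ℝ) ^ 3 = 27 by norm_num]
  have hba : 27 * b n ≤ a n := by
    have := mul_le_mul_of_nonneg_left hcube hb.le
    linarith
  have ha0 : 0 < a n := by linarith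
  have hr0 : 0 < r n := by linarith
  have hsph : ∀ z ∈ sphere (c n) (r n), ‖z‖ ≤ a n := by
    intro z hz
    have e : ‖z - c n‖ = r n := by rw [← dist_eq_norm]; exact hz
    have : ‖z‖ ≤ ‖z - c n‖ + ‖c n‖ := by
      have := norm_add_le (z - c n) (c n)
      rwa [sub_add_cancel] at this
    linarith
  have hsub : sphere (c n) (r n) ⊆ ball 0 1 := by
    intro z hz
    rw [mem_ball_zero_iff]
    have := hsph z hz
    linarith
  have hQ0 : ∀ z ∈ sphere (c n) (r n), ev (g n) z Q ≠ 0 := fun z hz =>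
    norm_pos_iff.1 ((Real.exp_pos _).trans_le (hn4 z hz))
  have hQ0' : ∀ z ∈ sphere (c n) (r n), ev (g n) z Q' ≠ 0 := fun z hz =>
    norm_pos_iff.1 ((Real.exp_pos _).trans_le (hn5 z hz))
  have hX : 0 ≤ (n : ℝ) * Gx (g n) (a n) := mul_nonneg (by linarith) (hM0 _)
  have hint1 : CircleIntegrable (fun z => Real.posLog (‖ev (g n) z P‖ / ‖ev (g n) z Q‖))
      (c n) (r n) :=
    (quot_cont (g n) (hConf.hol n) P Q _ hsub hQ0).circleIntegrable hr0.le
  have hint2 : CircleIntegrable (fun z => Real.posLog (‖ev (g n) z P'‖ / ‖ev (g n) z Q'‖))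
      (c n) (r n) :=
    (quot_cont (g n) (hConf.hol n) P' Q' _ hsub hQ0').circleIntegrable hr0.le
  have hint3 : CircleIntegrable (fun _ : ℂ => Real.log 2) (c n) (r n) :=
    continuousOn_const.circleIntegrable hr0.le
  have hmono : Real.circleAverage (fun z => Real.posLog (‖ev (g n) z P'‖ / ‖ev (g n) z Q'‖))
      (c n) (r n) ≤ Real.circleAverage
        (fun z => Real.posLog (‖ev (g n) z P‖ / ‖ev (g n) z Q‖) + Real.log 2) (c n) (r n) := by
    refine Real.circleAverage_mono hint2 (hint1.add hint3) ?_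
    intro z hz
    rw [abs_of_pos hr0] at hz
    refine point hX (t := ev (g n) z (P * Q' - P' * Q)) ?_ (hn3 z (hsph z hz)) (hn4 z hz)
      (hn5 z hz)
    rw [ev_sub, ev_mul, ev_mul]
  rw [Real.circleAverage_fun_add hint1 hint3, Real.circleAverage_const] at hmono
  have hMb : (n : ℝ) ≤ Gx (g n) (b n) := by
    have hlog : 0 ≤ Real.log (1 / b n) := by
      apply Real.log_nonneg
      rw [le_div_iff₀ hb]
      linarith
    have : (n : ℝ) * 1 ≤ (n : ℝ) * (1 + Real.log (1 / b n)) :=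
      mul_le_mul_of_nonneg_left (by linarith) (by linarith)
    linarith
  have hMb2 : Gx (g n) (b n) ≤ Gx (g n) (a n / 16) :=
    hM2 (b n) (a n / 16) hb.le (by linarith) (by linarith)
  have hT2 : Real.log 2 ≤ del / 2 * TT (g n) (c n) (r n) := by
    have e1 : kap * n ≤ TT (g n) (c n) (r n) :=
      (mul_le_mul_of_nonneg_left (hMb.trans hMb2) hkap.le).trans hn1
    have e2 := hn.2
    rw [div_le_iff₀ (mul_pos hdel hkap)] at e2
    have e3 := mul_le_mul_of_nonneg_left e1 (by linarith : 0 ≤ del / 2)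
    nlinarith
  linarith

end

end Pool.Agent.Work.MP_6d7a54_an.NM
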