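import Pool.Agent.Work.MP_6d7a54_an.NM.Stmts

/-!
# Constants, products, sums, logarithmic derivatives and roots of small quotients (MP_6d7a54_an)
-/

namespace Pool.Agent.Work.MP_6d7a54_an.NM

open Filter Metric Set Topology Real
open Pool.Agent.Work.MP_6d7a54_an.NF (IsNev DP ev dd UF)

noncomputable section

namespace s3x

theorem ev_mul {F I : Type} [Field F] [Algebra F ℂ] (g : I → ℂ → ℂ) (z : ℂ) (P Q : DP F I) :
    ev g z (P * Q) = ev g z P * ev g z Q := by
  unfold ev
  exact map_mul _ _ _

theorem ev_add {F I : Type} [Field F] [Algebra F ℂ] (g : I → ℂ → ℂ) (z : ℂ) (P Q : DP F I) :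
    ev g z (P + Q) = ev g z P + ev g z Q := by
  unfold ev
  exact map_add _ _ _

theorem ev_sub {F I : Type} [Field F] [Algebra F ℂ] (g : I → ℂ → ℂ) (z : ℂ) (P Q : DP F I) :
    ev g z (P - Q) = ev g z P - ev g z Q := by
  unfold ev
  exact map_sub _ _ _

theorem ev_pow {F I : Type} [Field F] [Algebra F ℂ] (g : I → ℂ → ℂ) (z : ℂ) (P : DP F I)
    (e : ℕ) : ev g z (P ^ e) = ev g z P ^ e := by
  unfold ev
  exact map_pow _ _ _

theorem ev_one {F I : Type} [Field F] [Algebra F ℂ] (g : I → ℂ → ℂ) (z : ℂ) :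
    ev g z (1 : DP F I) = 1 := by
  unfold ev
  exact map_one _

theorem ev_C {F I : Type} [Field F] [Algebra F ℂ] (g : I → ℂ → ℂ) (z : ℂ) (x : F) :
    ev g z (MvPolynomial.C x : DP F I) = algebraMap F ℂ x := by
  simp [ev]

theorem ev_cont {F I : Type} [Field F] [Algebra F ℂ] (g : I → ℂ → ℂ)
    (hg : ∀ l, DifferentiableOn ℂ (g l) (ball 0 1)) (P : DP F I) :
    ContinuousOn (fun z => ev g z P) (ball 0 1) := by
  induction P using MvPolynomial.induction_on with
  | C x =>
    have : (fun z => ev g z (MvPolynomial.C x : DP F I)) = fun _ => algebraMap F ℂ x := by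
      funext z
      simp [ev]
    rw [this]
    exact continuousOn_const
  | add P Q hP hQ =>
    have : (fun z => ev g z (P + Q)) = fun z => ev g z P + ev g z Q := by
      funext z
      simp [ev]
    rw [this]
    exact hP.add hQ
  | mul_X P i hP =>
    have : (fun z => ev g z (P * MvPolynomial.X i)) =
        fun z => ev g z P * iteratedDeriv i.2 (g i.1) z := by
      funext z
      simp [ev]
    rw [this]
    refine hP.mul ?_
    rw [iteratedDeriv_eq_iterate]
    exact (((hg i.1).analyticOnNhd isOpen_ball).iterated_deriv i.2).continuousOn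

/-- continuity of the quotients on circles -/
theorem quot_cont {F I : Type} [Field F] [Algebra F ℂ] (g : I → ℂ → ℂ)
    (hg : ∀ l, DifferentiableOn ℂ (g l) (ball 0 1)) (P Q : DP F I) (K : Set ℂ)
    (hK : K ⊆ ball 0 1) (hQ : ∀ z ∈ K, ev g z Q ≠ 0) :
    ContinuousOn (fun z => Real.posLog (‖ev g z P‖ / ‖ev g z Q‖)) K := by
  apply Real.continuous_posLog.comp_continuousOn
  exact ((ev_cont g hg P).mono hK).norm.div ((ev_cont g hg Q).mono hK).norm
    (fun z hz => norm_ne_zero_iff.2 (hQ z hz))

variable {F I : Type} [Field F] [Algebra F ℂ] [Fintype I]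
  {g : ℕ → I → ℂ → ℂ} {a b : ℕ → ℝ} {c : ℕ → ℂ} {r : ℕ → ℝ}

/-- the circles lie in the unit disc -/
theorem circ (hConf : Conf F g a b) (hCen : Cen F g a b c) (hRad : Rad F g a c r)
    (n : ℕ) : 0 < r n ∧ sphere (c n) (r n) ⊆ ball 0 1 := by
  have hb := hConf.hb n
  have hab := hConf.hab n
  have ha := hConf.ha n
  have hc := hCen.hc n
  have hr1 := hRad.h1 n
  have hr2 := hRad.h2 n
  have hcube : (1 : ℝ) ≤ ((n : ℝ) + 1) ^ 3 := by
    apply one_le_pow₀
    have : (0 : ℝ) ≤ n := Nat.cast_nonneg n
    linarith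
  have hba : b n ≤ a n := by
    have := mul_le_mul_of_nonneg_left hcube hb.le
    linarith
  have ha0 : 0 < a n := by linarith
  refine ⟨by linarith, ?_⟩
  intro z hz
  rw [mem_ball_zero_iff]
  have e : ‖z - c n‖ = r n := by rw [← dist_eq_norm]; exact hz
  have : ‖z‖ ≤ ‖z - c n‖ + ‖c n‖ := by
    have := norm_add_le (z - c n) (c n)
    rwa [sub_add_cancel] at this
  linarith

/-- eventually large index -/
theorem evn (A : ℝ) : ∀ᶠ n : ℕ in UF, 2 ≤ n ∧ A ≤ n := by
  have h : ∀ᶠ n : ℕ in atTop, 2 ≤ n ∧ A ≤ n :=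
    (eventually_ge_atTop 2).and
      ((tendsto_natCast_atTop_atTop (R := ℝ)).eventually_ge_atTop _)
  rw [← Nat.cofinite_eq_atTop] at h
  exact Filter.hyperfilter_le_cofinite h

/-- the characteristic tends to infinity -/
theorem TTinf (h1 : S_Gx) (hConf : Conf F g a b) (hRad : Rad F g a c r) (A : ℝ) :
    ∀ᶠ n in UF, A ≤ TT (g n) (c n) (r n) := by
  obtain ⟨kap, hkap, htt⟩ := hRad.tt
  filter_upwards [evn (A / kap), htt] with n hn hn1
  have hb := hConf.hb n
  have hab := hConf.hab n
  have ha := hConf.ha n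
  have hbig := hConf.big n
  obtain ⟨-, -, -, hM0, -, hM2, -⟩ := h1 I (g n) (hConf.hol n)
  have hn2' : (2 : ℝ) ≤ (n : ℝ) := by exact_mod_cast hn.1
  have hcube : (27 : ℝ) ≤ ((n : ℝ) + 1) ^ 3 := by
    have : (3 : ℝ) ^ 3 ≤ ((n : ℝ) + 1) ^ 3 := pow_le_pow_left₀ (by norm_num) (by linarith) 3
    linarith [show (3 : ℝ) ^ 3 = 27 by norm_num]
  have hba : 27 * b n ≤ a n := by
    have := mul_le_mul_of_nonneg_left hcube hb.le
    linarith
  have ha0 : 0 < a n := by linarith
  have hM : Gx (g n) (b n) ≤ Gx (g n) (a n / 16) :=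
    hM2 (b n) (a n / 16) hb.le (by linarith) (by linarith)
  have hlog : 0 ≤ Real.log (1 / b n) := by
    apply Real.log_nonneg
    rw [le_div_iff₀ hb]
    linarith
  have hMn : (n : ℝ) ≤ Gx (g n) (b n) := by
    have : (0 : ℝ) ≤ (n : ℝ) * Real.log (1 / b n) := mul_nonneg (by linarith) hlog
    linarith
  have h3 : A ≤ kap * (n : ℝ) := by
    have := hn.2
    rw [div_le_iff₀ hkap] at this
    linarith
  calc A ≤ kap * (n : ℝ) := h3
    _ ≤ kap * Gx (g n) (a n / 16) := mul_le_mul_of_nonneg_left (hMn.trans hM) hkap.le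
    _ ≤ TT (g n) (c n) (r n) := hn1

/-- eventually no zeros on the circle -/
theorem nez (hRad : Rad F g a c r) (Q : DP F I) (hQ : ¬ Tiny g a Q) :
    ∀ᶠ n in UF, ∀ z ∈ sphere (c n) (r n), ev (g n) z Q ≠ 0 := by
  filter_upwards [hRad.lower Q hQ 1 one_pos] with n hn z hz
  exact norm_pos_iff.1 ((Real.exp_pos _).trans_le (hn z hz))

/-- comparison: if on the circle `log⁺ f ≤ log⁺ f1 + log⁺ f2 + A` -/
theorem comb {f f1 f2 : ℂ → ℝ} {c : ℂ} {r A : ℝ} (hr : 0 < r)
    (h : ContinuousOn f (sphere c r)) (h1 : ContinuousOn f1 (sphere c r))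
    (h2 : ContinuousOn f2 (sphere c r)) (hle : ∀ z ∈ sphere c r, f z ≤ f1 z + f2 z + A) :
    Real.circleAverage f c r ≤ Real.circleAverage f1 c r + Real.circleAverage f2 c r + A := by
  have i0 : CircleIntegrable f c r := h.circleIntegrable hr.le
  have i1 : CircleIntegrable f1 c r := h1.circleIntegrable hr.le
  have i2 : CircleIntegrable f2 c r := h2.circleIntegrable hr.le
  have i3 : CircleIntegrable (fun _ : ℂ => A) c r := circleIntegrable_const A c r
  have i4 : CircleIntegrable (fun z => f1 z + f2 z) c r := i1.add i2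
  have e1 : Real.circleAverage (fun z => f1 z + f2 z + A) c r =
      Real.circleAverage f1 c r + Real.circleAverage f2 c r + A := by
    rw [Real.circleAverage_fun_add i4 i3, Real.circleAverage_fun_add i1 i2,
      Real.circleAverage_const]
  rw [← e1]
  apply Real.circleAverage_mono i0 (i4.add i3)
  intro z hz
  rw [abs_of_pos hr] at hz
  exact hle z hz

end s3x

open s3x in
theorem s3_proof (h1 : S_Gx) (_h2 : NF.S_ev) : S_s3 := by
  intro F I _ _ _ g a b c r hConf hCen hRad
  refine ⟨?_, ?_, ?_, ?_⟩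
  · intro x del hdel
    filter_upwards [TTinf h1 hConf hRad (Real.posLog ‖algebraMap F ℂ x‖ / del)] with n hn
    have e : (fun z => Real.posLog (‖ev (g n) z (MvPolynomial.C x : DP F I)‖ /
        ‖ev (g n) z (1 : DP F I)‖)) = fun _ => Real.posLog ‖algebraMap F ℂ x‖ := by
      funext z
      rw [ev_C, ev_one, norm_one, div_one]
    rw [e, Real.circleAverage_const]
    rw [div_le_iff₀ hdel] at hn
    linarith
  · intro P Q P' Q' hQ hQ' hs hs'
    refine ⟨?_, ?_⟩
    · intro del hdel
      filter_upwards [hs (del / 2) (by linarith), hs' (del / 2) (by linarith), nez hRad Q hQ,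
        nez hRad Q' hQ'] with n a1 a2 a3 a4
      obtain ⟨hr, hsub⟩ := circ hConf hCen hRad n
      have hg := hConf.hol n
      have hQQ : ∀ z ∈ sphere (c n) (r n), ev (g n) z (Q * Q') ≠ 0 := by
        intro z hz
        rw [ev_mul]
        exact mul_ne_zero (a3 z hz) (a4 z hz)
      have key := comb (A := 0) hr (quot_cont (g n) hg (P * P') (Q * Q') _ hsub hQQ)
        (quot_cont (g n) hg P Q _ hsub a3) (quot_cont (g n) hg P' Q' _ hsub a4) (by
          intro z hz
          rw [ev_mul, ev_mul, norm_mul, norm_mul, mul_div_mul_comm, add_zero]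
          exact Real.posLog_mul)
      linarith
    · intro del hdel
      filter_upwards [hs (del / 4) (by linarith), hs' (del / 4) (by linarith), nez hRad Q hQ,
        nez hRad Q' hQ', TTinf h1 hConf hRad (Real.log 2 / (del / 4))] with n a1 a2 a3 a4 a5
      obtain ⟨hr, hsub⟩ := circ hConf hCen hRad n
      have hg := hConf.hol n
      have hQQ : ∀ z ∈ sphere (c n) (r n), ev (g n) z (Q * Q') ≠ 0 := by
        intro z hz
        rw [ev_mul]
        exact mul_ne_zero (a3 z hz) (a4 z hz)
      have key := comb (A := Real.log 2) hr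
        (quot_cont (g n) hg (P * Q' + P' * Q) (Q * Q') _ hsub hQQ)
        (quot_cont (g n) hg P Q _ hsub a3) (quot_cont (g n) hg P' Q' _ hsub a4) (by
          intro z hz
          have z3 := a3 z hz
          have z4 := a4 z hz
          rw [← norm_div, ← norm_div, ← norm_div]
          have e : ev (g n) z (P * Q' + P' * Q) / ev (g n) z (Q * Q') =
              ev (g n) z P / ev (g n) z Q + ev (g n) z P' / ev (g n) z Q' := by
            rw [ev_add, ev_mul, ev_mul, ev_mul]
            field_simp
          rw [e]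
          have := Real.posLog_norm_add_le (ev (g n) z P / ev (g n) z Q)
            (ev (g n) z P' / ev (g n) z Q')
          linarith)
      rw [div_le_iff₀ (by linarith)] at a5
      have h0 : 0 ≤ TT (g n) (c n) (r n) := by
        by_contra hneg
        have : TT (g n) (c n) (r n) * (del / 4) < 0 := mul_neg_of_neg_of_pos (not_le.1 hneg)
          (by linarith)
        have := Real.log_pos (x := 2) one_lt_two
        linarith
      nlinarith
  · intro P Q hP hQ del hdel
    filter_upwards [hRad.ld P hP (del / 4) (by linarith), hRad.ld Q hQ (del / 4) (by linarith),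
      nez hRad P hP, nez hRad Q hQ, TTinf h1 hConf hRad (Real.log 2 / (del / 4))] with
      n a1 a2 a3 a4 a5
    obtain ⟨hr, hsub⟩ := circ hConf hCen hRad n
    have hg := hConf.hol n
    have hQQ : ∀ z ∈ sphere (c n) (r n), ev (g n) z (P * Q) ≠ 0 := by
      intro z hz
      rw [ev_mul]
      exact mul_ne_zero (a3 z hz) (a4 z hz)
    have key := comb (A := Real.log 2) hr
      (quot_cont (g n) hg (dd P * Q - P * dd Q) (P * Q) _ hsub hQQ)
      (quot_cont (g n) hg (dd P) P _ hsub a3) (quot_cont (g n) hg (dd Q) Q _ hsub a4) (by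
        intro z hz
        have z3 := a3 z hz
        have z4 := a4 z hz
        rw [← norm_div, ← norm_div, ← norm_div]
        have e : ev (g n) z (dd P * Q - P * dd Q) / ev (g n) z (P * Q) =
            ev (g n) z (dd P) / ev (g n) z P + -(ev (g n) z (dd Q) / ev (g n) z Q) := by
          rw [ev_sub, ev_mul, ev_mul, ev_mul]
          field_simp
          ring
        rw [e]
        have := Real.posLog_norm_add_le (ev (g n) z (dd P) / ev (g n) z P)
          (-(ev (g n) z (dd Q) / ev (g n) z Q))
        rw [norm_neg] at this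
        linarith)
    rw [div_le_iff₀ (by linarith)] at a5
    have h0 : 0 ≤ TT (g n) (c n) (r n) := by
      by_contra hneg
      have : TT (g n) (c n) (r n) * (del / 4) < 0 := mul_neg_of_neg_of_pos (not_le.1 hneg)
        (by linarith)
      have := Real.log_pos (x := 2) one_lt_two
      linarith
    nlinarith
  · intro P Q e hQ he hs del hdel
    have he0 : (0 : ℝ) < e := by exact_mod_cast Nat.pos_of_ne_zero he
    filter_upwards [hs (e * del) (by positivity)] with n hn
    have e1 : (fun z => Real.posLog (‖ev (g n) z (P ^ e)‖ / ‖ev (g n) z (Q ^ e)‖)) =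
        fun z => (e : ℝ) • Real.posLog (‖ev (g n) z P‖ / ‖ev (g n) z Q‖) := by
      funext z
      rw [ev_pow, ev_pow, norm_pow, norm_pow, ← div_pow, Real.posLog_pow, smul_eq_mul]
    rw [e1, Real.circleAverage_fun_smul, smul_eq_mul, mul_assoc] at hn
    exact le_of_mul_le_mul_left hn he0

end

end Pool.Agent.Work.MP_6d7a54_an.NM
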