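import Pool.Agent.Work.MP_6d7a54_an.NM.Stmts

/-!
# Constants of the field are small (block NM, port of NF/I_s7.lean)
-/

set_option autoImplicit false

namespace Pool.Agent.Work.MP_6d7a54_an.NM

open Filter Metric Set Topology Real
open Pool.Agent.Work.MP_6d7a54_an.NF (IsNev DP ev dd UF)

noncomputable section

namespace s7x

lemma circ {p q p' q' : ℂ → ℂ} {c : ℂ} {r η B : ℝ} (hr : 0 < r) (hη0 : 0 ≤ η)
    (hp : ∀ z ∈ closedBall c r, HasDerivAt p (p' z) z)
    (hq : ∀ z ∈ closedBall c r, HasDerivAt q (q' z) z)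
    (h : ∀ z ∈ sphere c r, q z ≠ 0 ∧ ‖p' z * q z - p z * q' z‖ ≤ η * ‖q z‖ ^ 2)
    (hB : ∀ z ∈ sphere c r, ‖q z‖ ≤ B) :
    ∃ l : ℂ, (∀ z ∈ sphere c r, ‖p z / q z - l‖ ≤ 2 * π * r * η) ∧
      ‖p c - l * q c‖ ≤ B * (2 * π * r * η) := by
  set f : ℝ → ℂ := fun t => p (circleMap c r t) / q (circleMap c r t) with hf
  have hsph : ∀ t : ℝ, circleMap c r t ∈ sphere c r := fun t => circleMap_mem_sphere c hr.le t
  have hder : ∀ t : ℝ, HasDerivAt f ((circleMap 0 r t * Complex.I) *
      ((p' (circleMap c r t) * q (circleMap c r t) - p (circleMap c r t) * q' (circleMap c r t)) /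
        q (circleMap c r t) ^ 2)) t := by
    intro t
    have h1 := hp _ (sphere_subset_closedBall (hsph t))
    have h2 := hq _ (sphere_subset_closedBall (hsph t))
    have h3 := h1.div h2 (h _ (hsph t)).1
    have h4 := h3.scomp t (hasDerivAt_circleMap c r t)
    rw [smul_eq_mul] at h4
    exact h4
  have hbd : ∀ t : ℝ, ‖(circleMap 0 r t * Complex.I) *
      ((p' (circleMap c r t) * q (circleMap c r t) - p (circleMap c r t) * q' (circleMap c r t)) /
        q (circleMap c r t) ^ 2)‖ ≤ r * η := by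
    intro t
    obtain ⟨h1, h2⟩ := h _ (hsph t)
    rw [norm_mul, norm_mul, Complex.norm_I, mul_one, norm_circleMap_zero, abs_of_pos hr,
      norm_div, norm_pow]
    refine mul_le_mul_of_nonneg_left ?_ hr.le
    have h3 : 0 < ‖q (circleMap c r t)‖ := norm_pos_iff.2 h1
    rw [div_le_iff₀ (by positivity)]
    exact h2
  have hclose : ∀ z ∈ sphere c r, ‖p z / q z - f 0‖ ≤ 2 * π * r * η := by
    intro z hz
    have h1 : z ∈ circleMap c r '' Ioc 0 (2 * π) := by
      rw [image_circleMap_Ioc, abs_of_pos hr]; exact hz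
    obtain ⟨t, ht, rfl⟩ := h1
    have h2 := Convex.norm_image_sub_le_of_norm_hasDerivWithin_le (s := (univ : Set ℝ))
      (x := 0) (y := t) (C := r * η) (fun x _ => (hder x).hasDerivWithinAt)
      (fun x _ => hbd x) convex_univ (mem_univ _) (mem_univ _)
    refine h2.trans ?_
    rw [sub_zero, Real.norm_eq_abs, abs_of_pos ht.1]
    have h3 : 0 ≤ r * η := by positivity
    calc r * η * t ≤ r * η * (2 * π) := mul_le_mul_of_nonneg_left ht.2 h3
      _ = _ := by ring
  refine ⟨f 0, hclose, ?_⟩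
  have hd : DifferentiableOn ℂ (fun z => p z - f 0 * q z) (closedBall c r) := by
    intro z hz
    exact ((hp z hz).sub ((hq z hz).const_mul (f 0))).differentiableAt.differentiableWithinAt
  have hdc : DiffContOnCl ℂ (fun z => p z - f 0 * q z) (ball c r) :=
    hd.diffContOnCl_ball le_rfl
  refine Complex.norm_le_of_forall_mem_frontier_norm_le isBounded_ball hdc (fun z hz => ?_)
    (subset_closure (mem_ball_self hr))
  rw [frontier_ball c hr.ne'] at hz
  have h1 := hclose z hz
  have h2 := (h z hz).1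
  have h3 : p z - f 0 * q z = q z * (p z / q z - f 0) := by field_simp
  rw [h3, norm_mul]
  have h4 := hB z hz
  exact mul_le_mul h4 h1 (norm_nonneg _) ((norm_nonneg _).trans h4)

lemma ev_mul {F I : Type} [Field F] [Algebra F ℂ] (g : I → ℂ → ℂ) (z : ℂ) (P Q : DP F I) :
    ev g z (P * Q) = ev g z P * ev g z Q := map_mul _ _ _

lemma ev_sub {F I : Type} [Field F] [Algebra F ℂ] (g : I → ℂ → ℂ) (z : ℂ) (P Q : DP F I) :
    ev g z (P - Q) = ev g z P - ev g z Q := map_sub _ _ _

end s7x

theorem s7_proof (h1 : S_Gx) (h2 : NF.S_ev) (h3 : S_GB) : S_s7 := by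
  intro F I _ _ _ g a b c r hconf hcen hrad P Q hQ ht del hdel
  obtain ⟨K, hK0, hK⟩ := h3 F I Q
  obtain ⟨kap, hkap, htt⟩ := hrad.tt
  set e : ℝ := del * kap / 4 with he
  have he0 : 0 < e := by positivity
  have hUF : UF ≤ atTop := Nat.hyperfilter_le_atTop
  obtain ⟨N1, hN1⟩ := exists_nat_ge (8 * K + 2)
  obtain ⟨N2, hN2⟩ := exists_nat_ge (4 / (del * kap))
  filter_upwards [ht, hrad.lower Q hQ (1 / 4) (by norm_num), hcen.lower Q hQ e he0,
    hcen.upper P e he0, htt, hUF (eventually_ge_atTop (max 3 (max N1 N2)))]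
    with n ht hlQ hcQ hcP htt hn
  have hn3 : 3 ≤ n := le_trans (le_max_left _ _) hn
  have hnN1 : N1 ≤ n := le_trans ((le_max_left _ _).trans (le_max_right _ _)) hn
  have hnN2 : N2 ≤ n := le_trans ((le_max_right _ _).trans (le_max_right _ _)) hn
  have hn3' : (3 : ℝ) ≤ n := by exact_mod_cast hn3
  have hn1' : 8 * K + 2 ≤ (n : ℝ) := hN1.trans (by exact_mod_cast hnN1)
  have hn2' : 4 / (del * kap) ≤ (n : ℝ) := hN2.trans (by exact_mod_cast hnN2)
  have hhol := hconf.hol n
  have hb := hconf.hb n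
  have hab := hconf.hab n
  have ha := hconf.ha n
  have hbig := hconf.big n
  have hc := hcen.hc n
  have hr1 := hrad.h1 n
  have hr2 := hrad.h2 n
  obtain ⟨-, -, -, hM0, hMs, hMt, -⟩ := h1 I (g n) hhol
  have h64 : (64 : ℝ) ≤ ((n : ℝ) + 1) ^ 3 := by
    calc (64 : ℝ) = (3 + 1) ^ 3 := by norm_num
      _ ≤ _ := by gcongr
  have hba : b n * 64 ≤ a n := (mul_le_mul_of_nonneg_left h64 hb.le).trans hab
  have ha0 : 0 < a n := by linarith
  have hr0 : 0 < r n := by linarith
  -- the growth at various radii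
  have hMb : Gx (g n) (b n) ≤ Gx (g n) (a n / 16) :=
    hMt (b n) (a n / 16) hb.le (by linarith) (by linarith)
  have hMa : Gx (g n) (a n / 16) ≤ Gx (g n) (a n) :=
    hMt (a n / 16) (a n) (by linarith) (by linarith) (by linarith)
  set M : ℝ := Gx (g n) (a n) with hM
  set M16 : ℝ := Gx (g n) (a n / 16) with hM16
  have hb1 : b n ≤ 1 := by linarith
  have hlogb : 0 ≤ Real.log (1 / b n) := Real.log_nonneg (by rw [le_div_iff₀ hb]; linarith)
  have hMn : (n : ℝ) * (1 + Real.log (1 / b n)) ≤ M16 := hbig.trans hMb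
  have hMn1 : (n : ℝ) ≤ M16 := by nlinarith
  have hMl : 1 + Real.log (1 / b n) ≤ M16 := by nlinarith
  have hM1 : 1 ≤ M := by linarith
  have hMpos : 0 < M := by linarith
  -- the ball
  have hball : ∀ z ∈ closedBall (c n) (r n), ‖z‖ ≤ 3 * a n / 4 := by
    intro z hz
    rw [mem_closedBall, dist_eq_norm] at hz
    calc ‖z‖ = ‖(z - c n) + c n‖ := by rw [sub_add_cancel]
      _ ≤ ‖z - c n‖ + ‖c n‖ := norm_add_le _ _
      _ ≤ _ := by linarith
  have hin : ∀ z ∈ closedBall (c n) (r n), z ∈ ball (0 : ℂ) 1 := by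
    intro z hz
    rw [mem_ball_zero_iff]
    have := hball z hz
    linarith
  have hQB : ∀ z ∈ sphere (c n) (r n), ‖ev (g n) z Q‖ ≤ Real.exp (4 * K * M) := by
    intro z hz
    have h4 := hK (g n) hhol 0 (3 * a n / 4) (a n) M (by linarith)
      (fun w hw => by
        rw [mem_closedBall_zero_iff] at hw
        rw [mem_ball_zero_iff]; linarith) hMpos.le
      (fun w hw => by
        rw [mem_closedBall_zero_iff] at hw
        exact hMs (a n) w (by linarith) hw) z
      (by rw [mem_closedBall_zero_iff]; exact hball z (sphere_subset_closedBall hz))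
    refine h4.trans (Real.exp_le_exp.2 ?_)
    have e1 : Real.log (1 / (a n - 3 * a n / 4)) ≤ 2 + Real.log (1 / b n) := by
      have e2 : 1 / (a n - 3 * a n / 4) ≤ 3 * (1 / b n) := by
        rw [div_le_iff₀ (by linarith)]
        have e3 : 3 * (1 / b n) * (a n - 3 * a n / 4) = 3 * a n / (4 * b n) := by
          field_simp; ring
        rw [e3, le_div_iff₀ (by positivity)]
        linarith
      calc Real.log (1 / (a n - 3 * a n / 4)) ≤ Real.log (3 * (1 / b n)) :=
            Real.log_le_log (by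
              have : 0 < a n - 3 * a n / 4 := by linarith
              positivity) e2
        _ = Real.log 3 + Real.log (1 / b n) := Real.log_mul (by norm_num) (by positivity)
        _ ≤ _ := by
          have := Real.log_le_sub_one_of_pos (show (0 : ℝ) < 3 by norm_num)
          linarith
    have e4 : 1 + M + Real.log (1 / (a n - 3 * a n / 4)) ≤ 4 * M := by linarith
    calc K * (1 + M + Real.log (1 / (a n - 3 * a n / 4))) ≤ K * (4 * M) :=
          mul_le_mul_of_nonneg_left e4 hK0
      _ = _ := by ring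
  set η : ℝ := Real.exp (-((n : ℝ) * M / 2)) with hη
  have hη0 : 0 ≤ η := (Real.exp_pos _).le
  have hcirc := s7x.circ (p := fun z => ev (g n) z P) (q := fun z => ev (g n) z Q)
    (p' := fun z => ev (g n) z (dd P)) (q' := fun z => ev (g n) z (dd Q))
    (c := c n) (r := r n) (η := η) (B := Real.exp (4 * K * M)) hr0 hη0
    (fun z hz => h2 F I (g n) P (ball 0 1) isOpen_ball hhol z (hin z hz))
    (fun z hz => h2 F I (g n) Q (ball 0 1) isOpen_ball hhol z (hin z hz))
    (fun z hz => by
      have h4 := hlQ z hz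
      have h5 := ht z ((hball z (sphere_subset_closedBall hz)).trans (by linarith))
      rw [s7x.ev_sub, s7x.ev_mul, s7x.ev_mul] at h5
      refine ⟨norm_pos_iff.1 ((Real.exp_pos _).trans_le h4), h5.trans ?_⟩
      have h6 := pow_le_pow_left₀ (Real.exp_pos _).le h4 2
      rw [← Real.exp_nat_mul] at h6
      calc Real.exp (-((n : ℝ) * M)) = η * Real.exp (((2 : ℕ) : ℝ) * -(1 / 4 * ((n : ℝ) * M))) := by
            rw [hη, ← Real.exp_add]
            congr 1
            push_cast
            ring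
        _ ≤ _ := mul_le_mul_of_nonneg_left h6 hη0) hQB
  obtain ⟨l, hl1, hl2⟩ := hcirc
  have hpi : 2 * π * r n * η ≤ 2 * η := by
    have h4 := Real.pi_lt_four
    have h5 := Real.pi_pos
    have h6 : 2 * π * r n ≤ 2 := by nlinarith
    exact mul_le_mul_of_nonneg_right h6 hη0
  have hη1 : 2 * η ≤ 1 := by
    have h4 : (1 : ℝ) ≤ (n : ℝ) * M / 2 := by nlinarith
    have h5 : η ≤ Real.exp (-1) := Real.exp_le_exp.2 (by linarith)
    have h6 : Real.exp (-1) < 1 / 2 := by
      have := Real.exp_neg_one_lt_d9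
      linarith
    linarith
  have hη2 : Real.exp (4 * K * M) * (2 * η) ≤ 1 := by
    have h4 : 4 * K * M + -((n : ℝ) * M / 2) ≤ -1 := by nlinarith
    have h5 : Real.exp (4 * K * M) * η ≤ Real.exp (-1) := by
      rw [hη, ← Real.exp_add]
      exact Real.exp_le_exp.2 h4
    have h6 : Real.exp (-1) < 1 / 2 := by
      have := Real.exp_neg_one_lt_d9
      linarith
    linarith
  have hl3 : ‖ev (g n) (c n) P - l * ev (g n) (c n) Q‖ ≤ 1 :=
    (hl2.trans (mul_le_mul_of_nonneg_left hpi (Real.exp_pos _).le)).trans hη2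
  have hM160 : 0 ≤ M16 := hM0 _
  have hE1 : 1 ≤ Real.exp (e * M16) := Real.one_le_exp (by positivity)
  have hl : ‖l‖ ≤ 2 * Real.exp (2 * e * M16) := by
    have h4 : ‖l‖ * ‖ev (g n) (c n) Q‖ ≤ Real.exp (e * M16) + 1 := by
      rw [← norm_mul]
      calc ‖l * ev (g n) (c n) Q‖
          = ‖ev (g n) (c n) P - (ev (g n) (c n) P - l * ev (g n) (c n) Q)‖ := by
            congr 1; ring
        _ ≤ ‖ev (g n) (c n) P‖ + ‖ev (g n) (c n) P - l * ev (g n) (c n) Q‖ := norm_sub_le _ _
        _ ≤ _ := add_le_add hcP hl3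
    have h5 : ‖l‖ * Real.exp (-(e * M16)) ≤ 2 * Real.exp (e * M16) := by
      refine ((mul_le_mul_of_nonneg_left hcQ (norm_nonneg _)).trans h4).trans ?_
      linarith
    rw [Real.exp_neg, ← div_eq_mul_inv, div_le_iff₀ (Real.exp_pos _)] at h5
    refine h5.trans (le_of_eq ?_)
    rw [mul_assoc, ← Real.exp_add]
    congr 2; ring
  have hTT : 0 ≤ del * TT (g n) (c n) (r n) := by
    have : 0 ≤ kap * M16 := by positivity
    have h5 := this.trans htt
    positivity
  by_cases hint : CircleIntegrable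
      (fun z => Real.posLog (‖ev (g n) z P‖ / ‖ev (g n) z Q‖)) (c n) (r n)
  swap
  · rw [circleAverage.integral_undef hint]
    exact hTT
  have hfin : 2 + 2 * e * M16 ≤ del * TT (g n) (c n) (r n) := by
    have h4 : 4 ≤ del * kap * M16 := by
      rw [div_le_iff₀ (by positivity)] at hn2'
      calc (4 : ℝ) ≤ n * (del * kap) := hn2'
        _ ≤ M16 * (del * kap) := by gcongr
        _ = _ := by ring
    have h5 : 2 * e * M16 = del * kap * M16 / 2 := by rw [he]; ring
    have h6 : del * (kap * M16) ≤ del * TT (g n) (c n) (r n) :=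
      mul_le_mul_of_nonneg_left htt hdel.le
    rw [h5]
    linarith
  refine le_trans (circleAverage_mono_on_of_le_circle hint fun z hz => ?_) hfin
  rw [abs_of_pos hr0] at hz
  have h4 := hl1 z hz
  have h5 : ‖ev (g n) z P‖ / ‖ev (g n) z Q‖ ≤ 3 * Real.exp (2 * e * M16) := by
    rw [← norm_div]
    have h6 : 1 ≤ Real.exp (2 * e * M16) := Real.one_le_exp (by positivity)
    calc ‖ev (g n) z P / ev (g n) z Q‖ = ‖(ev (g n) z P / ev (g n) z Q - l) + l‖ := by
          rw [sub_add_cancel]
      _ ≤ ‖ev (g n) z P / ev (g n) z Q - l‖ + ‖l‖ := norm_add_le _ _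
      _ ≤ 1 + 2 * Real.exp (2 * e * M16) := add_le_add ((h4.trans hpi).trans hη1) hl
      _ ≤ _ := by linarith
  have h6 : (1 : ℝ) ≤ 3 * Real.exp (2 * e * M16) := by
    have h7 : 1 ≤ Real.exp (2 * e * M16) := Real.one_le_exp (by positivity)
    linarith
  calc Real.posLog (‖ev (g n) z P‖ / ‖ev (g n) z Q‖)
      ≤ Real.posLog (3 * Real.exp (2 * e * M16)) := posLog_le_posLog (by positivity) h5
    _ = Real.log (3 * Real.exp (2 * e * M16)) :=
        posLog_eq_log (by rw [abs_of_pos (by linarith)]; exact h6)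
    _ = Real.log 3 + 2 * e * M16 := by
        rw [Real.log_mul (by norm_num) (Real.exp_pos _).ne', Real.log_exp]
    _ ≤ 2 + 2 * e * M16 := by
        have := Real.log_le_sub_one_of_pos (show (0 : ℝ) < 3 by norm_num)
        linarith

end

end Pool.Agent.Work.MP_6d7a54_an.NM
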