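import Pool.Agent.Work.MP_6d7a54_an.NF.C_ACF
import Pool.Agent.Work.MP_6d7a54_an.NF.I_CL
import Pool.Agent.Work.MP_6d7a54_an.NF.I_DF
import Pool.Agent.Work.MP_6d7a54_an.NF.I_Diag
import Pool.Agent.Work.MP_6d7a54_an.NF.I_LD
import Pool.Agent.Work.MP_6d7a54_an.NF.I_RadF
import Pool.Agent.Work.MP_6d7a54_an.NF.I_Seid
import Pool.Agent.Work.MP_6d7a54_an.NF.I_AC
import Pool.Agent.Work.MP_6d7a54_an.NF.I_avg
import Pool.Agent.Work.MP_6d7a54_an.NF.I_ev
import Pool.Agent.Work.MP_6d7a54_an.NG.P_Wr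
import Pool.Agent.Work.MP_6d7a54_an.UP.I_PJ
import Pool.Agent.Work.MP_6d7a54_an.NM.I_Gx
import Pool.Agent.Work.MP_6d7a54_an.NM.I_Cvx
import Pool.Agent.Work.MP_6d7a54_an.NM.I_Base
import Pool.Agent.Work.MP_6d7a54_an.NM.I_Tau
import Pool.Agent.Work.MP_6d7a54_an.NM.I_Sel
import Pool.Agent.Work.MP_6d7a54_an.NM.I_Pow
import Pool.Agent.Work.MP_6d7a54_an.NM.I_Conf
import Pool.Agent.Work.MP_6d7a54_an.NM.I_GB
import Pool.Agent.Work.MP_6d7a54_an.NM.I_crit
import Pool.Agent.Work.MP_6d7a54_an.NM.I_ideal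
import Pool.Agent.Work.MP_6d7a54_an.NM.I_prime
import Pool.Agent.Work.MP_6d7a54_an.NM.I_Cen
import Pool.Agent.Work.MP_6d7a54_an.NM.I_T1
import Pool.Agent.Work.MP_6d7a54_an.NM.I_Har1
import Pool.Agent.Work.MP_6d7a54_an.NM.I_Har
import Pool.Agent.Work.MP_6d7a54_an.NM.I_Rad
import Pool.Agent.Work.MP_6d7a54_an.NM.I_Tinf
import Pool.Agent.Work.MP_6d7a54_an.NM.I_s1
import Pool.Agent.Work.MP_6d7a54_an.NM.I_s3
import Pool.Agent.Work.MP_6d7a54_an.NM.I_s7
import Pool.Agent.Work.MP_6d7a54_an.NM.I_s8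
import Pool.Agent.Work.MP_6d7a54_an.NM.I_dom
import Pool.Agent.Work.MP_6d7a54_an.NM.I_fin
import Pool.Agent.Work.MP_6d7a54_an.NM.I_lo
import Pool.Agent.Work.MP_6d7a54_an.NM.I_lo2
import Pool.Agent.Work.MP_6d7a54_an.NM.I_Nev
import Pool.Agent.Work.MP_6d7a54_an.NM.B_Wz
import Pool.Agent.Work.MP_6d7a54_an.NM.B_Min
import Pool.Agent.Work.MP_6d7a54_an.NM.B_Ld
import Pool.Agent.Work.MP_6d7a54_an.NM.B_Det
import Pool.Agent.Work.MP_6d7a54_an.NM.B_Div
import Pool.Agent.Work.MP_6d7a54_an.NM.B_Num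
import Pool.Agent.Work.MP_6d7a54_an.NM.B_Key
import Pool.Agent.Work.MP_6d7a54_an.NM.B_Alg
import Pool.Agent.Work.MP_6d7a54_an.NM.B_Gro
import Pool.Agent.Work.MP_6d7a54_an.NM.B_Nor
import Pool.Agent.Work.MP_6d7a54_an.NM.B_Bad
import Pool.Agent.Work.MP_6d7a54_an.NM.B_Dsc
import Pool.Agent.Work.MP_6d7a54_an.NM.B_Bnd
import Pool.Agent.Work.MP_6d7a54_an.NM.B_Fin

/-!
# Complements of sums of powers: assembly (MP_6d7a54_an, block NM)
-/

set_option autoImplicit false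

namespace Pool.Agent.Work.MP_6d7a54_an.NM

/-- the analytic theorem -/
theorem nev : S_Nev := by
  have hGx : S_Gx := Gx_proof
  have hCvx : S_Cvx := Cvx_proof hGx
  have hBase : S_Base := Base_proof hGx
  have hTau : S_Tau := Tau_proof hGx hCvx hBase
  have hConf : S_Conf := Conf_proof hGx hCvx hTau Sel_proof Pow_proof
  have hGB : S_GB := GB_proof hGx
  have hcrit : S_crit := crit_proof hGx
  have hideal : S_ideal := ideal_proof hGx NF.ev_proof hGB hcrit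
  have hprime : S_prime := prime_proof hGx hGB NF.CL_proof NF.avg_proof
  have hCen : S_Cen := Cen_proof NF.Diag_proof hGx hGB NF.CL_proof NF.avg_proof
  have hHar1 : S_Har1 := Har1_proof T1_proof UP.PJ_proof
  have hHar : S_Har := Har_proof hGx T1_proof hHar1
  have hRad : S_Rad := Rad_proof NF.Diag_proof hGx NF.ev_proof hGB hHar
    (NF.RadF_proof NF.CL_proof NF.LD_proof)
  have hTinf : S_Tinf := Tinf_proof hGx
  have hfin : S_fin := fin_proof hGx NF.ev_proof hideal hHar hTinf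
  have hlo : S_lo := lo_proof hGx NF.ev_proof
  exact Nev_proof hConf hideal hprime hCen hRad (s1_proof hGx) (s3_proof hGx NF.ev_proof)
    (s7_proof hGx NF.ev_proof hGB) (s8_proof hHar hTinf) hlo
    (lo2_proof hGx NF.ev_proof hfin hlo) (dom_proof NF.ev_proof hTinf)
    (NF.AC_proof NF.DF_proof NF.Seid_proof)

/-- discs in the complement of a sum of powers are bounded -/
theorem bounded : B_Bnd := by
  have hKey : B_Key := Key_pf (Det_pf Ld_pf) Div_pf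
  have hAlg : B_Alg := Alg_pf (Min_pf (Wz_pf NG.Wr_proof)) Num_pf hKey
  exact Bnd_pf nev hAlg Gro_pf (Bad_pf Gx_proof Nor_pf) (Dsc_pf NF.ACF_proof)

end Pool.Agent.Work.MP_6d7a54_an.NM
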