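import Pool.Agent.Work.MP_6d7a54_an.NM.Stmts

set_option autoImplicit false

namespace Pool.Agent.Work.MP_6d7a54_an.NM

open Filter Metric Set Topology
open Pool.Agent.Work.MP_6d7a54_an.NF (IsNev DP ev dd UF)

namespace s8x

lemma ev_X0 {F I : Type} [Field F] [Algebra F ℂ] (g : I → ℂ → ℂ) (z : ℂ) (l : I) :
    ev g z (MvPolynomial.X (l, 0) : DP F I) = g l z := by
  simp [ev]

lemma ev_one {F I : Type} [Field F] [Algebra F ℂ] (g : I → ℂ → ℂ) (z : ℂ) :
    ev g z (1 : DP F I) = 1 := by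
  simp [ev]

end s8x

open s8x in
/-- not everything is small -/
theorem s8_proof (h2 : S_Har) (h3 : S_Tinf) : S_s8 := by
  intro F I _ _ _ g a b c r hC hcen hR hsm
  have hle : ∀ n, b n ≤ a n := fun n => by
    have h := hC.hab n
    have hb := hC.hb n
    have : (1 : ℝ) ≤ ((n : ℝ) + 1) ^ 3 := one_le_pow₀ (by linarith [n.cast_nonneg (α := ℝ)])
    nlinarith
  set N : ℝ := (Fintype.card I : ℝ) with hN
  have hN0 : 0 ≤ N := Nat.cast_nonneg _
  set del : ℝ := 1 / (2 * (N + 1)) with hdel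
  have hdel0 : 0 < del := by positivity
  have e1 : ∀ᶠ n in UF, ∀ l, Real.circleAverage (fun z => Real.posLog
      (‖ev (g n) z (MvPolynomial.X (l, 0) : DP F I)‖ / ‖ev (g n) z (1 : DP F I)‖)) (c n) (r n)
      ≤ del * TT (g n) (c n) (r n) :=
    eventually_all.mpr fun l => hsm l del hdel0
  obtain ⟨n, hn1, hn2⟩ := (e1.and (h3 F I g a b c r hC hcen hR 1)).exists
  have hb := hC.hb n
  have ha0 : 0 < a n := hb.trans_le (hle n)
  have hr0 : 0 < r n := lt_of_lt_of_le (by linarith) (hR.h1 n)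
  have hs : closedBall (c n) (r n) ⊆ ball 0 1 := by
    intro z hz
    rw [mem_closedBall, dist_eq_norm] at hz
    rw [mem_ball, dist_zero_right]
    have hc := hcen.hc n
    have h2 := hR.h2 n
    have h3 := hC.ha n
    have h4 := hle n
    calc ‖z‖ = ‖(z - c n) + c n‖ := by rw [sub_add_cancel]
      _ ≤ ‖z - c n‖ + ‖c n‖ := norm_add_le _ _
      _ < 1 := by linarith
  have hTT := (h2 I (g n) (hC.hol n)).2.2.2.2 (c n) (r n) hr0 hs
  have hone : ∀ l, Real.circleAverage (fun z => Real.posLog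
      (‖ev (g n) z (MvPolynomial.X (l, 0) : DP F I)‖ / ‖ev (g n) z (1 : DP F I)‖)) (c n) (r n) =
      Real.circleAverage (fun z => Real.posLog ‖g n l z‖) (c n) (r n) := by
    intro l
    simp only [ev_X0, ev_one, norm_one, div_one]
  have hsum : TT (g n) (c n) (r n) ≤ ∑ _l : I, del * TT (g n) (c n) (r n) := by
    conv_lhs => rw [hTT]
    refine Finset.sum_le_sum fun l _ => ?_
    rw [← hone l]
    exact hn1 l
  rw [Finset.sum_const, Finset.card_univ, nsmul_eq_mul, ← hN] at hsum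
  have hhalf : N * (del * TT (g n) (c n) (r n)) ≤ 1 / 2 * TT (g n) (c n) (r n) := by
    have : N * del ≤ 1 / 2 := by
      rw [hdel, mul_one_div, div_le_div_iff₀ (by positivity) (by norm_num)]
      linarith
    nlinarith
  linarith

end Pool.Agent.Work.MP_6d7a54_an.NM
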