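import Pool.Agent.Work.MP_6d7a54_an.NM.Defs
import Pool.Agent.Work.MP_6d7a54_an.NG.Stmts
import Pool.Agent.Work.MP_6d7a54_an.NG.Hyp
import Pool.Agent.Work.MP_6d7a54_an.NF.StmtsC

/-!
# Complements of sums of powers: statements of the algebraic and geometric items (block NM, part B)
-/

namespace Pool.Agent.Work.MP_6d7a54_an.NM

open MvPolynomial Metric
open Pool.Agent.Work.MP_6d7a54_an.NF (IsNev)

noncomputable section

/-- Wronskian in a differential field -/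
def Wd {F L : Type} [Field F] [Field L] [Algebra F L] (D : Derivation F L L) {r : ℕ}
    (f : Fin r → L) : L :=
  (Matrix.of fun a j : Fin r => ((D : L → L)^[(a : ℕ)] (f j))).det

/-! ### Algebra -/

/-- [Wz] EASY (from `NG.S_Wr`). Vanishing Wronskian. PROOF. `NG.S_Wr` for the derivation
`D.restrictScalars ℤ` of `L` (same function, so the same matrix). -/
def B_Wz : Prop := ∀ (F L : Type) [Field F] [Field L] [Algebra F L] (D : Derivation F L L)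
  (r : ℕ) (f : Fin r → L), Wd D f = 0 →
  ∃ c : Fin r → L, c ≠ 0 ∧ (∀ j, D (c j) = 0) ∧ ∑ j, c j * f j = 0

/-- [Min] EASY-MEDIUM (from Wz). A minimal relation. PROOF. Consider the natural numbers `r` for
which there are an injective `e : Fin r → Fin M` and `mu : Fin r → L` with `D (mu j) = 0` and
`∑ j, mu j * f (e j) = 1`; `r = M` is one of them (`e = id`, `mu = 1`). Take the smallest
(`Nat.find`); `r ≠ 0` because an empty sum is `0 ≠ 1`, so `r = p + 1`. If `mu j0 = 0`, or if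
`Wd D (f ∘ e) = 0`, we get a relation with `p` terms, a contradiction: in the first case compose
with `Fin.succAbove j0` (`Fin.sum_univ_succAbove`); in the second case `B_Wz` gives constants `c`, not
all `0`, with `∑ c j * f (e j) = 0`; take `j0` with `c j0 ≠ 0` and replace `mu j` by
`mu j - mu j0 / c j0 * c j`, which is a constant (`D (x / y) = 0` if `D x = D y = 0`) and vanishes for
`j = j0`; now proceed as in the first case. -/
def B_Min : Prop := ∀ (F L : Type) [Field F] [Field L] [Algebra F L] (D : Derivation F L L)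
  (M : ℕ) (f : Fin M → L), ∑ i, f i = 1 →
  ∃ (p : ℕ) (e : Fin (p + 1) → Fin M) (mu : Fin (p + 1) → L), Function.Injective e ∧
    (∀ j, D (mu j) = 0 ∧ mu j ≠ 0) ∧ ∑ j, mu j * f (e j) = 1 ∧ Wd D (fun j => f (e j)) ≠ 0

/-- [Ld] EASY. Higher logarithmic derivatives. PROOF. Induction on `a`. If `D^a f = 0`, then
`D^(a+1) f = 0`. Otherwise `D^(a+1) f / f = (D (D^a f) / D^a f) * (D^a f / f)`, `IsNev.ld`. The second
point is `IsNev.dS`, the third follows from the second. -/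
def B_Ld : Prop := ∀ (F L : Type) [Field F] [Field L] [Algebra F L] (D : Derivation F L L)
  (S Sm : Subalgebra F L), IsNev D S Sm →
  (∀ (f : L) (a : ℕ), ((D : L → L)^[a] f) * f⁻¹ ∈ Sm) ∧
  (∀ (f : L) (a : ℕ), f ∈ S → (D : L → L)^[a] f ∈ S) ∧
  (∀ (f : L) (a : ℕ), f ∈ S → f⁻¹ ∈ S → ((D : L → L)^[a] f) * f⁻¹ ∈ S)

/-- [Det] EASY-MEDIUM (from Ld). Cartan's estimate for the Wronskian of the terms of a relation with
constant coefficients. PROOF. Let `w = Wd D f * (∏ i, f i)⁻¹`. (1) `w` is the determinant of the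
matrix `D^a (f i) * (f i)⁻¹` (`Matrix.det_mul_row` or `det_mul_column`: multiply column `i` by
`(f i)⁻¹`), all entries are in `Sm` (`B_Ld`), so `w ∈ Sm` (`Matrix.det_apply`, sums, signs and
products stay in the subalgebra). If moreover all `f i, (f i)⁻¹` are in `S`, the same argument gives
`w ∈ S`. (2) Since `D (mu i) = 0`, `D^a (mu i * f i) = mu i * D^a (f i)`, hence
`∑ i, mu i * D^a (f i) = D^a 1 = if a = 0 then 1 else 0`. Replacing column `j` of the matrix by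
`∑ i, mu i * column i` multiplies the determinant by `mu j` (`Matrix.det_updateCol_sum` or
`Matrix.det_updateCol_add_smul_self`, multilinearity), so `mu j * Wd D f` is the determinant of the
matrix `M` with column `j` equal to `(1, 0, .., 0)`. Dividing the other columns by `f i`:
`mu j * w * f j` is the determinant of a matrix with entries in `Sm` (column `j`: `0` and `1`), so
it is in `Sm`, and `(mu j)⁻¹ ∈ Sm` by `IsNev.const` (`D ((mu j)⁻¹) = 0`). So `w * f j ∈ Sm`. -/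
def B_Det : Prop := ∀ (F L : Type) [Field F] [Field L] [Algebra F L] (D : Derivation F L L)
  (S Sm : Subalgebra F L), IsNev D S Sm → ∀ (p : ℕ) (f mu : Fin (p + 1) → L),
  (∀ i, f i ≠ 0) → (∀ i, D (mu i) = 0 ∧ mu i ≠ 0) → ∑ i, mu i * f i = 1 →
  Wd D f * (∏ i, f i)⁻¹ ∈ Sm ∧ (∀ j, Wd D f * (∏ i, f i)⁻¹ * f j ∈ Sm) ∧
  ((∀ i, f i ∈ S ∧ (f i)⁻¹ ∈ S) → Wd D f * (∏ i, f i)⁻¹ ∈ S)

/-- [Div] EASY-MEDIUM. Divisibility of the Wronskian (products of `K` powers). PROOF. (1) For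
`v, q k ∈ S` and `a ≤ m k` for all `k` there is `s ∈ S` with
`D^a (v * ∏ k, q k ^ m k) = (∏ k, q k ^ (m k - a)) * s`: induction on `a`; if all `e k ≥ 1`, then
`D (∏ k, q k ^ e k) = (∏ k, q k ^ (e k - 1)) * s'` with `s' ∈ S` (induction on the finite product, or
`Derivation.leibniz_prod`-like formula: `s' = ∑ k, e k * D (q k) * ∏ l ≠ k, q l`; natural numbers are
in `S`). (2) For `j ∈ A` and `a ≤ p ≤ m j k`:
`D^a (f j) = (∏ k, q j k ^ (m j k - p)) * s a j` with `s a j ∈ S`; for `j ∉ A`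
`f j = v j ∈ S`, so `s a j = D^a (f j) ∈ S` (iterate `IsNev.dS`). Factor
`∏ k, q j k ^ (m j k - p)` out of the columns `j ∈ A` (`Matrix.det_mul_row`; the product over all `j`
of `if j ∈ A then .. else 1`), and the remaining determinant `H` is in `S`. -/
def B_Div : Prop := ∀ (F L : Type) [Field F] [Field L] [Algebra F L] (D : Derivation F L L)
  (S Sm : Subalgebra F L), IsNev D S Sm → ∀ (K p : ℕ) (f v : Fin (p + 1) → L)
  (q : Fin (p + 1) → Fin K → L) (m : Fin (p + 1) → Fin K → ℕ) (A : Finset (Fin (p + 1))),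
  (∀ j, f j = v j * ∏ k, q j k ^ m j k) →
  (∀ j, v j ∈ S) → (∀ j k, q j k ∈ S) → (∀ j, j ∉ A → ∀ k, q j k = 1) →
  (∀ j ∈ A, ∀ k, p ≤ m j k) →
  ∃ H ∈ S, Wd D f = H * ∏ j ∈ A, ∏ k, q j k ^ (m j k - p)

/-- [Num] EASY-MEDIUM (real numbers). PROOF. For `j ∈ A`: `N / m j ≤ N * ∑ < 1`, so `N < m j` and
`p ≤ m j`. Let `del = 1 - p * ∑_(j in A) 1 / m j > 0`, `Om` a natural number with
`card A ≤ Om * del`, `om j = ⌊Om * p / m j⌋ + 1` (floor in the natural numbers,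
`Om * p / m j`). Then `m j * om j > Om * p`, and `∑ om j ≤ ∑ (Om * p / m j + 1) ≤
Om * (1 - del) + card A ≤ Om`. -/
def B_Num : Prop := ∀ (p N : ℕ) (m : Fin (p + 1) → ℕ) (A : Finset (Fin (p + 1))), p ≤ N →
  (∀ j ∈ A, 1 ≤ m j) → (N : ℝ) * ∑ j ∈ A, 1 / (m j : ℝ) < 1 →
  (∀ j ∈ A, p ≤ m j) ∧ ∃ (Om : ℕ) (om : Fin (p + 1) → ℕ), ∑ j ∈ A, om j ≤ Om ∧
    ∀ j ∈ A, Om * p + 1 ≤ m j * om j

/-- [Key] MEDIUM (from Det, Div). PROOF. `w = Wd D f * (∏ j, f j)⁻¹ ≠ 0`; `w ∈ Sm`,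
`w * f j ∈ Sm` (`B_Det`). For `j ∈ A`, `Om p + 1 ≤ mu' j * om j` gives `mu' j ≥ 1`, so `m j k ≥ 1`
and `q j k ≠ 0`; for `j ∉ A`, `q j k = 1`. By `B_Div`,
`Wd D f = H * ∏_(j in A) ∏ k, q j k ^ (m j k - p)`, and
`∏ j, f j = (∏ j, v j) * ∏_(j in A) ∏ k, q j k ^ m j k`, so `w * ∏_(j in A) ∏ k, q j k ^ p = H1` with
`H1 = H * ∏ j, (v j)⁻¹ ∈ S`. Let `Z = w ^ Om * ∏_(j in A) f j ^ om j`. (1) `Z ∈ Sm`, since
`Z = w ^ (Om - ∑ om) * ∏_(j in A) (w * f j) ^ om j`. (2) `Z = H1 ^ Om * ∏_(j in A) (v j ^ om j *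
∏ k, q j k ^ (m j k * om j - Om * p))`: multiply by `(∏_(j in A) ∏ k, q j k ^ p) ^ Om ≠ 0`. So
`Z ∈ S`, and for `j0 ∈ A` and all `k0`, `Z = q j0 k0 * y` with `y ∈ S` (the exponent of `q j0 k0` is
at least `1` because `m j k ≥ mu' j`). (3) `Z ≠ 0`, so `Z⁻¹ ∈ S` (`IsNev.inv`) and
`(q j0 k0)⁻¹ = y * Z⁻¹ ∈ S`. Hence `(f j)⁻¹ = (v j)⁻¹ * ∏ k, ((q j k)⁻¹) ^ m j k ∈ S`
for all `j` (`q j k = 1` for `j ∉ A`), and `f j ∈ S`. (4) By the last point of `B_Det`, `w ∈ S`, so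
`w⁻¹ ∈ Sm` (`IsNev.inv`) and `f j = (w * f j) * w⁻¹ ∈ Sm`. -/
def B_Key : Prop := ∀ (F L : Type) [Field F] [Field L] [Algebra F L] (D : Derivation F L L)
  (S Sm : Subalgebra F L), IsNev D S Sm → ∀ (K p : ℕ) (f v mu : Fin (p + 1) → L)
  (q : Fin (p + 1) → Fin K → L) (m : Fin (p + 1) → Fin K → ℕ) (mu' : Fin (p + 1) → ℕ)
  (A : Finset (Fin (p + 1))), (∀ j, f j ≠ 0) →
  (∀ j, f j = v j * ∏ k, q j k ^ m j k) → (∀ j, v j ∈ S ∧ (v j)⁻¹ ∈ S) → (∀ j k, q j k ∈ S) →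
  (∀ j, j ∉ A → ∀ k, q j k = 1) → (∀ j ∈ A, ∀ k, mu' j ≤ m j k) → (∀ j ∈ A, p ≤ mu' j) →
  (∀ j, D (mu j) = 0 ∧ mu j ≠ 0) →
  ∑ j, mu j * f j = 1 → Wd D f ≠ 0 → ∀ (Om : ℕ) (om : Fin (p + 1) → ℕ),
  ∑ j ∈ A, om j ≤ Om → (∀ j ∈ A, Om * p + 1 ≤ mu' j * om j) → ∀ j, f j ∈ Sm

/-- [Alg] MEDIUM (from Min, Num, Key). THE ALGEBRAIC THEOREM. PROOF. Let `I1` be the set of the `i`
with `h i ∉ Sm` and suppose it is not empty. `kap = ∑_(i in I1) h i ≠ 0` (hypothesis), and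
`kap = 1 - ∑_(i not in I1) h i ∈ Sm`; all `h i ∈ S`, so `kap ∈ S`, and `kap⁻¹ ∈ S`, `kap⁻¹ ∈ Sm`
(`IsNev.inv`). Let `M = card I1`, `e1 : Fin M → Fin (N+1)` the enumeration of `I1`
(`Finset.orderEmbOfFin`), `f1 i = h (e1 i) * kap⁻¹`, `∑ i, f1 i = 1`. `B_Min` gives `p`, `e`, `mu`;
put `e2 = e1 ∘ e : Fin (p+1) → Fin (N+1)`, injective with values in `I1`, so `p ≤ N`
(`Fintype.card_le_of_injective`). `f j = f1 (e j) = v j * ∏ k, q (e2 j) k ^ m (e2 j) k`, with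
`v j = w (e2 j) * kap⁻¹` a unit of `S`; `A = {j | e2 j ∉ J}`;
`∑_(j in A) 1 / mu' (e2 j) ≤ ∑_(i not in J) 1 / mu' i` (`e2` is injective, the terms are nonnegative),
so `B_Num` applies to `mu' ∘ e2`. By `B_Key`, `f 0 ∈ Sm`, so `h (e2 0) = f 0 * kap ∈ Sm`, a
contradiction. -/
def B_Alg : Prop := ∀ (F L : Type) [Field F] [Field L] [Algebra F L] (D : Derivation F L L)
  (S Sm : Subalgebra F L), IsNev D S Sm → ∀ (N K : ℕ) (h w : Fin (N + 1) → L)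
  (q : Fin (N + 1) → Fin K → L) (m : Fin (N + 1) → Fin K → ℕ) (mu' : Fin (N + 1) → ℕ)
  (J : Finset (Fin (N + 1))), (∀ i, h i = w i * ∏ k, q i k ^ m i k) →
  (∀ i, w i ∈ S ∧ (w i)⁻¹ ∈ S) → (∀ i k, q i k ∈ S) → (∀ i ∈ J, ∀ k, q i k = 1) →
  (∀ i, i ∉ J → 1 ≤ mu' i ∧ ∀ k, mu' i ≤ m i k) →
  (N : ℝ) * ∑ i ∈ Jᶜ, 1 / (mu' i : ℝ) < 1 → ∑ i, h i = 1 →
  (∀ I : Finset (Fin (N + 1)), I.Nonempty → ∑ i ∈ I, h i ≠ 0) → ∀ i, h i ∈ Sm

/-! ### Geometry -/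

/-- [Gro] EASY (PORT of `PGeox.low` in `NG/P_Geo.lean`). Forms without common zero control the norm.
PROOF. The minimum of `∑ ‖eval w (G i)‖` on the unit sphere is positive; homogeneity. -/
def B_Gro : Prop := ∀ (n N D : ℕ) (G : Fin (N + 1) → MvPolynomial (Fin (n + 1)) ℂ), 1 ≤ D →
  (∀ i, (G i).IsHomogeneous D) → (∀ w : Fin (n + 1) → ℂ, (∀ i, eval w (G i) = 0) → w = 0) →
  ∃ K : ℝ, 1 ≤ K ∧ ∀ (w : Fin (n + 1) → ℂ) (B : ℝ), 1 ≤ B → (∀ i, ‖eval w (G i)‖ ≤ B) →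
    ‖w‖ ≤ K * B

/-- [Nor] EASY (PORT of `PGeox.disc` in `NG/P_Geo.lean`). Normalisation of a disc. PROOF. Let `l` be
a logarithm of `eval w Fm`, `lam = exp (-l / D)`; for a disc `f` let `L` be the holomorphic logarithm
of `eval (f z) Fm` on the unit ball with `L 0 = l` (`PGeox.logv`), `h z = exp (-L z / D)`. -/
def B_Nor : Prop := ∀ (n D : ℕ) (Fm : MvPolynomial (Fin (n + 1)) ℂ), 1 ≤ D →
  Fm.IsHomogeneous D → ∀ w : Fin (n + 1) → ℂ, eval w Fm ≠ 0 → ∃ lam : ℂ, lam ≠ 0 ∧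
  ∀ f : ℂ → Fin (n + 1) → ℂ, DifferentiableOn ℂ f (ball 0 1) →
    (∀ z ∈ ball (0 : ℂ) 1, eval (f z) Fm ≠ 0) → f 0 = w →
    ∃ h : ℂ → ℂ, DifferentiableOn ℂ h (ball 0 1) ∧ h 0 = lam ∧ (∀ z ∈ ball (0 : ℂ) 1, h z ≠ 0) ∧
      ∀ z ∈ ball (0 : ℂ) 1, eval (fun j => h z * f z j) Fm = 1

/-- [Bad] MEDIUM (PORT of `PGeox.data`, `PGeox.der_bound` and `Geo_proof` in `NG/P_Geo.lean`; from
Gx, Nor). Bad sequences of discs. PROOF. Discs `f_k` with `R_k ≥ k`, `h_k` from `B_Nor` (`Fm`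
divides a power of `X`, so `eval (f_k z) Fm ≠ 0`); `g k (some j) z = h_k z * f_k z j`,
`g k none z = 1 / eval (fun j => h_k z * f_k z j) X` (not zero by homogeneity: `h_k z ≠ 0`), with
values `lam * w j` and `1 / eval (fun j => lam * w j) X` at `0`. `big`: if `Gx (g k) rho < A`, then
`‖g k (some j) z‖ ≤ exp A` for `‖z‖ ≤ rho` (`S_Gx`), so `‖deriv (g k (some j)) 0‖ ≤ exp A / rho`
(Cauchy), and as in `PGeox.der_bound`
`‖lam‖ * R_k * ‖v i * w j - v j * w i‖ ≤ 2 ‖w‖ exp A / rho`, where `i, j` are such that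
`v i * w j - v j * w i ≠ 0` (`v` is no multiple of `w`); this bounds `R_k`, a contradiction for large
`k`. -/
def B_Bad : Prop := ∀ (n D dX e : ℕ) (X Fm : MvPolynomial (Fin (n + 1)) ℂ), 1 ≤ D →
  X.IsHomogeneous dX → Fm.IsHomogeneous D → Fm ∣ X ^ e → ∀ w v : Fin (n + 1) → ℂ, w ≠ 0 →
  eval w X ≠ 0 → (∀ c : ℂ, v ≠ c • w) →
  (∀ A : ℝ, ∃ (R : ℝ) (f : ℂ → Fin (n + 1) → ℂ) (c : ℂ), A ≤ R ∧
    DifferentiableOn ℂ f (ball 0 1) ∧ (∀ z ∈ ball (0 : ℂ) 1, eval (f z) X ≠ 0) ∧ f 0 = w ∧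
    deriv f 0 = (R : ℂ) • v + c • w) →
  ∃ (lam : ℂ) (c0 : Option (Fin (n + 1)) → ℂ) (g : ℕ → Option (Fin (n + 1)) → ℂ → ℂ), lam ≠ 0 ∧
    BadSeq c0 g ∧ (∀ k, ∀ z ∈ ball (0 : ℂ) 1, eval (fun j => g k (some j) z) Fm = 1 ∧
      eval (fun j => g k (some j) z) X * g k none z = 1) ∧
    ∀ j, c0 (some j) = lam * w j

/-- [Dsc] EASY (PORT of `PMainNx.descend` in `NG/P_MainN.lean`; from `NF.S_ACF`). Descent of the
coefficients of finitely many polynomials to a countable field. -/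
def B_Dsc : Prop := ∀ (ι : Type) [Fintype ι] (m : ℕ) (P : ι → MvPolynomial (Fin m) ℂ),
  ∃ (F : Type) (_ : Field F) (_ : Algebra F ℂ), Countable F ∧
    ∃ Q : ι → MvPolynomial (Fin m) F, ∀ a, map (algebraMap F ℂ) (Q a) = P a

/-- [Bnd] MEDIUM (from `S_Nev`, Alg, Gro, Bad, Dsc). Discs in the complement of a sum of powers are
bounded. PROOF. Suppose not, for given `w`, `v`: for every `A` there is a disc with `R > A`. `B_Bad`
with `Fm = ∑ i, G i` gives `lam`, `c0`, `g`. Write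
`U i * V i = X ^ e i`, and use `B_Dsc` to write `X`, `G i`, `U i`,
`V i`, `f i k` with coefficients in a countable field `F` (the polynomial identities descend since
`map (algebraMap F ℂ)` is injective; `P ↦ aeval w P` over `F` is `eval w` of the image, see
`PMainNx.aev`). `S_Nev` gives `L, D, S, Sm, phi : Option (Fin (n+1)) → L`; put
`x j = phi (some j)`, `y = phi none`. Relations (apply the third clause to
`rename some P - 1`, resp. `rename some P * X none - 1`): `aeval x (∑ G) = 1`,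
`aeval x X * y = 1`. So `aeval x (U i) * (aeval x (V i) * y ^ e i) = 1`: `aeval x (U i)` is a unit of
`S`. `h i = aeval x (G i) = aeval x (U i) * ∏ k, (aeval x (f i k)) ^ m i k`. For `I` nonempty
`∑_(i in I) h i ≠ 0` by the fourth clause: the value at `0` is
`lam ^ D * eval w (∑_(i in I) G i) ≠ 0`, the same for all `k` (hypothesis on `w`; `BadSeq.h0`).
`B_Alg` with the same `J`: `h i ∈ Sm` for all `i`. By `B_Gro` (with
`B = max 1 (max ‖G i (x)‖)`, so `posLog ‖x j‖ ≤ log K + ∑ posLog ‖G i (x)‖`) and the fifth clause with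
`P i = rename some (G i)`, `R = X (some j)`, `C = 1 + log K`: `x j ∈ Sm` for all `j`. So
`aeval x X ∈ S ∩ Sm`, and its inverse `y` is in `Sm` (`IsNev.inv`), which contradicts the last
clause. -/
def B_Bnd : Prop := ∀ (n N K D dX : ℕ) (X : MvPolynomial (Fin (n + 1)) ℂ)
  (G U : Fin (N + 1) → MvPolynomial (Fin (n + 1)) ℂ)
  (f : Fin (N + 1) → Fin K → MvPolynomial (Fin (n + 1)) ℂ) (m : Fin (N + 1) → Fin K → ℕ)
  (mu : Fin (N + 1) → ℕ) (J : Finset (Fin (N + 1))), 1 ≤ D →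
  X.IsHomogeneous dX → (∀ i, (G i).IsHomogeneous D) →
  (∀ w : Fin (n + 1) → ℂ, (∀ i, eval w (G i) = 0) → w = 0) →
  (∀ i, G i = U i * ∏ k, f i k ^ m i k) → (∀ i ∈ J, ∀ k, f i k = 1) →
  (∀ i, i ∉ J → 1 ≤ mu i ∧ ∀ k, mu i ≤ m i k) →
  (∀ i, ∃ e, U i ∣ X ^ e) → (∃ e, (∑ i, G i) ∣ X ^ e) →
  (N : ℝ) * ∑ i ∈ Jᶜ, 1 / (mu i : ℝ) < 1 →
  ∀ w : Fin (n + 1) → ℂ, w ≠ 0 → eval w X ≠ 0 →
  (∀ I : Finset (Fin (N + 1)), I.Nonempty → eval w (∑ i ∈ I, G i) ≠ 0) →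
  ∀ v : Fin (n + 1) → ℂ, (∀ c : ℂ, v ≠ c • w) →
  ∃ A : ℝ, ∀ (R : ℝ) (f : ℂ → Fin (n + 1) → ℂ) (c : ℂ),
    DifferentiableOn ℂ f (ball 0 1) → (∀ z ∈ ball (0 : ℂ) 1, eval (f z) X ≠ 0) →
    f 0 = w → deriv f 0 = (R : ℂ) • v + c • w → R ≤ A

/-- [Fin] EASY (from Bnd; PORT of the end of `NG/P_Many.lean`, `PManyx.pos_of_bound`,
`PManyx.cone_open`). THE THEOREM. PROOF. `Q = ∏ over the nonempty I of ∑_(i in I) G i`
(`Finset.univ.filter Finset.Nonempty`), homogeneous (`IsHomogeneous.prod`), not zero. -/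
def B_Fin : Prop := ∀ (n N K D dX : ℕ) (X : MvPolynomial (Fin (n + 1)) ℂ)
  (G U : Fin (N + 1) → MvPolynomial (Fin (n + 1)) ℂ)
  (f : Fin (N + 1) → Fin K → MvPolynomial (Fin (n + 1)) ℂ) (m : Fin (N + 1) → Fin K → ℕ)
  (mu : Fin (N + 1) → ℕ) (J : Finset (Fin (N + 1))), 1 ≤ D →
  X.IsHomogeneous dX → (∀ i, (G i).IsHomogeneous D) →
  (∀ w : Fin (n + 1) → ℂ, (∀ i, eval w (G i) = 0) → w = 0) →
  (∀ i, G i = U i * ∏ k, f i k ^ m i k) → (∀ i ∈ J, ∀ k, f i k = 1) →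
  (∀ i, i ∉ J → 1 ≤ mu i ∧ ∀ k, mu i ≤ m i k) →
  (∀ i, ∃ e, U i ∣ X ^ e) → (∃ e, (∑ i, G i) ∣ X ^ e) →
  (N : ℝ) * ∑ i ∈ Jᶜ, 1 / (mu i : ℝ) < 1 →
  (∀ I : Finset (Fin (N + 1)), I.Nonempty → ∑ i ∈ I, G i ≠ 0) →
  ∃ (Q : MvPolynomial (Fin (n + 1)) ℂ) (M : ℕ), Q ≠ 0 ∧ Q.IsHomogeneous M ∧
    ∀ w ∈ NG.complementCone X, eval w Q ≠ 0 → ∀ v : Fin (n + 1) → ℂ, (∀ c : ℂ, v ≠ c • w) →
      0 < NG.kobayashiRoyden (NG.complementCone X) w v

end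

end Pool.Agent.Work.MP_6d7a54_an.NM
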